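import Pool.Agent.SFC.Stm

/-!
# SFH: the definitions of SFC for an arbitrary finite group `H`

`GlG C H`: group-like objects `T h`, `h : H`.  `GalG K S H`: a special Frobenius algebra with an action of `H` by
automorphisms (`a (g * h)` is `a g` after `a h`) and `∑ g, a g = cn ≫ one`.  `GalFG K V H`: the properties of the functor
`V : x ↦ A x A` to the category of bimodules over such an algebra.
-/

set_option autoImplicit false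

noncomputable section

open CategoryTheory MonoidalCategory
open scoped BigOperators

namespace Pool.Agent.SFC

open Pool.Agent.NFG

universe v u v' u' w

/-- Objects `T a` with associative isomorphisms `T a ⊗ T b ≅ T (a * b)`. -/
structure GlG (C : Type u) [Category.{v} C] [Preadditive C] [MonoidalCategory C] (H : Type) [Group H] where
  T : H → C
  u : 𝟙_ C ≅ T 1
  m : ∀ a b c : H, a * b = c → (T a ⊗ T b ≅ T c)
  unitL : ∀ (a : H) (h : 1 * a = a), u.hom ▷ T a ≫ (m 1 a a h).hom = (λ_ (T a)).hom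
  unitR : ∀ (a : H) (h : a * 1 = a), T a ◁ u.hom ≫ (m a 1 a h).hom = (ρ_ (T a)).hom
  assoc : ∀ (a b c ab bc abc : H) (h1 : a * b = ab) (h2 : ab * c = abc) (h3 : b * c = bc) (h4 : a * bc = abc),
    (m a b ab h1).hom ▷ T c ≫ (m ab c abc h2).hom =
      (α_ (T a) (T b) (T c)).hom ≫ T a ◁ (m b c bc h3).hom ≫ (m a bc abc h4).hom
  ne : ∀ a : H, a ≠ 1 → ∀ f : 𝟙_ C ⟶ T a, f = 0

section

variable (K : Type w) [Field K] {C : Type u} [Category.{v} C] [Preadditive C] [Linear K C] [MonoidalCategory C]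

/-- A connected special Frobenius algebra with an action of the group `H` such that `∑ g, a g = cn ≫ one`. -/
structure GalG (S : SFrob C) (H : Type) [Group H] [Fintype H] where
  a : H → (S.A ⟶ S.A)
  a_one : a 1 = 𝟙 S.A
  a_mul : ∀ g h, a (g * h) = a h ≫ a g
  mul : ∀ g, (a g ⊗ₘ a g) ≫ S.mul = S.mul ≫ a g
  one : ∀ g, S.one ≫ a g = S.one
  cm : ∀ g, S.cm ≫ (a g ⊗ₘ a g) = a g ≫ S.cm
  cn : ∀ g, a g ≫ S.cn = S.cn
  sum : ∑ g, a g = S.cn ≫ S.one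
  orth : ∀ g, g ≠ 1 → S.cm ≫ S.A ◁ a g ≫ S.mul = 0
  conn : ∀ t : 𝟙_ C ⟶ S.A, ∃ c : K, t = c • S.one
  dim : S.one ≫ S.cn = (Fintype.card H : K) • 𝟙 (𝟙_ C)

variable {N : Type u'} [Category.{v'} N] [Preadditive N] [Linear K N] [MonoidalCategory N]

open Functor.LaxMonoidal Functor.OplaxMonoidal

/-- The properties of the functor `V : x ↦ A x A` from `C` to the category `N` of `A`-bimodules. -/
structure GalFG (V : C ⥤ N) [V.LaxMonoidal] [V.OplaxMonoidal] (H : Type) [Group H] [Fintype H] where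
  map_add : ∀ {x y : C} (f g : x ⟶ y), V.map (f + g) = V.map f + V.map g
  map_smul : ∀ {x y : C} (c : K) (f : x ⟶ y), V.map (c • f) = c • V.map f
  faithful : V.Faithful
  frob1 : ∀ x y z : C, δ V x y ▷ V.obj z ≫ (α_ _ _ _).hom ≫ V.obj x ◁ μ V y z =
    μ V (x ⊗ y) z ≫ V.map (α_ x y z).hom ≫ δ V x (y ⊗ z)
  frob2 : ∀ x y z : C, V.obj x ◁ δ V y z ≫ (α_ _ _ _).inv ≫ μ V x y ▷ V.obj z =
    μ V x (y ⊗ z) ≫ V.map (α_ x y z).inv ≫ δ V (x ⊗ y) z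
  card : ∀ x y : C, δ V x y ≫ μ V x y = (Fintype.card H : K) • 𝟙 (V.obj (x ⊗ y))
  sep : ε V ≫ η V = 𝟙 (𝟙_ N)
  retr : ∀ Z : N, ∃ (x : C) (i : Z ⟶ V.obj x) (p : V.obj x ⟶ Z), i ≫ p = 𝟙 Z
  avg : ∀ {x y : C} (T : V.obj x ⟶ V.obj y), ∃ f : x ⟶ y, av V T = V.map f
  /-- `N` is von Neumann regular -/
  reg : ∀ {Z W : N} (f : Z ⟶ W), ∃ g : W ⟶ Z, f ≫ g ≫ f = f
  end1 : ∀ f : 𝟙_ N ⟶ 𝟙_ N, ∃ c : K, f = c • 𝟙 (𝟙_ N)
  /-- the algebra in `C`, as an object -/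
  A : C
  VV : ∀ x y : C, Nonempty (V.obj x ⊗ V.obj y ≅ V.obj (x ⊗ (A ⊗ y)))
  HH : ∀ x y : C, Nonempty ((V.obj x ⟶ V.obj y) ≃ₗ[K] (x ⟶ A ⊗ (y ⊗ A)))
  neA : 𝟙 A ≠ 0
  /-- `A ⊗ A` is the direct sum of `|H|` copies of `A` -/
  jA : H → (A ⟶ A ⊗ A)
  pA : H → (A ⊗ A ⟶ A)
  jpA : ∀ a, jA a ≫ pA a = 𝟙 _
  orthA : ∀ a b, a ≠ b → jA a ≫ pA b = 0
  sumA : ∑ a, pA a ≫ jA a = 𝟙 (A ⊗ A)
  /-- `V 1` is the group algebra of the group-like objects `th.T g` of `N` -/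
  th : GlG N H
  k : ∀ g, th.T g ⟶ V.obj (𝟙_ C)
  j : ∀ g, V.obj (𝟙_ C) ⟶ th.T g
  kj : ∀ g, k g ≫ j g = 𝟙 _
  orth : ∀ g h, g ≠ h → k g ≫ j h = 0
  sum : ∑ g, j g ≫ k g = 𝟙 (V.obj (𝟙_ C))
  k_mul : ∀ g h gh (e : g * h = gh), (k g ⊗ₘ k h) ≫ aL V (𝟙_ C) = (th.m g h gh e).hom ≫ k gh
  k_one : ε V = th.u.hom ≫ k 1
  kη : ∀ g, g ≠ 1 → k g ≫ η V = 0

end

end Pool.Agent.SFC
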