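import Pool.Agent.SFH.Gfa

/-!
# SFH/Gfb: the functor `x ↦ A x A` for a cyclic Galois algebra `A` which is the sum of the objects `T a`
-/

set_option autoImplicit false

noncomputable section

open CategoryTheory MonoidalCategory
open scoped BigOperators

namespace Pool.Agent.SFC

open Pool.Agent.NFG Functor.LaxMonoidal Functor.OplaxMonoidal

universe v u w

/-- additive notation -/
def GlG.toGl {C : Type u} [Category.{v} C] [Preadditive C] [MonoidalCategory C] {n : ℕ}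
    (th : GlG C (Multiplicative (ZMod n))) : Gl C n where
  T a := th.T (Multiplicative.ofAdd a)
  u := th.u
  m a b c h := th.m (Multiplicative.ofAdd a) (Multiplicative.ofAdd b) (Multiplicative.ofAdd c) (by rw [← h]; rfl)
  unitL a _ := th.unitL (Multiplicative.ofAdd a) (one_mul _)
  unitR a _ := th.unitR (Multiplicative.ofAdd a) (mul_one _)
  assoc a b c ab bc abc h1 h2 h3 h4 := th.assoc (Multiplicative.ofAdd a) (Multiplicative.ofAdd b)
    (Multiplicative.ofAdd c) (Multiplicative.ofAdd ab) (Multiplicative.ofAdd bc) (Multiplicative.ofAdd abc)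
    (by rw [← h1]; rfl) (by rw [← h2]; rfl) (by rw [← h3]; rfl) (by rw [← h4]; rfl)
  ne a h f := th.ne (Multiplicative.ofAdd a) (fun h' => h (Multiplicative.ofAdd.injective h')) f

section

variable {K : Type w} [Field K] {C : Type u} [Category.{v} C] [Preadditive C] [Linear K C] [MonoidalCategory C]
  {S : SFrob C} {n : ℕ} [NeZero n]

/-- multiplicative notation -/
def Gal.toG (G : Gal K S n) : GalG K S (Multiplicative (ZMod n)) where
  a g := G.a g.toAdd
  a_one := G.zero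
  a_mul g h := by
    show G.a (g.toAdd + h.toAdd) = _
    rw [add_comm, G.add]
  mul g := G.mul _
  one g := G.one _
  cm g := G.cm _
  cn g := G.cn _
  sum := by
    rw [← G.sum]
    exact Fintype.sum_equiv Multiplicative.toAdd _ _ fun g => rfl
  orth g h := G.orth _ (fun h' => h (Multiplicative.toAdd.injective h'))
  conn := G.conn
  dim := by rw [Fintype.card_congr (Multiplicative.toAdd : Multiplicative (ZMod n) ≃ ZMod n), ZMod.card]; exact G.dim

theorem hom_unit_eq [MonoidalPreadditive C] [MonoidalLinear K C] (hc : ∀ t : 𝟙_ C ⟶ S.A, ∃ c : K, t = c • S.one)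
    (g : S.A ⟶ 𝟙_ C) : ∃ c : K, g = c • S.cn := by
  obtain ⟨c, h⟩ := hc (S.one ≫ S.cm ≫ S.A ◁ g ≫ (ρ_ S.A).hom)
  refine ⟨c, ?_⟩
  have h1 : S.cm ≫ S.A ◁ g ≫ (ρ_ S.A).hom =
      (ρ_ S.A).inv ≫ S.A ◁ (S.one ≫ S.cm ≫ S.A ◁ g ≫ (ρ_ S.A).hom) ≫ S.mul := by
    have h2 : S.cm = (ρ_ S.A).inv ≫ S.A ◁ S.one ≫ S.mul ≫ S.cm := by
      rw [← Category.assoc (S.A ◁ S.one), S.mul_one, Iso.inv_hom_id_assoc]
    have h3 := whisker_exchange S.mul g
    calc _ = (ρ_ S.A).inv ≫ S.A ◁ S.one ≫ (S.mul ≫ S.cm) ≫ S.A ◁ g ≫ (ρ_ S.A).hom := by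
          conv_lhs => rw [h2]
          simp only [Category.assoc]
      _ = (ρ_ S.A).inv ≫ S.A ◁ S.one ≫ S.A ◁ S.cm ≫ (α_ _ _ _).inv ≫ (S.mul ▷ S.A ≫ S.A ◁ g) ≫
            (ρ_ S.A).hom := by
          rw [S.frobL]
          simp only [Category.assoc]
      _ = _ := by
          rw [← h3]
          monoidal
  have h4 : g = (S.cm ≫ S.A ◁ g ≫ (ρ_ S.A).hom) ≫ S.cn := by
    have h3 := whisker_exchange S.cn g
    calc g = (S.cm ≫ S.cn ▷ S.A) ≫ (λ_ S.A).hom ≫ g := by rw [S.cn_cm, Iso.inv_hom_id_assoc]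
      _ = S.cm ≫ (S.cn ▷ S.A ≫ 𝟙_ C ◁ g) ≫ (λ_ _).hom := by
          rw [Category.assoc, Category.assoc, leftUnitor_naturality]
      _ = _ := by
          rw [← h3]
          simp only [Category.assoc]
          congr 2
          rw [unitors_equal, rightUnitor_naturality]
  rw [h4, h1, h, MonoidalLinear.whiskerLeft_smul, Linear.smul_comp, S.mul_one, Linear.comp_smul, Iso.inv_hom_id,
    Linear.smul_comp, Category.id_comp]

end

section

variable {K : Type w} [Field K] {C : Type u} [Category.{v} C] [Preadditive C] [Linear K C] [MonoidalCategory C]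
  [MonoidalPreadditive C] [MonoidalLinear K C] {S : SFrob C}

theorem IsSum.n_ne {ι : Type} [Fintype ι] [DecidableEq ι] (F : Fus K C ι) {n : ℕ} [NeZero n] {th : Gl C n}
    (hS : IsSum K th S) (hc : ∀ t : 𝟙_ C ⟶ S.A, ∃ c : K, t = c • S.one) : (n : K) ≠ 0 := by
  intro hn
  obtain ⟨c, h⟩ := hom_unit_eq hc (hS.q 0 ≫ th.u.inv)
  apply id_unit_ne F
  have h1 : S.one ≫ hS.q 0 ≫ th.u.inv = 𝟙 _ := by
    rw [hS.one, Category.assoc, ← Category.assoc (hS.i 0), hS.iq, Category.id_comp, Iso.hom_inv_id]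
  rw [← h1, h, Linear.comp_smul, hS.one, Category.assoc, hS.cn0, hn, zero_smul, smul_zero]

/-- the functor `x ↦ A x A` -/
def Gal.galF {ι : Type} [Fintype ι] [DecidableEq ι] (F : Fus K C ι) {n : ℕ} [NeZero n] {th : Gl C n}
    (hS : IsSum K th S) (Ga : Gal K S n) : GalF K (VF S) n where
  map_add f g := VF_add S f g
  map_smul c f := VF_smul S c f
  faithful := VF_faithful S Ga.dim (hS.n_ne F Ga.conn)
  frob1 := VF_frob1 S
  frob2 := VF_frob2 S
  card := VF_card S Ga.dim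
  sep := VF_sep S
  retr Z := bim_retr Z
  avg T := ⟨_, VF_avg S T⟩
  reg f := bim_reg (fun f => fus_reg F f) f
  end1 f := bim_end1 S Ga.conn f
  A := S.A
  VV x y := ⟨VFVV S x y⟩
  HH x y := ⟨VFHH S x y⟩
  thA := th
  iA := hS.i
  qA := hS.q
  iqA := hS.iq
  orthA := hS.orth
  sumA := hS.sum
  th := Ga.toG.th.toGl
  k g := Ga.toG.kG (Multiplicative.ofAdd g)
  j g := Ga.toG.qG (Multiplicative.ofAdd g)
  kj g := Ga.toG.kG_qG _
  orth _ _ h := Ga.toG.kG_qG_ne (fun h' => h (Multiplicative.ofAdd.injective h'))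
  sum := (Fintype.sum_equiv Multiplicative.ofAdd (fun g : ZMod n =>
    Ga.toG.qG (Multiplicative.ofAdd g) ≫ Ga.toG.kG (Multiplicative.ofAdd g)) (fun g => Ga.toG.qG g ≫ Ga.toG.kG g)
    fun _ => rfl).trans Ga.toG.sum_qG_kG
  k_mul g h gh e := Ga.toG.kG_mul _ _ _ (by rw [← e]; rfl)
  k_one := Ga.toG.k_one
  kη _ h := Ga.toG.kG_vT (fun h' => h (Multiplicative.ofAdd.injective h'))

theorem exists_galF {ι : Type} [Fintype ι] [DecidableEq ι] (F : Fus K C ι) {n : ℕ} [NeZero n] {th : Gl C n}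
    {S : SFrob C} (hS : IsSum K th S) (Ga : Gal K S n) : ∃ G : GalF K (VF S) n, Nonempty (G.A ≅ S.A) :=
  ⟨Ga.galF F hS, ⟨Iso.refl _⟩⟩

end

end Pool.Agent.SFC
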