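import Pool.Agent.SFH.DeEq
import Pool.Agent.SFC.DefsG

/-!
# SFH/Conv: multiplicative and additive notation

`GlG.toH`, `GalFG.toH`: the same data with the group `Additive H`.  `GalG.toH`, `GalH.toG`: Galois algebras (the action
is composed with the inversion of the group).
-/

set_option autoImplicit false

noncomputable section

open CategoryTheory MonoidalCategory
open scoped BigOperators

namespace Pool.Agent.SFC

open Pool.Agent.NFG

universe v u v' u' w

/-- additive notation -/
def GlG.toH {C : Type u} [Category.{v} C] [Preadditive C] [MonoidalCategory C] {H : Type} [Group H] (th : GlG C H) :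
    GlH C (Additive H) where
  T a := th.T a.toMul
  u := th.u
  m a b c h := th.m a.toMul b.toMul c.toMul (by rw [← h]; rfl)
  unitL a _ := th.unitL a.toMul (one_mul _)
  unitR a _ := th.unitR a.toMul (mul_one _)
  assoc a b c ab bc abc h1 h2 h3 h4 := th.assoc a.toMul b.toMul c.toMul ab.toMul bc.toMul abc.toMul
    (by rw [← h1]; rfl) (by rw [← h2]; rfl) (by rw [← h3]; rfl) (by rw [← h4]; rfl)
  ne a h f := th.ne a.toMul (fun h' => h (by rw [← ofMul_toMul a, h']; rfl)) f

section

variable {K : Type w} [Field K] {C : Type u} [Category.{v} C] [Preadditive C] [Linear K C] [MonoidalCategory C]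

/-- additive notation: `a' g = a g⁻¹` -/
def GalG.toH {S : SFrob C} {H : Type} [Group H] [Fintype H] (G : GalG K S H) : GalH K S (Additive H) where
  a g := G.a g.toMul⁻¹
  zero := by
    show G.a (1 : H)⁻¹ = _
    rw [inv_one, G.a_one]
  add g h := by
    show G.a (g.toMul * h.toMul)⁻¹ = _
    rw [mul_inv_rev, G.a_mul]
  mul g := G.mul _
  one g := G.one _
  cm g := G.cm _
  cn g := G.cn _
  sum := by
    rw [← G.sum]
    exact Fintype.sum_equiv (Additive.toMul.trans (Equiv.inv H)) _ _ fun g => rfl
  orth g h := G.orth _ (fun h' => h (by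
    have h2 : g.toMul = 1 := inv_eq_one.1 h'
    rw [← ofMul_toMul g, h2]; rfl))
  conn := G.conn
  dim := by rw [Fintype.card_congr (Additive.toMul : Additive H ≃ H)]; exact G.dim

/-- multiplicative notation: `a' g = a (-g)` -/
def GalH.toG {S : SFrob C} {Γ : Type} [AddGroup Γ] [Fintype Γ] (G : GalH K S Γ) : GalG K S (Multiplicative Γ) where
  a g := G.a (-g.toAdd)
  a_one := by
    show G.a (-(0 : Γ)) = _
    rw [neg_zero, G.zero]
  a_mul g h := by
    show G.a (-(g.toAdd + h.toAdd)) = _
    rw [neg_add_rev, G.add]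
  mul g := G.mul _
  one g := G.one _
  cm g := G.cm _
  cn g := G.cn _
  sum := by
    rw [← G.sum]
    exact Fintype.sum_equiv (Multiplicative.toAdd.trans (Equiv.neg Γ)) _ _ fun g => rfl
  orth g h := G.orth _ (fun h' => h (by
    have h2 : g.toAdd = 0 := neg_eq_zero.1 h'
    rw [← ofAdd_toAdd g, h2]; rfl))
  conn := G.conn
  dim := by rw [Fintype.card_congr (Multiplicative.toAdd : Multiplicative Γ ≃ Γ)]; exact G.dim

variable {N : Type u'} [Category.{v'} N] [Preadditive N] [Linear K N] [MonoidalCategory N]

/-- additive notation -/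
def GalFG.toH {V : C ⥤ N} [V.LaxMonoidal] [V.OplaxMonoidal] {H : Type} [Group H] [Fintype H] (G : GalFG K V H) :
    GalFH K V (Additive H) where
  map_add := G.map_add
  map_smul := G.map_smul
  faithful := G.faithful
  frob1 := G.frob1
  frob2 := G.frob2
  card x y := by rw [Fintype.card_congr (Additive.toMul : Additive H ≃ H)]; exact G.card x y
  sep := G.sep
  retr := G.retr
  avg := G.avg
  reg := G.reg
  end1 := G.end1
  A := G.A
  VV := G.VV
  HH := G.HH
  iA a := G.jA a.toMul
  qA a := G.pA a.toMul
  iqA a := G.jpA _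
  orthA a b h := G.orthA _ _ (fun h' => h (Additive.toMul.injective h'))
  sumA := by
    rw [← G.sumA]
    exact Fintype.sum_equiv Additive.toMul _ _ fun g => rfl
  th := G.th.toH
  k g := G.k g.toMul
  j g := G.j g.toMul
  kj g := G.kj _
  orth g h e := G.orth _ _ (fun h' => e (Additive.toMul.injective h'))
  sum := by
    rw [← G.sum]
    exact Fintype.sum_equiv Additive.toMul _ _ fun g => rfl
  k_mul g h gh e := G.k_mul _ _ _ (by rw [← e]; rfl)
  k_one := G.k_one
  kη g h := G.kη _ (fun h' => h (Additive.toMul.injective h'))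

end

end Pool.Agent.SFC
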