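import Pool.Agent.SFH.Defs

/-!
# SFH/DeEq: de-equivariantizations by the regular algebra of a finite group

`DeEqG K F H`: `F : C ⥤ D` is the de-equivariantization of `C` by the Galois algebra `S` (with group `H`) with a
half-braiding `cen`; `t : F S.A ⟶ 𝟙` is a character, `F S.A` is the direct sum of copies of `𝟙` indexed by `H`, with the
projections `F (a h) ≫ t` and the inclusions `s ≫ F (a h⁻¹)`.
-/

set_option autoImplicit false

noncomputable section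

open CategoryTheory MonoidalCategory
open scoped BigOperators

namespace Pool.Agent.SFC

open Pool.Agent.NFG

universe v u v' u' w

variable (K : Type w) [Field K] {C : Type u} [Category.{v} C] [Preadditive C] [Linear K C] [MonoidalCategory C]
  {D : Type u'} [Category.{v'} D] [Preadditive D] [Linear K D] [MonoidalCategory D]

open Functor.LaxMonoidal Functor.OplaxMonoidal

/-- `F : C ⥤ D` is the de-equivariantization of `C` by the Galois algebra `S` with group `H` and half-braiding `cen`. -/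
structure DeEqG (F : C ⥤ D) [F.Monoidal] (H : Type) [Group H] [Fintype H] where
  map_add : ∀ {x y : C} (f g : x ⟶ y), F.map (f + g) = F.map f + F.map g
  map_smul : ∀ {x y : C} (c : K) (f : x ⟶ y), F.map (c • f) = c • F.map f
  S : SFrob C
  gal : GalG K S H
  t : F.obj S.A ⟶ 𝟙_ D
  s : 𝟙_ D ⟶ F.obj S.A
  t_one : F.map S.one ≫ t = η F
  t_mul : F.map S.mul ≫ t = δ F _ _ ≫ (t ⊗ₘ t) ≫ (λ_ (𝟙_ D)).hom
  st : s ≫ t = 𝟙 _
  orth : ∀ h : H, h ≠ 1 → s ≫ F.map (gal.a h) ≫ t = 0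
  sum : ∑ h : H, F.map (gal.a h) ≫ t ≫ s ≫ F.map (gal.a h⁻¹) = 𝟙 (F.obj S.A)
  /-- the half-braiding -/
  cen : ∀ x : C, x ⊗ S.A ≅ S.A ⊗ x
  F_cen : ∀ (h : H) (x : C), F.map (cen x).hom ≫ δ F _ _ ≫ (F.map (gal.a h) ≫ t) ▷ F.obj x ≫ (λ_ _).hom =
    δ F _ _ ≫ F.obj x ◁ (F.map (gal.a h) ≫ t) ≫ (ρ_ _).hom
  hom : ∀ (x y : C) (h : F.obj x ⟶ F.obj y), ∃! f : x ⟶ S.A ⊗ y,
    F.map f ≫ δ F _ _ ≫ t ▷ F.obj y ≫ (λ_ _).hom = h
  dom : ∀ Z : D, ∃ (x : C) (i : Z ⟶ F.obj x) (p : F.obj x ⟶ Z), i ≫ p = 𝟙 Z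

end Pool.Agent.SFC
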