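import Pool.Agent.SFC.Stm

/-!
# SFH/EqA: the category of equivariant objects

`EqO A`: the category of objects of `D` with an equivariant structure for the action `A` of `G` on `D`; it is a monoidal
category, with the tensor product of `D`; `EqO.fg A : EqO A ⥤ D` is the forgetful functor.
-/

set_option autoImplicit false

noncomputable section

open CategoryTheory MonoidalCategory

namespace Pool.Agent.SFC

open Pool.Agent.NFG

universe v u v' u' w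

open Functor.LaxMonoidal Functor.OplaxMonoidal

variable {K : Type w} [Field K] {G : Type} [Group G] {D : Type u'} [Category.{v'} D] [Preadditive D] [Linear K D]
  [MonoidalCategory D]

/-- Equivariant objects. -/
structure EqO (A : Act K G D) where
  Z : D
  z : ∀ g, (A.T g).obj Z ⟶ Z
  z_one : A.one.hom.app Z ≫ z 1 = 𝟙 Z
  z_mul : ∀ (g h gh : G) (e : g * h = gh), (A.T g).map (z h) ≫ z g = (A.comp g h gh e).hom.app Z ≫ z gh

namespace EqO

variable {A : Act K G D}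

/-- Equivariant maps. -/
@[ext] structure Hom (M N : EqO A) where
  f : M.Z ⟶ N.Z
  w : ∀ g, (A.T g).map f ≫ N.z g = M.z g ≫ f

instance cat (A : Act K G D) : Category (EqO A) where
  Hom := Hom
  id M := ⟨𝟙 M.Z, fun g => by rw [(A.T g).map_id, Category.id_comp, Category.comp_id]⟩
  comp f g := ⟨f.f ≫ g.f, fun h => by
    rw [(A.T h).map_comp, Category.assoc, g.w, ← Category.assoc, f.w, Category.assoc]⟩
  id_comp f := Hom.ext (Category.id_comp _)
  comp_id f := Hom.ext (Category.comp_id _)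
  assoc f g h := Hom.ext (Category.assoc _ _ _)

@[simp] theorem comp_f {M N P : EqO A} (f : M ⟶ N) (g : N ⟶ P) : Hom.f (f ≫ g) = Hom.f f ≫ Hom.f g := rfl

@[simp] theorem id_f (M : EqO A) : Hom.f (𝟙 M) = 𝟙 M.Z := rfl

theorem hom_ext {M N : EqO A} {f g : M ⟶ N} (h : Hom.f f = Hom.f g) : f = g := Hom.ext h

/-- the forgetful functor -/
def fg (A : Act K G D) : EqO A ⥤ D where
  obj M := M.Z
  map f := Hom.f f

instance (A : Act K G D) : (fg A).Faithful := ⟨fun h => hom_ext h⟩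

theorem fg_map {M N : EqO A} (f : M ⟶ N) : (fg A).map f = Hom.f f := rfl
theorem fg_obj (M : EqO A) : (fg A).obj M = M.Z := rfl

/-- an isomorphism of `D` which is equivariant -/
def mkIso {M N : EqO A} (e : M.Z ≅ N.Z) (h : ∀ g, (A.T g).map e.hom ≫ N.z g = M.z g ≫ e.hom) : M ≅ N where
  hom := ⟨e.hom, h⟩
  inv := ⟨e.inv, fun g => by
    rw [← cancel_epi ((A.T g).map e.hom), ← Category.assoc, ← (A.T g).map_comp, e.hom_inv_id, (A.T g).map_id,
      Category.id_comp, ← Category.assoc, h, Category.assoc, e.hom_inv_id, Category.comp_id]⟩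
  hom_inv_id := hom_ext e.hom_inv_id
  inv_hom_id := hom_ext e.inv_hom_id

/-! ### the linear structure -/

instance (M N : EqO A) : Zero (M ⟶ N) := ⟨⟨0, fun g => by
  have h : (A.T g).map (0 : M.Z ⟶ N.Z) = 0 := by
    have := A.map_smul g (0 : K) (0 : M.Z ⟶ N.Z)
    rwa [zero_smul, zero_smul] at this
  rw [h, Limits.zero_comp, Limits.comp_zero]⟩⟩

instance (M N : EqO A) : Add (M ⟶ N) := ⟨fun f g => ⟨Hom.f f + Hom.f g, fun h => by
  rw [A.map_add, Preadditive.add_comp, Preadditive.comp_add, f.w, g.w]⟩⟩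

instance (M N : EqO A) : SMul K (M ⟶ N) := ⟨fun c f => ⟨c • Hom.f f, fun h => by
  rw [A.map_smul, Linear.smul_comp, Linear.comp_smul, f.w]⟩⟩

instance (M N : EqO A) : Neg (M ⟶ N) := ⟨fun f => ⟨-Hom.f f, fun h => by
  have h1 : (A.T h).map (-Hom.f f) = -(A.T h).map (Hom.f f) := by
    have := A.map_smul h (-1 : K) (Hom.f f)
    rwa [neg_one_smul, neg_one_smul] at this
  rw [h1, Preadditive.neg_comp, Preadditive.comp_neg, f.w]⟩⟩

@[simp] theorem zero_f (M N : EqO A) : Hom.f (0 : M ⟶ N) = 0 := rfl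
@[simp] theorem add_f {M N : EqO A} (f g : M ⟶ N) : Hom.f (f + g) = Hom.f f + Hom.f g := rfl
@[simp] theorem smul_f {M N : EqO A} (c : K) (f : M ⟶ N) : Hom.f (c • f) = c • Hom.f f := rfl
@[simp] theorem neg_f {M N : EqO A} (f : M ⟶ N) : Hom.f (-f) = -Hom.f f := rfl

instance (M N : EqO A) : AddCommGroup (M ⟶ N) where
  add_assoc _ _ _ := hom_ext (add_assoc _ _ _)
  zero_add _ := hom_ext (zero_add _)
  add_zero _ := hom_ext (add_zero _)
  nsmul := nsmulRec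
  zsmul := zsmulRec
  neg_add_cancel _ := hom_ext (neg_add_cancel _)
  add_comm _ _ := hom_ext (add_comm _ _)

instance (M N : EqO A) : Module K (M ⟶ N) where
  one_smul _ := hom_ext (one_smul _ _)
  mul_smul _ _ _ := hom_ext (mul_smul _ _ _)
  smul_zero _ := hom_ext (smul_zero _)
  smul_add _ _ _ := hom_ext (smul_add _ _ _)
  add_smul _ _ _ := hom_ext (add_smul _ _ _)
  zero_smul _ := hom_ext (zero_smul _ _)

instance pre (A : Act K G D) : Preadditive (EqO A) where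
  add_comp _ _ _ _ _ _ := hom_ext (Preadditive.add_comp _ _ _ _ _ _)
  comp_add _ _ _ _ _ _ := hom_ext (Preadditive.comp_add _ _ _ _ _ _)

instance lin (A : Act K G D) : Linear K (EqO A) where
  smul_comp _ _ _ _ _ _ := hom_ext (Linear.smul_comp _ _ _ _ _ _)
  comp_smul _ _ _ _ _ _ := hom_ext (Linear.comp_smul _ _ _ _ _ _)

instance (A : Act K G D) : (fg A).Additive := ⟨rfl⟩

/-! ### the monoidal structure -/

theorem one_ten (A : Act K G D) (Z W : D) : A.one.hom.app (Z ⊗ W) ≫ δ (A.T 1) Z W =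
    A.one.hom.app Z ⊗ₘ A.one.hom.app W := by
  have h := A.one_mon.tensor Z W
  simp only [Functor.LaxMonoidal.id_μ, Category.id_comp] at h
  have h2 := congrArg (· ≫ δ (A.T 1) Z W) h
  simp only [Category.assoc, Functor.Monoidal.μ_δ, Category.comp_id] at h2
  exact h2

theorem one_unit (A : Act K G D) : A.one.hom.app (𝟙_ D) ≫ η (A.T 1) = 𝟙 _ := by
  have h := A.one_mon.unit
  simp only [Functor.LaxMonoidal.id_ε, Category.id_comp] at h
  rw [h, Functor.Monoidal.ε_η]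
  rfl

theorem comp_ten (A : Act K G D) (g h gh : G) (e : g * h = gh) (Z W : D) :
    (A.comp g h gh e).hom.app (Z ⊗ W) ≫ δ (A.T gh) Z W = (A.T g).map (δ (A.T h) Z W) ≫ δ (A.T g) _ _ ≫
      ((A.comp g h gh e).hom.app Z ⊗ₘ (A.comp g h gh e).hom.app W) := by
  have h1 := (A.comp_mon g h gh e).tensor Z W
  rw [Functor.LaxMonoidal.comp_μ] at h1
  have h2 := congrArg (fun t => (A.T g).map (δ (A.T h) Z W) ≫ δ (A.T g) _ _ ≫ t ≫ δ (A.T gh) Z W) h1
  simp only [Category.assoc, Functor.Monoidal.μ_δ, Category.comp_id, Functor.Monoidal.δ_μ_assoc] at h2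
  rw [← (A.T g).map_comp_assoc, Functor.Monoidal.δ_μ, (A.T g).map_id, Category.id_comp] at h2
  exact h2

theorem comp_unit (A : Act K G D) (g h gh : G) (e : g * h = gh) :
    (A.comp g h gh e).hom.app (𝟙_ D) ≫ η (A.T gh) = (A.T g).map (η (A.T h)) ≫ η (A.T g) := by
  have h1 := (A.comp_mon g h gh e).unit
  rw [Functor.LaxMonoidal.comp_ε] at h1
  have h2 := congrArg (fun t => (A.T g).map (η (A.T h)) ≫ η (A.T g) ≫ t ≫ η (A.T gh)) h1
  simp only [Category.assoc, Functor.Monoidal.ε_η, Category.comp_id, Functor.Monoidal.η_ε_assoc] at h2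
  rw [← (A.T g).map_comp_assoc, Functor.Monoidal.η_ε, (A.T g).map_id, Category.id_comp] at h2
  exact h2

/-- the tensor product -/
@[reducible] def ten (M N : EqO A) : EqO A where
  Z := M.Z ⊗ N.Z
  z g := δ (A.T g) M.Z N.Z ≫ (M.z g ⊗ₘ N.z g)
  z_one := by
    rw [← Category.assoc, one_ten, tensorHom_comp_tensorHom, M.z_one, N.z_one]
    exact id_tensorHom_id _ _
  z_mul g h gh e := by
    rw [(A.T g).map_comp, Category.assoc, ← Category.assoc ((A.T g).map (M.z h ⊗ₘ N.z h)),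
      ← Functor.OplaxMonoidal.δ_natural, Category.assoc, tensorHom_comp_tensorHom, M.z_mul g h gh e, N.z_mul g h gh e,
      ← Category.assoc ((A.comp g h gh e).hom.app (M.Z ⊗ N.Z)), comp_ten, Category.assoc, Category.assoc,
      tensorHom_comp_tensorHom]

/-- the unit object -/
@[reducible] def unt (A : Act K G D) : EqO A where
  Z := 𝟙_ D
  z g := η (A.T g)
  z_one := one_unit A
  z_mul g h gh e := (comp_unit A g h gh e).symm

theorem wten {M M' N N' : EqO A} (f : M ⟶ M') (f' : N ⟶ N') (g : G) :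
    (A.T g).map (Hom.f f ⊗ₘ Hom.f f') ≫ (ten M' N').z g = (ten M N).z g ≫ (Hom.f f ⊗ₘ Hom.f f') := by
  show (A.T g).map (Hom.f f ⊗ₘ Hom.f f') ≫ δ (A.T g) M'.Z N'.Z ≫ (M'.z g ⊗ₘ N'.z g) =
    (δ (A.T g) M.Z N.Z ≫ (M.z g ⊗ₘ N.z g)) ≫ (Hom.f f ⊗ₘ Hom.f f')
  rw [← Category.assoc, ← Functor.OplaxMonoidal.δ_natural, Category.assoc, tensorHom_comp_tensorHom, f.w, f'.w,
    Category.assoc, tensorHom_comp_tensorHom]

theorem wal (M N P : EqO A) (g : G) : (A.T g).map (α_ M.Z N.Z P.Z).hom ≫ (ten M (ten N P)).z g =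
    (ten (ten M N) P).z g ≫ (α_ M.Z N.Z P.Z).hom := by
  show (A.T g).map (α_ M.Z N.Z P.Z).hom ≫ δ (A.T g) M.Z (N.Z ⊗ P.Z) ≫ (M.z g ⊗ₘ (δ (A.T g) N.Z P.Z ≫ (N.z g ⊗ₘ P.z g))) =
    (δ (A.T g) (M.Z ⊗ N.Z) P.Z ≫ ((δ (A.T g) M.Z N.Z ≫ (M.z g ⊗ₘ N.z g)) ⊗ₘ P.z g)) ≫ (α_ M.Z N.Z P.Z).hom
  have h1 : (M.z g ⊗ₘ (δ (A.T g) N.Z P.Z ≫ (N.z g ⊗ₘ P.z g))) =
      (A.T g).obj M.Z ◁ δ (A.T g) N.Z P.Z ≫ (M.z g ⊗ₘ (N.z g ⊗ₘ P.z g)) := by
    rw [← id_tensorHom, tensorHom_comp_tensorHom, Category.id_comp]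
  have h2 : ((δ (A.T g) M.Z N.Z ≫ (M.z g ⊗ₘ N.z g)) ⊗ₘ P.z g) =
      δ (A.T g) M.Z N.Z ▷ (A.T g).obj P.Z ≫ ((M.z g ⊗ₘ N.z g) ⊗ₘ P.z g) := by
    rw [← tensorHom_id, tensorHom_comp_tensorHom, Category.id_comp]
  rw [h1, h2, Category.assoc, Category.assoc, associator_naturality]
  have h3 := Functor.OplaxMonoidal.associativity (F := A.T g) M.Z N.Z P.Z
  simp only [← Category.assoc] at h3 ⊢
  rw [h3]

theorem wla (M : EqO A) (g : G) : (A.T g).map (λ_ M.Z).hom ≫ M.z g = (ten (unt A) M).z g ≫ (λ_ M.Z).hom := by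
  show (A.T g).map (λ_ M.Z).hom ≫ M.z g = (δ (A.T g) (𝟙_ D) M.Z ≫ (η (A.T g) ⊗ₘ M.z g)) ≫ (λ_ M.Z).hom
  have h3 := Functor.OplaxMonoidal.left_unitality (F := A.T g) M.Z
  have h4 : δ (A.T g) (𝟙_ D) M.Z ≫ η (A.T g) ▷ (A.T g).obj M.Z = (A.T g).map (λ_ M.Z).hom ≫ (λ_ _).inv := by
    rw [h3, ← (A.T g).map_comp_assoc, Iso.hom_inv_id, (A.T g).map_id, Category.id_comp]
  rw [MonoidalCategory.tensorHom_def, Category.assoc, Category.assoc, ← Category.assoc (δ (A.T g) (𝟙_ D) M.Z), h4]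
  simp

theorem wra (M : EqO A) (g : G) : (A.T g).map (ρ_ M.Z).hom ≫ M.z g = (ten M (unt A)).z g ≫ (ρ_ M.Z).hom := by
  show (A.T g).map (ρ_ M.Z).hom ≫ M.z g = (δ (A.T g) M.Z (𝟙_ D) ≫ (M.z g ⊗ₘ η (A.T g))) ≫ (ρ_ M.Z).hom
  have h3 := Functor.OplaxMonoidal.right_unitality (F := A.T g) M.Z
  have h4 : δ (A.T g) M.Z (𝟙_ D) ≫ (A.T g).obj M.Z ◁ η (A.T g) = (A.T g).map (ρ_ M.Z).hom ≫ (ρ_ _).inv := by
    rw [h3, ← (A.T g).map_comp_assoc, Iso.hom_inv_id, (A.T g).map_id, Category.id_comp]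
  rw [MonoidalCategory.tensorHom_def', Category.assoc, Category.assoc, ← Category.assoc (δ (A.T g) M.Z (𝟙_ D)), h4]
  simp

instance mons (A : Act K G D) : MonoidalCategoryStruct (EqO A) where
  tensorObj := ten
  whiskerLeft M N N' f := ⟨M.Z ◁ Hom.f f, fun g => by
    have h := wten (𝟙 M) f g
    rw [id_f, id_tensorHom] at h
    exact h⟩
  whiskerRight {M M'} f N := ⟨Hom.f f ▷ N.Z, fun g => by
    have h := wten f (𝟙 N) g
    rw [id_f, tensorHom_id] at h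
    exact h⟩
  tensorHom f f' := ⟨Hom.f f ⊗ₘ Hom.f f', wten f f'⟩
  tensorUnit := unt A
  associator M N P := mkIso (α_ M.Z N.Z P.Z) (wal M N P)
  leftUnitor M := mkIso (λ_ M.Z) (wla M)
  rightUnitor M := mkIso (ρ_ M.Z) (wra M)

/-- the forgetful functor preserves the monoidal structure -/
def ifd (A : Act K G D) : Monoidal.InducingFunctorData (fg A) where
  μIso M N := Iso.refl _
  εIso := Iso.refl _
  whiskerLeft_eq M _ _ f := by
    show M.Z ◁ Hom.f f = 𝟙 _ ≫ (M.Z ◁ Hom.f f) ≫ 𝟙 _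
    simp
  whiskerRight_eq f N := by
    show Hom.f f ▷ N.Z = 𝟙 _ ≫ (Hom.f f ▷ N.Z) ≫ 𝟙 _
    simp
  tensorHom_eq f g := by
    show Hom.f f ⊗ₘ Hom.f g = 𝟙 _ ≫ (Hom.f f ⊗ₘ Hom.f g) ≫ 𝟙 _
    simp
  associator_eq M N P := by
    show (α_ M.Z N.Z P.Z).hom = (((𝟙 _ ≫ (𝟙 _ ⊗ₘ 𝟙 _)) ≫ (α_ M.Z N.Z P.Z).hom ≫ ((𝟙 _ ⊗ₘ 𝟙 _) ≫ 𝟙 _)))
    simp
  leftUnitor_eq M := by
    show (λ_ M.Z).hom = ((𝟙 _ ≫ (𝟙 _ ⊗ₘ 𝟙 _)) ≫ (λ_ M.Z).hom)
    simp
  rightUnitor_eq M := by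
    show (ρ_ M.Z).hom = ((𝟙 _ ≫ (𝟙 _ ⊗ₘ 𝟙 _)) ≫ (ρ_ M.Z).hom)
    simp

instance monc (A : Act K G D) : MonoidalCategory (EqO A) := Monoidal.induced (fg A) (ifd A)

instance fgm (A : Act K G D) : (fg A).Monoidal := Monoidal.fromInducedMonoidal (fg A) (ifd A)

end EqO

end Pool.Agent.SFC
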