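import Pool.Agent.SFH.EqBb
import Pool.Agent.SFC.BGb
import Pool.Agent.SFC.BFa
import Pool.Agent.SFC.E1i

/-!
# SFH/EqB: properties of the category of equivariant objects

* `monp`, `monl`: the tensor product is linear;
* `exists_ind`: the coinduced object `⨁ g, T g W` (compare `SFC/E1g`);
* `exists_fusE`: from `exists_fus` (`SFC/BGb`): `Reg`, the finite family of the coinduced objects of the simple objects
  of `D`;
* `SFH/EqBa`: `eqvE`: `fg A` is the forgetful functor of an equivariantization;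
* `SFH/EqBb`: `idem`, `bip`, `reg`.
-/

set_option autoImplicit false

noncomputable section

open CategoryTheory MonoidalCategory
open scoped BigOperators

namespace Pool.Agent.SFC

open Pool.Agent.NFG

universe v u v' u' w

open Functor.LaxMonoidal Functor.OplaxMonoidal

variable {K : Type w} [Field K] {G : Type} [Group G] {D : Type u'} [Category.{v'} D] [Preadditive D] [Linear K D]
  [MonoidalCategory D]

namespace EqO

instance monp [MonoidalPreadditive D] (A : Act K G D) : MonoidalPreadditive (EqO A) where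
  whiskerLeft_zero {M N P} := by
    apply hom_ext
    show M.Z ◁ (0 : N.Z ⟶ P.Z) = 0
    simp
  zero_whiskerRight {M N P} := by
    apply hom_ext
    show (0 : N.Z ⟶ P.Z) ▷ M.Z = 0
    simp
  whiskerLeft_add {M N P} f g := by
    apply hom_ext
    show M.Z ◁ (Hom.f f + Hom.f g) = M.Z ◁ Hom.f f + M.Z ◁ Hom.f g
    rw [MonoidalPreadditive.whiskerLeft_add]
  add_whiskerRight {M N P} f g := by
    apply hom_ext
    show (Hom.f f + Hom.f g) ▷ M.Z = Hom.f f ▷ M.Z + Hom.f g ▷ M.Z
    rw [MonoidalPreadditive.add_whiskerRight]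

instance monl [MonoidalPreadditive D] [MonoidalLinear K D] (A : Act K G D) : MonoidalLinear K (EqO A) where
  whiskerLeft_smul M {N P} r f := by
    apply hom_ext
    show M.Z ◁ (r • Hom.f f) = r • (M.Z ◁ Hom.f f)
    rw [MonoidalLinear.whiskerLeft_smul]
  smul_whiskerRight r {N P} f M := by
    apply hom_ext
    show (r • Hom.f f) ▷ M.Z = r • (Hom.f f ▷ M.Z)
    rw [MonoidalLinear.smul_whiskerRight]

section ind

variable [Fintype G] [Limits.HasFiniteBiproducts D] (A : Act K G D) (W : D)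

/-- the direct sum of the translates of `W` -/
def iY : D := ⨁ fun g : G => (A.T g).obj W

/-- the projections -/
def iπ (g : G) : iY A W ⟶ (A.T g).obj W := Limits.biproduct.π (fun g : G => (A.T g).obj W) g

theorem i_ext {X : D} {f f' : X ⟶ iY A W} (h : ∀ g, f ≫ iπ A W g = f' ≫ iπ A W g) : f = f' :=
  Limits.biproduct.hom_ext _ _ h

/-- the equivariant structure -/
def iz (h : G) : (A.T h).obj (iY A W) ⟶ iY A W :=
  Limits.biproduct.lift fun k => (A.T h).map (iπ A W (h⁻¹ * k)) ≫
    (A.comp h (h⁻¹ * k) k (mul_inv_cancel_left h k)).hom.app W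

theorem izπ (h g k : G) (e : h * g = k) :
    iz A W h ≫ iπ A W k = (A.T h).map (iπ A W g) ≫ (A.comp h g k e).hom.app W := by
  obtain rfl : g = h⁻¹ * k := by rw [← e, inv_mul_cancel_left]
  exact Limits.biproduct.lift_π _ _

theorem iz_one : A.one.hom.app (iY A W) ≫ iz A W 1 = 𝟙 _ := by
  apply i_ext
  intro k
  have h1 := A.one.hom.naturality (iπ A W k)
  have h2 := A.unitL k (one_mul k) W
  rw [Functor.id_map] at h1
  rw [Category.assoc, izπ A W 1 k k (one_mul k), ← reassoc_of% h1, Category.id_comp]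
  erw [h2]
  exact Category.comp_id _

theorem iz_mul (g h gh : G) (e : g * h = gh) :
    (A.T g).map (iz A W h) ≫ iz A W g = (A.comp g h gh e).hom.app (iY A W) ≫ iz A W gh := by
  apply i_ext
  intro k
  obtain ⟨m, hm⟩ : ∃ m, g * m = k := ⟨g⁻¹ * k, mul_inv_cancel_left g k⟩
  obtain ⟨l, hl⟩ : ∃ l, h * l = m := ⟨h⁻¹ * m, mul_inv_cancel_left h m⟩
  have hk : gh * l = k := by rw [← e, mul_assoc, hl, hm]
  have h1 := (A.comp g h gh e).hom.naturality (iπ A W l)
  have h2 := A.assoc g h l gh m k e hk hl hm W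
  rw [Functor.comp_map] at h1
  rw [Category.assoc, Category.assoc, izπ A W g m k hm, izπ A W gh l k hk, ← Functor.map_comp_assoc,
    izπ A W h l m hl, Functor.map_comp, Category.assoc, h2, reassoc_of% h1]

/-- the coinduced object -/
def ind : EqO A where
  Z := iY A W
  z := iz A W
  z_one := iz_one A W
  z_mul := iz_mul A W

/-- the map to the coinduced object -/
def lft (Z : EqO A) (f : Z.Z ⟶ W) : Z.Z ⟶ iY A W := Limits.biproduct.lift fun k => Z.zi k ≫ (A.T k).map f

theorem lftπ (Z : EqO A) (f : Z.Z ⟶ W) (k : G) : lft A W Z f ≫ iπ A W k = Z.zi k ≫ (A.T k).map f :=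
  Limits.biproduct.lift_π _ _

theorem lft_w (Z : EqO A) (f : Z.Z ⟶ W) (h : G) : (A.T h).map (lft A W Z f) ≫ iz A W h = Z.z h ≫ lft A W Z f := by
  apply i_ext
  intro k
  obtain ⟨l, hl⟩ : ∃ l, h * l = k := ⟨h⁻¹ * k, mul_inv_cancel_left h k⟩
  rw [Category.assoc, Category.assoc, lftπ, izπ A W h l k hl, ← Category.assoc, ← (A.T h).map_comp, lftπ,
    (A.T h).map_comp, Category.assoc, comp_nat, ← Category.assoc, map_zi, Category.assoc]

end ind

theorem exists_ind [Finite G] [Limits.HasFiniteBiproducts D] (A : Act K G D) (W : D) :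
    ∃ (M : EqO A) (r : M.Z ⟶ W), ∀ (Z : EqO A) (f : Z.Z ⟶ W), ∃ g : Z ⟶ M, Hom.f g ≫ r = f := by
  haveI : Fintype G := Fintype.ofFinite G
  refine ⟨ind A W, iπ A W 1 ≫ A.one.inv.app W, fun Z f => ⟨⟨lft A W Z f, lft_w A W Z f⟩, ?_⟩⟩
  show lft A W Z f ≫ iπ A W 1 ≫ A.one.inv.app W = f
  have h2 : (A.T 1).map f ≫ A.one.inv.app W = A.one.inv.app Z.Z ≫ f := A.one.inv.naturality f
  rw [← Category.assoc, lftπ, Category.assoc, h2, zi_one, ← Category.assoc]
  exact (congrArg (· ≫ f) (A.one.hom_inv_id_app Z.Z)).trans (Category.id_comp f)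

theorem exists_fusE [IsAlgClosed K] [CharZero K] [Finite G] [Limits.HasFiniteBiproducts D] [MonoidalPreadditive D]
    [MonoidalLinear K D] [IsIdempotentComplete D] (A : Act K G D) {ι : Type} [Fintype ι] [DecidableEq ι]
    (FD : Fus K D ι) : ∃ (ι' : Type) (_ : Fintype ι') (_ : DecidableEq ι'), Nonempty (Fus K (EqO A) ι') := by
  choose M r hr using fun i : ι => exists_ind A (FD.S i)
  refine exists_fus (K := K) (reg A ⟨fus_fd FD, fus_reg FD⟩) (fun a => M ((Fintype.equivFin ι).symm a))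
    (fun Z hZ => ?_) (fun h => fus_one_ne FD ?_) (fun f => ?_)
  · have h1 : 𝟙 Z.Z ≠ 0 := fun h => hZ (hom_ext h)
    obtain ⟨m, f, hf⟩ := fus_ne FD h1
    obtain ⟨g, hg⟩ := hr m Z f
    obtain ⟨a, rfl⟩ := (Fintype.equivFin ι).symm.surjective m
    refine ⟨a, g, fun h => hf ?_⟩
    rw [← hg, h]
    exact Limits.zero_comp
  · exact congrArg Hom.f h
  · obtain ⟨c, hc⟩ := fus_end1 FD (Hom.f f)
    exact ⟨c, hom_ext hc⟩

end EqO

end Pool.Agent.SFC
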