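import Pool.Agent.SFH.EqA

/-!
# SFH/EqBa: the forgetful functor of the category of equivariant objects

`zi g`: the inverse of `z g`; `eqvE`: `fg A` is the forgetful functor of an equivariantization.
-/

set_option autoImplicit false

noncomputable section

open CategoryTheory MonoidalCategory

namespace Pool.Agent.SFC

open Pool.Agent.NFG

universe v u v' u' w

open Functor.LaxMonoidal Functor.OplaxMonoidal

variable {K : Type w} [Field K] {G : Type} [Group G] {D : Type u'} [Category.{v'} D] [Preadditive D] [Linear K D]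
  [MonoidalCategory D]

namespace EqO

variable {A : Act K G D}

/-- the inverse of `z g` -/
def zi (M : EqO A) (g : G) : M.Z ⟶ (A.T g).obj M.Z :=
  A.one.hom.app M.Z ≫ (A.comp g g⁻¹ 1 (mul_inv_cancel g)).inv.app M.Z ≫ (A.T g).map (M.z g⁻¹)

theorem zi_z (M : EqO A) (g : G) : M.zi g ≫ M.z g = 𝟙 _ := by
  rw [zi, Category.assoc, Category.assoc, M.z_mul g g⁻¹ 1 (mul_inv_cancel g), Iso.inv_hom_id_app_assoc, M.z_one]

theorem z_zi (M : EqO A) (g : G) : M.z g ≫ M.zi g = 𝟙 _ := by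
  have h1 : M.z g ≫ A.one.hom.app M.Z = A.one.hom.app ((A.T g).obj M.Z) ≫ (A.T 1).map (M.z g) :=
    A.one.hom.naturality (M.z g)
  have h2 : (A.T 1).map (M.z g) ≫ (A.comp g g⁻¹ 1 (mul_inv_cancel g)).inv.app M.Z =
      (A.comp g g⁻¹ 1 (mul_inv_cancel g)).inv.app ((A.T g).obj M.Z) ≫ (A.T g).map ((A.T g⁻¹).map (M.z g)) :=
    (A.comp g g⁻¹ 1 (mul_inv_cancel g)).inv.naturality (M.z g)
  have h3 : (A.T g).map ((A.T g⁻¹).map (M.z g)) ≫ (A.T g).map (M.z g⁻¹) =
      (A.T g).map ((A.comp g⁻¹ g 1 (inv_mul_cancel g)).hom.app M.Z) ≫ (A.T g).map (M.z 1) := by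
    rw [← (A.T g).map_comp, M.z_mul g⁻¹ g 1 (inv_mul_cancel g), (A.T g).map_comp]
  have h4 := A.assoc g g⁻¹ g 1 1 g (mul_inv_cancel g) (one_mul g) (inv_mul_cancel g) (mul_one g) M.Z
  have h5 := A.unitL g (one_mul g) M.Z
  have h6 := A.unitR g (mul_one g) M.Z
  have h7 : (A.T g).map (A.one.hom.app M.Z) ≫ (A.T g).map (M.z 1) = 𝟙 ((A.T g).obj M.Z) := by
    rw [← (A.T g).map_comp, M.z_one]
    exact (A.T g).map_id _
  have h8 : (A.comp g g⁻¹ 1 (mul_inv_cancel g)).inv.app ((A.T g).obj M.Z) ≫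
      (A.T g).map ((A.comp g⁻¹ g 1 (inv_mul_cancel g)).hom.app M.Z) ≫ (A.comp g 1 g (mul_one g)).hom.app M.Z =
      (A.comp 1 g g (one_mul g)).hom.app M.Z := by
    rw [h4]
    exact Iso.inv_hom_id_app_assoc _ _ _
  have h9 : (A.T g).map (A.one.hom.app M.Z) = (A.comp g 1 g (mul_one g)).inv.app M.Z := by
    have h10 := congrArg (· ≫ (A.comp g 1 g (mul_one g)).inv.app M.Z) h6
    simp only [Category.assoc] at h10
    rw [Iso.hom_inv_id_app] at h10
    rw [Category.id_comp] at h10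
    exact (Category.comp_id _).symm.trans h10
  have h11 : (A.comp g g⁻¹ 1 (mul_inv_cancel g)).inv.app ((A.T g).obj M.Z) ≫
      (A.T g).map ((A.comp g⁻¹ g 1 (inv_mul_cancel g)).hom.app M.Z) =
      (A.comp 1 g g (one_mul g)).hom.app M.Z ≫ (A.T g).map (A.one.hom.app M.Z) := by
    rw [h9, ← h8]
    simp only [Category.assoc]
    rw [Iso.hom_inv_id_app]
    simp
  rw [zi, ← Category.assoc, h1, Category.assoc, ← Category.assoc ((A.T 1).map (M.z g)), h2, Category.assoc, h3,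
    ← Category.assoc ((A.comp g g⁻¹ 1 (mul_inv_cancel g)).inv.app ((A.T g).obj M.Z)), h11, Category.assoc, h7]
  exact (congrArg (A.one.hom.app ((A.T g).obj M.Z) ≫ ·) (Category.comp_id _)).trans h5

/-- `fg A` is the forgetful functor of an equivariantization -/
def eqvE (A : Act K G D) : Eqv K A (fg A) where
  map_add _ _ := rfl
  map_smul _ _ := rfl
  u g := NatIso.ofComponents (fun M => ⟨M.z g, M.zi g, M.z_zi g, M.zi_z g⟩) (fun f => f.w g)
  u_mon g := by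
    refine ⟨?_, fun M N => ?_⟩
    · show ε (fg A ⋙ A.T g) ≫ (unt A).z g = ε (fg A)
      rw [Functor.LaxMonoidal.comp_ε]
      show (ε (A.T g) ≫ (A.T g).map (𝟙 _)) ≫ η (A.T g) = 𝟙 _
      rw [(A.T g).map_id, Category.comp_id, Functor.Monoidal.ε_η]
    · show μ (fg A ⋙ A.T g) M N ≫ (ten M N).z g = (M.z g ⊗ₘ N.z g) ≫ μ (fg A) M N
      rw [Functor.LaxMonoidal.comp_μ]
      show (μ (A.T g) M.Z N.Z ≫ (A.T g).map (𝟙 _)) ≫ δ (A.T g) M.Z N.Z ≫ (M.z g ⊗ₘ N.z g) = (M.z g ⊗ₘ N.z g) ≫ 𝟙 _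
      rw [(A.T g).map_id, Category.comp_id, Functor.Monoidal.μ_δ_assoc, Category.comp_id]
  u_one M := M.z_one
  u_mul g h gh e M := M.z_mul g h gh e
  hom M N h hh := ⟨⟨h, hh⟩, rfl, fun f hf => hom_ext hf⟩
  ess Z z h1 hm := ⟨⟨Z, z, h1, hm⟩, Iso.refl _, fun g => by
    show (A.T g).map (𝟙 Z) ≫ z g = z g ≫ 𝟙 Z
    rw [(A.T g).map_id, Category.id_comp, Category.comp_id]⟩

end EqO

end Pool.Agent.SFC
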