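import Pool.Agent.SFH.EqBa
import Pool.Agent.SFC.BGa

/-!
# SFH/EqBb: idempotents, biproducts and regularity for equivariant objects
-/

set_option autoImplicit false

noncomputable section

open CategoryTheory MonoidalCategory
open scoped BigOperators

namespace Pool.Agent.SFC

open Pool.Agent.NFG

universe v u v' u' w

variable {K : Type w} [Field K] {G : Type} [Group G] {D : Type u'} [Category.{v'} D] [Preadditive D] [Linear K D]
  [MonoidalCategory D]

namespace EqO

variable {A : Act K G D}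

theorem one_nat (A : Act K G D) {X Y : D} (f : X ⟶ Y) : A.one.hom.app X ≫ (A.T 1).map f = f ≫ A.one.hom.app Y :=
  (A.one.hom.naturality f).symm

theorem comp_nat (A : Act K G D) {g h gh : G} (e : g * h = gh) {X Y : D} (f : X ⟶ Y) :
    (A.T g).map ((A.T h).map f) ≫ (A.comp g h gh e).hom.app Y = (A.comp g h gh e).hom.app X ≫ (A.T gh).map f :=
  (A.comp g h gh e).hom.naturality f

theorem map_zero' (A : Act K G D) (g : G) (X Y : D) : (A.T g).map (0 : X ⟶ Y) = 0 := by
  have := A.map_smul g (0 : K) (0 : X ⟶ Y)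
  rwa [zero_smul, zero_smul] at this

theorem map_sum' (A : Act K G D) (g : G) {X Y : D} {J : Type*} (s : Finset J) (f : J → (X ⟶ Y)) :
    (A.T g).map (∑ j ∈ s, f j) = ∑ j ∈ s, (A.T g).map (f j) := by
  classical
  induction s using Finset.induction_on with
  | empty => simp [map_zero']
  | insert j s hj ih => rw [Finset.sum_insert hj, Finset.sum_insert hj, A.map_add, ih]

theorem map_zi (N : EqO A) (k h kh : G) (e : k * h = kh) :
    (A.T k).map (N.zi h) ≫ (A.comp k h kh e).hom.app N.Z = N.z k ≫ N.zi kh := by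
  have h1 := N.z_mul k h kh e
  have h2 := congrArg (fun t => (A.T k).map (N.zi h) ≫ t ≫ N.zi kh) h1
  simp only [Category.assoc] at h2
  rw [N.z_zi, ← Category.assoc ((A.T k).map (N.zi h)), ← (A.T k).map_comp, N.zi_z, (A.T k).map_id,
    Category.id_comp, Category.comp_id] at h2
  exact h2.symm

theorem zi_one (N : EqO A) : N.zi 1 = A.one.hom.app N.Z := by
  have h1 : (A.one.hom.app N.Z ≫ N.z 1) ≫ N.zi 1 = A.one.hom.app N.Z := by
    rw [Category.assoc, N.z_zi]
    exact Category.comp_id _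
  rw [N.z_one] at h1
  exact (Category.id_comp _).symm.trans h1

theorem sum_f {M N : EqO A} {J : Type*} (s : Finset J) (f : J → (M ⟶ N)) :
    Hom.f (∑ j ∈ s, f j : M ⟶ N) = ∑ j ∈ s, Hom.f (f j) :=
  (fg A).map_sum f s

/-- the image of an idempotent -/
def img (M : EqO A) {Y : D} (i : Y ⟶ M.Z) (p : M.Z ⟶ Y) (hip : i ≫ p = 𝟙 Y) (hw : ∀ g, (A.T g).map (p ≫ i) ≫ M.z g =
    M.z g ≫ p ≫ i) : EqO A where
  Z := Y
  z g := (A.T g).map i ≫ M.z g ≫ p
  z_one := by
    rw [← Category.assoc, one_nat, Category.assoc]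
    have h1 : A.one.hom.app M.Z ≫ M.z 1 ≫ p = p :=
      (Category.assoc _ _ _).symm.trans ((congrArg (· ≫ p) M.z_one).trans (Category.id_comp p))
    exact (congrArg (i ≫ ·) h1).trans hip
  z_mul g h gh e := by
    have h1 : ((A.T h).map i ≫ M.z h ≫ p) ≫ i = (A.T h).map i ≫ M.z h := by
      rw [Category.assoc, Category.assoc, ← hw, ← Category.assoc, ← (A.T h).map_comp, ← Category.assoc i, hip,
        Category.id_comp]
    rw [← Category.assoc, ← (A.T g).map_comp, h1, (A.T g).map_comp, Category.assoc,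
      ← Category.assoc ((A.T g).map (M.z h)), M.z_mul g h gh e, Category.assoc, ← Category.assoc, comp_nat,
      Category.assoc]

instance idem [IsIdempotentComplete D] (A : Act K G D) : IsIdempotentComplete (EqO A) where
  idempotents_split M e he := by
    have he' : Hom.f e ≫ Hom.f e = Hom.f e := congrArg Hom.f he
    obtain ⟨Y, i, p, h1, h2⟩ := IsIdempotentComplete.idempotents_split M.Z (Hom.f e) he'
    have hw : ∀ g, (A.T g).map (p ≫ i) ≫ M.z g = M.z g ≫ p ≫ i := fun g => by
      rw [h2]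
      exact e.w g
    refine ⟨img M i p h1 hw, ⟨i, fun g => ?_⟩, ⟨p, fun g => ?_⟩, hom_ext h1, hom_ext h2⟩
    · show (A.T g).map i ≫ M.z g = ((A.T g).map i ≫ M.z g ≫ p) ≫ i
      rw [Category.assoc, Category.assoc, ← hw, ← Category.assoc, ← (A.T g).map_comp, ← Category.assoc i, h1,
        Category.id_comp]
    · show (A.T g).map p ≫ (A.T g).map i ≫ M.z g ≫ p = M.z g ≫ p
      rw [← Category.assoc, ← (A.T g).map_comp, ← Category.assoc, hw, Category.assoc, Category.assoc, h1,
        Category.comp_id]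

section bip

variable {n : ℕ} (F : Fin n → EqO A) {Y : D} (ι : ∀ a, (F a).Z ⟶ Y) (π : ∀ a, Y ⟶ (F a).Z)
  (h1 : ∀ a b, ι a ≫ π b = if h : a = b then eqToHom (by rw [h]) else 0) (h2 : ∑ a, π a ≫ ι a = 𝟙 Y)

include h1 in
theorem bip_ιπ (a : Fin n) : ι a ≫ π a = 𝟙 _ := by
  rw [h1 a a, dif_pos rfl]
  rfl

include h1 in
theorem bip_ιπ' {a b : Fin n} (h : a ≠ b) : ι a ≫ π b = 0 := by
  rw [h1 a b, dif_neg h]

include h1 in
theorem bip_zπ (g : G) (b : Fin n) :
    (∑ a, (A.T g).map (π a) ≫ (F a).z g ≫ ι a) ≫ π b = (A.T g).map (π b) ≫ (F b).z g := by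
  rw [Preadditive.sum_comp, Finset.sum_eq_single b]
  · rw [Category.assoc, Category.assoc, bip_ιπ F ι π h1, Category.comp_id]
  · intro a _ hab
    rw [Category.assoc, Category.assoc, bip_ιπ' F ι π h1 hab, Limits.comp_zero, Limits.comp_zero]
  · intro h
    exact absurd (Finset.mem_univ b) h

include h1 in
theorem bip_ιz (g : G) (a : Fin n) :
    (A.T g).map (ι a) ≫ (∑ c, (A.T g).map (π c) ≫ (F c).z g ≫ ι c) = (F a).z g ≫ ι a := by
  rw [Preadditive.comp_sum, Finset.sum_eq_single a]
  · rw [← Category.assoc, ← (A.T g).map_comp, bip_ιπ F ι π h1, (A.T g).map_id, Category.id_comp]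
  · intro c _ hc
    rw [← Category.assoc, ← (A.T g).map_comp, bip_ιπ' F ι π h1 (Ne.symm hc), map_zero', Limits.zero_comp]
  · intro h
    exact absurd (Finset.mem_univ a) h

/-- the direct sum -/
def bsum : EqO A where
  Z := Y
  z g := ∑ a, (A.T g).map (π a) ≫ (F a).z g ≫ ι a
  z_one := by
    rw [← h2, Preadditive.comp_sum]
    refine Finset.sum_congr rfl fun a _ => ?_
    rw [← Category.assoc, one_nat, Category.assoc]
    have h1 : A.one.hom.app (F a).Z ≫ (F a).z 1 ≫ ι a = ι a :=
      (Category.assoc _ _ _).symm.trans ((congrArg (· ≫ ι a) (F a).z_one).trans (Category.id_comp (ι a)))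
    exact congrArg (π a ≫ ·) h1
  z_mul g h gh e := by
    rw [Preadditive.comp_sum, Preadditive.comp_sum]
    refine Finset.sum_congr rfl fun b _ => ?_
    rw [← Category.assoc, ← (A.T g).map_comp, bip_zπ F ι π h1 h b, (A.T g).map_comp, Category.assoc,
      ← Category.assoc ((A.T g).map ((F b).z h)), (F b).z_mul g h gh e, Category.assoc, ← Category.assoc, comp_nat,
      Category.assoc]

include ι π h1 h2 in
theorem bsum_has : Limits.HasBiproduct F := by
  let b : Limits.Bicone F :=
    { pt := bsum F ι π h1 h2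
      π := fun a => ⟨π a, fun g => (bip_zπ F ι π h1 g a).symm⟩
      ι := fun a => ⟨ι a, fun g => bip_ιz F ι π h1 g a⟩
      ι_π := fun a c => by
        apply hom_ext
        by_cases h : a = c
        · subst h
          show ι a ≫ π a = _
          rw [bip_ιπ F ι π h1, dif_pos rfl]
          rfl
        · show ι a ≫ π c = _
          rw [bip_ιπ' F ι π h1 h, dif_neg h]
          rfl }
  refine Limits.hasBiproduct_of_total b (hom_ext ?_)
  exact (sum_f _ _).trans h2

end bip

instance bip [Limits.HasFiniteBiproducts D] (A : Act K G D) : Limits.HasFiniteBiproducts (EqO A) := by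
  refine ⟨fun n => ⟨fun F => ?_⟩⟩
  let f : Fin n → D := fun a => (F a).Z
  refine bsum_has F (Limits.biproduct.ι f) (Limits.biproduct.π f) (fun a b => ?_) ?_
  · exact Limits.biproduct.ι_π f a b
  · exact Limits.biproduct.total

theorem reg [CharZero K] [Finite G] (A : Act K G D) (hD : Reg K D) : Reg K (EqO A) := by
  classical
  haveI : Fintype G := Fintype.ofFinite G
  refine ⟨fun M N => ?_, fun {M N} f => ?_⟩
  · haveI := hD.fd M.Z N.Z
    let φ : (M ⟶ N) →ₗ[K] (M.Z ⟶ N.Z) := { toFun := fun f => Hom.f f, map_add' := fun _ _ => rfl, map_smul' := fun _ _ => rfl }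
    exact FiniteDimensional.of_injective φ fun f g h => hom_ext h
  · obtain ⟨g, hg⟩ := hD.reg (Hom.f f)
    have hc : ((Fintype.card G : ℕ) : K) ≠ 0 := Nat.cast_ne_zero.2 Fintype.card_ne_zero
    have hfz : ∀ h, Hom.f f ≫ N.zi h = M.zi h ≫ (A.T h).map (Hom.f f) := fun h => by
      have h1 := f.w h
      have h2 := congrArg (fun t => M.zi h ≫ t ≫ N.zi h) h1
      simp only [Category.assoc] at h2
      rw [N.z_zi, ← Category.assoc (M.zi h) (M.z h), M.zi_z, Category.id_comp, Category.comp_id] at h2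
      exact h2.symm
    have hzi := N.map_zi
    let av : N.Z ⟶ M.Z := ∑ h : G, N.zi h ≫ (A.T h).map g ≫ M.z h
    have hav : ∀ k, (A.T k).map av ≫ M.z k = N.z k ≫ av := fun k => by
      show (A.T k).map (∑ h : G, N.zi h ≫ (A.T h).map g ≫ M.z h) ≫ M.z k = N.z k ≫ ∑ h : G, N.zi h ≫ (A.T h).map g ≫ M.z h
      rw [map_sum', Preadditive.sum_comp, Preadditive.comp_sum]
      refine Eq.trans ?_ (Equiv.sum_comp (Equiv.mulLeft k) (fun h => N.z k ≫ N.zi h ≫ (A.T h).map g ≫ M.z h))
      refine Finset.sum_congr rfl fun h _ => ?_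
      show (A.T k).map (N.zi h ≫ (A.T h).map g ≫ M.z h) ≫ M.z k = N.z k ≫ N.zi (k * h) ≫ (A.T (k * h)).map g ≫ M.z (k * h)
      rw [(A.T k).map_comp, (A.T k).map_comp, Category.assoc, Category.assoc, M.z_mul k h (k * h) rfl,
        ← Category.assoc ((A.T k).map ((A.T h).map g)), comp_nat, Category.assoc, ← Category.assoc, hzi k h (k * h) rfl,
        Category.assoc]
    refine ⟨⟨((Fintype.card G : ℕ) : K)⁻¹ • av, fun k => ?_⟩, hom_ext ?_⟩
    · rw [A.map_smul, Linear.smul_comp, Linear.comp_smul, hav]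
    · show Hom.f f ≫ (((Fintype.card G : ℕ) : K)⁻¹ • av) ≫ Hom.f f = Hom.f f
      have h1 : Hom.f f ≫ av ≫ Hom.f f = ((Fintype.card G : ℕ) : K) • Hom.f f := by
        show Hom.f f ≫ (∑ h : G, N.zi h ≫ (A.T h).map g ≫ M.z h) ≫ Hom.f f = _
        rw [Preadditive.sum_comp, Preadditive.comp_sum]
        have h2 : ∀ h : G, Hom.f f ≫ (N.zi h ≫ (A.T h).map g ≫ M.z h) ≫ Hom.f f = Hom.f f := fun h => by
          have h3 := f.w h
          rw [Category.assoc, Category.assoc, ← h3, ← Category.assoc (Hom.f f), hfz, Category.assoc,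
            ← (A.T h).map_comp_assoc, ← (A.T h).map_comp_assoc, Category.assoc, hg, ← Category.assoc, ← hfz,
            Category.assoc, N.zi_z, Category.comp_id]
        rw [Finset.sum_congr rfl fun h _ => h2 h, Finset.sum_const, Finset.card_univ, ← Nat.cast_smul_eq_nsmul K]
      rw [Linear.smul_comp, Linear.comp_smul, h1, smul_smul, inv_mul_cancel₀ hc, one_smul]

end EqO

end Pool.Agent.SFC
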