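import Pool.Agent.SFH.EqBa
import Pool.Agent.SFC.HMa
import Pool.Agent.SFC.HMe

/-!
# SFH/EqC: equivariantization in two steps

`F : C ⥤ D` is the forgetful functor of the equivariantization by `G`, `N` a normal subgroup of `G`; `A.res N` is the
action of `N`.  `E.F1 N : C ⥤ EqO (A.res N)` is `x ↦ (F x, u)`.  The group `G ⧸ N` acts on the spaces of `N`-equivariant
maps `F x ⟶ F y` by `E.th g` (`SFC/E1e`), with invariants `F (Hom (x, y))`.
`dom`: for `(Z, z)` in `EqO (A.res N)` let `x` be the object of `C` with `F x ≅ ⨁ g : G, T g Z` (`SFC/E1g`); the map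
`Z ⟶ ⨁ g, T g Z` with the components `(z g)⁻¹` for `g ∈ N` and `0` for `g ∉ N`, and the map back with the components
`|N|⁻¹ z g`, are `N`-equivariant.
`exists_funN`: the functions on `G ⧸ N`: `⨁ fun _ : G ⧸ N => 𝟙_ D` with the permutation structure (compare
`Eqv.exists_fun` in `SFC/HMa`).
-/

set_option autoImplicit false
set_option linter.unusedSectionVars false

noncomputable section

open CategoryTheory MonoidalCategory
open scoped BigOperators

namespace Pool.Agent.SFC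

open Pool.Agent.NFG

universe v u v' u' w

open Functor.LaxMonoidal Functor.OplaxMonoidal

variable {K : Type w} [Field K] {G : Type} [Group G] {D : Type u'} [Category.{v'} D] [Preadditive D] [Linear K D]
  [MonoidalCategory D]

/-- the action of a subgroup -/
def Act.res (A : Act K G D) (N : Subgroup G) : Act K N D where
  T n := A.T n
  mon n := A.mon n
  map_add n := A.map_add n
  map_smul n := A.map_smul n
  comp g h gh e := A.comp g h gh (by rw [← e]; rfl)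
  comp_mon g h gh e := A.comp_mon g h gh (by rw [← e]; rfl)
  one := A.one
  one_mon := A.one_mon
  assoc g h k gh hk ghk e1 e2 e3 e4 Z := A.assoc g h k gh hk ghk (by rw [← e1]; rfl) (by rw [← e2]; rfl)
    (by rw [← e3]; rfl) (by rw [← e4]; rfl) Z
  unitL g _ Z := A.unitL g (one_mul _) Z
  unitR g _ Z := A.unitR g (mul_one _) Z

variable {C : Type u} [Category.{v} C] [Preadditive C] [Linear K C] [MonoidalCategory C] {A : Act K G D} {F : C ⥤ D}
  [F.Monoidal]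

/-- `x ↦ (F x, u)` -/
def Eqv.F1 (E : Eqv K A F) (N : Subgroup G) : C ⥤ EqO (A.res N) where
  obj x := ⟨F.obj x, fun n => (E.u n).hom.app x, E.u_one x, fun g h gh e => E.u_mul g h gh (by rw [← e]; rfl) x⟩
  map f := ⟨F.map f, fun n => (E.u n).hom.naturality f⟩
  map_id x := EqO.hom_ext (F.map_id x)
  map_comp f g := EqO.hom_ext (F.map_comp f g)

private theorem EqC_mu (E : Eqv K A F) (g : G) (a b : C) : (A.T g).map (μ F a b) ≫ (E.u g).hom.app (a ⊗ b) =
    (δ (A.T g) (F.obj a) (F.obj b) ≫ ((E.u g).hom.app a ⊗ₘ (E.u g).hom.app b)) ≫ μ F a b := by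
  have h0 : μ (A.T g) (F.obj a) (F.obj b) ≫ (A.T g).map (μ F a b) ≫ (E.u g).hom.app (a ⊗ b) =
      ((E.u g).hom.app a ⊗ₘ (E.u g).hom.app b) ≫ μ F a b := by
    have := (E.u_mon g).tensor a b
    rw [Functor.LaxMonoidal.comp_μ, Category.assoc] at this
    exact this
  rw [Category.assoc, ← h0, Functor.Monoidal.δ_μ_assoc]

/-- the monoidal structure of `E.F1 N` -/
def Eqv.F1core (E : Eqv K A F) (N : Subgroup G) : (E.F1 N).CoreMonoidal where
  εIso := EqO.mkIso (M := EqO.unt (A.res N)) (N := (E.F1 N).obj (𝟙_ C)) (Functor.Monoidal.εIso F)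
    (fun n => E.u_unit (n : G))
  μIso x y := EqO.mkIso (M := EqO.ten ((E.F1 N).obj x) ((E.F1 N).obj y)) (N := (E.F1 N).obj (x ⊗ y))
    (Functor.Monoidal.μIso F x y) (fun n => EqC_mu E (n : G) x y)
  μIso_hom_natural_left f X' := EqO.hom_ext (Functor.LaxMonoidal.μ_natural_left F f X')
  μIso_hom_natural_right X' f := EqO.hom_ext (Functor.LaxMonoidal.μ_natural_right F X' f)
  associativity X Y Z := EqO.hom_ext (Functor.LaxMonoidal.associativity F X Y Z)
  left_unitality X := EqO.hom_ext (Functor.LaxMonoidal.left_unitality F X)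
  right_unitality X := EqO.hom_ext (Functor.LaxMonoidal.right_unitality F X)

instance Eqv.F1mon (E : Eqv K A F) (N : Subgroup G) : (E.F1 N).Monoidal := (E.F1core N).toMonoidal

theorem Eqv.F1_map (E : Eqv K A F) (N : Subgroup G) {x y : C} (f : x ⟶ y) :
    EqO.Hom.f ((E.F1 N).map f) = F.map f := rfl

theorem Eqv.F1_eps (E : Eqv K A F) (N : Subgroup G) : EqO.Hom.f (ε (E.F1 N)) = ε F := rfl

theorem Eqv.F1_eta (E : Eqv K A F) (N : Subgroup G) : EqO.Hom.f (η (E.F1 N)) = η F := rfl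

theorem Eqv.F1_mu (E : Eqv K A F) (N : Subgroup G) (x y : C) : EqO.Hom.f (μ (E.F1 N) x y) = μ F x y := rfl

theorem Eqv.F1_del (E : Eqv K A F) (N : Subgroup G) (x y : C) : EqO.Hom.f (δ (E.F1 N) x y) = δ F x y := rfl

section th

variable (E : Eqv K A F) (N : Subgroup G)

theorem Eqv.th_eqv_iff {x y : C} (h : F.obj x ⟶ F.obj y) (g : G) :
    E.th g h = h ↔ (A.T g).map h ≫ (E.u g).hom.app y = (E.u g).hom.app x ≫ h := by
  rw [Eqv.th]
  constructor
  · intro h1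
    conv_rhs => rw [← h1]
    rw [Iso.hom_inv_id_app_assoc]
  · intro h1
    rw [h1, Iso.inv_hom_id_app_assoc]

theorem Eqv.th_of_hom {x y : C} (h : (E.F1 N).obj x ⟶ (E.F1 N).obj y) (n : N) :
    E.th (n : G) (EqO.Hom.f h) = EqO.Hom.f h :=
  (E.th_eqv_iff (EqO.Hom.f h) (n : G)).2 (h.w n)

/-- equivariant maps from invariant maps -/
def Eqv.mkN {x y : C} (h : F.obj x ⟶ F.obj y) (hh : ∀ n : N, E.th (n : G) h = h) :
    (E.F1 N).obj x ⟶ (E.F1 N).obj y :=
  ⟨h, fun n => (E.th_eqv_iff h (n : G)).1 (hh n)⟩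

variable [N.Normal]

theorem Eqv.th_coset {x y : C} (h : (E.F1 N).obj x ⟶ (E.F1 N).obj y) {g g' : G} (e : (g : G ⧸ N) = g') :
    E.th g (EqO.Hom.f h) = E.th g' (EqO.Hom.f h) := by
  have h1 : g⁻¹ * g' ∈ N := QuotientGroup.eq.1 e
  have h2 : g' = g * (g⁻¹ * g') := by group
  rw [h2, E.th_mul]
  exact congrArg (E.th g) (E.th_of_hom N h ⟨g⁻¹ * g', h1⟩).symm

/-- the action of `G ⧸ N` -/
def Eqv.thN (q : G ⧸ N) {x y : C} (h : (E.F1 N).obj x ⟶ (E.F1 N).obj y) : (E.F1 N).obj x ⟶ (E.F1 N).obj y :=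
  E.mkN N (E.th (Quotient.out q) (EqO.Hom.f h)) (by
    intro n
    rw [← E.th_mul]
    apply E.th_coset
    rw [QuotientGroup.mk_mul, (QuotientGroup.eq_one_iff (n : G)).2 n.2, one_mul])

theorem Eqv.thN_f (g : G) {x y : C} (h : (E.F1 N).obj x ⟶ (E.F1 N).obj y) :
    EqO.Hom.f (E.thN N (g : G ⧸ N) h) = E.th g (EqO.Hom.f h) :=
  E.th_coset N h (QuotientGroup.out_eq' (g : G ⧸ N))

end th

section dom

variable [Fintype G] [DecidableEq G] [Limits.HasFiniteBiproducts D]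

variable (A) in
private def EqC_Y (Z : D) : D := ⨁ fun g : G => (A.T g).obj Z

variable (A) in
private def EqC_p (Z : D) (g : G) : EqC_Y A Z ⟶ (A.T g).obj Z :=
  Limits.biproduct.π (fun g : G => (A.T g).obj Z) g

private theorem EqC_ext {Z W : D} {f f' : W ⟶ EqC_Y A Z} (h : ∀ g, f ≫ EqC_p A Z g = f' ≫ EqC_p A Z g) : f = f' :=
  Limits.biproduct.hom_ext _ _ h

variable (A) in
private def EqC_z (Z : D) (h : G) : (A.T h).obj (EqC_Y A Z) ⟶ EqC_Y A Z :=
  Limits.biproduct.lift fun k => (A.T h).map (EqC_p A Z (h⁻¹ * k)) ≫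
    (A.comp h (h⁻¹ * k) k (mul_inv_cancel_left h k)).hom.app Z

private theorem EqC_zp (Z : D) (h g k : G) (e : h * g = k) :
    EqC_z A Z h ≫ EqC_p A Z k = (A.T h).map (EqC_p A Z g) ≫ (A.comp h g k e).hom.app Z := by
  obtain rfl : g = h⁻¹ * k := by rw [← e, inv_mul_cancel_left]
  exact Limits.biproduct.lift_π _ _

private theorem EqC_one (Z : D) : A.one.hom.app (EqC_Y A Z) ≫ EqC_z A Z 1 = 𝟙 _ := by
  apply EqC_ext
  intro k
  have h1 := A.one.hom.naturality (EqC_p A Z k)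
  have h2 := A.unitL k (one_mul k) Z
  rw [Functor.id_map] at h1
  rw [Category.assoc, EqC_zp Z 1 k k (one_mul k), ← reassoc_of% h1, Category.id_comp]
  erw [h2]
  exact Category.comp_id _

private theorem EqC_mul (Z : D) (g h gh : G) (e : g * h = gh) :
    (A.T g).map (EqC_z A Z h) ≫ EqC_z A Z g = (A.comp g h gh e).hom.app (EqC_Y A Z) ≫ EqC_z A Z gh := by
  apply EqC_ext
  intro k
  obtain ⟨m, hm⟩ : ∃ m, g * m = k := ⟨g⁻¹ * k, mul_inv_cancel_left g k⟩
  obtain ⟨l, hl⟩ : ∃ l, h * l = m := ⟨h⁻¹ * m, mul_inv_cancel_left h m⟩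
  have hk : gh * l = k := by rw [← e, mul_assoc, hl, hm]
  have h1 := (A.comp g h gh e).hom.naturality (EqC_p A Z l)
  have h2 := A.assoc g h l gh m k e hk hl hm Z
  rw [Functor.comp_map] at h1
  rw [Category.assoc, Category.assoc, EqC_zp Z g m k hm, EqC_zp Z gh l k hk, ← Functor.map_comp_assoc,
    EqC_zp Z h l m hl, Functor.map_comp, Category.assoc, h2, reassoc_of% h1]


end dom

section inv

private theorem EqC_inj (g : G) {W Z : D} {a b : W ⟶ Z} (h : (A.T g).map a = (A.T g).map b) : a = b := by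
  have e : g⁻¹ * g = 1 := inv_mul_cancel g
  have h1 := (A.comp g⁻¹ g 1 e).hom.naturality a
  have h2 := (A.comp g⁻¹ g 1 e).hom.naturality b
  rw [Functor.comp_map, h, ← Functor.comp_map, h2] at h1
  have h3 : (A.T 1).map a = (A.T 1).map b := by
    rw [← cancel_epi ((A.comp g⁻¹ g 1 e).hom.app W), h1]
  have h4 := A.one.hom.naturality a
  have h5 := A.one.hom.naturality b
  rw [Functor.id_map] at h4 h5
  rw [← cancel_mono (A.one.hom.app Z), h4, h5, h3]

theorem EqO.z_mono (M : EqO A) (g : G) {W : D} {a b : W ⟶ (A.T g).obj M.Z} (h : a ≫ M.z g = b ≫ M.z g) : a = b := by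
  have e : g⁻¹ * g = 1 := inv_mul_cancel g
  have h0 : M.z 1 ≫ A.one.hom.app M.Z = 𝟙 _ := by
    rw [← cancel_epi (A.one.hom.app M.Z), ← Category.assoc, M.z_one]
    exact (Category.id_comp _).trans (Category.comp_id _).symm
  have h1 := congrArg (fun t => (A.T g⁻¹).map t ≫ M.z g⁻¹) h
  simp only [Functor.map_comp, Category.assoc] at h1
  rw [M.z_mul g⁻¹ g 1 e] at h1
  have h2 := congrArg (fun t => t ≫ A.one.hom.app M.Z) h1
  simp only [Category.assoc] at h2
  rw [h0] at h2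
  have h3 : (A.T g⁻¹).map a ≫ (A.comp g⁻¹ g 1 e).hom.app M.Z = (A.T g⁻¹).map b ≫ (A.comp g⁻¹ g 1 e).hom.app M.Z := by
    simpa using h2
  exact EqC_inj g⁻¹ ((cancel_mono _).1 h3)

end inv

section dom

variable {N : Subgroup G} (M : EqO (A.res N))

open Classical in
private def EqC_a (g : G) : M.Z ⟶ (A.T g).obj M.Z := if h : g ∈ N then M.zi ⟨g, h⟩ else 0

open Classical in
private def EqC_b (g : G) : (A.T g).obj M.Z ⟶ M.Z := if h : g ∈ N then M.z ⟨g, h⟩ else 0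

private theorem EqC_a_mem (n : N) : EqC_a M (n : G) = M.zi n := dif_pos n.2

private theorem EqC_b_mem (n : N) : EqC_b M (n : G) = M.z n := dif_pos n.2

private theorem EqC_a_not {g : G} (h : g ∉ N) : EqC_a M g = 0 := dif_neg h

private theorem EqC_b_not {g : G} (h : g ∉ N) : EqC_b M g = 0 := dif_neg h

private theorem EqC_map_zero (g : G) {Z W : D} : (A.T g).map (0 : Z ⟶ W) = 0 := by
  have := A.map_smul g (0 : K) (0 : Z ⟶ W)
  rwa [zero_smul, zero_smul] at this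

private theorem EqC_P2 (n : N) (g k : G) (e : (n : G) * g = k) :
    (A.comp n g k e).hom.app M.Z ≫ EqC_b M k = (A.T n).map (EqC_b M g) ≫ M.z n := by
  by_cases hg : g ∈ N
  · obtain ⟨m, rfl⟩ : ∃ m : N, (m : G) = g := ⟨⟨g, hg⟩, rfl⟩
    obtain ⟨l, rfl⟩ : ∃ l : N, (l : G) = k := ⟨n * m, e⟩
    have e' : n * m = l := Subtype.ext e
    rw [EqC_b_mem, EqC_b_mem]
    exact (M.z_mul n m l e').symm
  · have hk : k ∉ N := by
      rw [← e]
      exact fun h => hg ((Subgroup.mul_mem_cancel_left N n.2).1 h)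
    rw [EqC_b_not M hg, EqC_b_not M hk, EqC_map_zero, Limits.comp_zero, Limits.zero_comp]

private theorem EqC_P1 (n : N) (g k : G) (e : (n : G) * g = k) :
    (A.T n).map (EqC_a M g) ≫ (A.comp n g k e).hom.app M.Z = M.z n ≫ EqC_a M k := by
  by_cases hg : g ∈ N
  · obtain ⟨m, rfl⟩ : ∃ m : N, (m : G) = g := ⟨⟨g, hg⟩, rfl⟩
    obtain ⟨l, rfl⟩ : ∃ l : N, (l : G) = k := ⟨n * m, e⟩
    have e' : n * m = l := Subtype.ext e
    rw [EqC_a_mem, EqC_a_mem]
    apply M.z_mono l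
    have h1 : (A.T (n : G)).map (M.z m) ≫ M.z n = (A.comp n m l e).hom.app M.Z ≫ M.z l := M.z_mul n m l e'
    have h2 : (A.T (n : G)).map (M.zi m) ≫ (A.T (n : G)).map (M.z m) = 𝟙 _ :=
      ((A.T (n : G)).map_comp _ _).symm.trans ((congrArg (A.T (n : G)).map (M.zi_z m)).trans ((A.T (n : G)).map_id _))
    have h3 : M.zi l ≫ M.z l = 𝟙 _ := M.zi_z l
    refine (Category.assoc _ _ _).trans ?_
    refine (congrArg ((A.T (n : G)).map (M.zi m) ≫ ·) h1.symm).trans ?_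
    refine (Category.assoc _ _ _).symm.trans ?_
    refine (congrArg (· ≫ M.z n) h2).trans ?_
    refine (Category.id_comp _).trans ?_
    refine Eq.trans ?_ (Category.assoc _ _ _).symm
    refine Eq.trans ?_ (congrArg (M.z n ≫ ·) h3).symm
    exact (Category.comp_id _).symm
  · have hk : k ∉ N := by
      rw [← e]
      exact fun h => hg ((Subgroup.mul_mem_cancel_left N n.2).1 h)
    rw [EqC_a_not M hg, EqC_a_not M hk, EqC_map_zero, Limits.comp_zero, Limits.zero_comp]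
    rfl

private theorem EqC_P3 (n : N) : EqC_a M (n : G) ≫ EqC_b M (n : G) = 𝟙 _ := by
  rw [EqC_a_mem, EqC_b_mem]
  exact M.zi_z n

variable [Fintype G] [DecidableEq G] [Limits.HasFiniteBiproducts D]

private def EqC_i : M.Z ⟶ EqC_Y A M.Z := Limits.biproduct.lift fun g => EqC_a M g

private theorem EqC_ip (g : G) : EqC_i M ≫ EqC_p A M.Z g = EqC_a M g := Limits.biproduct.lift_π _ _

private def EqC_q : EqC_Y A M.Z ⟶ M.Z := ∑ g, EqC_p A M.Z g ≫ EqC_b M g

private theorem EqC_i_eqv (n : N) : (A.T n).map (EqC_i M) ≫ EqC_z A M.Z n = M.z n ≫ EqC_i M := by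
  apply EqC_ext
  intro k
  obtain ⟨g, hg⟩ : ∃ g, (n : G) * g = k := ⟨(n : G)⁻¹ * k, mul_inv_cancel_left _ _⟩
  rw [Category.assoc, EqC_zp (A := A) M.Z (n : G) g k hg, ← Functor.map_comp_assoc, EqC_ip, EqC_P1 M n g k hg]
  refine Eq.trans ?_ (Category.assoc _ _ _).symm
  rw [EqC_ip]
  rfl

private theorem EqC_q_eqv (n : N) : (A.T n).map (EqC_q M) ≫ M.z n = EqC_z A M.Z n ≫ EqC_q M := by
  have h1 : (A.T (n : G)).map (EqC_q M) = ∑ g, (A.T (n : G)).map (EqC_p A M.Z g ≫ EqC_b M g) :=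
    map_sum (AddMonoidHom.mk' (fun f : EqC_Y A M.Z ⟶ M.Z => (A.T (n : G)).map f) (fun a b => A.map_add _ a b)) _ _
  rw [h1, EqC_q, Preadditive.comp_sum, ← Equiv.sum_comp (Equiv.mulLeft (n : G))
    (fun k => EqC_z A M.Z n ≫ EqC_p A M.Z k ≫ EqC_b M k)]
  refine (Preadditive.sum_comp _ _ _).trans ?_
  refine Finset.sum_congr rfl fun g _ => ?_
  have h2 := EqC_P2 M n g ((n : G) * g) rfl
  have h3 := EqC_zp (A := A) M.Z n g ((n : G) * g) rfl
  show (A.T (n : G)).map (EqC_p A M.Z g ≫ EqC_b M g) ≫ M.z n =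
    EqC_z A M.Z n ≫ EqC_p A M.Z ((n : G) * g) ≫ EqC_b M ((n : G) * g)
  rw [← Category.assoc (EqC_z A M.Z n), h3, Category.assoc, h2, Functor.map_comp]
  exact Category.assoc _ _ _

private theorem EqC_iq [Fintype N] : EqC_i M ≫ EqC_q M = (Fintype.card N : K) • 𝟙 _ := by
  classical
  rw [EqC_q, Preadditive.comp_sum]
  have h1 : ∀ g : G, EqC_i M ≫ EqC_p A M.Z g ≫ EqC_b M g = if g ∈ N then 𝟙 M.Z else 0 := by
    intro g
    rw [← Category.assoc, EqC_ip]
    by_cases hg : g ∈ N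
    · rw [if_pos hg]
      exact EqC_P3 M ⟨g, hg⟩
    · rw [if_neg hg, EqC_a_not M hg, Limits.zero_comp]
  rw [Finset.sum_congr rfl fun g _ => h1 g, Finset.sum_ite, Finset.sum_const_zero, add_zero, Finset.sum_const,
    Nat.cast_smul_eq_nsmul]
  congr 1
  rw [← Fintype.card_subtype]

theorem Eqv.domN [CharZero K] (E : Eqv K A F) (N : Subgroup G) (M : EqO (A.res N)) :
    ∃ (x : C) (i : M ⟶ (E.F1 N).obj x) (p : (E.F1 N).obj x ⟶ M), i ≫ p = 𝟙 M := by
  classical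
  obtain ⟨x, i, hi⟩ := E.ess (EqC_Y A M.Z) (EqC_z A M.Z) (EqC_one M.Z) (EqC_mul M.Z)
  have hi' : ∀ g, (A.T g).map i.inv ≫ (E.u g).hom.app x = EqC_z A M.Z g ≫ i.inv := by
    intro g
    rw [← cancel_epi ((A.T g).map i.hom), ← Functor.map_comp_assoc, i.hom_inv_id, ← Category.assoc, hi, Category.assoc,
      i.hom_inv_id]
    erw [CategoryTheory.Functor.map_id, Category.id_comp, Category.comp_id]
  have hK : (Fintype.card N : K) ≠ 0 := Nat.cast_ne_zero.2 Fintype.card_ne_zero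
  refine ⟨x, ⟨EqC_i M ≫ i.inv, fun n => ?_⟩, ⟨i.hom ≫ ((Fintype.card N : K)⁻¹ • EqC_q M), fun n => ?_⟩, ?_⟩
  · show (A.T (n : G)).map (EqC_i M ≫ i.inv) ≫ (E.u (n : G)).hom.app x = M.z n ≫ EqC_i M ≫ i.inv
    rw [Functor.map_comp, Category.assoc, hi', ← Category.assoc, EqC_i_eqv]
    exact Category.assoc _ _ _
  · show (A.T (n : G)).map (i.hom ≫ ((Fintype.card N : K)⁻¹ • EqC_q M)) ≫ M.z n =
      (E.u (n : G)).hom.app x ≫ i.hom ≫ ((Fintype.card N : K)⁻¹ • EqC_q M)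
    have h1 := EqC_q_eqv M n
    rw [Functor.map_comp, A.map_smul, Linear.comp_smul, Linear.comp_smul, Linear.comp_smul, ← Category.assoc ((E.u (n : G)).hom.app x), ← hi,
      Category.assoc, ← h1]
    refine (Linear.smul_comp _ _ _ _ _ _).trans ?_
    exact congrArg ((Fintype.card N : K)⁻¹ • ·) (Category.assoc _ _ _)
  · apply EqO.hom_ext
    show (EqC_i M ≫ i.inv) ≫ i.hom ≫ ((Fintype.card N : K)⁻¹ • EqC_q M) = 𝟙 M.Z
    rw [Category.assoc, Iso.inv_hom_id_assoc, Linear.comp_smul, EqC_iq, smul_smul, inv_mul_cancel₀ hK, one_smul]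

end dom

section funX

variable [Limits.HasFiniteBiproducts D] {X : Type} [Fintype X] [DecidableEq X] [MulAction G X]

variable (D X) in
/-- the functions on `X` -/
private def EqC_W : D := ⨁ fun _ : X => 𝟙_ D

variable (D) in
private def EqC_r (h : X) : EqC_W D X ⟶ 𝟙_ D := Limits.biproduct.π (fun _ : X => 𝟙_ D) h

variable (D) in
private def EqC_j (h : X) : 𝟙_ D ⟶ EqC_W D X := Limits.biproduct.ι (fun _ : X => 𝟙_ D) h

private theorem EqC_extW {W : D} {f f' : W ⟶ EqC_W D X}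
    (h : ∀ g, f ≫ EqC_r D g = f' ≫ EqC_r D g) : f = f' :=
  Limits.biproduct.hom_ext _ _ h

variable (A X) in
private def EqC_zW (g : G) : (A.T g).obj (EqC_W D X) ⟶ EqC_W D X :=
  Limits.biproduct.lift fun k => (A.T g).map (EqC_r D (g⁻¹ • k)) ≫ η (A.T g)

private theorem EqC_zWr (g : G) (h k : X) (e : g • h = k) :
    EqC_zW A X g ≫ EqC_r D k = (A.T g).map (EqC_r D h) ≫ η (A.T g) := by
  obtain rfl : h = g⁻¹ • k := by rw [← e, inv_smul_smul]
  exact Limits.biproduct.lift_π _ _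

private theorem EqC_oneW : A.one.hom.app (EqC_W D X) ≫ EqC_zW A X 1 = 𝟙 _ := by
  apply EqC_extW
  intro k
  have h1 := A.one.hom.naturality (EqC_r D k)
  rw [Functor.id_map] at h1
  have h2 := A.one_unit
  rw [Category.assoc, EqC_zWr 1 k k (one_smul _ k)]
  rw [← reassoc_of% h1, Category.id_comp]
  erw [h2]
  exact Category.comp_id _

private theorem EqC_mulW (g h gh : G) (e : g * h = gh) :
    (A.T g).map (EqC_zW A X h) ≫ EqC_zW A X g = (A.comp g h gh e).hom.app (EqC_W D X) ≫ EqC_zW A X gh := by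
  apply EqC_extW
  intro k
  obtain ⟨m, hm⟩ : ∃ m, g • m = k := ⟨g⁻¹ • k, smul_inv_smul g k⟩
  obtain ⟨l, hl⟩ : ∃ l, h • l = m := ⟨h⁻¹ • m, smul_inv_smul h m⟩
  have hk : gh • l = k := by rw [← e, mul_smul, hl, hm]
  have h1 := (A.comp g h gh e).hom.naturality (EqC_r D l)
  have h2 := A.comp_unit g h gh e
  rw [Functor.comp_map] at h1
  rw [Category.assoc, Category.assoc, EqC_zWr g m k hm, EqC_zWr gh l k hk, ← Functor.map_comp_assoc,
    EqC_zWr h l m hl, Functor.map_comp, Category.assoc, h2, reassoc_of% h1]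

theorem Eqv.exists_funX (E : Eqv K A F) : ∃ (x : C) (s : X → (𝟙_ D ⟶ F.obj x)) (q : X → (F.obj x ⟶ 𝟙_ D)),
      (∀ g h, s g ≫ q h = if g = h then 𝟙 (𝟙_ D) else 0) ∧ ∑ g, q g ≫ s g = 𝟙 (F.obj x) ∧
      (∀ (g : G) (h : X), E.th g (η F ≫ s h) = η F ≫ s (g • h)) ∧
      ∀ (g : G) (h : X), E.th g (q h ≫ ε F) = q (g • h) ≫ ε F := by
  obtain ⟨x, i, hi⟩ := E.ess (EqC_W D X) (EqC_zW A X) EqC_oneW EqC_mulW
  let p : X → (EqC_W D X ⟶ 𝟙_ D) := EqC_r D
  let j : X → (𝟙_ D ⟶ EqC_W D X) := EqC_j D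
  have hjp : ∀ g h, j g ≫ p h = if g = h then 𝟙 (𝟙_ D) else 0 := by
    intro g h
    by_cases hgh : g = h
    · subst hgh
      rw [if_pos rfl]
      exact Limits.biproduct.ι_π_self _ _
    · rw [if_neg hgh]
      exact Limits.biproduct.ι_π_ne _ hgh
  have hsum : ∑ g, p g ≫ j g = 𝟙 (EqC_W D X) := by
    exact Limits.biproduct.total
  have hsq : ∀ g h : X, (j g ≫ i.inv) ≫ (i.hom ≫ p h) = if g = h then 𝟙 (𝟙_ D) else 0 := by
    intro g h
    rw [Category.assoc, Iso.inv_hom_id_assoc, hjp]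
  have hqs : ∑ g : X, (i.hom ≫ p g) ≫ (j g ≫ i.inv) = 𝟙 (F.obj x) := by
    have : ∀ g : X, (i.hom ≫ p g) ≫ (j g ≫ i.inv) = i.hom ≫ (p g ≫ j g) ≫ i.inv := by
      intro g
      simp only [Category.assoc]
    rw [Finset.sum_congr rfl fun g _ => this g, ← Preadditive.comp_sum, ← Preadditive.sum_comp, hsum,
      Category.id_comp, Iso.hom_inv_id]
  have hq : ∀ (g : G) (h : X), E.th g ((i.hom ≫ p h) ≫ ε F) = (i.hom ≫ p (g • h)) ≫ ε F := by
    intro g h
    have h1 := EqC_zWr (A := A) g h (g • h) rfl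
    have h2 := hi g
    rw [Eqv.th, Functor.map_comp, Functor.map_comp, Category.assoc, Category.assoc, E.u_unit g]
    have h3 : (A.T g).map (p h) ≫ η (A.T g) ≫ ε F = EqC_zW A X g ≫ p (g • h) ≫ ε F := by
      rw [← Category.assoc, ← Category.assoc]
      exact congrArg (· ≫ ε F) h1.symm
    rw [h3, reassoc_of% h2, Iso.inv_hom_id_app_assoc, Category.assoc]
  have hs : ∀ (g : G) (h : X), E.th g (η F ≫ (j h ≫ i.inv)) = η F ≫ (j (g • h) ≫ i.inv) := by
    intro g h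
    have h1 : ∀ k : X, E.th g (η F ≫ (j h ≫ i.inv)) ≫ (i.hom ≫ p (g • k)) =
        (η F ≫ (j (g • h) ≫ i.inv)) ≫ (i.hom ≫ p (g • k)) := by
      intro k
      have h2 := E.th_comp g (η F ≫ (j h ≫ i.inv)) ((i.hom ≫ p k) ≫ ε F)
      rw [hq g k] at h2
      have h3 : (η F ≫ (j h ≫ i.inv)) ≫ ((i.hom ≫ p k) ≫ ε F) = if h = k then 𝟙 _ else 0 := by
        have h4 : (η F ≫ (j h ≫ i.inv)) ≫ ((i.hom ≫ p k) ≫ ε F) =
            η F ≫ ((j h ≫ i.inv) ≫ (i.hom ≫ p k)) ≫ ε F := by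
          simp only [Category.assoc]
        rw [h4, hsq]
        by_cases hk : h = k
        · rw [if_pos hk, if_pos hk, Category.id_comp, Functor.Monoidal.η_ε]
        · rw [if_neg hk, if_neg hk, Limits.zero_comp, Limits.comp_zero]
      have h5 : (η F ≫ (j (g • h) ≫ i.inv)) ≫ ((i.hom ≫ p (g • k)) ≫ ε F) = if h = k then 𝟙 _ else 0 := by
        have h4 : (η F ≫ (j (g • h) ≫ i.inv)) ≫ ((i.hom ≫ p (g • k)) ≫ ε F) =
            η F ≫ ((j (g • h) ≫ i.inv) ≫ (i.hom ≫ p (g • k))) ≫ ε F := by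
          simp only [Category.assoc]
        rw [h4, hsq]
        by_cases hk : h = k
        · rw [if_pos (by rw [hk]), if_pos hk, Category.id_comp, Functor.Monoidal.η_ε]
        · rw [if_neg (fun hh => hk (MulAction.injective g hh)), if_neg hk, Limits.zero_comp, Limits.comp_zero]
      have h6 : E.th g (if h = k then 𝟙 (F.obj (𝟙_ C)) else 0) = if h = k then 𝟙 (F.obj (𝟙_ C)) else 0 := by
        by_cases hk : h = k
        · rw [if_pos hk, ← F.map_id, E.th_map]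
        · rw [if_neg hk]
          have h7 := E.th_smul g (0 : K) (0 : F.obj (𝟙_ C) ⟶ F.obj (𝟙_ C))
          rwa [zero_smul, zero_smul] at h7
      rw [h3, h6, ← h5, ← Category.assoc, ← Category.assoc] at h2
      have h8 := congrArg (· ≫ η F) h2
      simp only [Category.assoc, Functor.Monoidal.ε_η, Category.comp_id] at h8
      simp only [Category.assoc]
      exact h8.symm
    have h9 : ∀ f : F.obj (𝟙_ C) ⟶ F.obj x, f = ∑ k : X, (f ≫ (i.hom ≫ p k)) ≫ (j k ≫ i.inv) := by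
      intro f
      have : ∀ k : X, (f ≫ (i.hom ≫ p k)) ≫ (j k ≫ i.inv) = f ≫ ((i.hom ≫ p k) ≫ (j k ≫ i.inv)) := by
        intro k
        rw [Category.assoc]
      rw [Finset.sum_congr rfl fun k _ => this k, ← Preadditive.comp_sum, hqs, Category.comp_id]
    rw [h9 (E.th g (η F ≫ (j h ≫ i.inv))), h9 (η F ≫ (j (g • h) ≫ i.inv))]
    refine Finset.sum_congr rfl fun k _ => ?_
    obtain ⟨m, rfl⟩ : ∃ m, g • m = k := ⟨g⁻¹ • k, smul_inv_smul g k⟩
    rw [h1 m]
  exact ⟨x, fun h => j h ≫ i.inv, fun h => i.hom ≫ p h, hsq, hqs, hs, hq⟩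

end funX

section thN

variable (E : Eqv K A F) (N : Subgroup G) [N.Normal]

/-- the action of `G ⧸ N` on the spaces of `N`-equivariant maps -/
def Eqv.thNH [Finite G] [Limits.HasFiniteBiproducts D] [CharZero K] : ThH K (E.F1 N) (Additive (G ⧸ N)) where
  map_add f g := EqO.hom_ext (E.map_add f g)
  map_smul c f := EqO.hom_ext (E.map_smul c f)
  th q _ _ h := E.thN N q.toMul h
  th_comp q _ _ _ h k := by
    obtain ⟨g, hg⟩ := QuotientGroup.mk_surjective q.toMul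
    apply EqO.hom_ext
    rw [← hg, EqO.comp_f, E.thN_f, E.thN_f, E.thN_f, EqO.comp_f]
    exact E.th_comp g _ _
  th_add q _ _ h k := by
    obtain ⟨g, hg⟩ := QuotientGroup.mk_surjective q.toMul
    apply EqO.hom_ext
    rw [← hg, EqO.add_f, E.thN_f, E.thN_f, E.thN_f, EqO.add_f]
    exact E.th_add g _ _
  th_smul q _ _ c h := by
    obtain ⟨g, hg⟩ := QuotientGroup.mk_surjective q.toMul
    apply EqO.hom_ext
    rw [← hg, EqO.smul_f, E.thN_f, E.thN_f, EqO.smul_f]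
    exact E.th_smul g c _
  th_map q _ _ f := by
    obtain ⟨g, hg⟩ := QuotientGroup.mk_surjective q.toMul
    apply EqO.hom_ext
    rw [← hg, E.thN_f, E.F1_map, E.th_map]
  th_zero h := by
    apply EqO.hom_ext
    show EqO.Hom.f (E.thN N ((1 : G) : G ⧸ N) h) = _
    rw [E.thN_f, E.th_one]
  th_th q q' _ _ h := by
    obtain ⟨g, hg⟩ := QuotientGroup.mk_surjective q.toMul
    obtain ⟨g', hg'⟩ := QuotientGroup.mk_surjective q'.toMul
    apply EqO.hom_ext
    show EqO.Hom.f (E.thN N (q.toMul * q'.toMul) h) = _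
    rw [← hg, ← hg', ← QuotientGroup.mk_mul, E.thN_f, E.thN_f, E.thN_f, E.th_mul]
  th_ten q _ _ _ _ h k := by
    obtain ⟨g, hg⟩ := QuotientGroup.mk_surjective q.toMul
    apply EqO.hom_ext
    rw [← hg, E.thN_f]
    have h1 := E.th_ten g (EqO.Hom.f h) (EqO.Hom.f k)
    rw [← E.thN_f N g h, ← E.thN_f N g k] at h1
    exact h1
  th_fix h hh := by
    obtain ⟨f, hf, hu⟩ := E.th_fix (EqO.Hom.f h) (fun g => by
      have h1 := congrArg EqO.Hom.f (hh (Additive.ofMul (g : G ⧸ N)))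
      rw [← E.thN_f N g h]
      exact h1)
    exact ⟨f, EqO.hom_ext hf, fun f' hf' => hu f' (congrArg EqO.Hom.f hf')⟩
  dom M := by
    classical
    have := Fintype.ofFinite G
    exact E.domN N M

variable [Finite G] [Limits.HasFiniteBiproducts D] [MonoidalPreadditive D] [MonoidalLinear K D] [CharZero K]

private theorem EqC_sumf {M P : EqO (A.res N)} {κ : Type} (t : Finset κ) (f : κ → (M ⟶ P)) :
    EqO.Hom.f (∑ k ∈ t, f k : M ⟶ P) = ∑ k ∈ t, EqO.Hom.f (f k) :=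
  map_sum (AddMonoidHom.mk' (fun a => EqO.Hom.f a) (fun _ _ => rfl) : (M ⟶ P) →+ (M.Z ⟶ P.Z)) f t

/-- the action of `G ⧸ N` -/
theorem Eqv.exists_thN [Fintype (G ⧸ N)] [DecidableEq (G ⧸ N)] :
    ∃ T : ThH K (E.F1 N) (Additive (G ⧸ N)), Nonempty (FunT T) := by
  obtain ⟨x, s, q, sq, sum, ths, thq⟩ := E.exists_funX (X := G ⧸ N)
  have hN : ∀ (n : N) (c : G ⧸ N), (n : G) • c = c := by
    intro n c
    obtain ⟨g, rfl⟩ := QuotientGroup.mk_surjective c
    show (((n : G) * g : G) : G ⧸ N) = g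
    rw [QuotientGroup.mk_mul, (QuotientGroup.eq_one_iff (n : G)).2 n.2, one_mul]
  let s1 : G ⧸ N → ((E.F1 N).obj (𝟙_ C) ⟶ (E.F1 N).obj x) := fun c => E.mkN N (η F ≫ s c) (fun n => by rw [ths, hN])
  let q1 : G ⧸ N → ((E.F1 N).obj x ⟶ (E.F1 N).obj (𝟙_ C)) := fun c => E.mkN N (q c ≫ ε F) (fun n => by rw [thq, hN])
  have hs1 : ∀ c, EqO.Hom.f (ε (E.F1 N) ≫ s1 c) = s c := by
    intro c
    show ε F ≫ η F ≫ s c = s c
    rw [Functor.Monoidal.ε_η_assoc]
  have hq1 : ∀ c, EqO.Hom.f (q1 c ≫ η (E.F1 N)) = q c := by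
    intro c
    show (q c ≫ ε F) ≫ η F = q c
    rw [Category.assoc, Functor.Monoidal.ε_η, Category.comp_id]
  have hη : ∀ c, η (E.F1 N) ≫ ε (E.F1 N) ≫ s1 c = s1 c := fun c => by simp
  have hε : ∀ c, (q1 c ≫ η (E.F1 N)) ≫ ε (E.F1 N) = q1 c := fun c => by simp
  refine ⟨E.thNH N, ⟨⟨x, fun c => ε (E.F1 N) ≫ s1 c.toMul, fun c => q1 c.toMul ≫ η (E.F1 N), fun a b => ?_, ?_,
    fun a b => ?_, fun a b => ?_⟩⟩⟩
  · apply EqO.hom_ext
    refine (congrArg₂ (· ≫ ·) (hs1 a.toMul) (hq1 b.toMul)).trans ((sq a.toMul b.toMul).trans ?_)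
    by_cases hab : a = b
    · rw [if_pos (by rw [hab]), if_pos hab]
      rfl
    · rw [if_neg (fun hh => hab (Additive.toMul.injective hh)), if_neg hab]
      rfl
  · apply EqO.hom_ext
    rw [EqC_sumf]
    have h1 : ∀ a : Additive (G ⧸ N), EqO.Hom.f ((q1 a.toMul ≫ η (E.F1 N)) ≫ ε (E.F1 N) ≫ s1 a.toMul) =
        q a.toMul ≫ s a.toMul := fun a => congrArg₂ (· ≫ ·) (hq1 a.toMul) (hs1 a.toMul)
    rw [Finset.sum_congr rfl fun a _ => h1 a]
    exact (Fintype.sum_equiv (Additive.toMul (α := G ⧸ N)) _ _ (fun _ => rfl)).trans sum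
  · obtain ⟨g, hg⟩ := QuotientGroup.mk_surjective a.toMul
    rw [hη, hη]
    apply EqO.hom_ext
    show EqO.Hom.f (E.thN N a.toMul (s1 b.toMul)) = η F ≫ s (a.toMul * b.toMul)
    rw [← hg, E.thN_f]
    exact ths g b.toMul
  · obtain ⟨g, hg⟩ := QuotientGroup.mk_surjective a.toMul
    rw [hε, hε]
    apply EqO.hom_ext
    show EqO.Hom.f (E.thN N a.toMul (q1 b.toMul)) = q (a.toMul * b.toMul) ≫ ε F
    rw [← hg, E.thN_f]
    exact thq g b.toMul

end thN

end Pool.Agent.SFC
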