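import Pool.Agent.SFH.Irr

/-!
# SFH/Full: all weakly group-theoretical fusion categories, from the Ito-Michler theorem
-/

set_option autoImplicit false

noncomputable section

open CategoryTheory MonoidalCategory

namespace Pool.Agent.SFC

open Pool.Agent.NFG

universe v u w

/-- The statement of the Ito-Michler theorem, for representations over `K`: if `p` does not divide the dimensions of the
irreducible representations of the finite group `G`, then `G` has a normal abelian Sylow `p`-subgroup. -/
def ItoMichler (K : Type w) [Field K] (p : ℕ) : Prop :=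
  ∀ (G : Type) [Group G] [Finite G],
    (∀ (n : ℕ) (ρ : Representation K G (Fin n → K)), ρ.IsIrreducible → ¬ p ∣ n) →
      ∃ P : Subgroup G, P.Normal ∧ (∀ a ∈ P, ∀ b ∈ P, a * b = b * a) ∧ (∃ k, Nat.card P = p ^ k) ∧ ¬ p ∣ P.index

/-- Weakly group-theoretical fusion categories: `X` is obtained from nilpotent fusion categories (e.g. `Vec`) by
finitely many extensions and equivariantizations by finite groups. -/
inductive ChainW (K : Type w) [Field K] : FC.{v, u} K → Prop
  | nil (X : FC.{v, u} K) (h : X.F.Nlp Set.univ) : ChainW K X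
  | ext (D X : FC.{v, u} K) (Q : Type) [Group Q] [Finite Q] (deg : X.ι → Q) (G : D.C ⥤ X.C) [G.Monoidal]
      (h : IsExt K G X.F Q deg) (hD : ChainW K D) : ChainW K X
  | eqv (D X : FC.{v, u} K) (G : Type) [Group G] [Finite G] (A : Act K G D.C) (F : X.C ⥤ D.C)
      [F.Monoidal] (E : Eqv K A F) (hD : ChainW K D) : ChainW K X

variable {K : Type w} [Field K] [IsAlgClosed K] [CharZero K]

theorem chainW_red {p : ℕ} (hp : p.Prime) (hIM : ItoMichler K p) (X : FC.{v, u} K) (hX : ChainW K X) :
    PDG p X → RedG p X := by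
  induction hX with
  | nil X h =>
    intro _
    exact RedG.nil X h
  | ext D X Q deg G h hD ih =>
    intro hX
    obtain ⟨f, hf, hr⟩ := hX
    obtain ⟨φ, hφ⟩ := exists_phi D.F h
    exact redG_ext D (ih ⟨_, ext_fp hφ hf, fun a => hr (φ a)⟩) X Q deg G h
  | eqv D X G A F E hD ih =>
    intro hX
    obtain ⟨P, hPn, -, hPk, hPi⟩ := hIM G fun n ρ hρ => irr_dim E hp hX ρ hρ
    exact psolv_red hp (psolv_of_normal hp G P hPk hPi) D X ih A F E hX

theorem mainW {O : Subring K} (hO : Val O) {p : ℕ} (hp : p.Prime) (hpO : ((p : K))⁻¹ ∉ O) (hIM : ItoMichler K p)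
    (X : FC.{v, u} K) (hX : ChainW K X) (f : X.ι → ℝ) (hf : IsFPdim X.F f) (h : ∀ i, RelP p (f i)) :
    ∃ L : X.F.Sy, X.F.IsForm O L :=
  redG_form hO hp hpO X (chainW_red hp hIM X hX ⟨f, hf, h⟩) ⟨f, hf, h⟩

end Pool.Agent.SFC
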