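import Pool.Agent.SFH.Conv
import Pool.Agent.SFC.BNumH
import Pool.Agent.SFC.TraH

/-!
# SFH/GalB: the layers B and T for a general finite group

The statements of the layers B (`Pool.Agent.SFC.G`, files `SFC/B*H`) and T (`SFC/T*H`), which are proved for the additive notation `GalFH K V Γ`, for `GalFG K V H` (`GalFG.toH`).
-/

set_option autoImplicit false
set_option linter.unusedSectionVars false

noncomputable section

open CategoryTheory MonoidalCategory

namespace Pool.Agent.SFC

open Pool.Agent.NFG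

universe v u v' u' w

variable {K : Type w} [Field K] {C : Type u} [Category.{v} C] [Preadditive C] [Linear K C] [MonoidalCategory C]
  [MonoidalPreadditive C] [MonoidalLinear K C] {D : Type u'} [Category.{v'} D] [Preadditive D] [Linear K D]
  [MonoidalCategory D] [MonoidalPreadditive D] [MonoidalLinear K D]

private theorem GalB_card (H : Type) [Group H] [Fintype H] : Fintype.card (Additive H) = Fintype.card H :=
  Fintype.card_congr (Additive.toMul : Additive H ≃ H)

/-- the category of bimodules is rigid -/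
theorem gal_rigG [IsIdempotentComplete D] {V : C ⥤ D} [V.LaxMonoidal] [V.OplaxMonoidal] {H : Type}
    [Group H] [Fintype H] (G : GalFG K V H) (rC : Rig C) : Rig D :=
  Pool.Agent.SFC.G.rig_gal G.toH rC

/-- the category of bimodules is semisimple -/
theorem gal_fusG [IsAlgClosed K] [IsIdempotentComplete D] {V : C ⥤ D} [V.LaxMonoidal] [V.OplaxMonoidal]
    {H : Type} [Group H] [Fintype H] (G : GalFG K V H) {ι : Type} [Fintype ι] [DecidableEq ι] (FC : Fus K C ι) :
    ∃ (ι' : Type) (_ : Fintype ι') (_ : DecidableEq ι'), Nonempty (Fus K D ι') :=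
  Pool.Agent.SFC.G.gal_fus G.toH FC

/-- the dimensions of bimodules are prime to `p` -/
theorem gal_pdG [CharZero K] [IsIdempotentComplete D] {V : C ⥤ D} [V.LaxMonoidal] [V.OplaxMonoidal] {H : Type}
    [Group H] [Fintype H] (G : GalFG K V H) (rC : Rig C) {ι : Type} [Fintype ι] [DecidableEq ι] {FC : Fus K C ι}
    {f : ι → ℝ} (hf : IsFPdim FC f) {ι' : Type} [Fintype ι'] [DecidableEq ι'] (FN : Fus K D ι') {p : ℕ}
    (hp : p.Prime) (hH : ¬ p ∣ Fintype.card H) (h : ∀ i, RelP p (f i)) :
    ∃ g : ι' → ℝ, IsFPdim FN g ∧ ∀ j, RelP p (g j) := by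
  refine ⟨_, Pool.Agent.SFC.G.fN_fp G.toH rC hf FN, fun j => ?_⟩
  exact Pool.Agent.SFC.G.gal_relP G.toH rC hf FN hp (by rwa [GalB_card]) h j

/-- the transfer of forms -/
theorem gal_formG [CharZero K] [IsAlgClosed K] [IsIdempotentComplete D] {V : C ⥤ D} [V.LaxMonoidal]
    [V.OplaxMonoidal] {H : Type} [Group H] [Fintype H] (G : GalFG K V H) {O : Subring K} (hO : Val O) (rC : Rig C)
    {ι : Type} [Fintype ι] [DecidableEq ι] {FC : Fus K C ι} {f : ι → ℝ} (hf : IsFPdim FC f) {ι' : Type}
    [Fintype ι'] [DecidableEq ι'] (FN : Fus K D ι') {p : ℕ} (hp : p.Prime) (hpO : ((p : K))⁻¹ ∉ O)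
    (hH : ¬ p ∣ Fintype.card H) (h : ∀ i, RelP p (f i)) (L : FN.Sy) (hL : FN.IsForm O L) :
    ∃ L' : FC.Sy, FC.IsForm O L' := by
  have hH' : ¬ p ∣ Fintype.card (Additive H) := by rwa [GalB_card]
  exact Pool.Agent.SFC.G.transfer G.toH hO (unit_of_coprime hO hp hpO hH') FC FN rC
    (fun i j u q huq => Pool.Agent.SFC.G.gal_sc G.toH rC hf FN hO hp hpO hH' h i j u q huq) L hL

end Pool.Agent.SFC
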