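import Pool.Agent.SFH.TwC
import Pool.Agent.SFC.AGc
import Pool.Agent.SFC.AReg
import Pool.Agent.SFC.BFa

/-!
# SFH/Gfa: the functor `x ↦ A x A` for a Galois algebra `A` has the properties `GalFG`
-/

set_option autoImplicit false

noncomputable section

open CategoryTheory MonoidalCategory
open scoped BigOperators

namespace Pool.Agent.SFC

open Pool.Agent.NFG Functor.LaxMonoidal Functor.OplaxMonoidal

universe v u w

section

variable {K : Type w} [Field K] {C : Type u} [Category.{v} C] [Preadditive C] [Linear K C] [MonoidalCategory C]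
  [MonoidalPreadditive C] [MonoidalLinear K C] {S : SFrob C}

omit [MonoidalPreadditive C] [MonoidalLinear K C] in
theorem id_unit_ne {ι : Type} [Fintype ι] [DecidableEq ι] (F : Fus K C ι) : 𝟙 (𝟙_ C) ≠ 0 := by
  intro h
  apply F.one_ne F.o
  rw [← F.u.hom_inv_id, ← Category.id_comp F.u.inv, h, Limits.zero_comp, Limits.comp_zero]

omit [MonoidalPreadditive C] [MonoidalLinear K C] in
theorem id_A_ne {ι : Type} [Fintype ι] [DecidableEq ι] (F : Fus K C ι) {c : K} (hc : c ≠ 0)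
    (h : S.one ≫ S.cn = c • 𝟙 (𝟙_ C)) : 𝟙 S.A ≠ 0 := by
  intro h0
  apply id_unit_ne F
  have h1 : S.one ≫ S.cn = 0 := by
    rw [← Category.id_comp S.cn, h0, Limits.zero_comp, Limits.comp_zero]
  rw [h1] at h
  have h2 := congrArg (fun t => c⁻¹ • t) h
  simpa [smul_smul, inv_mul_cancel₀ hc] using h2.symm

/-- the functor `x ↦ A x A` -/
def GalG.galF {ι : Type} [Fintype ι] [DecidableEq ι] (F : Fus K C ι) {H : Type} [Group H] [Fintype H]
    (Ga : GalG K S H) (hK : (Fintype.card H : K) ≠ 0) : GalFG K (VF S) H where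
  map_add f g := VF_add S f g
  map_smul c f := VF_smul S c f
  faithful := VF_faithful S Ga.dim hK
  frob1 := VF_frob1 S
  frob2 := VF_frob2 S
  card := VF_card S Ga.dim
  sep := VF_sep S
  retr Z := bim_retr Z
  avg T := ⟨_, VF_avg S T⟩
  reg f := bim_reg (fun f => fus_reg F f) f
  end1 f := bim_end1 S Ga.conn f
  A := S.A
  VV x y := ⟨VFVV S x y⟩
  HH x y := ⟨VFHH S x y⟩
  neA := id_A_ne F hK Ga.dim
  jA := Ga.jG
  pA := Ga.pG
  jpA := Ga.jG_pG
  orthA _ _ h := Ga.jG_pG_ne h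
  sumA := Ga.sum_pG_jG
  th := Ga.th
  k := Ga.kG
  j := Ga.qG
  kj := Ga.kG_qG
  orth _ _ h := Ga.kG_qG_ne h
  sum := Ga.sum_qG_kG
  k_mul := Ga.kG_mul
  k_one := Ga.k_one
  kη _ h := Ga.kG_vT h

theorem exists_galFG [CharZero K] {ι : Type} [Fintype ι] [DecidableEq ι] (F : Fus K C ι) {S : SFrob C} {H : Type}
    [Group H] [Fintype H] (Ga : GalG K S H) : ∃ G : GalFG K (VF S) H, Nonempty (G.A ≅ S.A) :=
  ⟨Ga.galF F (Nat.cast_ne_zero.2 Fintype.card_ne_zero), ⟨Iso.refl _⟩⟩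

end

end Pool.Agent.SFC
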