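import Pool.Agent.SFH.RedP
import Mathlib.RepresentationTheory.Irreducible

/-!
# SFH/Irr: the dimensions of the irreducible representations of the group of an equivariantization

Let `F : X ⥤ D` be the forgetful functor of the equivariantization `X = D ^ G` and `ρ` an irreducible representation of
`G` on `K ^ n`.

(1) `E.ess` for `Z := ⨁ fun _ : Fin n => 𝟙_ D` with
`z g := ∑ a b, ρ(g)_{b a} • (A.T g).map (π a) ≫ η (A.T g) ≫ ι b` gives an object `x` with `i : F x ≅ Z` (compare
`Eqv.exists_fun` in `SFC/HMa`, `Act.one_unit`, `Act.comp_unit` in `SFC/E1f`).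
(2) An endomorphism `f` of `x` gives an endomorphism of `Z`, i.e. a matrix (`End (𝟙_ D) = K`, `fus_end1 D.F`), which
commutes with all `ρ g` (naturality of `E.u g`), so it is a scalar by Schur's lemma.  So `x` is simple (`Smp K x`) and
`x ≅ S m` for some `m`.
(3) Let `A` be the algebra of functions on `G` (`E.exists_dqH (fus_end1 D.F)` in `SFC/HMg`):
`Hom (z, A ⊗ y) ≅ Hom (F z, F y)` linearly.  As `F x` is the sum of `n` copies of `𝟙 ≅ F 𝟙`,
`dim Hom (S j, A ⊗ x) = dim Hom (F (S j), F x) = n * dim Hom (F (S j), 𝟙) = n * dim Hom (S j, A ⊗ 𝟙)`.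
So `fo (A ⊗ x) = n * fo A`, and `f m = fo x = n`.
(4) `RelP p n` and `p ∣ n` are contradictory (`not_dvd_of_relPG` with `x = n`).
-/

set_option autoImplicit false

noncomputable section

open CategoryTheory MonoidalCategory
open scoped BigOperators

namespace Pool.Agent.SFC

open Pool.Agent.NFG

open Functor.LaxMonoidal Functor.OplaxMonoidal

universe v u v' u' w

section IrrAux

variable {K : Type w} [Field K] {C : Type u} [Category.{v} C] [Preadditive C] [Linear K C] [MonoidalCategory C]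
  {G : Type} [Group G] {D : Type u'} [Category.{v'} D] [Preadditive D] [Linear K D] [MonoidalCategory D]
  {A : Act K G D} {F : C ⥤ D} [F.Monoidal] [Limits.HasFiniteBiproducts D] {n : ℕ}

variable (D n) in
/-- the sum of `n` copies of the unit object -/
private def IrW : D := ⨁ fun _ : Fin n => 𝟙_ D

variable (D n) in
private def IrP (a : Fin n) : IrW D n ⟶ 𝟙_ D := Limits.biproduct.π (fun _ : Fin n => 𝟙_ D) a

variable (D n) in
private def IrJ (a : Fin n) : 𝟙_ D ⟶ IrW D n := Limits.biproduct.ι (fun _ : Fin n => 𝟙_ D) a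

private theorem Ir_ext {W : D} {f f' : W ⟶ IrW D n} (h : ∀ a, f ≫ IrP D n a = f' ≫ IrP D n a) : f = f' :=
  Limits.biproduct.hom_ext _ _ h

private theorem Ir_JP (a b : Fin n) : IrJ D n a ≫ IrP D n b = if a = b then 𝟙 (𝟙_ D) else 0 := by
  by_cases h : a = b
  · subst h
    rw [if_pos rfl]
    exact Limits.biproduct.ι_π_self _ _
  · rw [if_neg h]
    exact Limits.biproduct.ι_π_ne _ h

private theorem Ir_sum : ∑ a, IrP D n a ≫ IrJ D n a = 𝟙 (IrW D n) := Limits.biproduct.total

variable (A) in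
private def IrZ (M : G → Matrix (Fin n) (Fin n) K) (g : G) : (A.T g).obj (IrW D n) ⟶ IrW D n :=
  Limits.biproduct.lift fun b => ∑ a, M g b a • ((A.T g).map (IrP D n a) ≫ η (A.T g))

private theorem Ir_ZP (M : G → Matrix (Fin n) (Fin n) K) (g : G) (b : Fin n) :
    IrZ A M g ≫ IrP D n b = ∑ a, M g b a • ((A.T g).map (IrP D n a) ≫ η (A.T g)) :=
  Limits.biproduct.lift_π _ _

private theorem Ir_one (M : G → Matrix (Fin n) (Fin n) K) (h1 : M 1 = 1) :
    A.one.hom.app (IrW D n) ≫ IrZ A M 1 = 𝟙 _ := by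
  apply Ir_ext
  intro b
  have h : ∀ a, A.one.hom.app (IrW D n) ≫ (A.T 1).map (IrP D n a) ≫ η (A.T 1) = IrP D n a := by
    intro a
    have h2 := A.one.hom.naturality (IrP D n a)
    rw [Functor.id_map] at h2
    have h3 := A.one_unit
    rw [← reassoc_of% h2]
    erw [h3]
    exact Category.comp_id _
  rw [Category.assoc, Ir_ZP, Preadditive.comp_sum, Category.id_comp, Finset.sum_eq_single b]
  · rw [Linear.comp_smul, h, h1, Matrix.one_apply_eq, one_smul]
  · intro a _ ha
    rw [h1, Matrix.one_apply_ne (Ne.symm ha), zero_smul, Limits.comp_zero]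
  · intro hb
    exact absurd (Finset.mem_univ b) hb

private theorem Ir_Tsum (g : G) {x y : D} {κ : Type*} (t : Finset κ) (f : κ → (x ⟶ y)) :
    (A.T g).map (∑ a ∈ t, f a) = ∑ a ∈ t, (A.T g).map (f a) :=
  map_sum (AddMonoidHom.mk' (fun k : x ⟶ y => (A.T g).map k) (fun k l => A.map_add g k l)) _ _

private theorem Ir_mul (M : G → Matrix (Fin n) (Fin n) K) (hM : ∀ g h, M (g * h) = M g * M h) (g h gh : G)
    (e : g * h = gh) :
    (A.T g).map (IrZ A M h) ≫ IrZ A M g = (A.comp g h gh e).hom.app (IrW D n) ≫ IrZ A M gh := by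
  apply Ir_ext
  intro b
  have h2 := A.comp_unit g h gh e
  have h3 : ∀ c, (A.T g).map ((A.T h).map (IrP D n c)) ≫ (A.T g).map (η (A.T h)) ≫ η (A.T g) =
      (A.comp g h gh e).hom.app (IrW D n) ≫ (A.T gh).map (IrP D n c) ≫ η (A.T gh) := by
    intro c
    have h1 := (A.comp g h gh e).hom.naturality (IrP D n c)
    rw [Functor.comp_map] at h1
    rw [h2, reassoc_of% h1]
  have h4 : ∀ a, (A.T g).map (IrZ A M h) ≫ (A.T g).map (IrP D n a) ≫ η (A.T g) =
      ∑ c, M h a c • ((A.comp g h gh e).hom.app (IrW D n) ≫ (A.T gh).map (IrP D n c) ≫ η (A.T gh)) := by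
    intro a
    rw [← Functor.map_comp_assoc, Ir_ZP, Ir_Tsum, Preadditive.sum_comp]
    refine Finset.sum_congr rfl fun c _ => ?_
    rw [A.map_smul, Linear.smul_comp, Functor.map_comp, Category.assoc, h3]
  rw [Category.assoc, Category.assoc, Ir_ZP, Ir_ZP, Preadditive.comp_sum, Preadditive.comp_sum]
  have h5 : ∀ a, (A.T g).map (IrZ A M h) ≫ (M g b a • ((A.T g).map (IrP D n a) ≫ η (A.T g))) =
      ∑ c, (M g b a * M h a c) • ((A.comp g h gh e).hom.app (IrW D n) ≫ (A.T gh).map (IrP D n c) ≫ η (A.T gh)) := by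
    intro a
    rw [Linear.comp_smul, h4, Finset.smul_sum]
    exact Finset.sum_congr rfl fun c _ => smul_smul _ _ _
  rw [Finset.sum_congr rfl fun a _ => h5 a, Finset.sum_comm]
  refine Finset.sum_congr rfl fun c _ => ?_
  have h6 : M gh b c = ∑ a, M g b a * M h a c := by rw [← e, hM, Matrix.mul_apply]
  rw [Linear.comp_smul, ← Finset.sum_smul, h6]

/-- the object of the equivariantization given by a representation -/
theorem Eqv.exists_rep (E : Eqv K A F) (M : G → Matrix (Fin n) (Fin n) K) (h1 : M 1 = 1)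
    (hM : ∀ g h, M (g * h) = M g * M h) : ∃ (x : C) (p : Fin n → (F.obj x ⟶ 𝟙_ D)) (j : Fin n → (𝟙_ D ⟶ F.obj x)),
      (∀ a b, j a ≫ p b = if a = b then 𝟙 (𝟙_ D) else 0) ∧ ∑ a, p a ≫ j a = 𝟙 (F.obj x) ∧
      ∀ g b, (E.u g).hom.app x ≫ p b = ∑ a, M g b a • ((A.T g).map (p a) ≫ η (A.T g)) := by
  obtain ⟨x, i, hi⟩ := E.ess (IrW D n) (IrZ A M) (Ir_one M h1) (Ir_mul M hM)
  refine ⟨x, fun a => i.hom ≫ IrP D n a, fun a => IrJ D n a ≫ i.inv, fun a b => ?_, ?_, fun g b => ?_⟩
  · rw [Category.assoc, Iso.inv_hom_id_assoc, Ir_JP]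
  · have h2 : ∀ a, (i.hom ≫ IrP D n a) ≫ IrJ D n a ≫ i.inv = i.hom ≫ (IrP D n a ≫ IrJ D n a) ≫ i.inv := by
      intro a
      simp only [Category.assoc]
    rw [Finset.sum_congr rfl fun a _ => h2 a, ← Preadditive.comp_sum, ← Preadditive.sum_comp, Ir_sum,
      Category.id_comp, Iso.hom_inv_id]
  · rw [← reassoc_of% (hi g), Ir_ZP, Preadditive.comp_sum]
    refine Finset.sum_congr rfl fun a _ => ?_
    rw [Linear.comp_smul, Functor.map_comp, Category.assoc]

end IrrAux

section

variable {K : Type w} [Field K] {C : Type u} [Category.{v} C] [Preadditive C] [Linear K C] [MonoidalCategory C]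
  {G : Type} [Group G] {D : Type u'} [Category.{v'} D] [Preadditive D] [Linear K D] [MonoidalCategory D]
  {A : Act K G D} {F : C ⥤ D} [F.Monoidal] {n : ℕ}

/-- the matrix of an endomorphism commutes with the representation -/
private theorem Ir_comm (E : Eqv K A F) (M : G → Matrix (Fin n) (Fin n) K) {x : C} {p : Fin n → (F.obj x ⟶ 𝟙_ D)}
    {j : Fin n → (𝟙_ D ⟶ F.obj x)} (hjp : ∀ a b, j a ≫ p b = if a = b then 𝟙 (𝟙_ D) else 0)
    (hs : ∑ a, p a ≫ j a = 𝟙 (F.obj x))
    (hu : ∀ g b, (E.u g).hom.app x ≫ p b = ∑ a, M g b a • ((A.T g).map (p a) ≫ η (A.T g)))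
    (h0 : 𝟙 (𝟙_ D) ≠ 0) (f : x ⟶ x) (N : Matrix (Fin n) (Fin n) K)
    (hN : ∀ a b, j a ≫ F.map f ≫ p b = N b a • 𝟙 (𝟙_ D)) (g : G) : M g * N = N * M g := by
  have h1 : ∀ b, F.map f ≫ p b = ∑ c, N b c • p c := by
    intro b
    rw [← Category.id_comp (F.map f ≫ p b), ← hs, Preadditive.sum_comp]
    refine Finset.sum_congr rfl fun c _ => ?_
    rw [Category.assoc, hN, Linear.comp_smul, Category.comp_id]
  have h2 : (A.T g).map (F.map f) ≫ (E.u g).hom.app x = (E.u g).hom.app x ≫ F.map f := (E.u g).hom.naturality f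
  have hη : η (A.T g) ≠ 0 := by
    intro h
    apply h0
    rw [← Functor.Monoidal.ε_η (A.T g), h, Limits.comp_zero]
  have hT0 : (A.T g).map (0 : 𝟙_ D ⟶ 𝟙_ D) = 0 :=
    map_zero (AddMonoidHom.mk' (fun k : 𝟙_ D ⟶ 𝟙_ D => (A.T g).map k) (fun k l => A.map_add g k l))
  ext b a
  have h3 : (A.T g).map (j a) ≫ (A.T g).map (F.map f) ≫ (E.u g).hom.app x ≫ p b =
      (A.T g).map (j a) ≫ (E.u g).hom.app x ≫ F.map f ≫ p b := by
    rw [reassoc_of% h2]
  have h4 : ∀ c, (A.T g).map (j a) ≫ (A.T g).map (F.map f) ≫ (A.T g).map (p c) ≫ η (A.T g) = N c a • η (A.T g) := by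
    intro c
    rw [← Functor.map_comp_assoc, ← Functor.map_comp_assoc, Category.assoc, hN, A.map_smul, Linear.smul_comp,
      CategoryTheory.Functor.map_id, Category.id_comp]
  have h5 : ∀ c, (A.T g).map (j a) ≫ (A.T g).map (p c) ≫ η (A.T g) = if a = c then η (A.T g) else 0 := by
    intro c
    rw [← Functor.map_comp_assoc, hjp]
    by_cases h : a = c
    · rw [if_pos h, if_pos h, CategoryTheory.Functor.map_id, Category.id_comp]
    · rw [if_neg h, if_neg h, hT0, Limits.zero_comp]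
  have h6 : (A.T g).map (j a) ≫ (A.T g).map (F.map f) ≫ (E.u g).hom.app x ≫ p b =
      (M g * N) b a • η (A.T g) := by
    rw [hu, Preadditive.comp_sum, Preadditive.comp_sum, Matrix.mul_apply, Finset.sum_smul]
    refine Finset.sum_congr rfl fun c _ => ?_
    rw [Linear.comp_smul, Linear.comp_smul, h4, smul_smul]
  have h7 : (A.T g).map (j a) ≫ (E.u g).hom.app x ≫ F.map f ≫ p b = (N * M g) b a • η (A.T g) := by
    rw [h1, Preadditive.comp_sum, Preadditive.comp_sum, Matrix.mul_apply, Finset.sum_smul]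
    refine Finset.sum_congr rfl fun c _ => ?_
    rw [Linear.comp_smul, Linear.comp_smul, hu, Preadditive.comp_sum, Finset.sum_eq_single a]
    · rw [Linear.comp_smul, h5, if_pos rfl, smul_smul]
    · intro d _ hd
      rw [Linear.comp_smul, h5, if_neg (Ne.symm hd), smul_zero]
    · intro ha
      exact absurd (Finset.mem_univ a) ha
  rw [h6, h7] at h3
  have h8 : ((M g * N) b a - (N * M g) b a) • η (A.T g) = 0 := by
    rw [sub_smul, h3, sub_self]
  rcases smul_eq_zero.1 h8 with h | h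
  · exact sub_eq_zero.1 h
  · exact absurd h hη

end

section

variable {K : Type w} [Field K] {G : Type} [Group G] {n : ℕ}

/-- Schur's lemma for matrices -/
private theorem Ir_schur [IsAlgClosed K] (ρ : Representation K G (Fin n → K)) (hρ : ρ.IsIrreducible)
    (N : Matrix (Fin n) (Fin n) K) (hN : ∀ g, LinearMap.toMatrix' (ρ g) * N = N * LinearMap.toMatrix' (ρ g)) :
    ∃ c : K, N = c • (1 : Matrix (Fin n) (Fin n) K) := by
  have h1 : ∀ g v, Matrix.toLin' N (ρ g v) = ρ g (Matrix.toLin' N v) := by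
    intro g v
    have h2 := congrArg (fun t => Matrix.toLin' t v) (hN g)
    simp only [Matrix.toLin'_mul, Matrix.toLin'_toMatrix', LinearMap.comp_apply] at h2
    exact h2.symm
  let f : Representation.IntertwiningMap ρ ρ := LinearMap.intertwiningMap_of_isIntertwiningMap _ _ (Matrix.toLin' N) h1
  have := hρ
  obtain ⟨c, hc⟩ := (Representation.IsIrreducible.algebraMap_intertwiningMap_bijective_of_isAlgClosed (ρ := ρ)).2 f
  refine ⟨c, ?_⟩
  apply Matrix.toLin'.injective
  ext1 a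
  have h3 : ∀ v, f v = c • v := by
    intro v
    rw [← hc]
    rfl
  ext b
  have h4 : Matrix.toLin' N (Pi.single a 1) b = (c • (Pi.single a 1 : Fin n → K)) b := congrFun (h3 (Pi.single a 1)) b
  simpa using h4

end

variable {K : Type w} [Field K] [IsAlgClosed K] [CharZero K]

/-- the object of the equivariantization given by an irreducible representation is simple -/
private theorem Ir_smp {D X : FC.{v, u} K} {G : Type} [Group G] [Finite G] {A : Act K G D.C} {F : X.C ⥤ D.C}
    [F.Monoidal] (E : Eqv K A F) {n : ℕ} (ρ : Representation K G (Fin n → K)) (hρ : ρ.IsIrreducible) :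
    ∃ (x : X.C) (p : Fin n → (F.obj x ⟶ 𝟙_ D.C)) (j : Fin n → (𝟙_ D.C ⟶ F.obj x)),
      (∀ a b, j a ≫ p b = if a = b then 𝟙 (𝟙_ D.C) else 0) ∧ ∑ a, p a ≫ j a = 𝟙 (F.obj x) ∧ Smp K x := by
  classical
  have := Fintype.ofFinite G
  obtain ⟨x, p, j, hjp, hs, hu⟩ := E.exists_rep (fun g => LinearMap.toMatrix' (ρ g))
    (by rw [map_one]; exact LinearMap.toMatrix'_one) (fun g h => by rw [map_mul]; exact LinearMap.toMatrix'_mul _ _)
  have h0 : 𝟙 (𝟙_ D.C) ≠ 0 := (fus_unit D.F).1
  have hn : 0 < n := by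
    rcases Nat.eq_zero_or_pos n with rfl | h
    · exfalso
      have := hρ
      haveI : Nontrivial (Subrepresentation ρ) := inferInstance
      obtain ⟨S, T, hST⟩ := exists_pair_ne (Subrepresentation ρ)
      apply hST
      ext v
      have hv : v = 0 := Subsingleton.elim _ _
      rw [hv]
      exact ⟨fun _ => T.toSubmodule.zero_mem, fun _ => S.toSubmodule.zero_mem⟩
    · exact h
  refine ⟨x, p, j, hjp, hs, ?_, fun f => ?_⟩
  · intro h
    apply h0
    have h1 : 𝟙 (F.obj x) = 0 := by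
      rw [← F.map_id, h]
      exact map_zero (AddMonoidHom.mk' (fun g : x ⟶ x => F.map g) (fun g h => E.map_add g h))
    have h2 := hjp ⟨0, hn⟩ ⟨0, hn⟩
    rw [if_pos rfl] at h2
    rw [← h2, ← Category.id_comp (p _), h1, Limits.zero_comp, Limits.comp_zero]
  · choose N hN using fun b a => fus_end1 D.F (j a ≫ F.map f ≫ p b)
    obtain ⟨c, hc⟩ := Ir_schur ρ hρ (Matrix.of N)
      (fun g => Ir_comm E _ hjp hs hu h0 f (Matrix.of N) (fun a b => hN b a) g)
    refine ⟨c, E.thH.faithful ?_⟩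
    rw [E.map_smul, F.map_id]
    have h1 : ∀ a b, j a ≫ F.map f ≫ p b = j a ≫ (c • 𝟙 (F.obj x)) ≫ p b := by
      intro a b
      rw [hN, Linear.smul_comp, Linear.comp_smul, Category.id_comp, hjp]
      have h2 : N b a = c • (1 : Matrix (Fin n) (Fin n) K) b a := congrFun (congrFun hc b) a
      rw [h2, Matrix.one_apply]
      by_cases h : a = b
      · rw [if_pos h, if_pos h.symm, smul_eq_mul, mul_one]
      · rw [if_neg h, if_neg (Ne.symm h), smul_zero, zero_smul, smul_zero]
    have h3 : ∀ t : F.obj x ⟶ F.obj x, t = ∑ a, ∑ b, p a ≫ (j a ≫ t ≫ p b) ≫ j b := by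
      intro t
      have h4 : t = 𝟙 _ ≫ t ≫ 𝟙 _ := by rw [Category.comp_id, Category.id_comp]
      conv_lhs => rw [h4, ← hs, Preadditive.sum_comp]
      refine Finset.sum_congr rfl fun a _ => ?_
      rw [Preadditive.comp_sum, Preadditive.comp_sum]
      refine Finset.sum_congr rfl fun b _ => ?_
      simp only [Category.assoc]
    rw [h3 (F.map f), h3 (c • 𝟙 (F.obj x))]
    exact Finset.sum_congr rfl fun a _ => Finset.sum_congr rfl fun b _ => by rw [h1]

/-- the dimension of an object over a trivial object -/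
private theorem Ir_fo {D X : FC.{v, u} K} {G : Type} [Group G] [Finite G] {A : Act K G D.C} {F : X.C ⥤ D.C}
    [F.Monoidal] (E : Eqv K A F) {n : ℕ} {x : X.C} {p : Fin n → (F.obj x ⟶ 𝟙_ D.C)} {j : Fin n → (𝟙_ D.C ⟶ F.obj x)}
    (hjp : ∀ a b, j a ≫ p b = if a = b then 𝟙 (𝟙_ D.C) else 0) (hs : ∑ a, p a ≫ j a = 𝟙 (F.obj x))
    {f : X.ι → ℝ} (hf : IsFPdim X.F f) : fo X.F f x = n := by
  classical
  haveI := Fintype.ofFinite G
  obtain ⟨S, ⟨Q⟩⟩ := E.exists_dqH (fus_end1 D.F)
  let L : ∀ z y : X.C, (z ⟶ S.A ⊗ y) ≃ₗ[K] (F.obj z ⟶ F.obj y) := fun z y =>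
    LinearEquiv.ofBijective
      { toFun := fun k => F.map k ≫ Q.act y
        map_add' := fun k l => by rw [Q.map_add, Preadditive.add_comp]
        map_smul' := fun c k => by rw [Q.map_smul, Linear.smul_comp]; rfl }
      ⟨fun k l hkl => (Q.act_univ (F.map l ≫ Q.act y)).unique hkl rfl, fun h => (Q.act_univ h).exists⟩
  have h1 : ∀ z : X.C, Module.finrank K (F.obj z ⟶ F.obj (𝟙_ X.C)) = Module.finrank K (F.obj z ⟶ 𝟙_ D.C) := by
    intro z
    exact (Linear.homCongr K (Iso.refl (F.obj z)) (Functor.Monoidal.εIso F).symm).finrank_eq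
  have h2 : ∀ k, Module.finrank K (F.obj (X.F.S k) ⟶ F.obj x) =
      n * Module.finrank K (F.obj (X.F.S k) ⟶ 𝟙_ D.C) := by
    intro k
    let P : (F.obj (X.F.S k) ⟶ F.obj x) ≃ₗ[K] (Fin n → (F.obj (X.F.S k) ⟶ 𝟙_ D.C)) :=
      { toFun := fun g a => g ≫ p a
        map_add' := fun g h => funext fun a => Preadditive.add_comp _ _ _ _ _ _
        map_smul' := fun c g => funext fun a => Linear.smul_comp _ _ _ _ _ _
        invFun := fun g => ∑ a, g a ≫ j a
        left_inv := fun g => by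
          show ∑ a, (g ≫ p a) ≫ j a = g
          conv_rhs => rw [← Category.comp_id g, ← hs, Preadditive.comp_sum]
          exact Finset.sum_congr rfl fun a _ => Category.assoc _ _ _
        right_inv := fun g => by
          funext b
          show (∑ a, g a ≫ j a) ≫ p b = g b
          rw [Preadditive.sum_comp, Finset.sum_eq_single b]
          · rw [Category.assoc, hjp, if_pos rfl, Category.comp_id]
          · intro a _ hab
            rw [Category.assoc, hjp, if_neg hab, Limits.comp_zero]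
          · intro hb
            exact absurd (Finset.mem_univ b) hb }
    rw [P.finrank_eq]
    haveI : FiniteDimensional K (F.obj (X.F.S k) ⟶ 𝟙_ D.C) := by
      haveI : FiniteDimensional K (X.F.S k ⟶ S.A ⊗ 𝟙_ X.C) := fin_hom X.F _ k
      haveI := (L (X.F.S k) (𝟙_ X.C)).finiteDimensional
      exact (Linear.homCongr K (Iso.refl (F.obj (X.F.S k))) (Functor.Monoidal.εIso F).symm).finiteDimensional
    rw [Module.finrank_pi_fintype, Finset.sum_const, Finset.card_univ, Fintype.card_fin, smul_eq_mul]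
  have h3 : ∀ k, Module.finrank K (X.F.S k ⟶ S.A ⊗ x) = n * Module.finrank K (X.F.S k ⟶ S.A ⊗ 𝟙_ X.C) := by
    intro k
    rw [(L (X.F.S k) x).finrank_eq, h2, (L (X.F.S k) (𝟙_ X.C)).finrank_eq, h1]
  have h4 : fo X.F f (S.A ⊗ x) = n * fo X.F f (S.A ⊗ 𝟙_ X.C) := by
    unfold fo
    rw [Finset.mul_sum]
    refine Finset.sum_congr rfl fun k _ => ?_
    rw [h3, Nat.cast_mul]
    ring
  rw [fo_tensor hf, fo_tensor hf, fo_one hf, mul_one] at h4
  have hA : 𝟙 S.A ≠ 0 := by
    intro h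
    have h5 : F.map S.one ≫ Q.chi = η F := Q.one_chi
    have h6 : S.one = 0 := by rw [← Category.comp_id S.one, h, Limits.comp_zero]
    have h7 : F.map S.one = 0 := by
      rw [h6]
      exact map_zero (AddMonoidHom.mk' (fun g : 𝟙_ X.C ⟶ S.A => F.map g) (fun g h => E.map_add g h))
    apply (fus_unit D.F).1
    rw [← Functor.Monoidal.ε_η F, ← h5, h7, Limits.zero_comp, Limits.comp_zero]
  have h8 := fo_pos hf hA
  rw [mul_comm] at h4
  exact mul_right_cancel₀ h8.ne' h4

theorem irr_dim {D X : FC.{v, u} K} {G : Type} [Group G] [Finite G] {A : Act K G D.C} {F : X.C ⥤ D.C} [F.Monoidal]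
    (E : Eqv K A F) {p : ℕ} (hp : p.Prime) (hX : PDG p X) {n : ℕ} (ρ : Representation K G (Fin n → K))
    (hρ : ρ.IsIrreducible) : ¬ p ∣ n := by
  obtain ⟨f, hf, hr⟩ := hX
  obtain ⟨x, q, j, hjp, hs, hx⟩ := Ir_smp E ρ hρ
  obtain ⟨m, ⟨e⟩⟩ := smp_ex X.F hx
  have h1 : f m = n := by
    rw [← fo_S X.F f m, fo_iso X.F f e]
    exact Ir_fo E hjp hs hf
  intro h
  have h2 := hr m
  refine not_dvd_of_relPG hp h2 (n := n ^ 2) ?_ (dvd_pow h two_ne_zero)
  rw [h1, Nat.cast_pow]

end Pool.Agent.SFC
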