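import Mathlib

/-!
# SFH/PBa: the central idempotents of a product of matrix algebras

`A = ∏ i : Fin n, Matrix (Fin (d i)) (Fin (d i)) K`, all `d i ≠ 0`; `e i = Pi.single i 1`.
`perm_blk`: an algebra automorphism `f` permutes the `e i`: the `f (e i)` are orthogonal central idempotents with sum `1`.  A central idempotent of `A` is `∑ i ∈ s, e i` (the center of a matrix algebra is `K`:
`Matrix.mem_center_iff` or `Matrix.center_eq..`; an idempotent of `K` is `0` or `1`).  Let `f (e i) = ∑ j ∈ s i, e j`; the sets `s i` are disjoint and nonempty with union everything, so `n` disjoint nonempty subsets of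
`Fin n`: all are singletons.
`card_blk`: if `α : G →* (A ≃ₐ[K] A)` has only the scalars as common fixed points, then `G` acts transitively on the indices `i` (for an orbit `s` the element `∑ i ∈ s, e i` is fixed, so it is a scalar, so `s` is everything).
-/

set_option autoImplicit false

open scoped BigOperators

namespace Pool.Agent.SFC

variable {K : Type*} [Field K] {n : ℕ} {d : Fin n → ℕ}

/-- the product of matrix algebras -/
abbrev MatP (K : Type*) [Field K] {n : ℕ} (d : Fin n → ℕ) : Type _ := ∀ i : Fin n, Matrix (Fin (d i)) (Fin (d i)) K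

/-- the central idempotents -/
def eB (K : Type*) [Field K] {n : ℕ} (d : Fin n → ℕ) (i : Fin n) : MatP K d := Pi.single i 1

private theorem PBa_self (i : Fin n) : eB K d i i = 1 := by
  simp [eB]

private theorem PBa_ne {i j : Fin n} (h : j ≠ i) : eB K d i j = 0 := by
  simp [eB, h]

private theorem PBa_one_ne (hd : ∀ i, d i ≠ 0) (i : Fin n) :
    (1 : Matrix (Fin (d i)) (Fin (d i)) K) ≠ 0 := by
  have : NeZero (d i) := ⟨hd i⟩
  exact one_ne_zero

private theorem PBa_inj (hd : ∀ i, d i ≠ 0) {i j : Fin n} (h : eB K d i = eB K d j) : i = j := by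
  by_contra hne
  have h1 := congrFun h i
  rw [PBa_self, PBa_ne (by exact hne)] at h1
  exact PBa_one_ne hd i h1

private theorem PBa_central (i : Fin n) (x : MatP K d) : eB K d i * x = x * eB K d i := by
  funext j
  by_cases h : j = i
  · subst h
    simp [Pi.mul_apply, PBa_self]
  · simp [Pi.mul_apply, PBa_ne h]

private theorem PBa_comp (hd : ∀ i, d i ≠ 0) (z : MatP K d) (hz : ∀ x, z * x = x * z) (hi : z * z = z)
    (j : Fin n) : z j = 0 ∨ z j = 1 := by
  have : NeZero (d j) := ⟨hd j⟩
  have hc : z j ∈ Set.center (Matrix (Fin (d j)) (Fin (d j)) K) := by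
    rw [Semigroup.mem_center_iff]
    intro g
    have h := congrFun (hz (Pi.single j g)) j
    simpa [Pi.mul_apply] using h.symm
  have hc' : z j ∈ Set.range (Matrix.scalar (Fin (d j)) : K →+* Matrix (Fin (d j)) (Fin (d j)) K) := by
    rw [Matrix.mem_range_scalar_iff_commute_single']
    intro a b
    rw [Semigroup.mem_center_iff] at hc
    exact hc _
  obtain ⟨c, hc⟩ := hc'
  have hcc : c * c = c := by
    have h := congrFun hi j
    rw [Pi.mul_apply, ← hc, ← map_mul] at h
    exact (Matrix.scalar_inj).1 h
  rcases IsIdempotentElem.iff_eq_zero_or_one.1 (show IsIdempotentElem c from hcc) with h | h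
  · left
    rw [← hc, h, map_zero]
  · right
    rw [← hc, h, map_one]

theorem perm_blk (hd : ∀ i, d i ≠ 0) (f : MatP K d ≃ₐ[K] MatP K d) :
    ∃ π : Equiv.Perm (Fin n), ∀ i, f (eB K d i) = eB K d (π i) := by
  classical
  have hcomp : ∀ i j, f (eB K d i) j = 0 ∨ f (eB K d i) j = 1 := by
    intro i j
    apply PBa_comp hd
    · intro x
      obtain ⟨y, rfl⟩ := f.surjective x
      rw [← map_mul, ← map_mul, PBa_central]
    · rw [← map_mul]
      congr 1
      funext k
      by_cases h : k = i
      · subst h
        simp [Pi.mul_apply, PBa_self]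
      · simp [Pi.mul_apply, PBa_ne h]
  have hne : ∀ i, ∃ j, f (eB K d i) j = 1 := by
    intro i
    by_contra hcon
    push Not at hcon
    have h0 : f (eB K d i) = 0 := by
      funext j
      exact (hcomp i j).resolve_right (hcon j)
    have h1 : eB K d i = 0 := f.injective (by rw [h0, map_zero])
    have h2 := congrFun h1 i
    rw [PBa_self] at h2
    exact PBa_one_ne hd i h2
  have hdisj : ∀ i i' j, f (eB K d i) j = 1 → f (eB K d i') j = 1 → i = i' := by
    intro i i' j h h'
    by_contra hii
    have h0 : eB K d i * eB K d i' = 0 := by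
      funext k
      by_cases hk : k = i
      · subst hk
        rw [Pi.mul_apply, PBa_ne hii, mul_zero]
        rfl
      · rw [Pi.mul_apply, PBa_ne hk, zero_mul]
        rfl
    have h1 : f (eB K d i) * f (eB K d i') = 0 := by rw [← map_mul, h0, map_zero]
    have h2 := congrFun h1 j
    rw [Pi.mul_apply, h, h', one_mul] at h2
    exact PBa_one_ne hd j h2
  choose p hp using hne
  have hinj : Function.Injective p := by
    intro i i' h
    exact hdisj i i' (p i) (hp i) (h ▸ hp i')
  have hbij : Function.Bijective p := Finite.injective_iff_bijective.1 hinj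
  refine ⟨Equiv.ofBijective p hbij, ?_⟩
  intro i
  funext j
  obtain ⟨i', rfl⟩ := hbij.2 j
  show f (eB K d i) (p i') = eB K d (p i) (p i')
  by_cases h : i' = i
  · subst h
    rw [hp, PBa_self]
  · rw [PBa_ne (fun h' => h (hinj h'))]
    exact (hcomp i _).resolve_right (fun h' => h (hdisj i' i _ (hp i') h'))

/-- the action on the indices -/
theorem exists_act (hd : ∀ i, d i ≠ 0) {G : Type*} [Group G] (α : G →* (MatP K d ≃ₐ[K] MatP K d)) :
    ∃ π : G →* Equiv.Perm (Fin n), ∀ g i, α g (eB K d i) = eB K d (π g i) := by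
  choose π hπ using fun g => perm_blk hd (α g)
  refine ⟨⟨⟨π, ?_⟩, ?_⟩, hπ⟩
  · ext i : 1
    apply PBa_inj (K := K) hd
    rw [← hπ, map_one]
    rfl
  · intro g h
    ext i : 1
    apply PBa_inj (K := K) hd
    rw [← hπ, map_mul]
    show α g (α h (eB K d i)) = _
    rw [hπ, hπ]
    rfl

theorem trans_blk (hd : ∀ i, d i ≠ 0) {G : Type*} [Group G] [Finite G] (α : G →* (MatP K d ≃ₐ[K] MatP K d))
    (hα : ∀ b, (∀ g, α g b = b) → ∃ c : K, b = algebraMap K (MatP K d) c) (π : G →* Equiv.Perm (Fin n))
    (hπ : ∀ g i, α g (eB K d i) = eB K d (π g i)) (i j : Fin n) : ∃ g, π g i = j := by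
  classical
  set s : Finset (Fin n) := Finset.univ.filter (fun k => ∃ g, π g i = k) with hs
  have hmem : ∀ k, k ∈ s ↔ ∃ g, π g i = k := by
    intro k
    simp [hs]
  set b : MatP K d := ∑ k ∈ s, eB K d k with hb
  have hbk : ∀ k, b k = if k ∈ s then 1 else 0 := by
    intro k
    rw [hb, Finset.sum_apply]
    split_ifs with h
    · rw [Finset.sum_eq_single k]
      · exact PBa_self k
      · intro l _ hl
        exact PBa_ne (Ne.symm hl)
      · intro h'
        exact absurd h h'
    · apply Finset.sum_eq_zero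
      intro l hl
      apply PBa_ne
      rintro rfl
      exact h hl
  have hfix : ∀ g, α g b = b := by
    intro g
    rw [hb, map_sum]
    refine Finset.sum_bij (fun k _ => π g k) ?_ ?_ ?_ ?_
    · intro k hk
      obtain ⟨h, rfl⟩ := (hmem k).1 hk
      exact (hmem _).2 ⟨g * h, by rw [map_mul]; rfl⟩
    · intro k _ l _ h
      exact (π g).injective h
    · intro k hk
      obtain ⟨h, rfl⟩ := (hmem k).1 hk
      refine ⟨π g⁻¹ (π h i), (hmem _).2 ⟨g⁻¹ * h, by rw [map_mul]; rfl⟩, ?_⟩
      rw [map_inv]
      exact Equiv.apply_symm_apply _ _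
    · intro k _
      exact hπ g k
  obtain ⟨c, hc⟩ := hα b hfix
  have hi : i ∈ s := (hmem i).2 ⟨1, by rw [map_one]; rfl⟩
  have h1 : algebraMap K (Matrix (Fin (d i)) (Fin (d i)) K) c = 1 := by
    have h := congrFun hc i
    rw [hbk, if_pos hi] at h
    exact h.symm
  have hc1 : c = 1 := by
    have : NeZero (d i) := ⟨hd i⟩
    apply (algebraMap K (Matrix (Fin (d i)) (Fin (d i)) K)).injective
    rw [h1, map_one]
  by_contra hj
  have hjs : j ∉ s := fun h => hj ((hmem j).1 h)
  have h := congrFun hc j
  rw [hbk, if_neg hjs, hc1, map_one] at h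
  exact PBa_one_ne (K := K) hd j h.symm

end Pool.Agent.SFC
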