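import Mathlib

/-!
# SFH/PBb: two commuting group actions on a matrix algebra
-/

set_option autoImplicit false

namespace Pool.Agent.SFC

private theorem PBb_inner {K : Type*} [Field K] {d : ℕ} (f : Matrix (Fin d) (Fin d) K ≃ₐ[K] Matrix (Fin d) (Fin d) K) :
    ∃ w w' : Matrix (Fin d) (Fin d) K, w * w' = 1 ∧ w' * w = 1 ∧ ∀ b, f b = w * b * w' := by
  let e : Matrix (Fin d) (Fin d) K ≃ₐ[K] Module.End K (Fin d → K) := Matrix.toLinAlgEquiv'
  obtain ⟨T, hT⟩ := AlgEquiv.eq_linearEquivConjAlgEquiv (e.symm.trans (f.trans e))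
  refine ⟨e.symm (T : (Fin d → K) →ₗ[K] (Fin d → K)), e.symm (T.symm : (Fin d → K) →ₗ[K] (Fin d → K)), ?_, ?_, ?_⟩
  · rw [← map_mul, ← map_one e.symm]
    congr 1
    ext x
    simp
  · rw [← map_mul, ← map_one e.symm]
    congr 1
    ext x
    simp
  · intro b
    have h1 := DFunLike.congr_fun hT (e b)
    rw [AlgEquiv.trans_apply, AlgEquiv.trans_apply, AlgEquiv.symm_apply_apply, LinearEquiv.conjAlgEquiv_apply] at h1
    rw [← e.symm_apply_apply (f b), h1]
    have h2 : (T : (Fin d → K) →ₗ[K] (Fin d → K)) ∘ₗ e b ∘ₗ (T.symm : (Fin d → K) →ₗ[K] (Fin d → K)) =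
        (T : (Fin d → K) →ₗ[K] (Fin d → K)) * e b * (T.symm : (Fin d → K) →ₗ[K] (Fin d → K)) := rfl
    rw [h2, map_mul, map_mul, AlgEquiv.symm_apply_apply]

private theorem PBb_prime {G : Type*} [Group G] [Finite G] [IsSimpleGroup G] {d : ℕ} (h : ∀ g h : G, g * h = h * g)
    (hd : d ^ 2 = Nat.card G) : False := by
  let inst : CommGroup G := { ‹Group G› with mul_comm := h }
  have h1 : (Nat.card G).Prime := IsSimpleGroup.prime_card
  rw [← hd] at h1
  exact Nat.Prime.not_prime_pow le_rfl h1

theorem mat_case {K : Type*} [Field K] {d : ℕ} {G G' : Type*} [Group G] [Finite G] [IsSimpleGroup G] [Group G']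
    (α : G →* (Matrix (Fin d) (Fin d) K ≃ₐ[K] Matrix (Fin d) (Fin d) K))
    (β : G' →* (Matrix (Fin d) (Fin d) K ≃ₐ[K] Matrix (Fin d) (Fin d) K))
    (hc : ∀ g g' b, α g (β g' b) = β g' (α g b))
    (hα : ∀ b, (∀ g, α g b = b) → ∃ c : K, b = algebraMap K _ c)
    (hβ : ∀ b, (∀ g, β g b = b) → ∃ c : K, b = algebraMap K _ c) (hd : d ^ 2 = Nat.card G) : False := by
  classical
  have hG : 1 < Nat.card G := Finite.one_lt_card_iff_nontrivial.mpr inferInstance
  have hd2 : 2 ≤ d := by
    by_contra hlt
    have h1 : d = 0 ∨ d = 1 := by omega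
    rcases h1 with rfl | rfl
    · rw [← hd] at hG
      norm_num at hG
    · rw [← hd] at hG
      norm_num at hG
  have : Nontrivial (Matrix (Fin d) (Fin d) K) := by
    have : Nonempty (Fin d) := ⟨⟨0, by omega⟩⟩
    infer_instance
  have hβ1 : ∀ g' b, β g' b = b := by
    intro g' b
    obtain ⟨w, w', h1, h2, hw⟩ := PBb_inner (β g')
    have hw0 : w ≠ 0 := by
      rintro rfl
      rw [zero_mul] at h1
      exact zero_ne_one h1
    have hsc : ∀ g, ∃ c : K, α g w = c • w := by
      intro g
      have h3 : ∀ b, b * (w' * α g w) = (w' * α g w) * b := by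
        intro b
        obtain ⟨b, rfl⟩ := (α g).surjective b
        have h4 := hc g g' b
        rw [hw, hw, map_mul, map_mul] at h4
        have h5 : α g w' * α g w = 1 := by rw [← map_mul, h2, map_one]
        have h6 : w' * (α g w * α g b * α g w') * α g w = w' * (w * α g b * w') * α g w := by rw [h4]
        have h7 : w' * (α g w * α g b * α g w') * α g w = w' * α g w * α g b * (α g w' * α g w) := by
          simp only [mul_assoc]
        have h8 : w' * (w * α g b * w') * α g w = (w' * w) * α g b * (w' * α g w) := by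
          simp only [mul_assoc]
        rw [h7, h8, h5, h2, mul_one, one_mul] at h6
        exact h6.symm
      have h9 : w' * α g w ∈ Subalgebra.center K (Matrix (Fin d) (Fin d) K) := by
        rw [Subalgebra.mem_center_iff]
        exact h3
      obtain ⟨c, hc'⟩ := Algebra.IsCentral.mem_center_iff K |>.mp h9
      refine ⟨c, ?_⟩
      calc α g w = (w * w') * α g w := by rw [h1, one_mul]
        _ = w * (w' * α g w) := mul_assoc _ _ _
        _ = c • w := by rw [hc', ← Algebra.commutes, Algebra.smul_def]
    choose c hcw using hsc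
    have hinj : ∀ x y : K, x • w = y • w → x = y := by
      intro x y hxy
      by_contra hne
      have h3 : (x - y) • w = 0 := by rw [sub_smul, hxy, sub_self]
      rcases smul_eq_zero.mp h3 with h4 | h4
      · exact hne (sub_eq_zero.mp h4)
      · exact hw0 h4
    have hc1 : c 1 = 1 := by
      apply hinj
      rw [← hcw, map_one, one_smul]
      rfl
    have hcm : ∀ g h, c (g * h) = c g * c h := by
      intro g h
      apply hinj
      rw [← hcw, map_mul, AlgEquiv.mul_apply, hcw h, map_smul, hcw g, smul_smul, mul_comm]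
    let χ : G →* K := { toFun := c, map_one' := hc1, map_mul' := hcm }
    have hker : ∀ g, c g = 1 := by
      rcases (MonoidHom.normal_ker χ.toHomUnits).eq_bot_or_eq_top with h3 | h3
      · exfalso
        have h4 : Function.Injective χ.toHomUnits := (MonoidHom.ker_eq_bot_iff _).mp h3
        have h5 : ∀ g h : G, g * h = h * g := by
          intro g h
          apply h4
          rw [map_mul, map_mul, mul_comm]
        exact PBb_prime h5 hd
      · intro g
        have h4 : g ∈ MonoidHom.ker χ.toHomUnits := by rw [h3]; exact Subgroup.mem_top g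
        rw [MonoidHom.mem_ker] at h4
        have h5 := congrArg (fun u : Kˣ => (u : K)) h4
        have h6 : χ g = 1 := by simpa using h5
        exact h6
    obtain ⟨t, ht⟩ := hα w fun g => by rw [hcw, hker, one_smul]
    rw [hw, ht, Algebra.commutes, mul_assoc, ← ht, h1, mul_one]
  obtain ⟨t, ht⟩ := hβ (Matrix.single ⟨0, by omega⟩ ⟨1, by omega⟩ 1) fun g => hβ1 g _
  have h3 := congrFun (congrFun ht ⟨0, by omega⟩) ⟨1, by omega⟩
  rw [Matrix.algebraMap_matrix_apply, Matrix.single_apply_same, if_neg (by simp)] at h3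
  exact one_ne_zero h3

end Pool.Agent.SFC
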