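import Pool.Agent.SFH.PBa
import Pool.Agent.SFH.PBb

/-!
# SFH/PBc: two commuting group actions on a semisimple algebra

`IsSemisimpleRing.exists_algEquiv_pi_matrix_of_isAlgClosed`: `B ≃ MatP K d`, `d i ≠ 0`; transport `α`, `β`.  `n ≠ 0` (`B` nontrivial).  `π`, `π'` the actions of `G`, `G'` on `Fin n` (`exists_act`), transitive (`trans_blk`), commuting (`hc`; the
`eB i` are distinct).  If `π g i = i` for some `i` then `π g = 1` (`π' ` is transitive and commutes with `π g`).  The kernel of `π` is `⊥` or `⊤` (`IsSimpleGroup`).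
`⊤`: transitivity gives `n = 1`; `Fin 1`: `B ≃ Matrix (Fin (d 0)) (Fin (d 0)) K`, `d 0 ^ 2 = finrank = |G|`: `mat_case`.
`⊥`: the map `g ↦ π g 0` is a bijection `G → Fin n`, so `n = |G| = finrank B = ∑ d i ^ 2`, so all `d i = 1`, and `e = eB 0` (transported to `B`) satisfies `b * e = c • e` (`b 0` is a `1 × 1` matrix).
-/

set_option autoImplicit false

namespace Pool.Agent.SFC

open scoped BigOperators

private theorem PBc_fix {K : Type*} [Field K] {A B : Type*} [Ring A] [Algebra K A] [Ring B] [Algebra K B]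
    {G : Type*} [Group G] (α : G →* (B ≃ₐ[K] B)) (Φ : B ≃ₐ[K] A)
    (hα : ∀ b, (∀ g, α g b = b) → ∃ c : K, b = algebraMap K B c) :
    ∀ a, (∀ g, ((AlgEquiv.autCongr Φ).toMonoidHom.comp α) g a = a) → ∃ c : K, a = algebraMap K A c := by
  intro a ha
  obtain ⟨c, hc⟩ := hα (Φ.symm a) (fun g => by
    have h1 : Φ (α g (Φ.symm a)) = a := ha g
    exact (AlgEquiv.eq_symm_apply Φ).2 h1)
  refine ⟨c, ?_⟩
  rw [← Φ.commutes, ← hc, Φ.apply_symm_apply]

private theorem PBc_comm {K : Type*} [Field K] {A B : Type*} [Ring A] [Algebra K A] [Ring B] [Algebra K B]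
    {G G' : Type*} [Group G] [Group G'] (α : G →* (B ≃ₐ[K] B)) (β : G' →* (B ≃ₐ[K] B)) (Φ : B ≃ₐ[K] A)
    (hc : ∀ g g' b, α g (β g' b) = β g' (α g b)) (g : G) (g' : G') (a : A) :
    ((AlgEquiv.autCongr Φ).toMonoidHom.comp α) g (((AlgEquiv.autCongr Φ).toMonoidHom.comp β) g' a) =
      ((AlgEquiv.autCongr Φ).toMonoidHom.comp β) g' (((AlgEquiv.autCongr Φ).toMonoidHom.comp α) g a) := by
  show Φ (α g (Φ.symm (Φ (β g' (Φ.symm a))))) = Φ (β g' (Φ.symm (Φ (α g (Φ.symm a)))))
  rw [Φ.symm_apply_apply, Φ.symm_apply_apply, hc]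

private theorem PBc_one {K : Type*} [Field K] {m : ℕ} (hm : m = 1) (M : Matrix (Fin m) (Fin m) K) :
    ∃ c : K, M = c • 1 := by
  subst hm
  refine ⟨M 0 0, ?_⟩
  ext i j
  fin_cases i
  fin_cases j
  simp

private theorem PBc_inj {K : Type*} [Field K] {n : ℕ} {d : Fin n → ℕ} (hd : ∀ i, d i ≠ 0) {i j : Fin n}
    (h : eB K d i = eB K d j) : i = j := by
  by_contra hij
  have h1 := congrFun h i
  rw [eB, eB, Pi.single_eq_same, Pi.single_eq_of_ne hij] at h1
  have h2 : (1 : Matrix (Fin (d i)) (Fin (d i)) K) ⟨0, Nat.pos_of_ne_zero (hd i)⟩ ⟨0, Nat.pos_of_ne_zero (hd i)⟩ = 0 := by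
    rw [h1]
    rfl
  rw [Matrix.one_apply_eq] at h2
  exact one_ne_zero h2

private theorem PBc_main {K : Type*} [Field K] {n : ℕ} {d : Fin n → ℕ} (hd : ∀ i, d i ≠ 0) (hn : n ≠ 0)
    {G G' : Type*} [Group G] [Finite G] [IsSimpleGroup G] [Group G'] [Finite G']
    (α : G →* (MatP K d ≃ₐ[K] MatP K d)) (β : G' →* (MatP K d ≃ₐ[K] MatP K d))
    (hc : ∀ g g' b, α g (β g' b) = β g' (α g b))
    (hα : ∀ b, (∀ g, α g b = b) → ∃ c : K, b = algebraMap K (MatP K d) c)
    (hβ : ∀ b, (∀ g, β g b = b) → ∃ c : K, b = algebraMap K (MatP K d) c)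
    (hdim : Module.finrank K (MatP K d) = Nat.card G) :
    ∃ e : MatP K d, e ≠ 0 ∧ e * e = e ∧ ∀ b : MatP K d, ∃ c : K, b * e = c • e ∧ e * b = c • e := by
  classical
  obtain ⟨π, hπ⟩ := exists_act hd α
  obtain ⟨π', hπ'⟩ := exists_act hd β
  have hT := trans_blk hd α hα π hπ
  have hT' := trans_blk hd β hβ π' hπ'
  have hcomm : ∀ g g' i, π g (π' g' i) = π' g' (π g i) := by
    intro g g' i
    apply PBc_inj (K := K) hd
    rw [← hπ, ← hπ', hc, hπ, hπ']
  have hfix : ∀ g i, π g i = i → π g = 1 := by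
    intro g i hi
    ext j
    obtain ⟨g', hg'⟩ := hT' i j
    rw [← hg', hcomm, hi]
    rfl
  have i0 : Fin n := ⟨0, Nat.pos_of_ne_zero hn⟩
  have hrank : Module.finrank K (MatP K d) = ∑ i, d i * d i := by
    rw [Module.finrank_pi_fintype]
    refine Finset.sum_congr rfl fun i _ => ?_
    rw [Module.finrank_matrix, Module.finrank_self, mul_one, Fintype.card_fin]
  rcases Subgroup.Normal.eq_bot_or_eq_top (inferInstance : π.ker.Normal) with hk | hk
  · have hbij : Function.Bijective (fun g => π g i0) := by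
      constructor
      · intro g h hgh
        have h1 : π (h⁻¹ * g) i0 = i0 := by
          rw [map_mul, map_inv, Equiv.Perm.mul_apply]
          have hgh : π g i0 = π h i0 := hgh
          rw [hgh]
          exact Equiv.symm_apply_apply _ _
        have h2 : h⁻¹ * g ∈ π.ker := hfix _ _ h1
        rw [hk, Subgroup.mem_bot] at h2
        exact (inv_mul_eq_one.mp h2).symm
      · intro j
        exact hT i0 j
    have hcard : Nat.card G = n := by
      rw [Nat.card_congr (Equiv.ofBijective _ hbij), Nat.card_eq_fintype_card, Fintype.card_fin]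
    have hsum : ∑ i : Fin n, 1 = ∑ i, d i * d i := by
      rw [← hrank, hdim, hcard]
      simp
    have h1 : ∀ i, d i = 1 := by
      have hle : ∀ i ∈ (Finset.univ : Finset (Fin n)), 1 ≤ d i * d i := fun i _ =>
        Nat.mul_pos (Nat.pos_of_ne_zero (hd i)) (Nat.pos_of_ne_zero (hd i))
      have h2 := (Finset.sum_eq_sum_iff_of_le hle).1 hsum
      intro i
      have h3 := h2 i (Finset.mem_univ _)
      exact Nat.eq_one_of_mul_eq_one_left h3.symm
    refine ⟨eB K d i0, fun h => ?_, ?_, fun b => ?_⟩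
    · have h2 := congrFun h i0
      rw [eB, Pi.single_eq_same] at h2
      have h3 : (1 : Matrix (Fin (d i0)) (Fin (d i0)) K) ⟨0, Nat.pos_of_ne_zero (hd i0)⟩
          ⟨0, Nat.pos_of_ne_zero (hd i0)⟩ = 0 := by
        rw [h2]
        rfl
      rw [Matrix.one_apply_eq] at h3
      exact one_ne_zero h3
    · rw [eB, ← Pi.single_mul, mul_one]
    · obtain ⟨c, hc⟩ := PBc_one (h1 i0) (b i0)
      refine ⟨c, ?_, ?_⟩
      · funext i
        by_cases hi : i = i0
        · subst hi
          rw [Pi.mul_apply, Pi.smul_apply, eB, Pi.single_eq_same, hc, mul_one]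
        · rw [Pi.mul_apply, Pi.smul_apply, eB, Pi.single_eq_of_ne hi, mul_zero, smul_zero]
      · funext i
        by_cases hi : i = i0
        · subst hi
          rw [Pi.mul_apply, Pi.smul_apply, eB, Pi.single_eq_same, hc, one_mul]
        · rw [Pi.mul_apply, Pi.smul_apply, eB, Pi.single_eq_of_ne hi, zero_mul, smul_zero]
  · exfalso
    have hn1 : n = 1 := by
      by_contra hn1
      have h2 : 1 < n := by omega
      obtain ⟨g, hg⟩ := hT ⟨0, by omega⟩ ⟨1, h2⟩
      have h3 : g ∈ π.ker := by rw [hk]; trivial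
      rw [MonoidHom.mem_ker] at h3
      rw [h3] at hg
      have h4 := congrArg Fin.val hg
      simp at h4
    subst hn1
    let Ψ : MatP K d ≃ₐ[K] Matrix (Fin (d 0)) (Fin (d 0)) K :=
      AlgEquiv.ofBijective (Pi.evalAlgHom K (fun i => Matrix (Fin (d i)) (Fin (d i)) K) 0) (by
        constructor
        · intro a b hab
          funext i
          obtain rfl : i = 0 := Subsingleton.elim _ _
          exact hab
        · intro a
          refine ⟨(Pi.single 0 a : MatP K d), ?_⟩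
          show (Pi.single 0 a : MatP K d) 0 = a
          rw [Pi.single_eq_same])
    refine mat_case ((AlgEquiv.autCongr Ψ).toMonoidHom.comp α) ((AlgEquiv.autCongr Ψ).toMonoidHom.comp β)
      (PBc_comm α β Ψ hc) (PBc_fix α Ψ hα) (PBc_fix β Ψ hβ) ?_
    rw [← hdim, hrank, Fin.sum_univ_one, sq]

theorem exists_char {K : Type*} [Field K] [IsAlgClosed K] {B : Type*} [Ring B] [Algebra K B] [FiniteDimensional K B]
    [IsSemisimpleRing B] [Nontrivial B] {G G' : Type*} [Group G] [Finite G] [IsSimpleGroup G] [Group G'] [Finite G']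
    (α : G →* (B ≃ₐ[K] B)) (β : G' →* (B ≃ₐ[K] B)) (hc : ∀ g g' b, α g (β g' b) = β g' (α g b))
    (hα : ∀ b, (∀ g, α g b = b) → ∃ c : K, b = algebraMap K B c)
    (hβ : ∀ b, (∀ g, β g b = b) → ∃ c : K, b = algebraMap K B c) (hd : Module.finrank K B = Nat.card G) :
    ∃ e : B, e ≠ 0 ∧ e * e = e ∧ ∀ b : B, ∃ c : K, b * e = c • e ∧ e * b = c • e := by
  obtain ⟨n, d, hd0, ⟨Φ⟩⟩ := IsSemisimpleRing.exists_algEquiv_pi_matrix_of_isAlgClosed K B
  have hn : n ≠ 0 := by
    rintro rfl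
    have h1 : (Φ 1) = (Φ 0) := funext fun i => i.elim0
    exact one_ne_zero (Φ.injective h1)
  obtain ⟨e, he, hee, hb⟩ := PBc_main (fun i => (hd0 i).out) hn ((AlgEquiv.autCongr Φ).toMonoidHom.comp α)
    ((AlgEquiv.autCongr Φ).toMonoidHom.comp β) (PBc_comm α β Φ hc) (PBc_fix α Φ hα) (PBc_fix β Φ hβ)
    (by rw [← hd]; exact (LinearEquiv.finrank_eq Φ.toLinearEquiv).symm)
  refine ⟨Φ.symm e, fun h => he ?_, ?_, fun b => ?_⟩
  · rw [← Φ.apply_symm_apply e, h, map_zero]
  · rw [← map_mul, hee]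
  · obtain ⟨c, h1, h2⟩ := hb (Φ b)
    refine ⟨c, ?_, ?_⟩
    · apply Φ.injective
      rw [map_mul, map_smul, Φ.apply_symm_apply, h1]
    · apply Φ.injective
      rw [map_mul, map_smul, Φ.apply_symm_apply, h2]

end Pool.Agent.SFC
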