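import Pool.Agent.SFH.PK

/-!
# SFH/PD: twisted forms of an object (projectors of an automorphism of finite order, a direct summand of `⨁ T c ⊗ x`)
-/

set_option autoImplicit false

noncomputable section

open CategoryTheory MonoidalCategory
open scoped BigOperators

namespace Pool.Agent.SFC

universe v u v' u' w

section PD

variable {𝒜 : Type u} [Category.{v} 𝒜] [Preadditive 𝒜] {K : Type w} [Field K] [Linear K 𝒜]

private theorem PD_sum {p : ℕ} [NeZero p] {M : Type*} [AddCommMonoid M] (f : ℕ → M) :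
    ∑ c : ZMod p, f c.val = ∑ c ∈ Finset.range p, f c := by
  refine Finset.sum_nbij' (fun c => c.val) (fun k => (k : ZMod p)) ?_ ?_ ?_ ?_ ?_
  · intro c _
    exact Finset.mem_range.2 (ZMod.val_lt c)
  · intro k _
    exact Finset.mem_univ _
  · intro c _
    exact ZMod.natCast_zmod_val c
  · intro k hk
    exact ZMod.val_cast_of_lt (Finset.mem_range.1 hk)
  · intro c _
    rfl

/-- the projector -/
private def PD_E (p : ℕ) (z : K) {X : 𝒜} (φ : Aut X) : X ⟶ X :=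
  (p : K)⁻¹ • ∑ k ∈ Finset.range p, z ^ k • (φ ^ k).hom

omit [Preadditive 𝒜] in
private theorem PD_pow_succ {X : 𝒜} (φ : Aut X) (k : ℕ) : (φ ^ (k + 1)).hom = φ.hom ≫ (φ ^ k).hom := by
  rw [pow_succ]
  rfl

omit [Preadditive 𝒜] in
private theorem PD_pow_succ' {X : 𝒜} (φ : Aut X) (k : ℕ) : (φ ^ (k + 1)).hom = (φ ^ k).hom ≫ φ.hom := by
  rw [pow_succ']
  rfl

private theorem PD_E_comp {p : ℕ} {z : K} (hz : z ^ p = 1) {X : 𝒜} {φ : Aut X} (hφ : φ ^ p = 1) :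
    PD_E p z φ ≫ φ.hom = z⁻¹ • PD_E p z φ := by
  have h0 : z ≠ 0 ∨ p = 0 := by
    by_cases hp : p = 0
    · exact Or.inr hp
    · left
      rintro rfl
      rw [zero_pow hp] at hz
      exact zero_ne_one hz
  rcases h0 with h0 | rfl
  · have h1 : ∑ k ∈ Finset.range p, z ^ (k + 1) • (φ ^ (k + 1)).hom =
        ∑ k ∈ Finset.range p, z ^ k • (φ ^ k).hom := by
      have h2 := Finset.sum_range_succ (fun k => z ^ k • (φ ^ k).hom) p
      have h3 := Finset.sum_range_succ' (fun k => z ^ k • (φ ^ k).hom) p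
      rw [h2] at h3
      simp only [hφ, hz, pow_zero] at h3
      exact (add_right_cancel h3).symm
    have h5 : (∑ k ∈ Finset.range p, z ^ k • (φ ^ k).hom) ≫ φ.hom =
        z⁻¹ • ∑ k ∈ Finset.range p, z ^ k • (φ ^ k).hom := by
      rw [Preadditive.sum_comp, ← h1, Finset.smul_sum]
      refine Finset.sum_congr rfl fun k _ => ?_
      have h6 : z⁻¹ * z ^ (k + 1) = z ^ k := by
        rw [pow_succ', inv_mul_cancel_left₀ h0]
      rw [Linear.smul_comp, ← PD_pow_succ', smul_smul, h6]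
    unfold PD_E
    rw [Linear.smul_comp, h5, smul_comm]
  · simp [PD_E]

private theorem PD_comm {p : ℕ} {z : K} {X : 𝒜} {φ : Aut X} :
    φ.hom ≫ PD_E p z φ = PD_E p z φ ≫ φ.hom := by
  unfold PD_E
  rw [Linear.smul_comp, Linear.comp_smul, Preadditive.sum_comp, Preadditive.comp_sum]
  congr 1
  refine Finset.sum_congr rfl fun k _ => ?_
  rw [Linear.smul_comp, Linear.comp_smul, ← PD_pow_succ, ← PD_pow_succ']

private theorem PD_E_pow {p : ℕ} {z : K} (hz : z ^ p = 1) {X : 𝒜} {φ : Aut X} (hφ : φ ^ p = 1) (k : ℕ) :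
    PD_E p z φ ≫ (φ ^ k).hom = (z ^ k)⁻¹ • PD_E p z φ := by
  induction k with
  | zero =>
    rw [pow_zero, pow_zero, inv_one, one_smul]
    exact Category.comp_id _
  | succ k ih =>
    rw [PD_pow_succ', ← Category.assoc, ih, Linear.smul_comp, PD_E_comp hz hφ, smul_smul, pow_succ, mul_inv]

private theorem PD_idem {p : ℕ} [NeZero p] [CharZero K] {z : K} (hz : z ^ p = 1) {X : 𝒜} {φ : Aut X} (hφ : φ ^ p = 1) :
    PD_E p z φ ≫ PD_E p z φ = PD_E p z φ := by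
  have hp : p ≠ 0 := NeZero.ne p
  have h0 : z ≠ 0 := by
    rintro rfl
    rw [zero_pow hp] at hz
    exact zero_ne_one hz
  have h1 : PD_E p z φ ≫ PD_E p z φ = (p : K)⁻¹ • ∑ k ∈ Finset.range p, PD_E p z φ := by
    conv_lhs => rw [show PD_E p z φ ≫ PD_E p z φ = PD_E p z φ ≫ ((p : K)⁻¹ • ∑ k ∈ Finset.range p, z ^ k • (φ ^ k).hom) from rfl]
    rw [Linear.comp_smul, Preadditive.comp_sum]
    congr 1
    refine Finset.sum_congr rfl fun k _ => ?_
    rw [Linear.comp_smul, PD_E_pow hz hφ, smul_smul, mul_inv_cancel₀ (pow_ne_zero k h0), one_smul]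
  rw [h1, Finset.sum_const, Finset.card_range, ← Nat.cast_smul_eq_nsmul K, smul_smul,
    inv_mul_cancel₀ (Nat.cast_ne_zero.2 hp), one_smul]

private theorem PD_total {p : ℕ} [NeZero p] [CharZero K] {z : K} (hz : IsPrimitiveRoot z p) {X : 𝒜} {φ : Aut X} :
    ∑ c ∈ Finset.range p, PD_E p (z ^ c) φ = 𝟙 X := by
  have hp : p ≠ 0 := NeZero.ne p
  unfold PD_E
  rw [← Finset.smul_sum, Finset.sum_comm]
  have h1 : ∀ k ∈ Finset.range p, ∑ c ∈ Finset.range p, (z ^ c) ^ k • (φ ^ k).hom =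
      if k = 0 then (p : K) • 𝟙 X else 0 := by
    intro k hk
    rw [← Finset.sum_smul]
    split_ifs with h
    · subst h
      simp only [pow_zero, Finset.sum_const, Finset.card_range, nsmul_eq_mul, mul_one]
      rfl
    · have h2 : ∑ c ∈ Finset.range p, (z ^ c) ^ k = 0 := by
        have h3 : z ^ k ≠ 1 := hz.pow_ne_one_of_pos_of_lt h (Finset.mem_range.1 hk)
        have h4 : ∑ c ∈ Finset.range p, (z ^ k) ^ c = 0 := by
          have h5 := geom_sum_mul (z ^ k) p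
          rw [← pow_mul, mul_comm k p, pow_mul, hz.pow_eq_one, one_pow, sub_self] at h5
          exact (mul_eq_zero.1 h5).resolve_right (sub_ne_zero.2 h3)
        rw [← h4]
        refine Finset.sum_congr rfl fun c _ => ?_
        rw [← pow_mul, ← pow_mul, mul_comm]
      rw [h2, zero_smul]
  rw [Finset.sum_congr rfl h1, Finset.sum_ite_eq' (Finset.range p) 0 (fun _ => (p : K) • 𝟙 X),
    if_pos (Finset.mem_range.2 (Nat.pos_of_ne_zero hp)), smul_smul,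
    inv_mul_cancel₀ (Nat.cast_ne_zero.2 hp), one_smul]

end PD

section PDt

variable {K : Type w} [Field K] {C : Type u} [Category.{v} C] [Preadditive C] [Linear K C] [MonoidalCategory C]
  {D : Type u'} [Category.{v'} D] [Preadditive D] [Linear K D] [MonoidalCategory D] {F : C ⥤ D} [F.Monoidal] {p : ℕ}
  [NeZero p]

private theorem PD_s_pow (Tt : Tw K F p) {X : ImC F} {φ : Aut X} (hs : Tt.s φ.hom = φ.hom) (k : ℕ) :
    Tt.s (φ ^ k).hom = (φ ^ k).hom := by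
  induction k with
  | zero => exact Tt.id X
  | succ k ih => rw [PD_pow_succ', Tt.comp, ih, hs]

private theorem PD_s_E (Tt : Tw K F p) {X : ImC F} {φ : Aut X} (hs : Tt.s φ.hom = φ.hom) (z : K) :
    Tt.s (PD_E p z φ) = PD_E p z φ := by
  unfold PD_E
  rw [Tt.smul, Tt.sum]
  congr 1
  refine Finset.sum_congr rfl fun k _ => ?_
  rw [Tt.smul, PD_s_pow Tt hs]

private theorem PD_s_inv (Tt : Tw K F p) (c : ZMod p) : Tt.s (Tt.τ c).inv = (Tt.ζ ^ c.val)⁻¹ • (Tt.τ c).inv := by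
  have h0 : Tt.ζ ^ c.val ≠ 0 := pow_ne_zero _ (Tt.prim.ne_zero (NeZero.ne p))
  have h1 : Tt.s ((Tt.τ c).hom ≫ (Tt.τ c).inv) = 𝟙 _ := by
    rw [Iso.hom_inv_id, Tt.id]
  rw [Tt.comp, Tt.sτ, Linear.smul_comp] at h1
  have h2 : (Tt.τ c).hom ≫ Tt.s (Tt.τ c).inv = (Tt.ζ ^ c.val)⁻¹ • 𝟙 _ := by
    rw [← h1, smul_smul, inv_mul_cancel₀ h0, one_smul]
  calc Tt.s (Tt.τ c).inv = (Tt.τ c).inv ≫ (Tt.τ c).hom ≫ Tt.s (Tt.τ c).inv := by
        rw [Iso.inv_hom_id_assoc]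
    _ = _ := by rw [h2, Linear.comp_smul, Category.comp_id]

end PDt

theorem exists_descent {K : Type w} [Field K] [CharZero K] {C : Type u} [Category.{v} C] [Preadditive C]
    [Linear K C] [MonoidalCategory C] [Limits.HasFiniteBiproducts C] [IsIdempotentComplete C] {D : Type u'}
    [Category.{v'} D] [Preadditive D] [Linear K D] [MonoidalCategory D] [MonoidalPreadditive D] [MonoidalLinear K D]
    {F : C ⥤ D} [F.Monoidal] {p : ℕ} [NeZero p] (Tt : Tw K F p)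
    (hadd : ∀ {x y : C} (f g : x ⟶ y), F.map (f + g) = F.map f + F.map g)
    (hsmul : ∀ {x y : C} (c : K) (f : x ⟶ y), F.map (c • f) = c • F.map f)
    (hfaith : ∀ {x y : C} {f g : x ⟶ y}, F.map f = F.map g → f = g) (x : C) (φ : Aut ((ImC.P F).obj x))
    (hs : Tt.s φ.hom = φ.hom) (hφ : φ ^ p = 1) :
    ∃ (x' : C) (ψ : (ImC.P F).obj x' ≅ (ImC.P F).obj x), Tt.s ψ.hom ≫ φ.hom = ψ.hom := by
  classical
  have hp : p ≠ 0 := NeZero.ne p
  have hζ : ∀ c : ZMod p, (Tt.ζ ^ c.val) ^ p = 1 := fun c => by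
    rw [← pow_mul, mul_comm, pow_mul, Tt.prim.pow_eq_one, one_pow]
  have hζ0 : ∀ c : ZMod p, Tt.ζ ^ c.val ≠ 0 := fun c => pow_ne_zero _ (Tt.prim.ne_zero hp)
  -- the biproduct
  obtain ⟨y, q, i, hiq, hiq', hsq, hsi⟩ : ∃ (y : C) (q : ZMod p → ((ImC.P F).obj y ⟶ (ImC.P F).obj x))
      (i : ZMod p → ((ImC.P F).obj x ⟶ (ImC.P F).obj y)),
      (∀ c, i c ≫ q c = 𝟙 _) ∧ (∀ c d, c ≠ d → i c ≫ q d = 0) ∧ (∀ c, Tt.s (q c) = Tt.ζ ^ c.val • q c) ∧
      (∀ c, Tt.s (i c) = (Tt.ζ ^ c.val)⁻¹ • i c) := by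
    let y : C := Limits.biproduct (fun c : ZMod p => Tt.T c ⊗ x)
    let X : ImC F := (ImC.P F).obj x
    let q : ZMod p → ((ImC.P F).obj y ⟶ X) := fun c =>
      (ImC.P F).map (Limits.biproduct.π (fun c : ZMod p => Tt.T c ⊗ x) c) ≫
        (show (ImC.P F).obj (Tt.T c ⊗ x) ⟶ X from (Tt.τ c).hom ▷ X ≫ (λ_ X).hom)
    let i : ZMod p → (X ⟶ (ImC.P F).obj y) := fun c =>
      (show X ⟶ (ImC.P F).obj (Tt.T c ⊗ x) from (λ_ X).inv ≫ (Tt.τ c).inv ▷ X) ≫
        (ImC.P F).map (Limits.biproduct.ι (fun c : ZMod p => Tt.T c ⊗ x) c)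
    have hab : ∀ c : ZMod p, ((λ_ X).inv ≫ (Tt.τ c).inv ▷ X) ≫ ((Tt.τ c).hom ▷ X ≫ (λ_ X).hom) = 𝟙 X := by
      intro c
      rw [Category.assoc, inv_hom_whiskerRight_assoc, Iso.inv_hom_id]
    refine ⟨y, q, i, ?_, ?_, ?_, ?_⟩
    · intro c
      have h1 : (ImC.P F).map (Limits.biproduct.ι (fun c : ZMod p => Tt.T c ⊗ x) c) ≫
          (ImC.P F).map (Limits.biproduct.π (fun c : ZMod p => Tt.T c ⊗ x) c) = 𝟙 _ := by
        rw [← Functor.map_comp, Limits.biproduct.ι_π_self, CategoryTheory.Functor.map_id]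
      show ((show X ⟶ (ImC.P F).obj (Tt.T c ⊗ x) from (λ_ X).inv ≫ (Tt.τ c).inv ▷ X) ≫
        (ImC.P F).map (Limits.biproduct.ι (fun c : ZMod p => Tt.T c ⊗ x) c)) ≫
        ((ImC.P F).map (Limits.biproduct.π (fun c : ZMod p => Tt.T c ⊗ x) c) ≫
        (show (ImC.P F).obj (Tt.T c ⊗ x) ⟶ X from (Tt.τ c).hom ▷ X ≫ (λ_ X).hom)) = 𝟙 X
      rw [Category.assoc, ← Category.assoc ((ImC.P F).map _) ((ImC.P F).map _), h1, Category.id_comp]
      exact hab c
    · intro c d hcd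
      have h1 : (ImC.P F).map (Limits.biproduct.ι (fun c : ZMod p => Tt.T c ⊗ x) c) ≫
          (ImC.P F).map (Limits.biproduct.π (fun c : ZMod p => Tt.T c ⊗ x) d) = 0 := by
        rw [← Functor.map_comp, Limits.biproduct.ι_π_ne _ hcd]
        ext
        show F.map 0 = 0
        have h2 := hsmul (0 : K) (0 : Tt.T c ⊗ x ⟶ Tt.T d ⊗ x)
        rw [zero_smul, zero_smul] at h2
        exact h2
      show ((show X ⟶ (ImC.P F).obj (Tt.T c ⊗ x) from (λ_ X).inv ≫ (Tt.τ c).inv ▷ X) ≫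
        (ImC.P F).map (Limits.biproduct.ι (fun c : ZMod p => Tt.T c ⊗ x) c)) ≫
        ((ImC.P F).map (Limits.biproduct.π (fun c : ZMod p => Tt.T c ⊗ x) d) ≫
        (show (ImC.P F).obj (Tt.T d ⊗ x) ⟶ X from (Tt.τ d).hom ▷ X ≫ (λ_ X).hom)) = 0
      rw [Category.assoc, ← Category.assoc ((ImC.P F).map _) ((ImC.P F).map _), h1, Limits.zero_comp,
        Limits.comp_zero]
    · intro c
      have h1 : Tt.s ((Tt.τ c).hom ▷ X ≫ (λ_ X).hom) = Tt.ζ ^ c.val • ((Tt.τ c).hom ▷ X ≫ (λ_ X).hom) := by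
        rw [Tt.comp, Tt.wR, Tt.lu, Tt.sτ, MonoidalLinear.smul_whiskerRight, Linear.smul_comp]
      show Tt.s ((ImC.P F).map (Limits.biproduct.π (fun c : ZMod p => Tt.T c ⊗ x) c) ≫
        (show (ImC.P F).obj (Tt.T c ⊗ x) ⟶ X from (Tt.τ c).hom ▷ X ≫ (λ_ X).hom)) = _
      rw [Tt.comp, Tt.fix]
      refine (congrArg (fun g => (ImC.P F).map (Limits.biproduct.π (fun c : ZMod p => Tt.T c ⊗ x) c) ≫
        (show (ImC.P F).obj (Tt.T c ⊗ x) ⟶ X from g)) h1).trans ?_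
      exact Linear.comp_smul _ _ _ _ _ _
    · intro c
      have h1 : Tt.s ((λ_ X).inv ≫ (Tt.τ c).inv ▷ X) = (Tt.ζ ^ c.val)⁻¹ • ((λ_ X).inv ≫ (Tt.τ c).inv ▷ X) := by
        rw [Tt.comp, Tt.wR, Tt.lu', PD_s_inv, MonoidalLinear.smul_whiskerRight, Linear.comp_smul]
      show Tt.s ((show X ⟶ (ImC.P F).obj (Tt.T c ⊗ x) from (λ_ X).inv ≫ (Tt.τ c).inv ▷ X) ≫
        (ImC.P F).map (Limits.biproduct.ι (fun c : ZMod p => Tt.T c ⊗ x) c)) = _
      rw [Tt.comp, Tt.fix]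
      refine (congrArg (fun g => (show X ⟶ (ImC.P F).obj (Tt.T c ⊗ x) from g) ≫
        (ImC.P F).map (Limits.biproduct.ι (fun c : ZMod p => Tt.T c ⊗ x) c)) h1).trans ?_
      exact Linear.smul_comp _ _ _ _ _ _
  set E : ZMod p → ((ImC.P F).obj x ⟶ (ImC.P F).obj x) := fun c => PD_E p (Tt.ζ ^ c.val) φ with hE
  have hEφ : ∀ c, E c ≫ φ.hom = (Tt.ζ ^ c.val)⁻¹ • E c := fun c => PD_E_comp (hζ c) hφ
  have hEE : ∀ c, E c ≫ E c = E c := fun c => PD_idem (hζ c) hφ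
  have hsE : ∀ c, Tt.s (E c) = E c := fun c => PD_s_E Tt hs _
  have hE1 : ∑ c, E c = 𝟙 _ := by
    rw [hE]
    exact (PD_sum (p := p) (fun c => PD_E p (Tt.ζ ^ c) φ)).trans (PD_total Tt.prim)
  let ψ : (ImC.P F).obj y ⟶ (ImC.P F).obj x := ∑ c, q c ≫ E c
  let ψ' : (ImC.P F).obj x ⟶ (ImC.P F).obj y := ∑ c, E c ≫ i c
  have h1 : ψ' ≫ ψ = 𝟙 _ := by
    show (∑ c, E c ≫ i c) ≫ (∑ c, q c ≫ E c) = 𝟙 _
    rw [Preadditive.sum_comp, ← hE1]
    refine Finset.sum_congr rfl fun c _ => ?_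
    rw [Preadditive.comp_sum, Finset.sum_eq_single c]
    · rw [Category.assoc, ← Category.assoc (i c), hiq, Category.id_comp, hEE]
    · intro d _ hd
      rw [Category.assoc, ← Category.assoc (i c), hiq' c d (Ne.symm hd), Limits.zero_comp, Limits.comp_zero]
    · intro h
      exact absurd (Finset.mem_univ c) h
  have h2 : Tt.s ψ ≫ φ.hom = ψ := by
    show Tt.s (∑ c, q c ≫ E c) ≫ φ.hom = ∑ c, q c ≫ E c
    rw [Tt.sum, Preadditive.sum_comp]
    refine Finset.sum_congr rfl fun c _ => ?_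
    rw [Tt.comp, hsq, hsE, Linear.smul_comp, Linear.smul_comp, Category.assoc, hEφ, Linear.comp_smul, smul_smul,
      mul_inv_cancel₀ (hζ0 c), one_smul]
  have h3 : Tt.s ψ' = φ.hom ≫ ψ' := by
    show Tt.s (∑ c, E c ≫ i c) = φ.hom ≫ ∑ c, E c ≫ i c
    rw [Tt.sum, Preadditive.comp_sum]
    refine Finset.sum_congr rfl fun c _ => ?_
    rw [Tt.comp, hsi, hsE, Linear.comp_smul, ← Linear.smul_comp, ← hEφ, ← Category.assoc φ.hom]
    congr 1
    exact PD_comm.symm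
  obtain ⟨e, he⟩ := Tt.lift (ψ ≫ ψ') (by rw [Tt.comp, h3, ← Category.assoc, h2])
  have hee : e ≫ e = e := by
    apply hfaith
    have h4 : (ImC.P F).map (e ≫ e) = (ImC.P F).map e := by
      rw [Functor.map_comp, he, Category.assoc, ← Category.assoc ψ' ψ, h1, Category.id_comp]
    exact congrArg (fun g => g.hom) h4
  obtain ⟨x', j, r, hjr, hrj⟩ := IsIdempotentComplete.idempotents_split y e hee
  refine ⟨x', ⟨(ImC.P F).map j ≫ ψ, ψ' ≫ (ImC.P F).map r, ?_, ?_⟩, ?_⟩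
  · rw [Category.assoc, ← Category.assoc ψ ψ', ← he, ← Functor.map_comp, ← Functor.map_comp, ← hrj]
    rw [Category.assoc, hjr, Category.comp_id, hjr, CategoryTheory.Functor.map_id]
  · rw [Category.assoc, ← Category.assoc ((ImC.P F).map r), ← Functor.map_comp, hrj, he, Category.assoc, h1,
      Category.comp_id, h1]
  · show Tt.s ((ImC.P F).map j ≫ ψ) ≫ φ.hom = (ImC.P F).map j ≫ ψ
    rw [Tt.comp, Tt.fix, Category.assoc, h2]

end Pool.Agent.SFC
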