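import Pool.Agent.SFC.E1b

/-!
# SFH/PE: the image of a monoidal functor as a monoidal category

`ImC F`, for a monoidal functor `F : C ⥤ D`: the objects are those of `C`, the morphisms `x ⟶ y` are the morphisms
`F x ⟶ F y` of `D` (`.hom`), the tensor product is that of `C` on objects.
-/

set_option autoImplicit false
set_option linter.unusedSectionVars false

noncomputable section

open CategoryTheory MonoidalCategory

namespace Pool.Agent.SFC

universe v u v' u' w

open Functor.LaxMonoidal Functor.OplaxMonoidal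

variable {C : Type u} [Category.{v} C] [MonoidalCategory C] {D : Type u'} [Category.{v'} D] [MonoidalCategory D]

/-- the image of `F` -/
abbrev ImC (F : C ⥤ D) : Type u := InducedCategory D F.obj

/-- the functor `C ⥤ ImC F` -/
def ImC.P (F : C ⥤ D) : C ⥤ ImC F where
  obj x := x
  map f := ⟨F.map f⟩
  map_id x := by ext; exact F.map_id x
  map_comp f g := by ext; exact F.map_comp f g

/-- the functor `ImC F ⥤ D` -/
abbrev ImC.I (F : C ⥤ D) : ImC F ⥤ D := inducedFunctor F.obj

variable (F : C ⥤ D) [F.Monoidal]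

instance ImC.monStruct : MonoidalCategoryStruct (ImC F) where
  tensorObj x y := (MonoidalCategoryStruct.tensorObj (C := C) x y : C)
  tensorUnit := (𝟙_ C : C)
  whiskerLeft x y₁ y₂ f := ⟨δ F x y₁ ≫ F.obj x ◁ f.hom ≫ μ F x y₂⟩
  whiskerRight {x₁ x₂} f y := ⟨δ F x₁ y ≫ f.hom ▷ F.obj y ≫ μ F x₂ y⟩
  tensorHom {x₁ y₁ x₂ y₂} f g := ⟨δ F x₁ x₂ ≫ (f.hom ⊗ₘ g.hom) ≫ μ F y₁ y₂⟩
  associator x y z := (ImC.P F).mapIso (@MonoidalCategoryStruct.associator C _ _ x y z)
  leftUnitor x := (ImC.P F).mapIso (@MonoidalCategoryStruct.leftUnitor C _ _ x)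
  rightUnitor x := (ImC.P F).mapIso (@MonoidalCategoryStruct.rightUnitor C _ _ x)

/-- the data for the monoidal structure -/
def ImC.data : Monoidal.InducingFunctorData (ImC.I F) where
  μIso x y := Functor.Monoidal.μIso F x y
  whiskerLeft_eq x y₁ y₂ f := rfl
  whiskerRight_eq f y := rfl
  tensorHom_eq f g := rfl
  εIso := Functor.Monoidal.εIso F
  associator_eq x y z := by
    show F.map (@MonoidalCategoryStruct.associator C _ _ x y z).hom = _
    refine (Functor.Monoidal.map_associator F _ _ _).trans ?_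
    simp only [Iso.trans_hom, Iso.symm_hom, tensorIso_hom, Iso.refl_hom, tensorHom_id, id_tensorHom,
      Functor.Monoidal.μIso_hom, Functor.Monoidal.μIso_inv, Category.assoc]
    rfl
  leftUnitor_eq x := by
    show F.map (@MonoidalCategoryStruct.leftUnitor C _ _ x).hom = _
    refine (Functor.Monoidal.map_leftUnitor F _).trans ?_
    simp only [Iso.trans_hom, Iso.symm_hom, tensorIso_hom, Iso.refl_hom, tensorHom_id,
      Functor.Monoidal.εIso_inv, Functor.Monoidal.μIso_inv, Category.assoc]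
    rfl
  rightUnitor_eq x := by
    show F.map (@MonoidalCategoryStruct.rightUnitor C _ _ x).hom = _
    refine (Functor.Monoidal.map_rightUnitor F _).trans ?_
    simp only [Iso.trans_hom, Iso.symm_hom, tensorIso_hom, Iso.refl_hom, id_tensorHom,
      Functor.Monoidal.εIso_inv, Functor.Monoidal.μIso_inv, Category.assoc]
    rfl

instance ImC.mon : MonoidalCategory (ImC F) := Monoidal.induced (ImC.I F) (ImC.data F)

instance ImC.I_mon : (ImC.I F).Monoidal := Monoidal.fromInducedMonoidal (ImC.I F) (ImC.data F)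

section

variable {F}

@[simp] theorem ImC.wL_hom (x : ImC F) {y₁ y₂ : ImC F} (f : y₁ ⟶ y₂) :
    (x ◁ f).hom = δ F x y₁ ≫ F.obj x ◁ f.hom ≫ μ F x y₂ := rfl

@[simp] theorem ImC.wR_hom {x₁ x₂ : ImC F} (f : x₁ ⟶ x₂) (y : ImC F) :
    (f ▷ y).hom = δ F x₁ y ≫ f.hom ▷ F.obj y ≫ μ F x₂ y := rfl

@[simp] theorem ImC.ten_hom {x₁ y₁ x₂ y₂ : ImC F} (f : x₁ ⟶ y₁) (g : x₂ ⟶ y₂) :
    (f ⊗ₘ g).hom = δ F x₁ x₂ ≫ (f.hom ⊗ₘ g.hom) ≫ μ F y₁ y₂ := rfl

theorem ImC.P_map {x y : C} (f : x ⟶ y) : ((ImC.P F).map f).hom = F.map f := rfl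

theorem ImC.assoc_hom (x y z : C) :
    (@MonoidalCategoryStruct.associator (ImC F) _ _ x y z).hom =
      (ImC.P F).map (@MonoidalCategoryStruct.associator C _ _ x y z).hom := rfl

theorem ImC.assoc_inv (x y z : C) :
    (@MonoidalCategoryStruct.associator (ImC F) _ _ x y z).inv =
      (ImC.P F).map (@MonoidalCategoryStruct.associator C _ _ x y z).inv := rfl

theorem ImC.lu_hom (x : C) : (@MonoidalCategoryStruct.leftUnitor (ImC F) _ _ x).hom =
    (ImC.P F).map (@MonoidalCategoryStruct.leftUnitor C _ _ x).hom := rfl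

theorem ImC.lu_inv (x : C) : (@MonoidalCategoryStruct.leftUnitor (ImC F) _ _ x).inv =
    (ImC.P F).map (@MonoidalCategoryStruct.leftUnitor C _ _ x).inv := rfl

theorem ImC.ru_hom (x : C) : (@MonoidalCategoryStruct.rightUnitor (ImC F) _ _ x).hom =
    (ImC.P F).map (@MonoidalCategoryStruct.rightUnitor C _ _ x).hom := rfl

theorem ImC.ru_inv (x : C) : (@MonoidalCategoryStruct.rightUnitor (ImC F) _ _ x).inv =
    (ImC.P F).map (@MonoidalCategoryStruct.rightUnitor C _ _ x).inv := rfl

theorem ImC.I_μ (x y : ImC F) : μ (ImC.I F) x y = μ F x y := rfl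

theorem ImC.I_δ (x y : ImC F) : δ (ImC.I F) x y = δ F x y := rfl

theorem ImC.I_ε : ε (ImC.I F) = ε F := rfl

theorem ImC.I_η : η (ImC.I F) = η F := rfl

end

section

variable {K : Type w} [Field K] [Preadditive D] [Linear K D] [MonoidalPreadditive D] [MonoidalLinear K D]

instance ImC.I_add : (ImC.I F).Additive where
  map_add := rfl

instance ImC.I_lin : (ImC.I F).Linear K where
  map_smul _ _ := rfl

instance ImC.mp : MonoidalPreadditive (ImC F) := monoidalPreadditive_of_faithful (ImC.I F)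

instance ImC.ml : MonoidalLinear K (ImC F) := MonoidalLinear.ofFaithful K (ImC.I F)

end

end Pool.Agent.SFC
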