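import Pool.Agent.SFC.E1b
import Pool.Agent.SFC.BGa
import Pool.Agent.SFC.BFa
import Pool.Agent.SFC.E1i

/-!
# SFH/PF: objects of `D` come from objects of `C`

`F : C ⥤ D` additive and linear, each object of `D` is a retract of some `F y`, `F (S i)` is simple for each simple `S i` of `C`.
`exists_lift_smp`: `FD.S j` is a retract of some `F y`, `y` is a direct sum of `FC.S (k a)`, so there is a nonzero morphism `FD.S j ⟶ F (FC.S i)` for some `i`; both are simple, so they are isomorphic (`smp_iso`, with `Reg K D` from `fus_fd FD`, `fus_reg FD`).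
`exists_lift_obj`: `Z = ⊕ FD.S (k a)` (`FD.dec`); choose `s j` with `FD.S j ≅ F (FC.S (s j))`, `x := ⨁ fun a => FC.S (s (k a))`.  `F x ≅ Z`: `hom := ∑ a, F.map (π a) ≫ (iso a) ≫ (j a)`, `inv := ∑ a, p a ≫ (iso a).inv ≫ F.map (ι a)`.
For `h : F x ⟶ F x`: the component `F (ι a) ≫ h ≫ F (π b) : F (FC.S (s (k a))) ⟶ F (FC.S (s (k b)))` is zero if `k a ≠ k b` (`FD.hom_zero`); if `k a = k b` it is `c • 𝟙` after `FC.S (s (k a)) = FC.S (s (k b))` (`FD.schur`), so it is `F.map (f a b)`; `f := ∑ a, ∑ b, π a ≫ f a b ≫ ι b`.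
(`F` is additive, so it preserves the relations `ι a ≫ π b = 0` or `𝟙`, `∑ a, π a ≫ ι a = 𝟙` of the biproduct.)
-/

set_option autoImplicit false

noncomputable section

open CategoryTheory MonoidalCategory
open scoped BigOperators

namespace Pool.Agent.SFC

open Pool.Agent.NFG

universe v u v' u' w

variable {K : Type w} [Field K] {C : Type u} [Category.{v} C] [Preadditive C] [Linear K C] [MonoidalCategory C]
  [MonoidalPreadditive C] [MonoidalLinear K C] {D : Type u'} [Category.{v'} D] [Preadditive D] [Linear K D]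
  [MonoidalCategory D] [MonoidalPreadditive D] [MonoidalLinear K D] {F : C ⥤ D} {ιC : Type} [Fintype ιC]
  [DecidableEq ιC] {ιD : Type} [Fintype ιD] [DecidableEq ιD]

private theorem PF_iso (FD : Fus K D ιD) {j : ιD} {W : D} (hW : Smp K W) (f : FD.S j ⟶ W)
    (hf : f ≠ 0) : Nonempty (W ≅ FD.S j) := by
  obtain ⟨g, hg⟩ := exists_retract FD hf
  obtain ⟨c, hc⟩ := hW.2 (g ≫ f)
  have h1 : f ≫ (g ≫ f) = f := by rw [← Category.assoc, hg, Category.id_comp]
  rw [hc, Linear.comp_smul, Category.comp_id] at h1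
  have h2 : (c - 1) • f = 0 := by rw [sub_smul, h1, one_smul, sub_self]
  have h3 : c = 1 := by
    rcases smul_eq_zero.mp h2 with h | h
    · exact sub_eq_zero.mp h
    · exact absurd h hf
  rw [h3, one_smul] at hc
  exact ⟨⟨g, f, hc, hg⟩⟩

theorem exists_lift_smp (FC : Fus K C ιC) (FD : Fus K D ιD)
    (hadd : ∀ {x y : C} (f g : x ⟶ y), F.map (f + g) = F.map f + F.map g)
    (hdom : ∀ Z : D, ∃ (x : C) (i : Z ⟶ F.obj x) (p : F.obj x ⟶ Z), i ≫ p = 𝟙 Z)
    (hF : ∀ i, Smp K (F.obj (FC.S i))) (j : ιD) : ∃ i, Nonempty (F.obj (FC.S i) ≅ FD.S j) := by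
  haveI : F.Additive := ⟨fun {x y f g} => hadd f g⟩
  obtain ⟨x, i, p, hip⟩ := hdom (FD.S j)
  obtain ⟨n, k, q, l, -, -, h3⟩ := FC.dec x
  obtain ⟨a, ha⟩ : ∃ a, i ≫ F.map (q a) ≠ 0 := by
    by_contra hcon
    push Not at hcon
    apply FD.one_ne j
    rw [← hip]
    have h4 : i = 0 := by
      have h5 : i ≫ F.map (𝟙 x) = i := by rw [F.map_id, Category.comp_id]
      rw [← h5, ← h3, F.map_sum, Preadditive.comp_sum]
      refine Finset.sum_eq_zero fun a _ => ?_
      rw [F.map_comp, ← Category.assoc, hcon a, Limits.zero_comp]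
    rw [h4, Limits.zero_comp]
  exact ⟨k a, PF_iso FD (hF (k a)) _ ha⟩

theorem exists_lift_obj [Limits.HasFiniteBiproducts C] (FC : Fus K C ιC) (FD : Fus K D ιD)
    (hadd : ∀ {x y : C} (f g : x ⟶ y), F.map (f + g) = F.map f + F.map g)
    (hsmul : ∀ {x y : C} (c : K) (f : x ⟶ y), F.map (c • f) = c • F.map f)
    (hdom : ∀ Z : D, ∃ (x : C) (i : Z ⟶ F.obj x) (p : F.obj x ⟶ Z), i ≫ p = 𝟙 Z)
    (hF : ∀ i, Smp K (F.obj (FC.S i))) (Z : D) :
    ∃ (x : C) (_ : F.obj x ≅ Z), ∀ h : F.obj x ⟶ F.obj x, ∃ f : x ⟶ x, F.map f = h := by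
  haveI : F.Additive := ⟨fun {x y f g} => hadd f g⟩
  choose s hs using exists_lift_smp (F := F) FC FD hadd hdom hF
  have e : ∀ j, F.obj (FC.S (s j)) ≅ FD.S j := fun j => (hs j).some
  have hfull : ∀ (m m' : ιD) (g : F.obj (FC.S (s m)) ⟶ F.obj (FC.S (s m'))),
      ∃ f : FC.S (s m) ⟶ FC.S (s m'), F.map f = g := by
    intro m m' g
    by_cases hm : m = m'
    · subst hm
      obtain ⟨c, hc⟩ := (hF (s m)).2 g
      exact ⟨c • 𝟙 _, by rw [hsmul, F.map_id, hc]⟩
    · refine ⟨0, ?_⟩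
      have h1 : (e m).inv ≫ g ≫ (e m').hom = 0 := FD.hom_zero m m' hm _
      have h2 : g = (e m).hom ≫ ((e m).inv ≫ g ≫ (e m').hom) ≫ (e m').inv := by simp
      rw [h2, h1, Limits.zero_comp, Limits.comp_zero, F.map_zero]
  obtain ⟨n, k, p, j, hjp, hjp0, hpj⟩ := FD.dec Z
  have hπι : ∑ a : Fin n, F.map (Limits.biproduct.π (fun a : Fin n => FC.S (s (k a))) a) ≫
      F.map (Limits.biproduct.ι (fun a : Fin n => FC.S (s (k a))) a) =
      𝟙 (F.obj (⨁ fun a : Fin n => FC.S (s (k a)))) := by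
    rw [← F.map_id, ← Limits.biproduct.total, F.map_sum]
    exact Finset.sum_congr rfl fun a _ => (F.map_comp _ _).symm
  refine ⟨⨁ fun a : Fin n => FC.S (s (k a)),
    ⟨∑ a, F.map (Limits.biproduct.π (fun a : Fin n => FC.S (s (k a))) a) ≫ (e (k a)).hom ≫ j a,
     ∑ a, p a ≫ (e (k a)).inv ≫ F.map (Limits.biproduct.ι (fun a : Fin n => FC.S (s (k a))) a),
     ?_, ?_⟩, ?_⟩
  · rw [Preadditive.sum_comp, ← hπι]
    refine Finset.sum_congr rfl fun a _ => ?_
    rw [Preadditive.comp_sum, Finset.sum_eq_single a]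
    · simp only [Category.assoc]
      rw [← Category.assoc (j a), hjp a, Category.id_comp, Iso.hom_inv_id_assoc]
    · intro b _ hb
      simp only [Category.assoc]
      rw [← Category.assoc (j a), hjp0 a b (Ne.symm hb), Limits.zero_comp, Limits.comp_zero,
        Limits.comp_zero]
    · intro ha
      exact absurd (Finset.mem_univ a) ha
  · rw [Preadditive.sum_comp, ← hpj]
    refine Finset.sum_congr rfl fun a _ => ?_
    rw [Preadditive.comp_sum, Finset.sum_eq_single a]
    · simp only [Category.assoc]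
      rw [← Category.assoc (F.map (Limits.biproduct.ι _ a)), ← F.map_comp,
        Limits.biproduct.ι_π_self, F.map_id, Category.id_comp, Iso.inv_hom_id_assoc]
    · intro b _ hb
      simp only [Category.assoc]
      rw [← Category.assoc (F.map (Limits.biproduct.ι _ a)), ← F.map_comp,
        Limits.biproduct.ι_π_ne _ (Ne.symm hb), F.map_zero, Limits.zero_comp, Limits.comp_zero,
        Limits.comp_zero]
    · intro ha
      exact absurd (Finset.mem_univ a) ha
  · intro h
    choose f hf using fun a b : Fin n => hfull (k a) (k b)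
      (F.map (Limits.biproduct.ι (fun a : Fin n => FC.S (s (k a))) a) ≫ h ≫
        F.map (Limits.biproduct.π (fun a : Fin n => FC.S (s (k a))) b))
    refine ⟨∑ a, ∑ b, Limits.biproduct.π (fun a : Fin n => FC.S (s (k a))) a ≫ f a b ≫
      Limits.biproduct.ι (fun a : Fin n => FC.S (s (k a))) b, ?_⟩
    have h1 : h = 𝟙 _ ≫ h ≫ 𝟙 _ := by rw [Category.id_comp, Category.comp_id]
    rw [h1, ← hπι, F.map_sum, Preadditive.sum_comp]
    refine Finset.sum_congr rfl fun a _ => ?_
    rw [F.map_sum, Preadditive.comp_sum, Preadditive.comp_sum]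
    refine Finset.sum_congr rfl fun b _ => ?_
    rw [F.map_comp, F.map_comp, hf]
    simp only [Category.assoc]

end Pool.Agent.SFC
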