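import Mathlib

/-!
# SFH/PG: class-preserving automorphisms of order prime to the order of the group

`meets`: a subgroup `C` of a finite group `G` which meets every conjugacy class is `⊤`: `G = ⋃ g C g⁻¹` over representatives `g` of the `[G : C]` cosets (`g C g⁻¹` depends only on `g C`); the identity is in all of them, so
`|G| ≤ [G : C] (|C| - 1) + 1`, hence `[G : C] ≤ 1`.
`class_pres`: `θ` acts on the class of `g` (`θ x` is conjugate to `x`); `θ ^ p = 1`, the number of elements of the class divides `|G|`, so it is prime to `p`, and `θ` has a fixed point on it (number of fixed points `≡` number of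
elements mod `p`: `MulAction.card_modEq_card_fixedPoints` for the `p`-group `Multiplicative (ZMod p)` or `Subgroup.zpowers θ`, or `Equiv.Perm` with `card_fixedPoints_modEq`).  So the subgroup of the fixed points of `θ` meets
every class, and it is everything.
-/

set_option autoImplicit false

namespace Pool.Agent.SFC

theorem meets {G : Type*} [Group G] [Finite G] (C : Subgroup G) (h : ∀ g : G, ∃ c ∈ C, IsConj g c) : C = ⊤ := by
  classical
  have := Fintype.ofFinite G
  have := Fintype.ofFinite (G ⧸ C)
  have : ∀ g : G, Fintype (MulAction.fixedBy (G ⧸ C) g) := fun g => Fintype.ofFinite _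
  have : Fintype (Quotient (MulAction.orbitRel G (G ⧸ C))) := Fintype.ofFinite _
  have hs := MulAction.sum_card_fixedBy_eq_card_orbits_mul_card_group G (G ⧸ C)
  have h1 : Fintype.card (Quotient (MulAction.orbitRel G (G ⧸ C))) ≤ 1 := by
    rw [Fintype.card_le_one_iff_subsingleton]
    exact (MulAction.pretransitive_iff_subsingleton_quotient G (G ⧸ C)).1 inferInstance
  have h2 : ∀ g : G, 1 ≤ Fintype.card (MulAction.fixedBy (G ⧸ C) g) := by
    intro g
    obtain ⟨c, hc, hgc⟩ := h g
    obtain ⟨x, hx⟩ := isConj_iff.1 hgc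
    rw [Nat.one_le_iff_ne_zero, ← Nat.pos_iff_ne_zero, Fintype.card_pos_iff]
    refine ⟨⟨((x⁻¹ : G) : G ⧸ C), ?_⟩⟩
    rw [MulAction.mem_fixedBy, MulAction.Quotient.smul_coe, smul_eq_mul, QuotientGroup.eq]
    have : (g * x⁻¹)⁻¹ * x⁻¹ = c⁻¹ := by rw [← hx]; group
    rw [this]
    exact C.inv_mem hc
  have h3 : ∑ g : G, Fintype.card (MulAction.fixedBy (G ⧸ C) g) ≤ ∑ _g : G, 1 := by
    rw [hs, Finset.sum_const, Finset.card_univ, smul_eq_mul, mul_one]
    calc _ ≤ 1 * Fintype.card G := Nat.mul_le_mul_right _ h1
      _ = _ := one_mul _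
  have h4 : ∑ g : G, Fintype.card (MulAction.fixedBy (G ⧸ C) g) = ∑ _g : G, 1 :=
    le_antisymm h3 (Finset.sum_le_sum fun g _ => h2 g)
  have h5 : ∀ g ∈ (Finset.univ : Finset G), 1 = Fintype.card (MulAction.fixedBy (G ⧸ C) g) :=
    (Finset.sum_eq_sum_iff_of_le fun g _ => h2 g).1 h4.symm
  have h6 := h5 1 (Finset.mem_univ _)
  have h7 : Fintype.card (MulAction.fixedBy (G ⧸ C) (1 : G)) = Fintype.card (G ⧸ C) := by
    apply Fintype.card_congr
    exact Equiv.subtypeUnivEquiv fun x => by simp
  rw [← Subgroup.index_eq_one, Subgroup.index, Nat.card_eq_fintype_card, ← h7, ← h6]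

theorem class_pres {G : Type*} [Group G] [Finite G] {p : ℕ} (hp : p.Prime) (hG : ¬ p ∣ Nat.card G) (θ : MulAut G)
    (hθ : θ ^ p = 1) (hc : ∀ g, IsConj g (θ g)) : θ = 1 := by
  classical
  have := Fintype.ofFinite G
  have : Fact p.Prime := ⟨hp⟩
  let C : Subgroup G :=
    { carrier := {x | θ x = x}
      one_mem' := map_one θ
      mul_mem' := fun {a b} ha hb => by
        simp only [Set.mem_ofPred_eq] at *
        rw [map_mul, ha, hb]
      inv_mem' := fun {a} ha => by
        simp only [Set.mem_ofPred_eq] at *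
        rw [map_inv, ha] }
  have hC : C = ⊤ := by
    apply meets
    intro g
    have hmem : ∀ y : G, IsConj g y ↔ IsConj g (θ y) := fun y =>
      ⟨fun hy => hy.trans (hc y), fun hy => hy.trans (hc y).symm⟩
    let σ : Equiv.Perm {y : G // IsConj g y} :=
      Equiv.Perm.subtypePerm (MulAut.toPerm G θ) fun y => (hmem y).symm
    have hcard : ¬ p ∣ Fintype.card {y : G // IsConj g y} := by
      intro hd
      apply hG
      refine hd.trans ?_
      rw [Nat.card_eq_fintype_card]
      have e : Fintype.card {y : G // IsConj g y} = Fintype.card (MulAction.orbit (ConjAct G) g) := by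
        apply Fintype.card_congr
        refine Equiv.subtypeEquivRight fun y => ?_
        rw [ConjAct.mem_orbit_conjAct, isConj_comm]
      rw [e]
      refine ⟨Fintype.card (MulAction.stabilizer (ConjAct G) g), ?_⟩
      rw [MulAction.card_orbit_mul_card_stabilizer_eq_card_group]
      rfl
    have hσ : σ ^ p ^ 1 = 1 := by
      have e : (MulAut.toPerm G θ) ^ p = 1 := by
        have := congrArg (MulAut.toPerm G) hθ
        rw [map_pow, map_one] at this
        exact this
      rw [pow_one]
      apply Equiv.ext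
      intro y
      apply Subtype.ext
      rw [Equiv.Perm.subtypePerm_pow, Equiv.Perm.subtypePerm_apply]
      change ((MulAut.toPerm G θ) ^ p) y.1 = y.1
      rw [e]
      rfl
    obtain ⟨a, ha⟩ := Equiv.Perm.exists_fixed_point_of_prime hcard hσ
    refine ⟨a.1, ?_, a.2⟩
    exact congrArg Subtype.val ha
  apply MulEquiv.ext
  intro x
  have : x ∈ C := hC ▸ Subgroup.mem_top x
  exact this

end Pool.Agent.SFC
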