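import Pool.Agent.SFH.PE
import Pool.Agent.SFC.E1b

/-!
# SFH/PH: the twist of `ImC F`

`Tw K F p`: an automorphism `s` of the category `ImC F` of order `p`, the identity on objects, compatible with the tensor product, whose fixed morphisms are the morphisms of `C`, with objects `T c` and isomorphisms `τ c : T c ≅ 𝟙`
(in `ImC F`) with `s (τ c) = ζ ^ c • τ c`.
`exists_tw`: let `ζ` be a primitive `p`-th root of unity (`HasEnoughRootsOfUnity.exists_primitiveRoot K p`, `p ≠ 0` in `K`).  For `f : x ⟶ y` in `ImC F` let `f.hom = ∑ a, k a` be the decomposition of `Wt.dec` (unique by `Wt.uniq` applied to the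
difference of two decompositions) and `s f = ⟨∑ a, ζ ^ a.val • k a⟩`.  General principle: if `f.hom = ∑ a, k a` with `k a ∈ W a` then `(s f).hom = ∑ a, ζ ^ a.val • k a`.  `comp`: `Wt.comp`; the component of weight `c` of `f ≫ g` is
`∑ a, k a ≫ l (c - a)`, `ζ ^ (a + b).val = ζ ^ a.val * ζ ^ b.val` (`ζ ^ p = 1`, `ZMod.val_add`).  `ten`: `Wt.ten` the same way.  `fix`: `Wt.map`.  `lift`: `s f = f` gives `∑ a, (ζ ^ a.val - 1) • k a = 0`, so `k a = 0` for `a ≠ 0` (`Wt.uniq`;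
`ζ ^ a.val ≠ 1`), `f.hom ∈ W 0`, `Wt.lift`.  `pow`: `s^[m] f = ∑ a, ζ ^ (a.val * m) • k a`.  `sτ`: `Wt.τ_mem`; note `τ c : T c ≅ 𝟙_ (ImC F)` is `InducedCategory.isoMk (Wt.τ c)`.
-/

set_option autoImplicit false

noncomputable section

open CategoryTheory MonoidalCategory
open scoped BigOperators

namespace Pool.Agent.SFC

universe v u v' u' w

/-- the automorphism of `ImC F` given by the weights -/
structure Tw (K : Type w) [Field K] {C : Type u} [Category.{v} C] [Preadditive C] [Linear K C] [MonoidalCategory C]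
    {D : Type u'} [Category.{v'} D] [Preadditive D] [Linear K D] [MonoidalCategory D] (F : C ⥤ D) [F.Monoidal] (p : ℕ)
    [NeZero p] where
  s : ∀ {x y : ImC F}, (x ⟶ y) → (x ⟶ y)
  add : ∀ {x y : ImC F} (f g : x ⟶ y), s (f + g) = s f + s g
  smul : ∀ {x y : ImC F} (c : K) (f : x ⟶ y), s (c • f) = c • s f
  comp : ∀ {x y z : ImC F} (f : x ⟶ y) (g : y ⟶ z), s (f ≫ g) = s f ≫ s g
  ten : ∀ {x y x' y' : ImC F} (f : x ⟶ y) (g : x' ⟶ y'), s (f ⊗ₘ g) = s f ⊗ₘ s g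
  fix : ∀ {x y : C} (f : x ⟶ y), s ((ImC.P F).map f) = (ImC.P F).map f
  lift : ∀ {x y : C} (f : (ImC.P F).obj x ⟶ (ImC.P F).obj y), s f = f → ∃ g : x ⟶ y, (ImC.P F).map g = f
  pow : ∀ {x y : ImC F} (f : x ⟶ y), s^[p] f = f
  ζ : K
  prim : IsPrimitiveRoot ζ p
  T : ZMod p → C
  τ : ∀ c, (ImC.P F).obj (T c) ≅ 𝟙_ (ImC F)
  sτ : ∀ c, s (τ c).hom = ζ ^ c.val • (τ c).hom

variable {K : Type w} [Field K] {C : Type u} [Category.{v} C] [Preadditive C] [Linear K C] [MonoidalCategory C]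
  {D : Type u'} [Category.{v'} D] [Preadditive D] [Linear K D] [MonoidalCategory D] [MonoidalPreadditive D]
  [MonoidalLinear K D] {F : C ⥤ D} [F.Monoidal] {p : ℕ} [NeZero p]

section aux

open Functor.LaxMonoidal Functor.OplaxMonoidal

private def PH_dec (Wt : Wts K F p) {x y : C} (h : F.obj x ⟶ F.obj y) : ZMod p → (F.obj x ⟶ F.obj y) :=
  (Wt.dec h).choose

private theorem PH_dec_mem (Wt : Wts K F p) {x y : C} (h : F.obj x ⟶ F.obj y) (a : ZMod p) :
    PH_dec Wt h a ∈ Wt.W a x y := (Wt.dec h).choose_spec.1 a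

private theorem PH_dec_sum (Wt : Wts K F p) {x y : C} (h : F.obj x ⟶ F.obj y) :
    ∑ a, PH_dec Wt h a = h := (Wt.dec h).choose_spec.2

private theorem PH_dec_eq (Wt : Wts K F p) {x y : C} {h : F.obj x ⟶ F.obj y}
    (k : ZMod p → (F.obj x ⟶ F.obj y)) (hk : ∀ a, k a ∈ Wt.W a x y) (hs : ∑ a, k a = h) :
    PH_dec Wt h = k := by
  funext a
  have h1 := Wt.uniq (fun a => PH_dec Wt h a - k a)
    (fun a => Submodule.sub_mem _ (PH_dec_mem Wt h a) (hk a))
    (by rw [Finset.sum_sub_distrib, PH_dec_sum, hs, sub_self]) a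
  exact sub_eq_zero.mp h1

private def PH_s (Wt : Wts K F p) (ζ : K) (x y : C) : (F.obj x ⟶ F.obj y) →ₗ[K] (F.obj x ⟶ F.obj y) where
  toFun h := ∑ a, ζ ^ a.val • PH_dec Wt h a
  map_add' f g := by
    rw [PH_dec_eq Wt (h := f + g) (fun a => PH_dec Wt f a + PH_dec Wt g a)
      (fun a => Submodule.add_mem _ (PH_dec_mem Wt f a) (PH_dec_mem Wt g a))
      (by rw [Finset.sum_add_distrib, PH_dec_sum, PH_dec_sum])]
    simp only [smul_add, Finset.sum_add_distrib]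
  map_smul' c f := by
    rw [PH_dec_eq Wt (h := c • f) (fun a => c • PH_dec Wt f a)
      (fun a => Submodule.smul_mem _ c (PH_dec_mem Wt f a))
      (by rw [← Finset.smul_sum, PH_dec_sum])]
    simp only [RingHom.id_apply, Finset.smul_sum]
    refine Finset.sum_congr rfl fun a _ => ?_
    rw [smul_comm]

private theorem PH_s_of (Wt : Wts K F p) (ζ : K) {x y : C} {h : F.obj x ⟶ F.obj y}
    (k : ZMod p → (F.obj x ⟶ F.obj y)) (hk : ∀ a, k a ∈ Wt.W a x y) (hs : ∑ a, k a = h) :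
    PH_s Wt ζ x y h = ∑ a, ζ ^ a.val • k a := by
  show ∑ a, ζ ^ a.val • PH_dec Wt h a = _
  rw [PH_dec_eq Wt k hk hs]

private theorem PH_s_mem (Wt : Wts K F p) (ζ : K) {x y : C} {h : F.obj x ⟶ F.obj y} {a : ZMod p}
    (ha : h ∈ Wt.W a x y) : PH_s Wt ζ x y h = ζ ^ a.val • h := by
  classical
  rw [PH_s_of Wt ζ (fun b => if b = a then h else 0) (fun b => ?_) (by simp)]
  · simp
  · split_ifs with hb
    · rw [hb]; exact ha
    · exact Submodule.zero_mem _

private theorem PH_ind (Wt : Wts K F p) {x y : C} {P : (F.obj x ⟶ F.obj y) → Prop} (h0 : P 0)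
    (hadd : ∀ f g, P f → P g → P (f + g)) (hmem : ∀ a f, f ∈ Wt.W a x y → P f) (f : F.obj x ⟶ F.obj y) :
    P f := by
  classical
  obtain ⟨k, hk, rfl⟩ := Wt.dec f
  exact Finset.sum_induction k P hadd h0 fun a _ => hmem a _ (hk a)

private theorem PH_pow_val {ζ : K} (hζ : ζ ^ p = 1) (a b : ZMod p) :
    ζ ^ (a + b).val = ζ ^ a.val * ζ ^ b.val := by
  rw [← pow_add, ZMod.val_add]
  conv_rhs => rw [← Nat.mod_add_div (a.val + b.val) p, pow_add, pow_mul, hζ, one_pow, mul_one]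

private theorem PH_s_comp (Wt : Wts K F p) {ζ : K} (hζ : ζ ^ p = 1) {x y z : C} (f : F.obj x ⟶ F.obj y)
    (g : F.obj y ⟶ F.obj z) : PH_s Wt ζ x z (f ≫ g) = PH_s Wt ζ x y f ≫ PH_s Wt ζ y z g := by
  refine PH_ind Wt (P := fun f => PH_s Wt ζ x z (f ≫ g) = PH_s Wt ζ x y f ≫ PH_s Wt ζ y z g) ?_ ?_ ?_ f
  · simp
  · intro f f' h1 h2
    rw [Preadditive.add_comp, map_add, map_add, Preadditive.add_comp, h1, h2]
  · intro a f hf
    refine PH_ind Wt (P := fun g => PH_s Wt ζ x z (f ≫ g) = PH_s Wt ζ x y f ≫ PH_s Wt ζ y z g) ?_ ?_ ?_ g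
    · simp
    · intro g g' h1 h2
      rw [Preadditive.comp_add, map_add, map_add, Preadditive.comp_add, h1, h2]
    · intro b g hg
      rw [PH_s_mem Wt ζ (Wt.comp rfl hf hg), PH_s_mem Wt ζ hf, PH_s_mem Wt ζ hg, PH_pow_val hζ,
        Linear.smul_comp, Linear.comp_smul, smul_smul]

private theorem PH_s_ten (Wt : Wts K F p) {ζ : K} (hζ : ζ ^ p = 1) {x y x' y' : C} (f : F.obj x ⟶ F.obj y)
    (g : F.obj x' ⟶ F.obj y') :
    PH_s Wt ζ (x ⊗ x') (y ⊗ y') (δ F x x' ≫ (f ⊗ₘ g) ≫ μ F y y') =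
      δ F x x' ≫ (PH_s Wt ζ x y f ⊗ₘ PH_s Wt ζ x' y' g) ≫ μ F y y' := by
  refine PH_ind Wt (P := fun f => PH_s Wt ζ (x ⊗ x') (y ⊗ y') (δ F x x' ≫ (f ⊗ₘ g) ≫ μ F y y') =
      δ F x x' ≫ (PH_s Wt ζ x y f ⊗ₘ PH_s Wt ζ x' y' g) ≫ μ F y y') ?_ ?_ ?_ f
  · simp
  · intro f f' h1 h2
    rw [MonoidalPreadditive.add_tensor, Preadditive.add_comp, Preadditive.comp_add, map_add, map_add,
      MonoidalPreadditive.add_tensor, Preadditive.add_comp, Preadditive.comp_add, h1, h2]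
  · intro a f hf
    refine PH_ind Wt (P := fun g => PH_s Wt ζ (x ⊗ x') (y ⊗ y') (δ F x x' ≫ (f ⊗ₘ g) ≫ μ F y y') =
      δ F x x' ≫ (PH_s Wt ζ x y f ⊗ₘ PH_s Wt ζ x' y' g) ≫ μ F y y') ?_ ?_ ?_ g
    · simp
    · intro g g' h1 h2
      rw [MonoidalPreadditive.tensor_add, Preadditive.add_comp, Preadditive.comp_add, map_add, map_add,
        MonoidalPreadditive.tensor_add, Preadditive.add_comp, Preadditive.comp_add, h1, h2]
    · intro b g hg
      rw [PH_s_mem Wt ζ (Wt.ten rfl hf hg), PH_s_mem Wt ζ hf, PH_s_mem Wt ζ hg, PH_pow_val hζ]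
      simp only [MonoidalCategory.tensorHom_def, MonoidalLinear.smul_whiskerRight,
        MonoidalLinear.whiskerLeft_smul, Linear.smul_comp, Linear.comp_smul, smul_smul, Category.assoc]
      rw [mul_comm]

private theorem PH_s_iter_mem (Wt : Wts K F p) (ζ : K) {x y : C} {h : F.obj x ⟶ F.obj y} {a : ZMod p}
    (ha : h ∈ Wt.W a x y) (m : ℕ) : (PH_s Wt ζ x y ^ m) h = (ζ ^ m) ^ a.val • h := by
  induction m with
  | zero => simp
  | succ m ih =>
    rw [pow_succ, Module.End.mul_apply, PH_s_mem Wt ζ ha, map_smul, ih, smul_smul, pow_succ ζ m, mul_pow,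
      mul_comm]

private theorem PH_s_iter (Wt : Wts K F p) {ζ : K} (hζ : ζ ^ p = 1) {x y : C} (h : F.obj x ⟶ F.obj y) :
    (PH_s Wt ζ x y ^ p) h = h := by
  refine PH_ind Wt (P := fun h => (PH_s Wt ζ x y ^ p) h = h) ?_ ?_ ?_ h
  · simp
  · intro f g h1 h2
    rw [map_add, h1, h2]
  · intro a f hf
    rw [PH_s_iter_mem Wt ζ hf, hζ, one_pow, one_smul]

private theorem PH_s_lift (Wt : Wts K F p) {ζ : K} (hζ : IsPrimitiveRoot ζ p) {x y : C}
    (h : F.obj x ⟶ F.obj y) (hh : PH_s Wt ζ x y h = h) : ∃ g : x ⟶ y, F.map g = h := by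
  classical
  have h1 := Wt.uniq (fun a => (ζ ^ a.val - 1) • PH_dec Wt h a)
    (fun a => Submodule.smul_mem _ _ (PH_dec_mem Wt h a)) (by
      simp only [sub_smul, one_smul, Finset.sum_sub_distrib]
      rw [PH_dec_sum, sub_eq_zero]
      exact hh)
  have h2 : ∀ a : ZMod p, a ≠ 0 → PH_dec Wt h a = 0 := by
    intro a ha
    rcases smul_eq_zero.mp (h1 a) with h3 | h3
    · exfalso
      have h4 : ζ ^ a.val = 1 := sub_eq_zero.mp h3
      have h5 : p ∣ a.val := hζ.dvd_of_pow_eq_one _ h4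
      have h6 : a.val = 0 := Nat.eq_zero_of_dvd_of_lt h5 (ZMod.val_lt a)
      exact ha ((ZMod.val_eq_zero a).mp h6)
    · exact h3
  have h3 : PH_dec Wt h 0 = h := by
    have h4 := PH_dec_sum Wt h
    rw [Finset.sum_eq_single 0 (fun b _ hb => h2 b hb) (fun hb => absurd (Finset.mem_univ _) hb)] at h4
    exact h4
  have h4 : h ∈ Wt.W 0 x y := by
    rw [← h3]; exact PH_dec_mem Wt h 0
  obtain ⟨g, hg, -⟩ := Wt.lift h h4
  exact ⟨g, hg⟩

end aux

theorem exists_tw [IsAlgClosed K] [CharZero K] (Wt : Wts K F p) : Nonempty (Tw K F p) := by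
  obtain ⟨ζ, hζ⟩ : ∃ ζ : K, IsPrimitiveRoot ζ p := by
    haveI : NeZero (p : K) := ⟨Nat.cast_ne_zero.mpr (NeZero.ne p)⟩
    exact HasEnoughRootsOfUnity.exists_primitiveRoot K p
  have hζ1 : ζ ^ p = 1 := hζ.pow_eq_one
  refine ⟨{
    s := fun {x y} f => ⟨PH_s Wt ζ x y f.hom⟩
    add := ?_
    smul := ?_
    comp := ?_
    ten := ?_
    fix := ?_
    lift := ?_
    pow := ?_
    ζ := ζ
    prim := hζ
    T := Wt.T
    τ := fun c => InducedCategory.isoMk (Wt.τ c)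
    sτ := ?_ }⟩
  · intro x y f g
    exact InducedCategory.hom_ext (map_add (PH_s Wt ζ x y) f.hom g.hom)
  · intro x y c f
    exact InducedCategory.hom_ext (map_smul (PH_s Wt ζ x y) c f.hom)
  · intro x y z f g
    exact InducedCategory.hom_ext (PH_s_comp Wt hζ1 f.hom g.hom)
  · intro x y x' y' f g
    exact InducedCategory.hom_ext (PH_s_ten Wt hζ1 f.hom g.hom)
  · intro x y f
    refine InducedCategory.hom_ext ?_
    show PH_s Wt ζ x y (F.map f) = F.map f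
    rw [PH_s_mem Wt ζ (Wt.map f)]
    simp
  · intro x y f hf
    obtain ⟨g, hg⟩ := PH_s_lift Wt hζ f.hom (congrArg InducedCategory.Hom.hom hf)
    exact ⟨g, InducedCategory.hom_ext hg⟩
  · intro x y f
    have h1 : ∀ m : ℕ, ((fun f : x ⟶ y => (⟨PH_s Wt ζ x y f.hom⟩ : x ⟶ y))^[m] f).hom =
        (PH_s Wt ζ x y ^ m) f.hom := by
      intro m
      induction m with
      | zero => simp
      | succ m ih =>
        rw [Function.iterate_succ_apply', pow_succ', Module.End.mul_apply, ← ih]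
    refine InducedCategory.hom_ext ?_
    exact (h1 p).trans (PH_s_iter Wt hζ1 f.hom)
  · intro c
    exact InducedCategory.hom_ext (PH_s_mem Wt ζ (Wt.τ_mem c))

end Pool.Agent.SFC
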