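import Pool.Agent.SFH.PMa

/-!
# SFH/PMx: the algebra of a simple Galois extension: linear independence, automorphisms

Notation: `Ga : GalG K S H`, `A = S.A`; `pmP g (x ⊗ y) = x (g y)`, `pmJ g x = Δ` followed by `g⁻¹` on the second factor (SFH/PMa).
`one_ne`: `one ≫ cn = |H| • 𝟙`.  `indep`: `∑ g, c g • a g = 0`; so `∑ g, c g • pmP g = 0`, compose with `pmJ h` from the left (`jp_self`, `jp_ne`): `c h • 𝟙 A = 0`.
`indep2`: `(a g ⊗ₘ a h) ≫ mul = pmP (g⁻¹ * h) ≫ a g` (`x, y ↦ g (x · g⁻¹ h y)`, `Ga.mul`).  So `∑ g, ∑ h, b g h • (a g ⊗ₘ a h) ≫ mul = 0`, composed with `pmJ k` from the left, gives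
`∑ g, b g (g * k) • a g = 0`, and `indep`.
`aut`: `f = ∑ c g • a g` (`span`); `mul ≫ f = ∑ g, c g • (a g ⊗ₘ a g) ≫ mul` and `(f ⊗ₘ f) ≫ mul = ∑ g, ∑ h, (c g * c h) • (a g ⊗ₘ a h) ≫ mul`; `indep2`: `c g * c h = 0` for `g ≠ h`, `c g * c g = c g`; `one ≫ f = one` gives `∑ c g = 1` (`one ≠ 0`).
So exactly one `c g` is not zero, and it is `1`.
`conn'`: `t : A ⟶ 𝟙`; `e := one ≫ cm ≫ A ◁ t ≫ (ρ_ A).hom : 𝟙 ⟶ A` is `c • one` (`Ga.conn`), and `t = (ρ_ A).inv ≫ A ◁ e ≫ mul ≫ cn` (`frobL` reversed: `A ◁ (one ≫ cm) ≫ α⁻¹ ≫ mul ▷ A = (ρ_ A).hom ≫ cm`, `cn_cm`).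
`end1`: `f ≫ one = c • one` (`Ga.conn`); compose with `cn`, `Ga.dim`, `|H| ≠ 0` in `K`.
-/

set_option autoImplicit false

noncomputable section

open CategoryTheory MonoidalCategory
open scoped BigOperators

namespace Pool.Agent.SFC

universe v u w

variable {K : Type w} [Field K] {E : Type u} [Category.{v} E] [Preadditive E] [Linear K E] [MonoidalCategory E]
  [MonoidalPreadditive E] [MonoidalLinear K E] {S : SFrob E} {H : Type} [Group H] [Fintype H]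

section

variable [CharZero K]

omit [MonoidalPreadditive E] [MonoidalLinear K E] in
theorem GalG.card_ne (_Ga : GalG K S H) : (Fintype.card H : K) ≠ 0 :=
  Nat.cast_ne_zero.mpr Fintype.card_ne_zero

omit [MonoidalPreadditive E] [MonoidalLinear K E] in
theorem GalG.one_ne (Ga : GalG K S H) (h1 : 𝟙 (𝟙_ E) ≠ 0) : S.one ≠ 0 := by
  intro h
  have h2 := Ga.dim
  rw [h, Limits.zero_comp] at h2
  rcases smul_eq_zero.mp h2.symm with h3 | h3
  · exact Ga.card_ne h3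
  · exact h1 h3

omit [MonoidalPreadditive E] [MonoidalLinear K E] in
theorem GalG.id_ne (Ga : GalG K S H) (h1 : 𝟙 (𝟙_ E) ≠ 0) : 𝟙 S.A ≠ 0 := by
  intro h
  apply Ga.one_ne h1
  rw [← Category.comp_id S.one, h, Limits.comp_zero]

theorem GalG.indep (Ga : GalG K S H) (h1 : 𝟙 (𝟙_ E) ≠ 0) (c : H → K) (h : ∑ g, c g • Ga.a g = 0) (g : H) :
    c g = 0 := by
  classical
  have h2 : ∑ k, c k • Ga.pmP k = 0 := by
    have h3 : S.A ◁ (∑ k, c k • Ga.a k) ≫ S.mul = 0 := by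
      rw [h, MonoidalPreadditive.whiskerLeft_zero, Limits.zero_comp]
    rw [whiskerLeft_sum, Preadditive.sum_comp] at h3
    rw [← h3]
    refine Finset.sum_congr rfl fun k _ => ?_
    rw [MonoidalLinear.whiskerLeft_smul, Linear.smul_comp]
    rfl
  have h4 : Ga.pmJ g ≫ ∑ k, c k • Ga.pmP k = c g • 𝟙 S.A := by
    rw [Preadditive.comp_sum, Finset.sum_eq_single g]
    · rw [Linear.comp_smul, Ga.jp_self]
    · intro k _ hk
      rw [Linear.comp_smul, Ga.jp_ne g k (Ne.symm hk), smul_zero]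
    · intro hg
      exact absurd (Finset.mem_univ g) hg
  rw [h2, Limits.comp_zero] at h4
  rcases smul_eq_zero.mp h4.symm with h5 | h5
  · exact h5
  · exact absurd h5 (Ga.id_ne h1)

omit [CharZero K] [MonoidalPreadditive E] [MonoidalLinear K E] in
theorem GalG.amul (Ga : GalG K S H) (g h : H) :
    (Ga.a g ⊗ₘ Ga.a h) ≫ S.mul = Ga.pmP (g⁻¹ * h) ≫ Ga.a g := by
  unfold GalG.pmP
  rw [Category.assoc, ← Ga.mul, ← Category.assoc]
  congr 1
  rw [← id_tensorHom, tensorHom_comp_tensorHom, Category.id_comp, ← Ga.a_mul, mul_inv_cancel_left]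

theorem GalG.indep2 (Ga : GalG K S H) (h1 : 𝟙 (𝟙_ E) ≠ 0) (b : H → H → K)
    (h : ∑ g, ∑ h, b g h • ((Ga.a g ⊗ₘ Ga.a h) ≫ S.mul) = 0) (g g' : H) : b g g' = 0 := by
  classical
  have h2 : ∑ k, b k (k * (g⁻¹ * g')) • Ga.a k = 0 := by
    have h3 : Ga.pmJ (g⁻¹ * g') ≫ (∑ g, ∑ h, b g h • ((Ga.a g ⊗ₘ Ga.a h) ≫ S.mul)) = 0 := by
      rw [h, Limits.comp_zero]
    rw [← h3, Preadditive.comp_sum]
    refine Finset.sum_congr rfl fun k _ => ?_
    rw [Preadditive.comp_sum, Finset.sum_eq_single (k * (g⁻¹ * g'))]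
    · rw [Linear.comp_smul, Ga.amul, ← Category.assoc, inv_mul_cancel_left, Ga.jp_self,
        Category.id_comp]
    · intro l _ hl
      rw [Linear.comp_smul, Ga.amul, ← Category.assoc, Ga.jp_ne, Limits.zero_comp, smul_zero]
      intro he
      apply hl
      rw [he, mul_inv_cancel_left]
    · intro hg
      exact absurd (Finset.mem_univ _) hg
  have h5 := Ga.indep h1 _ h2 g
  rwa [mul_inv_cancel_left] at h5

theorem GalG.aut (Ga : GalG K S H) (h1 : 𝟙 (𝟙_ E) ≠ 0) (f : S.A ⟶ S.A) (hm : S.mul ≫ f = (f ⊗ₘ f) ≫ S.mul)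
    (ho : S.one ≫ f = S.one) : ∃ g, f = Ga.a g := by
  classical
  obtain ⟨c, hc⟩ := Ga.span f
  have hb : ∀ g h, c g * c h - (if g = h then c g else 0) = 0 := by
    apply Ga.indep2 h1
    have e1 : ∑ g, ∑ h, (c g * c h) • ((Ga.a g ⊗ₘ Ga.a h) ≫ S.mul) = (f ⊗ₘ f) ≫ S.mul := by
      conv_rhs => rw [hc]
      rw [sum_tensor, Preadditive.sum_comp]
      refine Finset.sum_congr rfl fun g _ => ?_
      rw [tensor_sum, Preadditive.sum_comp]
      refine Finset.sum_congr rfl fun k _ => ?_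
      rw [MonoidalCategory.tensorHom_def (c g • Ga.a g), MonoidalLinear.smul_whiskerRight,
        MonoidalLinear.whiskerLeft_smul, Linear.smul_comp, Linear.comp_smul, smul_smul, Linear.smul_comp,
        ← MonoidalCategory.tensorHom_def]
    have e2 : ∑ g, ∑ h, (if g = h then c g else 0) • ((Ga.a g ⊗ₘ Ga.a h) ≫ S.mul) = S.mul ≫ f := by
      conv_rhs => rw [hc]
      rw [Preadditive.comp_sum]
      refine Finset.sum_congr rfl fun g _ => ?_
      rw [Finset.sum_eq_single g]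
      · rw [if_pos rfl, Ga.mul, Linear.comp_smul]
      · intro k _ hk
        rw [if_neg (Ne.symm hk), zero_smul]
      · intro hg
        exact absurd (Finset.mem_univ _) hg
    have e3 : ∑ g, ∑ h, (c g * c h - (if g = h then c g else 0)) • ((Ga.a g ⊗ₘ Ga.a h) ≫ S.mul) =
        ∑ g, ∑ h, (c g * c h) • ((Ga.a g ⊗ₘ Ga.a h) ≫ S.mul) -
        ∑ g, ∑ h, (if g = h then c g else 0) • ((Ga.a g ⊗ₘ Ga.a h) ≫ S.mul) := by
      rw [← Finset.sum_sub_distrib]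
      refine Finset.sum_congr rfl fun g _ => ?_
      rw [← Finset.sum_sub_distrib]
      refine Finset.sum_congr rfl fun k _ => ?_
      rw [sub_smul]
    rw [e3, e1, e2, hm, sub_self]
  have hs : ∑ g, c g = 1 := by
    have e4 : (∑ g, c g) • S.one = S.one ≫ f := by
      conv_rhs => rw [hc]
      rw [Preadditive.comp_sum, Finset.sum_smul]
      refine Finset.sum_congr rfl fun g _ => ?_
      rw [Linear.comp_smul, Ga.one]
    have e5 : ((∑ g, c g) - 1) • S.one = 0 := by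
      rw [sub_smul, one_smul, e4, ho, sub_self]
    rcases smul_eq_zero.mp e5 with h5 | h5
    · exact sub_eq_zero.mp h5
    · exact absurd h5 (Ga.one_ne h1)
  have hex : ∃ g, c g ≠ 0 := by
    by_contra hn
    push Not at hn
    rw [Finset.sum_eq_zero fun g _ => hn g] at hs
    exact zero_ne_one hs
  obtain ⟨g, hg⟩ := hex
  have hg1 : c g = 1 := by
    have h6 := hb g g
    rw [if_pos rfl] at h6
    have h7 : c g * (c g - 1) = 0 := by
      rw [mul_sub, mul_one]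
      exact h6
    rcases mul_eq_zero.mp h7 with h8 | h8
    · exact absurd h8 hg
    · exact sub_eq_zero.mp h8
  refine ⟨g, ?_⟩
  rw [hc, Finset.sum_eq_single g]
  · rw [hg1, one_smul]
  · intro k _ hk
    have h6 := hb g k
    rw [if_neg (Ne.symm hk), sub_zero, hg1, one_mul] at h6
    rw [h6, zero_smul]
  · intro hg
    exact absurd (Finset.mem_univ _) hg

omit [CharZero K] in
theorem GalG.conn' (Ga : GalG K S H) (t : S.A ⟶ 𝟙_ E) : ∃ c : K, t = c • S.cn := by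
  obtain ⟨c, hc⟩ := Ga.conn (S.one ≫ S.cm ≫ S.A ◁ t ≫ (ρ_ S.A).hom)
  refine ⟨c, ?_⟩
  have e1 : S.A ◁ (S.one ≫ S.cm ≫ S.A ◁ t ≫ (ρ_ S.A).hom) ≫ S.mul =
      (ρ_ S.A).hom ≫ S.cm ≫ S.A ◁ t ≫ (ρ_ S.A).hom := by
    have e2 : S.A ◁ (S.A ◁ t ≫ (ρ_ S.A).hom) ≫ S.mul =
        (α_ S.A S.A S.A).inv ≫ S.mul ▷ S.A ≫ S.A ◁ t ≫ (ρ_ S.A).hom := by
      rw [← whisker_exchange_assoc, rightUnitor_naturality]
      simp
    calc S.A ◁ (S.one ≫ S.cm ≫ S.A ◁ t ≫ (ρ_ S.A).hom) ≫ S.mul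
        = S.A ◁ S.one ≫ S.A ◁ S.cm ≫ S.A ◁ (S.A ◁ t ≫ (ρ_ S.A).hom) ≫ S.mul := by
          simp only [whiskerLeft_comp, Category.assoc]
      _ = S.A ◁ S.one ≫ (S.A ◁ S.cm ≫ (α_ S.A S.A S.A).inv ≫ S.mul ▷ S.A) ≫ S.A ◁ t ≫ (ρ_ S.A).hom := by
          rw [e2]
          simp only [Category.assoc]
      _ = (S.A ◁ S.one ≫ S.mul) ≫ S.cm ≫ S.A ◁ t ≫ (ρ_ S.A).hom := by
          rw [← S.frobL]
          simp only [Category.assoc]
      _ = (ρ_ S.A).hom ≫ S.cm ≫ S.A ◁ t ≫ (ρ_ S.A).hom := by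
          rw [S.mul_one]
  have e3 : S.cm ≫ S.A ◁ t ≫ (ρ_ S.A).hom ≫ S.cn = t := by
    rw [← rightUnitor_naturality, whisker_exchange_assoc, ← unitors_equal, leftUnitor_naturality,
      ← Category.assoc, S.cn_cm, Iso.inv_hom_id_assoc]
  calc t = (ρ_ S.A).inv ≫ (S.A ◁ (S.one ≫ S.cm ≫ S.A ◁ t ≫ (ρ_ S.A).hom) ≫ S.mul) ≫ S.cn := by
        rw [e1]
        simp only [Category.assoc, Iso.inv_hom_id_assoc]
        rw [e3]
    _ = c • S.cn := by
        rw [hc, MonoidalLinear.whiskerLeft_smul, Linear.smul_comp, S.mul_one, Linear.smul_comp,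
          Linear.comp_smul, Iso.inv_hom_id_assoc]

omit [MonoidalPreadditive E] [MonoidalLinear K E] in
theorem GalG.end1 (Ga : GalG K S H) (f : 𝟙_ E ⟶ 𝟙_ E) : ∃ c : K, f = c • 𝟙 (𝟙_ E) := by
  obtain ⟨c, hc⟩ := Ga.conn (f ≫ S.one)
  refine ⟨c, ?_⟩
  have h2 : (f ≫ S.one) ≫ S.cn = (c • S.one) ≫ S.cn := by rw [hc]
  rw [Category.assoc, Ga.dim, Linear.comp_smul, Category.comp_id, Linear.smul_comp, Ga.dim,
    smul_comm] at h2
  exact smul_right_injective _ Ga.card_ne h2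

end

end Pool.Agent.SFC
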