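import Pool.Agent.SFH.PJ
import Pool.Agent.SFH.PMx

/-!
# SFH/PI: a twisted automorphism of order `p`

`Tt.s φ.hom = φ.hom` (`hfix`), also for the powers of `φ` (in `Aut S.A`, `f * g = g ≪≫ f`; powers of one element: no matter).
`isTw_iter`: `Tt.s^[k] S.mul ≫ (φ ^ k).hom = ((φ ^ k).hom ⊗ₘ (φ ^ k).hom) ≫ S.mul`, and the same for `one`, `cm`, `cn` (induction on `k`: apply `Tt.s` and `hφ`).
`isTw_pow_p`: `k = p`: `Tt.s^[p] S.mul = S.mul` (`Tt.pow`): so `(φ ^ p).hom` is an automorphism of the algebra, `(φ ^ p).hom = Ga.a δ` (`GalG.aut`).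
`exists_isTw_pow`: choose `k` with `k ≡ 1 [MOD p]`, `k ≡ 0 [MOD |H|]` (`Nat.chineseRemainder`, `p` and `|H|` are coprime).  `k = m * p + 1` (or use `Function.iterate_mod`..: `Tt.s^[m * p] = id`): `Tt.s^[k] = Tt.s`, so `φ' = φ ^ k` satisfies `IsTw`
(`isTw_iter`), and `φ' ^ p = (φ ^ p) ^ k`, `((φ ^ p) ^ k).hom = Ga.a (δ ^ k) = Ga.a 1 = 𝟙` (`Ga.a_mul`, `pow_card_eq_one`).
-/

set_option autoImplicit false

noncomputable section

open CategoryTheory MonoidalCategory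
open scoped BigOperators

namespace Pool.Agent.SFC

universe v u v' u' w

variable {K : Type w} [Field K] [CharZero K] {C : Type u} [Category.{v} C] [Preadditive C] [Linear K C]
  [MonoidalCategory C] {D : Type u'} [Category.{v'} D] [Preadditive D] [Linear K D] [MonoidalCategory D]
  [MonoidalPreadditive D] [MonoidalLinear K D] {F : C ⥤ D} [F.Monoidal] {p : ℕ} [NeZero p] {Tt : Tw K F p}
  {S : SFrob (ImC F)} {φ : Aut S.A} {H : Type} [Group H] [Fintype H]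

private theorem PI_pow_succ (φ : Aut S.A) (k : ℕ) : (φ ^ (k + 1)).hom = (φ ^ k).hom ≫ φ.hom := by
  rw [pow_succ']
  rfl

private theorem PI_mul (hφ : IsTw Tt S φ) (hfix : ∀ f : S.A ⟶ S.A, Tt.s f = f) (k : ℕ) :
    Tt.s^[k] S.mul ≫ (φ ^ k).hom = ((φ ^ k).hom ⊗ₘ (φ ^ k).hom) ≫ S.mul := by
  induction k with
  | zero =>
    rw [pow_zero, Function.iterate_zero_apply]
    show S.mul ≫ 𝟙 S.A = (𝟙 S.A ⊗ₘ 𝟙 S.A) ≫ S.mul
    rw [id_tensorHom_id, Category.id_comp, Category.comp_id]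
  | succ k ih =>
    have h := congrArg (fun f => Tt.s f) ih
    simp only [Tt.comp, Tt.ten, hfix] at h
    rw [Function.iterate_succ_apply', PI_pow_succ, ← Category.assoc, h, Category.assoc, hφ.mul,
      ← Category.assoc, tensorHom_comp_tensorHom]

private theorem PI_one (hφ : IsTw Tt S φ) (hfix : ∀ f : S.A ⟶ S.A, Tt.s f = f) (k : ℕ) :
    Tt.s^[k] S.one ≫ (φ ^ k).hom = S.one := by
  induction k with
  | zero =>
    rw [pow_zero, Function.iterate_zero_apply]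
    show S.one ≫ 𝟙 S.A = S.one
    rw [Category.comp_id]
  | succ k ih =>
    have h := congrArg (fun f => Tt.s f) ih
    simp only [Tt.comp, hfix] at h
    rw [Function.iterate_succ_apply', PI_pow_succ, ← Category.assoc, h, hφ.one]

private theorem PI_cm (hφ : IsTw Tt S φ) (hfix : ∀ f : S.A ⟶ S.A, Tt.s f = f) (k : ℕ) :
    Tt.s^[k] S.cm ≫ ((φ ^ k).hom ⊗ₘ (φ ^ k).hom) = (φ ^ k).hom ≫ S.cm := by
  induction k with
  | zero =>
    rw [pow_zero, Function.iterate_zero_apply]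
    show S.cm ≫ (𝟙 S.A ⊗ₘ 𝟙 S.A) = 𝟙 S.A ≫ S.cm
    rw [id_tensorHom_id, Category.id_comp, Category.comp_id]
  | succ k ih =>
    have h := congrArg (fun f => Tt.s f) ih
    simp only [Tt.comp, Tt.ten, hfix] at h
    rw [Function.iterate_succ_apply', PI_pow_succ, ← tensorHom_comp_tensorHom, ← Category.assoc, h,
      Category.assoc, hφ.cm, ← Category.assoc]

private theorem PI_cn (hφ : IsTw Tt S φ) (hfix : ∀ f : S.A ⟶ S.A, Tt.s f = f) (k : ℕ) :
    Tt.s^[k] S.cn = (φ ^ k).hom ≫ S.cn := by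
  induction k with
  | zero =>
    rw [pow_zero, Function.iterate_zero_apply]
    show S.cn = 𝟙 S.A ≫ S.cn
    rw [Category.id_comp]
  | succ k ih =>
    have h := congrArg (fun f => Tt.s f) ih
    simp only [Tt.comp, hfix] at h
    rw [Function.iterate_succ_apply', PI_pow_succ, h, hφ.cn, ← Category.assoc]

private theorem PI_iter (Tt : Tw K F p) {k : ℕ} (hk : k ≡ 1 [MOD p]) {x y : ImC F} (f : x ⟶ y) :
    Tt.s^[k] f = Tt.s f := by
  have h : Function.IsPeriodicPt (fun g : x ⟶ y => Tt.s g) p f := Tt.pow f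
  have h1 : (fun g : x ⟶ y => Tt.s g)^[k] f = (fun g : x ⟶ y => Tt.s g)^[1] f := by
    rw [← h.iterate_mod_apply k, ← h.iterate_mod_apply 1, hk]
  exact h1

private theorem PI_a_pow (Ga : GalG K S H) (ψ : Aut S.A) (δ : H) (h : ψ.hom = Ga.a δ) (k : ℕ) :
    (ψ ^ k).hom = Ga.a (δ ^ k) := by
  induction k with
  | zero =>
    rw [pow_zero, pow_zero, Ga.a_one]
    rfl
  | succ k ih =>
    rw [PI_pow_succ, ih, h, pow_succ', Ga.a_mul]

theorem isTw_pow_p (hφ : IsTw Tt S φ) (Ga : GalG K S H) (h1 : 𝟙 (𝟙_ (ImC F)) ≠ 0)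
    (hfix : ∀ f : S.A ⟶ S.A, Tt.s f = f) : ∃ δ : H, (φ ^ p).hom = Ga.a δ := by
  have hm := PI_mul hφ hfix p
  have ho := PI_one hφ hfix p
  rw [Tt.pow] at hm ho
  exact Ga.aut h1 _ hm ho

theorem exists_isTw_pow (hH : Nat.Coprime p (Fintype.card H)) (hφ : IsTw Tt S φ) (Ga : GalG K S H)
    (h1 : 𝟙 (𝟙_ (ImC F)) ≠ 0) (hfix : ∀ f : S.A ⟶ S.A, Tt.s f = f) : ∃ φ' : Aut S.A, IsTw Tt S φ' ∧ φ' ^ p = 1 := by
  obtain ⟨δ, hδ⟩ := isTw_pow_p hφ Ga h1 hfix
  obtain ⟨k, hk1, hk0⟩ := Nat.chineseRemainder hH 1 0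
  refine ⟨φ ^ k, ⟨?_, ?_, ?_, ?_⟩, ?_⟩
  · rw [← PI_iter Tt hk1 S.mul]
    exact PI_mul hφ hfix k
  · rw [← PI_iter Tt hk1 S.one]
    exact PI_one hφ hfix k
  · rw [← PI_iter Tt hk1 S.cm]
    exact PI_cm hφ hfix k
  · rw [← PI_iter Tt hk1 S.cn]
    exact PI_cn hφ hfix k
  · obtain ⟨m, hm⟩ := (Nat.modEq_zero_iff_dvd).1 hk0
    have h2 : δ ^ k = 1 := by
      rw [hm, pow_mul, pow_card_eq_one, one_pow]
    have h3 := PI_a_pow Ga (φ ^ p) δ hδ k
    rw [h2, Ga.a_one] at h3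
    rw [← pow_mul, mul_comm, pow_mul]
    exact Iso.ext h3

end Pool.Agent.SFC
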