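import Pool.Agent.SFH.PMx

/-!
# SFH/PMf: an algebra map between Galois algebras which are isomorphic as objects is an isomorphism

`ψ ≫ cn = c • cn'` (`conn'` for `A'`), compose with `one'`: `one' ≫ ψ ≫ cn = one ≫ cn = |H| • 𝟙 = one' ≫ cn'` (`dim`), so `c • |H| • 𝟙 = |H| • 𝟙`; if `𝟙 (𝟙_ E) = 0` every morphism of `E` is zero and everything is trivial (`f = (λ_ _).inv ≫ 𝟙 ▷ _ ≫ ..`);
otherwise `c = 1`: `ψ ≫ cn = cn'` (1).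
The adjoint `ψ' : A ⟶ A'`: `ψ' = (λ_ A).inv ≫ (one' ≫ cm') ▷ A ≫ (α_ _ _ _).hom ≫ A' ◁ (ψ ▷ A ≫ mul ≫ cn) ≫ (ρ_ A').hom` (`x ↦ ∑ 1'(1) ε(ψ(1'(2)) x)`).  `ψ ≫ ψ' = 𝟙`: `∑ 1'(1) ε(ψ(1'(2)) ψ(y)) = ∑ 1'(1) ε'(1'(2) y) = y` (`hm`, (1), `frobR`, `cm_cn`).
Then `ψ` is an isomorphism: `i.inv ≫ ψ : A ⟶ A` has a right inverse (`(i.inv ≫ ψ) ≫ (ψ' ≫ i.hom) = 𝟙`) in the finite dimensional algebra `End A` (spanned by the `a g`, `GalG.span`), so it is invertible (`IsStablyFiniteRing`/`mul_eq_one_comm` for finite dimensional algebras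
or noetherian rings: `IsDedekindFiniteMonoid`; or linear algebra: `t ↦ (i.inv ≫ ψ) ≫ t`.. is injective/surjective on the finite dimensional space `A ⟶ A`).
`cm`: `cm` is determined by `mul`, `one`, `cn`: let `f = ψ` (iso), `x := one' ≫ cm' ≫ (ψ ⊗ₘ ψ) : 𝟙 ⟶ A ⊗ A` and `y := one ≫ cm`.  Both satisfy `∑ ε(a z(1)) z(2) = a` (i.e. `(ρ_ A).inv ≫ A ◁ z ≫ (α_ _ _ _).inv ≫ mul ▷ A ≫ cn ▷ A ≫ (λ_ A).hom = 𝟙 A`: for `y` from `frobL`, `mul_one`, `cn_cm`; for `x`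
transport the same fact for `A'` with `hm`, (1)); such a `z` is unique: `y(1) ε(y(2) x(1)) x(2)` computed in two ways (`∑ y(1) ε(y(2) a) = a`, from `frobR`, `cm_cn`).  So `x = y`, and `cm' ≫ (ψ ⊗ₘ ψ) = ψ ≫ cm` because `cm = (ρ_ A).inv ≫ A ◁ (one ≫ cm) ≫ (α_ _ _ _).inv ≫ mul ▷ A` and the same for `cm'`.
-/

set_option autoImplicit false

noncomputable section

open CategoryTheory MonoidalCategory
open scoped BigOperators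

namespace Pool.Agent.SFC

universe v u w

/-- isomorphisms of special Frobenius algebras -/
structure SIso {E : Type u} [Category.{v} E] [MonoidalCategory E] (S S' : SFrob E) where
  f : S.A ≅ S'.A
  mul : S.mul ≫ f.hom = (f.hom ⊗ₘ f.hom) ≫ S'.mul
  one : S.one ≫ f.hom = S'.one
  cm : S.cm ≫ (f.hom ⊗ₘ f.hom) = f.hom ≫ S'.cm
  cn : S.cn = f.hom ≫ S'.cn

variable {K : Type w} [Field K] {E : Type u} [Category.{v} E] [Preadditive E] [Linear K E] [MonoidalCategory E]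
  [MonoidalPreadditive E] [MonoidalLinear K E] {S S' : SFrob E} {H : Type} [Group H] [Fintype H]

section

variable {D : Type u} [Category.{v} D] [MonoidalCategory D]

private theorem PMf_cm (S : SFrob D) :
    (ρ_ S.A).inv ≫ S.A ◁ (S.one ≫ S.cm) ≫ (α_ S.A S.A S.A).inv ≫ S.mul ▷ S.A = S.cm := by
  rw [MonoidalCategory.whiskerLeft_comp, Category.assoc, ← S.frobL, ← Category.assoc (S.A ◁ S.one), S.mul_one,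
    Iso.inv_hom_id_assoc]

private theorem PMf_L (S : SFrob D) :
    (ρ_ S.A).inv ≫ S.A ◁ (S.one ≫ S.cm) ≫ (α_ S.A S.A S.A).inv ≫ S.mul ▷ S.A ≫ S.cn ▷ S.A ≫ (λ_ S.A).hom =
      𝟙 S.A := by
  have h := PMf_cm S
  calc (ρ_ S.A).inv ≫ S.A ◁ (S.one ≫ S.cm) ≫ (α_ S.A S.A S.A).inv ≫ S.mul ▷ S.A ≫ S.cn ▷ S.A ≫ (λ_ S.A).hom
      = ((ρ_ S.A).inv ≫ S.A ◁ (S.one ≫ S.cm) ≫ (α_ S.A S.A S.A).inv ≫ S.mul ▷ S.A) ≫ S.cn ▷ S.A ≫ (λ_ S.A).hom := by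
        simp only [Category.assoc]
    _ = 𝟙 S.A := by
        rw [h, ← Category.assoc, S.cn_cm, Iso.inv_hom_id]

private theorem PMf_R (S : SFrob D) :
    (λ_ S.A).inv ≫ (S.one ≫ S.cm) ▷ S.A ≫ (α_ S.A S.A S.A).hom ≫ S.A ◁ (S.mul ≫ S.cn) ≫ (ρ_ S.A).hom =
      𝟙 S.A := by
  rw [MonoidalCategory.comp_whiskerRight, MonoidalCategory.whiskerLeft_comp]
  calc (λ_ S.A).inv ≫ (S.one ▷ S.A ≫ S.cm ▷ S.A) ≫ (α_ S.A S.A S.A).hom ≫ (S.A ◁ S.mul ≫ S.A ◁ S.cn) ≫ (ρ_ S.A).hom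
      = (λ_ S.A).inv ≫ S.one ▷ S.A ≫ (S.cm ▷ S.A ≫ (α_ S.A S.A S.A).hom ≫ S.A ◁ S.mul) ≫ S.A ◁ S.cn ≫ (ρ_ S.A).hom := by
        simp only [Category.assoc]
    _ = (λ_ S.A).inv ≫ (S.one ▷ S.A ≫ S.mul) ≫ (S.cm ≫ S.A ◁ S.cn) ≫ (ρ_ S.A).hom := by
        rw [← S.frobR]; simp only [Category.assoc]
    _ = 𝟙 S.A := by
        rw [S.one_mul, S.cm_cn, Iso.inv_hom_id, Category.comp_id, Iso.inv_hom_id]

private theorem PMf_uniq (S : SFrob D) (z : 𝟙_ D ⟶ S.A ⊗ S.A)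
    (hz : (ρ_ S.A).inv ≫ S.A ◁ z ≫ (α_ S.A S.A S.A).inv ≫ S.mul ▷ S.A ≫ S.cn ▷ S.A ≫ (λ_ S.A).hom = 𝟙 S.A) :
    z = S.one ≫ S.cm := by
  have h1 : (S.one ≫ S.cm) ≫ S.A ◁ ((ρ_ S.A).inv ≫ S.A ◁ z ≫ (α_ S.A S.A S.A).inv ≫ S.mul ▷ S.A ≫ S.cn ▷ S.A ≫
      (λ_ S.A).hom) = z ≫ ((λ_ S.A).inv ≫ (S.one ≫ S.cm) ▷ S.A ≫ (α_ S.A S.A S.A).hom ≫ S.A ◁ (S.mul ≫ S.cn) ≫
      (ρ_ S.A).hom) ▷ S.A := by
    generalize S.one ≫ S.cm = y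
    calc y ≫ S.A ◁ ((ρ_ S.A).inv ≫ S.A ◁ z ≫ (α_ S.A S.A S.A).inv ≫ S.mul ▷ S.A ≫ S.cn ▷ S.A ≫ (λ_ S.A).hom)
        = (ρ_ _).inv ≫ (y ▷ (𝟙_ D) ≫ (S.A ⊗ S.A) ◁ z) ≫ (α_ _ _ _).hom ≫ S.A ◁ (α_ S.A S.A S.A).inv ≫
            S.A ◁ S.mul ▷ S.A ≫ S.A ◁ S.cn ▷ S.A ≫ S.A ◁ (λ_ S.A).hom := by
          monoidal
      _ = (ρ_ _).inv ≫ ((𝟙_ D) ◁ z ≫ y ▷ (S.A ⊗ S.A)) ≫ (α_ _ _ _).hom ≫ S.A ◁ (α_ S.A S.A S.A).inv ≫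
            S.A ◁ S.mul ▷ S.A ≫ S.A ◁ S.cn ▷ S.A ≫ S.A ◁ (λ_ S.A).hom := by
          rw [whisker_exchange]
      _ = z ≫ ((λ_ S.A).inv ≫ y ▷ S.A ≫ (α_ S.A S.A S.A).hom ≫ S.A ◁ (S.mul ≫ S.cn) ≫ (ρ_ S.A).hom) ▷ S.A := by
          monoidal
  rw [hz, PMf_R, MonoidalCategory.whiskerLeft_id, MonoidalCategory.id_whiskerRight, Category.comp_id,
    Category.comp_id] at h1
  exact h1.symm

private theorem PMf_tr {S S' : SFrob D} (f : S.A ⟶ S'.A) (hm : S.mul ≫ f = (f ⊗ₘ f) ≫ S'.mul)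
    (y : 𝟙_ D ⟶ S.A ⊗ S.A) :
    f ≫ (ρ_ S'.A).inv ≫ S'.A ◁ (y ≫ (f ⊗ₘ f)) ≫ (α_ S'.A S'.A S'.A).inv ≫ S'.mul ▷ S'.A =
      (ρ_ S.A).inv ≫ S.A ◁ y ≫ (α_ S.A S.A S.A).inv ≫ S.mul ▷ S.A ≫ (f ⊗ₘ f) := by
  calc f ≫ (ρ_ S'.A).inv ≫ S'.A ◁ (y ≫ (f ⊗ₘ f)) ≫ (α_ S'.A S'.A S'.A).inv ≫ S'.mul ▷ S'.A
      = (ρ_ S.A).inv ≫ (f ▷ (𝟙_ D) ≫ S'.A ◁ y) ≫ S'.A ◁ (f ⊗ₘ f) ≫ (α_ S'.A S'.A S'.A).inv ≫ S'.mul ▷ S'.A := by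
        rw [MonoidalCategory.whiskerLeft_comp, rightUnitor_inv_naturality_assoc]
        simp only [Category.assoc]
    _ = (ρ_ S.A).inv ≫ S.A ◁ y ≫ (f ▷ (S.A ⊗ S.A) ≫ S'.A ◁ (f ⊗ₘ f)) ≫ (α_ S'.A S'.A S'.A).inv ≫
          S'.mul ▷ S'.A := by
        rw [← whisker_exchange]; simp only [Category.assoc]
    _ = (ρ_ S.A).inv ≫ S.A ◁ y ≫ ((f ⊗ₘ (f ⊗ₘ f)) ≫ (α_ S'.A S'.A S'.A).inv) ≫ S'.mul ▷ S'.A := by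
        rw [← MonoidalCategory.tensorHom_def]; simp only [Category.assoc]
    _ = (ρ_ S.A).inv ≫ S.A ◁ y ≫ (α_ S.A S.A S.A).inv ≫ (((f ⊗ₘ f) ⊗ₘ f) ≫ S'.mul ▷ S'.A) := by
        rw [associator_inv_naturality]; simp only [Category.assoc]
    _ = (ρ_ S.A).inv ≫ S.A ◁ y ≫ (α_ S.A S.A S.A).inv ≫ S.mul ▷ S.A ≫ (f ⊗ₘ f) := by
        rw [← MonoidalCategory.tensorHom_id, MonoidalCategory.tensorHom_comp_tensorHom, ← hm,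
          Category.comp_id, ← MonoidalCategory.tensorHom_id, MonoidalCategory.tensorHom_comp_tensorHom,
          Category.id_comp]

private theorem PMf_cn {S S' : SFrob D} (f : S.A ⟶ S'.A) (hc : S.cn = f ≫ S'.cn) :
    (f ⊗ₘ f) ≫ S'.cn ▷ S'.A ≫ (λ_ S'.A).hom = S.cn ▷ S.A ≫ (λ_ S.A).hom ≫ f := by
  rw [← Category.assoc, ← MonoidalCategory.tensorHom_id, MonoidalCategory.tensorHom_comp_tensorHom, ← hc,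
    Category.comp_id, MonoidalCategory.tensorHom_def, Category.assoc, leftUnitor_naturality]

end

/-- an algebra isomorphism which preserves the counit preserves the coproduct -/
theorem SFrob.cm_unique {E : Type u} [Category.{v} E] [MonoidalCategory E] {S S' : SFrob E} (f : S.A ≅ S'.A)
    (hm : S.mul ≫ f.hom = (f.hom ⊗ₘ f.hom) ≫ S'.mul) (ho : S.one ≫ f.hom = S'.one) (hc : S.cn = f.hom ≫ S'.cn) :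
    S.cm ≫ (f.hom ⊗ₘ f.hom) = f.hom ≫ S'.cm := by
  have hz : (S.one ≫ S.cm) ≫ (f.hom ⊗ₘ f.hom) = S'.one ≫ S'.cm := by
    apply PMf_uniq S'
    have h : f.hom ≫ ((ρ_ S'.A).inv ≫ S'.A ◁ ((S.one ≫ S.cm) ≫ (f.hom ⊗ₘ f.hom)) ≫ (α_ S'.A S'.A S'.A).inv ≫
        S'.mul ▷ S'.A ≫ S'.cn ▷ S'.A ≫ (λ_ S'.A).hom) = f.hom ≫ 𝟙 _ := by
      calc f.hom ≫ ((ρ_ S'.A).inv ≫ S'.A ◁ ((S.one ≫ S.cm) ≫ (f.hom ⊗ₘ f.hom)) ≫ (α_ S'.A S'.A S'.A).inv ≫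
            S'.mul ▷ S'.A ≫ S'.cn ▷ S'.A ≫ (λ_ S'.A).hom)
          = (f.hom ≫ (ρ_ S'.A).inv ≫ S'.A ◁ ((S.one ≫ S.cm) ≫ (f.hom ⊗ₘ f.hom)) ≫ (α_ S'.A S'.A S'.A).inv ≫
            S'.mul ▷ S'.A) ≫ S'.cn ▷ S'.A ≫ (λ_ S'.A).hom := by
            simp only [Category.assoc]
        _ = ((ρ_ S.A).inv ≫ S.A ◁ (S.one ≫ S.cm) ≫ (α_ S.A S.A S.A).inv ≫ S.mul ▷ S.A ≫ (f.hom ⊗ₘ f.hom)) ≫
            S'.cn ▷ S'.A ≫ (λ_ S'.A).hom := by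
            rw [PMf_tr f.hom hm]
        _ = ((ρ_ S.A).inv ≫ S.A ◁ (S.one ≫ S.cm) ≫ (α_ S.A S.A S.A).inv ≫ S.mul ▷ S.A ≫
            S.cn ▷ S.A ≫ (λ_ S.A).hom) ≫ f.hom := by
            have h2 := PMf_cn f.hom hc
            simp only [Category.assoc] at h2 ⊢
            rw [h2]
        _ = f.hom ≫ 𝟙 _ := by
            rw [PMf_L, Category.id_comp, Category.comp_id]
    exact (cancel_epi f.hom).1 h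
  calc S.cm ≫ (f.hom ⊗ₘ f.hom)
      = ((ρ_ S.A).inv ≫ S.A ◁ (S.one ≫ S.cm) ≫ (α_ S.A S.A S.A).inv ≫ S.mul ▷ S.A) ≫ (f.hom ⊗ₘ f.hom) := by
        rw [PMf_cm]
    _ = (ρ_ S.A).inv ≫ S.A ◁ (S.one ≫ S.cm) ≫ (α_ S.A S.A S.A).inv ≫ S.mul ▷ S.A ≫ (f.hom ⊗ₘ f.hom) := by
        simp only [Category.assoc]
    _ = f.hom ≫ (ρ_ S'.A).inv ≫ S'.A ◁ ((S.one ≫ S.cm) ≫ (f.hom ⊗ₘ f.hom)) ≫ (α_ S'.A S'.A S'.A).inv ≫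
          S'.mul ▷ S'.A := (PMf_tr f.hom hm _).symm
    _ = f.hom ≫ S'.cm := by
        rw [hz, PMf_cm]

omit [Preadditive E] [MonoidalPreadditive E] in
private theorem PMf_adj (S S' : SFrob E) (ψ : S'.A ⟶ S.A) (hm : S'.mul ≫ ψ = (ψ ⊗ₘ ψ) ≫ S.mul)
    (hc : S'.cn = ψ ≫ S.cn) : ∃ φ : S.A ⟶ S'.A, ψ ≫ φ = 𝟙 S'.A := by
  refine ⟨(λ_ S.A).inv ≫ (S'.one ≫ S'.cm) ▷ S.A ≫ (α_ _ _ _).hom ≫ S'.A ◁ (ψ ▷ S.A ≫ S.mul ≫ S.cn) ≫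
    (ρ_ S'.A).hom, ?_⟩
  calc ψ ≫ (λ_ S.A).inv ≫ (S'.one ≫ S'.cm) ▷ S.A ≫ (α_ _ _ _).hom ≫ S'.A ◁ (ψ ▷ S.A ≫ S.mul ≫ S.cn) ≫
        (ρ_ S'.A).hom
      = (λ_ S'.A).inv ≫ ((𝟙_ E) ◁ ψ ≫ (S'.one ≫ S'.cm) ▷ S.A) ≫ (α_ _ _ _).hom ≫
          S'.A ◁ (ψ ▷ S.A ≫ S.mul ≫ S.cn) ≫ (ρ_ S'.A).hom := by
        rw [leftUnitor_inv_naturality_assoc]; simp only [Category.assoc]
    _ = (λ_ S'.A).inv ≫ (S'.one ≫ S'.cm) ▷ S'.A ≫ ((S'.A ⊗ S'.A) ◁ ψ ≫ (α_ _ _ _).hom) ≫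
          S'.A ◁ (ψ ▷ S.A ≫ S.mul ≫ S.cn) ≫ (ρ_ S'.A).hom := by
        rw [whisker_exchange]; simp only [Category.assoc]
    _ = (λ_ S'.A).inv ≫ (S'.one ≫ S'.cm) ▷ S'.A ≫ (α_ _ _ _).hom ≫
          S'.A ◁ (((S'.A ◁ ψ) ≫ ψ ▷ S.A) ≫ S.mul ≫ S.cn) ≫ (ρ_ S'.A).hom := by
        simp only [MonoidalCategory.whiskerLeft_comp, Category.assoc, MonoidalCategory.tensor_whiskerLeft,
          Iso.inv_hom_id_assoc]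
    _ = (λ_ S'.A).inv ≫ (S'.one ≫ S'.cm) ▷ S'.A ≫ (α_ _ _ _).hom ≫ S'.A ◁ (S'.mul ≫ S'.cn) ≫ (ρ_ S'.A).hom := by
        rw [← MonoidalCategory.tensorHom_def', ← Category.assoc (ψ ⊗ₘ ψ), ← hm, Category.assoc, ← hc]
    _ = 𝟙 S'.A := PMf_R S'

private theorem PMf_comm (Ga : GalG K S H) (t s : S.A ⟶ S.A) (h : t ≫ s = 𝟙 S.A) : s ≫ t = 𝟙 S.A := by
  classical
  have hfin : Module.Finite K (End S.A) := by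
    refine ⟨⟨Finset.univ.image (fun g : H => (Ga.a g : End S.A)), ?_⟩⟩
    rw [eq_top_iff]
    rintro f -
    obtain ⟨c, hc⟩ := Ga.span f
    have : (f : End S.A) = ∑ g, c g • (Ga.a g : End S.A) := hc
    rw [this]
    refine Submodule.sum_mem _ fun g _ => Submodule.smul_mem _ _ (Submodule.subset_span ?_)
    simp
  have : IsNoetherian K (End S.A) := inferInstance
  have hN : IsNoetherianRing (End S.A) := isNoetherian_of_tower K this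
  have h1 : (show End S.A from s) * (show End S.A from t) = 1 := h
  exact mul_eq_one_comm.1 h1

theorem exists_siso [CharZero K] (Ga : GalG K S H) (Ga' : GalG K S' H) (i : S'.A ≅ S.A) (ψ : S'.A ⟶ S.A)
    (ho : S'.one ≫ ψ = S.one) (hm : S'.mul ≫ ψ = (ψ ⊗ₘ ψ) ≫ S.mul) : Nonempty (SIso S' S) := by
  by_cases h0 : 𝟙 (𝟙_ E) = 0
  · have hz : ∀ {X Y : E} (f : X ⟶ Y), f = 0 := by
      intro X Y f
      have h1 : 𝟙 X = 0 := by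
        calc 𝟙 X = (λ_ X).inv ≫ (𝟙 (𝟙_ E)) ▷ X ≫ (λ_ X).hom := by simp
          _ = 0 := by rw [h0, MonoidalPreadditive.zero_whiskerRight]; simp
      rw [← Category.id_comp f, h1, Limits.zero_comp]
    exact ⟨⟨i, by rw [hz (S'.mul ≫ _), hz (_ ≫ S.mul)], by rw [hz (S'.one ≫ _), hz S.one],
      by rw [hz (S'.cm ≫ _), hz (_ ≫ S.cm)], by rw [hz S'.cn, hz (_ ≫ S.cn)]⟩⟩
  · obtain ⟨c, hc⟩ := Ga'.conn' (ψ ≫ S.cn)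
    have hH : (Fintype.card H : K) ≠ 0 := Nat.cast_ne_zero.2 Fintype.card_ne_zero
    have h1 : c = 1 := by
      have h2 : S'.one ≫ ψ ≫ S.cn = (Fintype.card H : K) • 𝟙 (𝟙_ E) := by
        rw [← Category.assoc, ho, Ga.dim]
      rw [hc, Linear.comp_smul, Ga'.dim, smul_smul] at h2
      have h3 : (c * (Fintype.card H : K) - (Fintype.card H : K)) • 𝟙 (𝟙_ E) = 0 := by
        rw [sub_smul, h2, sub_self]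
      rcases smul_eq_zero.1 h3 with h4 | h4
      · have h5 : c * (Fintype.card H : K) = 1 * (Fintype.card H : K) := by
          rw [one_mul]; exact sub_eq_zero.1 h4
        exact mul_right_cancel₀ hH h5
      · exact absurd h4 h0
    have hcn : S'.cn = ψ ≫ S.cn := by rw [hc, h1, one_smul]
    obtain ⟨φ, hφ⟩ := PMf_adj S S' ψ hm hcn
    have h2 : (i.inv ≫ ψ) ≫ (φ ≫ i.hom) = 𝟙 S.A := by
      calc (i.inv ≫ ψ) ≫ (φ ≫ i.hom) = i.inv ≫ (ψ ≫ φ) ≫ i.hom := by simp only [Category.assoc]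
        _ = 𝟙 S.A := by rw [hφ, Category.id_comp, Iso.inv_hom_id]
    have h3 := PMf_comm Ga _ _ h2
    have h4 : φ ≫ ψ = 𝟙 S.A := by
      simpa using h3
    let F : S'.A ≅ S.A := ⟨ψ, φ, hφ, h4⟩
    exact ⟨⟨F, hm, ho, SFrob.cm_unique F hm ho hcn, hcn⟩⟩

end Pool.Agent.SFC
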