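import Pool.Agent.SFH.PK
import Pool.Agent.SFH.PMf

/-!
# SFH/PJ: the twist of a Galois algebra; twisted automorphisms

`Tw.gal`: `mul`, `one`, `cm`, `cn`, `sum`, `orth`, `dim`: apply `Tt.s` to the properties of `Ga` (`hfix`: `Tt.s (a g) = a g`).  `conn`: `t = Tt.s (Tt.s^[p - 1] t)` (`Tt.pow`, `Function.iterate_succ_apply'`), `Tt.s^[p - 1] t = c • S.one` (`Ga.conn`), so `t = c • Tt.s S.one`.
`IsTw Tt S φ`: `φ` is an isomorphism from the twisted algebra to `S`.  `isTw_of_siso`: by definition.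
-/

set_option autoImplicit false

noncomputable section

open CategoryTheory MonoidalCategory
open scoped BigOperators

namespace Pool.Agent.SFC

universe v u v' u' w

variable {K : Type w} [Field K] {C : Type u} [Category.{v} C] [Preadditive C] [Linear K C] [MonoidalCategory C]
  {D : Type u'} [Category.{v'} D] [Preadditive D] [Linear K D] [MonoidalCategory D] {F : C ⥤ D} [F.Monoidal] {p : ℕ}
  [NeZero p]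

theorem Tw.gal (Tt : Tw K F p) {S : SFrob (ImC F)} {H : Type} [Group H] [Fintype H] (Ga : GalG K S H)
    (hfix : ∀ f : S.A ⟶ S.A, Tt.s f = f) : Nonempty (GalG K (Tt.alg S) H) := by
  refine ⟨⟨Ga.a, Ga.a_one, Ga.a_mul, fun g => ?_, fun g => ?_, fun g => ?_, fun g => ?_, ?_, fun g hg => ?_,
    fun (t : 𝟙_ (ImC F) ⟶ S.A) => ?_, ?_⟩⟩
  · have h := congrArg Tt.s (Ga.mul g)
    rw [Tt.comp, Tt.comp, Tt.ten, hfix] at h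
    exact h
  · have h := congrArg Tt.s (Ga.one g)
    rw [Tt.comp, hfix] at h
    exact h
  · have h := congrArg Tt.s (Ga.cm g)
    rw [Tt.comp, Tt.comp, Tt.ten, hfix] at h
    exact h
  · have h := congrArg Tt.s (Ga.cn g)
    rw [Tt.comp, hfix] at h
    exact h
  · have h := congrArg Tt.s Ga.sum
    rw [Tt.comp, Tt.sum] at h
    simp only [hfix] at h
    exact h
  · have h := congrArg Tt.s (Ga.orth g hg)
    rw [Tt.comp, Tt.comp, Tt.wL, Tt.zero, hfix] at h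
    exact h
  · obtain ⟨c, hc⟩ := Ga.conn (Tt.s^[p - 1] t)
    refine ⟨c, ?_⟩
    have hp : p = (p - 1) + 1 := (Nat.succ_pred_eq_of_pos (Nat.pos_of_ne_zero (NeZero.ne p))).symm
    have h1 : Tt.s (Tt.s^[p - 1] t) = t := by
      have h2 : Tt.s^[p - 1 + 1] t = t := by
        have h3 := Tt.pow t
        rwa [← hp]
      rw [Function.iterate_succ_apply'] at h2
      exact h2
    have h4 : Tt.s (c • S.one) = t := by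
      rw [← hc]
      exact h1
    rw [Tt.smul] at h4
    exact h4.symm
  · have h := congrArg Tt.s Ga.dim
    rw [Tt.comp, Tt.smul, Tt.id] at h
    exact h

/-- `φ` is an isomorphism from the twisted algebra to `S` -/
structure IsTw (Tt : Tw K F p) (S : SFrob (ImC F)) (φ : Aut S.A) : Prop where
  mul : Tt.s S.mul ≫ φ.hom = (φ.hom ⊗ₘ φ.hom) ≫ S.mul
  one : Tt.s S.one ≫ φ.hom = S.one
  cm : Tt.s S.cm ≫ (φ.hom ⊗ₘ φ.hom) = φ.hom ≫ S.cm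
  cn : Tt.s S.cn = φ.hom ≫ S.cn

theorem isTw_of_siso (Tt : Tw K F p) {S : SFrob (ImC F)} (σ : SIso (Tt.alg S) S) : IsTw Tt S (σ.f : S.A ≅ S.A) :=
  ⟨σ.mul, σ.one, σ.cm, σ.cn⟩

section

variable {Tt : Tw K F p} {S : SFrob (ImC F)} {φ : Aut S.A}

/-- `(sψ)⁻¹ = φ ≫ ψ⁻¹`, so `Tt.s ψ.inv = φ.hom ≫ ψ.inv` -/
theorem tw_inv {x' : ImC F} (ψ : x' ≅ S.A) (hψ : Tt.s ψ.hom ≫ φ.hom = ψ.hom) : Tt.s ψ.inv = φ.hom ≫ ψ.inv := by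
  have h1 : Tt.s ψ.inv ≫ Tt.s ψ.hom = 𝟙 _ := by
    rw [← Tt.comp, ψ.inv_hom_id, Tt.id]
  have h2 : Tt.s ψ.hom ≫ φ.hom ≫ ψ.inv = 𝟙 _ := by
    rw [← Category.assoc, hψ, ψ.hom_inv_id]
  calc Tt.s ψ.inv = Tt.s ψ.inv ≫ (Tt.s ψ.hom ≫ φ.hom ≫ ψ.inv) := by rw [h2, Category.comp_id]
    _ = (Tt.s ψ.inv ≫ Tt.s ψ.hom) ≫ φ.hom ≫ ψ.inv := by simp only [Category.assoc]
    _ = φ.hom ≫ ψ.inv := by rw [h1, Category.id_comp]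

private theorem PJ_pre {x' y : ImC F} (ψ : x' ≅ S.A) (hψ : Tt.s ψ.hom ≫ φ.hom = ψ.hom) (g : S.A ⟶ y) :
    Tt.s ψ.hom ≫ φ.hom ≫ g = ψ.hom ≫ g := by
  rw [← Category.assoc, hψ]

private theorem PJ_ten {x' y : ImC F} (ψ : x' ≅ S.A) (hψ : Tt.s ψ.hom ≫ φ.hom = ψ.hom) (g : S.A ⊗ S.A ⟶ y) :
    (Tt.s ψ.hom ⊗ₘ Tt.s ψ.hom) ≫ (φ.hom ⊗ₘ φ.hom) ≫ g = (ψ.hom ⊗ₘ ψ.hom) ≫ g := by
  rw [← Category.assoc, MonoidalCategory.tensorHom_comp_tensorHom, hψ]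

theorem IsTw.fix_mul (hφ : IsTw Tt S φ) {x' : ImC F} (ψ : x' ≅ S.A) (hψ : Tt.s ψ.hom ≫ φ.hom = ψ.hom) :
    Tt.s ((ψ.hom ⊗ₘ ψ.hom) ≫ S.mul ≫ ψ.inv) = (ψ.hom ⊗ₘ ψ.hom) ≫ S.mul ≫ ψ.inv := by
  rw [Tt.comp, Tt.comp, Tt.ten, tw_inv ψ hψ, ← Category.assoc (Tt.s S.mul), hφ.mul, Category.assoc, PJ_ten ψ hψ]

theorem IsTw.fix_one (hφ : IsTw Tt S φ) {x' : ImC F} (ψ : x' ≅ S.A) (hψ : Tt.s ψ.hom ≫ φ.hom = ψ.hom) :
    Tt.s (S.one ≫ ψ.inv) = S.one ≫ ψ.inv := by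
  rw [Tt.comp, tw_inv ψ hψ, ← Category.assoc, hφ.one]

theorem IsTw.fix_cm (hφ : IsTw Tt S φ) {x' : ImC F} (ψ : x' ≅ S.A) (hψ : Tt.s ψ.hom ≫ φ.hom = ψ.hom) :
    Tt.s (ψ.hom ≫ S.cm ≫ (ψ.inv ⊗ₘ ψ.inv)) = ψ.hom ≫ S.cm ≫ (ψ.inv ⊗ₘ ψ.inv) := by
  rw [Tt.comp, Tt.comp, Tt.ten, tw_inv ψ hψ, ← MonoidalCategory.tensorHom_comp_tensorHom, ← Category.assoc (Tt.s S.cm),
    hφ.cm, Category.assoc, PJ_pre ψ hψ]

theorem IsTw.fix_cn (hφ : IsTw Tt S φ) {x' : ImC F} (ψ : x' ≅ S.A) (hψ : Tt.s ψ.hom ≫ φ.hom = ψ.hom) :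
    Tt.s (ψ.hom ≫ S.cn) = ψ.hom ≫ S.cn := by
  rw [Tt.comp, hφ.cn, PJ_pre ψ hψ]

theorem tw_fix_a {a : S.A ⟶ S.A} (ha : Tt.s a = a) (hc : φ.hom ≫ a = a ≫ φ.hom) {x' : ImC F} (ψ : x' ≅ S.A)
    (hψ : Tt.s ψ.hom ≫ φ.hom = ψ.hom) : Tt.s (ψ.hom ≫ a ≫ ψ.inv) = ψ.hom ≫ a ≫ ψ.inv := by
  rw [Tt.comp, Tt.comp, tw_inv ψ hψ, ha, ← Category.assoc a, ← hc, Category.assoc, PJ_pre ψ hψ]

end

end Pool.Agent.SFC
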