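import Pool.Agent.SFH.PH

/-!
# SFH/PK: consequences of the axioms of the twist; the twist of an algebra

`id`: `𝟙 x = (ImC.P F).map (𝟙 x)` (`fix`).  `zero`: `smul` with `c = 0`.  `wL`, `wR`: `x ◁ f = 𝟙 x ⊗ₘ f`, `ten`, `id`.  `al`, `lu`, ...: the structure isomorphisms of `ImC F` are images of those of `C` (`ImC.assoc_hom`, ..., by `rfl`) and `fix`.
`Tw.alg`: apply `Tt.s` to the axioms of `S` (`congrArg`), then `Tw.comp`, `Tw.wL`, `Tw.wR`, `Tw.al`, ....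
-/

set_option autoImplicit false

noncomputable section

open CategoryTheory MonoidalCategory
open scoped BigOperators

namespace Pool.Agent.SFC

universe v u v' u' w

variable {K : Type w} [Field K] {C : Type u} [Category.{v} C] [Preadditive C] [Linear K C] [MonoidalCategory C]
  {D : Type u'} [Category.{v'} D] [Preadditive D] [Linear K D] [MonoidalCategory D] {F : C ⥤ D} [F.Monoidal] {p : ℕ}
  [NeZero p]

theorem Tw.id (Tt : Tw K F p) (x : ImC F) : Tt.s (𝟙 x) = 𝟙 x := by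
  have h : (𝟙 x : x ⟶ x) = (ImC.P F).map (@CategoryStruct.id C _ x) := ((ImC.P F).map_id x).symm
  rw [h]
  exact Tt.fix _

theorem Tw.zero (Tt : Tw K F p) (x y : ImC F) : Tt.s (0 : x ⟶ y) = 0 := by
  have h := Tt.smul (0 : K) (0 : x ⟶ y)
  rwa [zero_smul, zero_smul] at h

theorem Tw.sum (Tt : Tw K F p) {α : Type} (t : Finset α) {x y : ImC F} (f : α → (x ⟶ y)) :
    Tt.s (∑ a ∈ t, f a) = ∑ a ∈ t, Tt.s (f a) := by
  classical
  induction t using Finset.induction_on with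
  | empty => simpa using Tt.zero x y
  | insert a t ha ih => rw [Finset.sum_insert ha, Finset.sum_insert ha, Tt.add, ih]

theorem Tw.wL (Tt : Tw K F p) (x : ImC F) {y z : ImC F} (f : y ⟶ z) : Tt.s (x ◁ f) = x ◁ Tt.s f := by
  rw [← id_tensorHom, Tt.ten, Tt.id, id_tensorHom]

theorem Tw.wR (Tt : Tw K F p) {x y : ImC F} (f : x ⟶ y) (z : ImC F) : Tt.s (f ▷ z) = Tt.s f ▷ z := by
  rw [← tensorHom_id, Tt.ten, Tt.id, tensorHom_id]

theorem Tw.al (Tt : Tw K F p) (x y z : ImC F) : Tt.s (α_ x y z).hom = (α_ x y z).hom :=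
  Tt.fix _

theorem Tw.al' (Tt : Tw K F p) (x y z : ImC F) : Tt.s (α_ x y z).inv = (α_ x y z).inv :=
  Tt.fix _

theorem Tw.lu (Tt : Tw K F p) (x : ImC F) : Tt.s (λ_ x).hom = (λ_ x).hom :=
  Tt.fix _

theorem Tw.lu' (Tt : Tw K F p) (x : ImC F) : Tt.s (λ_ x).inv = (λ_ x).inv :=
  Tt.fix _

theorem Tw.ru (Tt : Tw K F p) (x : ImC F) : Tt.s (ρ_ x).hom = (ρ_ x).hom :=
  Tt.fix _

theorem Tw.ru' (Tt : Tw K F p) (x : ImC F) : Tt.s (ρ_ x).inv = (ρ_ x).inv :=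
  Tt.fix _

/-- the image of an algebra under the twist -/
def Tw.alg (Tt : Tw K F p) (S : SFrob (ImC F)) : SFrob (ImC F) where
  A := S.A
  mul := Tt.s S.mul
  one := Tt.s S.one
  cm := Tt.s S.cm
  cn := Tt.s S.cn
  one_mul := by
    have h := congrArg Tt.s S.one_mul
    simpa only [Tt.comp, Tt.wL, Tt.wR, Tt.al, Tt.al', Tt.lu, Tt.lu', Tt.ru, Tt.ru', Tt.id] using h
  mul_one := by
    have h := congrArg Tt.s S.mul_one
    simpa only [Tt.comp, Tt.wL, Tt.wR, Tt.al, Tt.al', Tt.lu, Tt.lu', Tt.ru, Tt.ru', Tt.id] using h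
  assoc := by
    have h := congrArg Tt.s S.assoc
    simpa only [Tt.comp, Tt.wL, Tt.wR, Tt.al, Tt.al', Tt.lu, Tt.lu', Tt.ru, Tt.ru', Tt.id] using h
  cn_cm := by
    have h := congrArg Tt.s S.cn_cm
    simpa only [Tt.comp, Tt.wL, Tt.wR, Tt.al, Tt.al', Tt.lu, Tt.lu', Tt.ru, Tt.ru', Tt.id] using h
  cm_cn := by
    have h := congrArg Tt.s S.cm_cn
    simpa only [Tt.comp, Tt.wL, Tt.wR, Tt.al, Tt.al', Tt.lu, Tt.lu', Tt.ru, Tt.ru', Tt.id] using h
  coassoc := by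
    have h := congrArg Tt.s S.coassoc
    simpa only [Tt.comp, Tt.wL, Tt.wR, Tt.al, Tt.al', Tt.lu, Tt.lu', Tt.ru, Tt.ru', Tt.id] using h
  frobL := by
    have h := congrArg Tt.s S.frobL
    simpa only [Tt.comp, Tt.wL, Tt.wR, Tt.al, Tt.al', Tt.lu, Tt.lu', Tt.ru, Tt.ru', Tt.id] using h
  frobR := by
    have h := congrArg Tt.s S.frobR
    simpa only [Tt.comp, Tt.wL, Tt.wR, Tt.al, Tt.al', Tt.lu, Tt.lu', Tt.ru, Tt.ru', Tt.id] using h
  sep := by
    have h := congrArg Tt.s S.sep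
    simpa only [Tt.comp, Tt.wL, Tt.wR, Tt.al, Tt.al', Tt.lu, Tt.lu', Tt.ru, Tt.ru', Tt.id] using h

end Pool.Agent.SFC
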