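import Pool.Agent.SFH.PG
import Pool.Agent.SFH.PJ
import Pool.Agent.SFH.PMx

/-!
# SFH/PL: a twisted automorphism of order `p` commutes with the group

`exists_theta`: `φ.inv ≫ Ga.a g ≫ φ.hom` is an automorphism of the algebra `S`: `Tt.s S.mul ≫ Ga.a g = Tt.s (S.mul ≫ Ga.a g) = Tt.s ((a g ⊗ₘ a g) ≫ S.mul) = (a g ⊗ₘ a g) ≫ Tt.s S.mul` (`hfix`), and `hφ.mul`, `hφ.one`; so it is `Ga.a (θ g)` (`GalG.aut`).
`Ga.a` is injective (`GalG.indep`), so `θ (g h) = θ g θ h` and `θ` is an injective homomorphism of a finite group: `θ : MulAut H`.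
`theta_pow`: `φ.inv^k ≫ a g ≫ φ.hom^k = a (θ^k g)`, so `φ ^ p = 1` gives `θ ^ p = 1`.
`theta_conj`: `Z := ∑ x, Ga.a (x * g * x⁻¹)` commutes with all `Ga.a h` (`Ga.a_mul`, reindex the sum), so with every endomorphism of `S.A` (`GalG.span`), so with `φ.hom`; conjugating, `∑ x, Ga.a (θ (x * g * x⁻¹)) = ∑ x, Ga.a (x * g * x⁻¹)`.  Compare the
coefficients of `Ga.a (θ g)` (`GalG.indep`; group the sums over `x` by the value): on the left the number of `x` with `θ (x g x⁻¹) = θ g`, not zero (`x = 1`), so the one on the right, the number of `x` with `x g x⁻¹ = θ g`, is not zero: `IsConj g (θ g)`.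
`isTw_com`: `class_pres` (`¬ p ∣ Nat.card H`).
-/

set_option autoImplicit false

noncomputable section

open CategoryTheory MonoidalCategory
open scoped BigOperators

namespace Pool.Agent.SFC

universe v u v' u' w

variable {K : Type w} [Field K] [CharZero K] {C : Type u} [Category.{v} C] [Preadditive C] [Linear K C]
  [MonoidalCategory C] {D : Type u'} [Category.{v'} D] [Preadditive D] [Linear K D] [MonoidalCategory D]
  [MonoidalPreadditive D] [MonoidalLinear K D] {F : C ⥤ D} [F.Monoidal] {p : ℕ} [NeZero p] {Tt : Tw K F p}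
  {S : SFrob (ImC F)} {φ : Aut S.A} {H : Type} [Group H] [Fintype H]

omit [Preadditive C] [Linear K C] in
private theorem PL_inj (Ga : GalG K S H) (h1 : 𝟙 (𝟙_ (ImC F)) ≠ 0) {g h : H} (e : Ga.a g = Ga.a h) : g = h := by
  classical
  by_contra hne
  have h2 : ∑ k, ((if k = g then (1 : K) else 0) - (if k = h then (1 : K) else 0)) • Ga.a k = 0 := by
    have h3 : ∀ k, ((if k = g then (1 : K) else 0) - (if k = h then (1 : K) else 0)) • Ga.a k =
        (if k = g then (1 : K) else 0) • Ga.a k - (if k = h then (1 : K) else 0) • Ga.a k := fun k => sub_smul _ _ _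
    rw [Finset.sum_congr rfl fun k _ => h3 k, Finset.sum_sub_distrib, Finset.sum_eq_single g, Finset.sum_eq_single h,
      if_pos rfl, if_pos rfl, e, sub_self]
    · intro k _ hk
      rw [if_neg hk, zero_smul]
    · intro hh
      exact absurd (Finset.mem_univ _) hh
    · intro k _ hk
      rw [if_neg hk, zero_smul]
    · intro hh
      exact absurd (Finset.mem_univ _) hh
  have h4 := Ga.indep h1 _ h2 g
  rw [if_pos rfl, if_neg hne, sub_zero] at h4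
  exact one_ne_zero h4

private theorem PL_aut (hφ : IsTw Tt S φ) (Ga : GalG K S H) (h1 : 𝟙 (𝟙_ (ImC F)) ≠ 0)
    (hfix : ∀ f : S.A ⟶ S.A, Tt.s f = f) (g : H) : ∃ g', φ.inv ≫ Ga.a g ≫ φ.hom = Ga.a g' := by
  refine Ga.aut h1 _ ?_ ?_
  · have e1 : S.mul ≫ φ.inv = (φ.inv ⊗ₘ φ.inv) ≫ Tt.s S.mul := by
      rw [← cancel_mono φ.hom, Category.assoc, Category.assoc, hφ.mul, Iso.inv_hom_id, Category.comp_id,
        tensorHom_comp_tensorHom_assoc, Iso.inv_hom_id, tensorHom_id, id_whiskerRight, Category.id_comp]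
    have e2 : Tt.s S.mul ≫ Ga.a g = (Ga.a g ⊗ₘ Ga.a g) ≫ Tt.s S.mul := by
      calc Tt.s S.mul ≫ Ga.a g = Tt.s S.mul ≫ Tt.s (Ga.a g) := by rw [hfix]
        _ = Tt.s ((Ga.a g ⊗ₘ Ga.a g) ≫ S.mul) := by rw [← Tt.comp, Ga.mul]
        _ = (Ga.a g ⊗ₘ Ga.a g) ≫ Tt.s S.mul := by rw [Tt.comp, Tt.ten, hfix]
    calc S.mul ≫ φ.inv ≫ Ga.a g ≫ φ.hom = (S.mul ≫ φ.inv) ≫ Ga.a g ≫ φ.hom := by rw [Category.assoc]
      _ = (φ.inv ⊗ₘ φ.inv) ≫ (Tt.s S.mul ≫ Ga.a g) ≫ φ.hom := by rw [e1]; simp only [Category.assoc]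
      _ = (φ.inv ⊗ₘ φ.inv) ≫ (Ga.a g ⊗ₘ Ga.a g) ≫ Tt.s S.mul ≫ φ.hom := by rw [e2]; simp only [Category.assoc]
      _ = (φ.inv ⊗ₘ φ.inv) ≫ (Ga.a g ⊗ₘ Ga.a g) ≫ (φ.hom ⊗ₘ φ.hom) ≫ S.mul := by rw [hφ.mul]
      _ = _ := by rw [tensorHom_comp_tensorHom_assoc, tensorHom_comp_tensorHom_assoc, Category.assoc]
  · have e1 : S.one ≫ φ.inv = Tt.s S.one := by
      rw [← cancel_mono φ.hom, Category.assoc, hφ.one, Iso.inv_hom_id, Category.comp_id]
    have e2 : Tt.s S.one ≫ Ga.a g = Tt.s S.one := by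
      calc Tt.s S.one ≫ Ga.a g = Tt.s S.one ≫ Tt.s (Ga.a g) := by rw [hfix]
        _ = Tt.s S.one := by rw [← Tt.comp, Ga.one]
    rw [← Category.assoc, e1, ← Category.assoc, e2, hφ.one]

theorem exists_theta (hφ : IsTw Tt S φ) (Ga : GalG K S H) (h1 : 𝟙 (𝟙_ (ImC F)) ≠ 0)
    (hfix : ∀ f : S.A ⟶ S.A, Tt.s f = f) : ∃ θ : MulAut H, ∀ g, φ.inv ≫ Ga.a g ≫ φ.hom = Ga.a (θ g) := by
  choose t ht using PL_aut hφ Ga h1 hfix
  let T : H →* H := MonoidHom.mk' t fun g h => by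
    apply PL_inj Ga h1
    rw [← ht, Ga.a_mul, Ga.a_mul, ← ht, ← ht]
    simp only [Category.assoc, Iso.hom_inv_id_assoc]
  have hT : Function.Injective T := by
    intro g h e
    apply PL_inj Ga h1
    have e1 : φ.inv ≫ Ga.a g ≫ φ.hom = φ.inv ≫ Ga.a h ≫ φ.hom := by
      rw [ht, ht]
      exact congrArg Ga.a e
    rwa [cancel_epi, cancel_mono] at e1
  exact ⟨MulEquiv.ofBijective T (Finite.injective_iff_bijective.1 hT), ht⟩

theorem theta_pow (Ga : GalG K S H) (h1 : 𝟙 (𝟙_ (ImC F)) ≠ 0) (θ : MulAut H)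
    (hθ : ∀ g, φ.inv ≫ Ga.a g ≫ φ.hom = Ga.a (θ g)) (hpow : φ ^ p = 1) : θ ^ p = 1 := by
  have hk : ∀ (k : ℕ) (g : H), (φ ^ k).inv ≫ Ga.a g ≫ (φ ^ k).hom = Ga.a ((θ ^ k) g) := by
    intro k
    induction k with
    | zero =>
      intro g
      rw [pow_zero, pow_zero]
      change 𝟙 _ ≫ Ga.a g ≫ 𝟙 _ = Ga.a g
      rw [Category.id_comp, Category.comp_id]
    | succ k ih =>
      intro g
      rw [pow_succ, pow_succ]
      change ((φ ^ k).inv ≫ φ.inv) ≫ Ga.a g ≫ φ.hom ≫ (φ ^ k).hom = Ga.a ((θ ^ k) (θ g))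
      rw [← ih, ← hθ]
      simp only [Category.assoc]
  apply MulEquiv.ext
  intro g
  apply PL_inj Ga h1
  rw [← hk, hpow]
  change 𝟙 _ ≫ Ga.a g ≫ 𝟙 _ = Ga.a g
  rw [Category.id_comp, Category.comp_id]

theorem theta_conj (Ga : GalG K S H) (h1 : 𝟙 (𝟙_ (ImC F)) ≠ 0) (θ : MulAut H)
    (hθ : ∀ g, φ.inv ≫ Ga.a g ≫ φ.hom = Ga.a (θ g)) (g : H) : IsConj g (θ g) := by
  classical
  have hc : ∀ h, Ga.a h ≫ (∑ x, Ga.a (x * g * x⁻¹)) = (∑ x, Ga.a (x * g * x⁻¹)) ≫ Ga.a h := by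
    intro h
    rw [Preadditive.comp_sum, Preadditive.sum_comp]
    have e1 : ∀ x, Ga.a h ≫ Ga.a (x * g * x⁻¹) = Ga.a (x * g * x⁻¹ * h) := fun x => (Ga.a_mul _ _).symm
    have e2 : ∀ x, Ga.a (x * g * x⁻¹) ≫ Ga.a h = Ga.a (h * (x * g * x⁻¹)) := fun x => (Ga.a_mul _ _).symm
    rw [Finset.sum_congr rfl fun x _ => e1 x, Finset.sum_congr rfl fun x _ => e2 x]
    refine (Fintype.sum_equiv (Equiv.mulLeft h) _ _ fun x => ?_).symm
    rw [Equiv.coe_mulLeft]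
    congr 1
    group
  have hf0 : ∀ Z : S.A ⟶ S.A, (∀ h, Ga.a h ≫ Z = Z ≫ Ga.a h) → φ.hom ≫ Z = Z ≫ φ.hom := by
    intro Z hz
    obtain ⟨c, hcc⟩ := Ga.span φ.hom
    rw [hcc, Preadditive.comp_sum, Preadditive.sum_comp]
    refine Finset.sum_congr rfl fun k _ => ?_
    rw [Linear.comp_smul, Linear.smul_comp, hz]
  have hf := hf0 _ hc
  have hZ : ∑ x, Ga.a (θ (x * g * x⁻¹)) = ∑ x, Ga.a (x * g * x⁻¹) := by
    have e1 : φ.inv ≫ (∑ x, Ga.a (x * g * x⁻¹)) ≫ φ.hom = ∑ x, Ga.a (θ (x * g * x⁻¹)) := by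
      rw [Preadditive.sum_comp, Preadditive.comp_sum]
      exact Finset.sum_congr rfl fun x _ => hθ _
    rw [← e1, ← hf, Iso.inv_hom_id_assoc]
  have hgrp : ∀ f : H → H, ∑ x, Ga.a (f x) =
      ∑ k, ((Finset.univ.filter fun x => f x = k).card : K) • Ga.a k := by
    intro f
    rw [← Finset.sum_fiberwise_of_maps_to (g := f) (t := Finset.univ) fun x _ => Finset.mem_univ _]
    refine Finset.sum_congr rfl fun k _ => ?_
    rw [Finset.sum_congr rfl fun x hx => by rw [(Finset.mem_filter.1 hx).2], Finset.sum_const, Nat.cast_smul_eq_nsmul]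
  have h0 : ∑ k, (((Finset.univ.filter fun x => θ (x * g * x⁻¹) = k).card : K) -
      ((Finset.univ.filter fun x => x * g * x⁻¹ = k).card : K)) • Ga.a k = 0 := by
    rw [Finset.sum_congr rfl fun k _ => sub_smul _ _ _, Finset.sum_sub_distrib, ← hgrp fun x => θ (x * g * x⁻¹),
      ← hgrp fun x => x * g * x⁻¹, hZ, sub_self]
  have h2 := sub_eq_zero.1 (Ga.indep h1 _ h0 (θ g))
  have h3 := Nat.cast_injective (R := K) h2
  have h4 : 0 < (Finset.univ.filter fun x => θ (x * g * x⁻¹) = θ g).card :=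
    Finset.card_pos.2 ⟨1, by simp⟩
  rw [h3] at h4
  obtain ⟨x, hx⟩ := Finset.card_pos.1 h4
  exact isConj_iff.2 ⟨x, (Finset.mem_filter.1 hx).2⟩

theorem isTw_com (hp : p.Prime) (hH : ¬ p ∣ Nat.card H) (hφ : IsTw Tt S φ) (hpow : φ ^ p = 1) (Ga : GalG K S H)
    (h1 : 𝟙 (𝟙_ (ImC F)) ≠ 0) (hfix : ∀ f : S.A ⟶ S.A, Tt.s f = f) (g : H) : φ.hom ≫ Ga.a g = Ga.a g ≫ φ.hom := by
  obtain ⟨θ, hθ⟩ := exists_theta hφ Ga h1 hfix
  have h2 := class_pres hp hH θ (theta_pow Ga h1 θ hθ hpow) (theta_conj Ga h1 θ hθ)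
  have h3 := hθ g
  rw [h2] at h3
  change φ.inv ≫ Ga.a g ≫ φ.hom = Ga.a g at h3
  rw [← cancel_epi φ.inv, h3, Iso.inv_hom_id_assoc]

end Pool.Agent.SFC
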