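import Pool.Agent.SFH.Defs

/-!
# SFH/PMa: the algebra of a simple Galois extension: `A ⊗ A`, endomorphisms

Notation: `Ga : GalG K S H`, `A = S.A`, elements `x`, `Δ = S.cm`, `ε = S.cn`.
`pmP g (x ⊗ y) = x (g y)`, `pmJ g x = Δ` followed by `g⁻¹` on the second factor.
`jp_self`: `cm ≫ A ◁ (a g⁻¹ ≫ a g) ≫ mul`, `a (g * g⁻¹) = a g⁻¹ ≫ a g = 𝟙`, `S.sep`.  `jp_ne`: `a g⁻¹ ≫ a h = a (h * g⁻¹)`, `Ga.orth`.
`jp_sum`: `p g ≫ j g = A ◁ a g ≫ mul ≫ cm ≫ A ◁ a g⁻¹ = A ◁ a g ≫ A ◁ cm ≫ α⁻¹ ≫ mul ▷ A ≫ A ◁ a g⁻¹` (`frobL`)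
`= A ◁ (a g ≫ cm ≫ A ◁ a g⁻¹) ≫ α⁻¹ ≫ mul ▷ A = A ◁ (cm ≫ a g ▷ A) ≫ α⁻¹ ≫ mul ▷ A` (`Ga.cm`, `a g ≫ a g⁻¹ = 𝟙`).  The sum over `g` is `A ◁ (cm ≫ (cn ≫ one) ▷ A) ≫ α⁻¹ ≫ mul ▷ A = 𝟙` (`Ga.sum`, `cn_cm`, `mul_one`).
`p_lin`, `j_lin`: left linearity (`assoc`, `frobL`).
`lin_end`: a left linear `t : A ⟶ A` is a scalar: `t = (ρ_ A).inv ≫ A ◁ (one ≫ t) ≫ mul`, `one ≫ t = c • one` (`Ga.conn`).
`span`: `A ◁ f ≫ mul : A ⊗ A ⟶ A` is left linear; `A ◁ f ≫ mul = ∑ g, p g ≫ (j g ≫ A ◁ f ≫ mul)` and `j g ≫ A ◁ f ≫ mul` is a left linear endomorphism of `A`, so it is `c g • 𝟙` (`lin_end`); so `A ◁ f ≫ mul = ∑ g, c g • p g`.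
Compose with `(λ_ A).inv ≫ one ▷ A` from the left: `f = ∑ g, c g • a g`.
-/

set_option autoImplicit false

noncomputable section

open CategoryTheory MonoidalCategory
open scoped BigOperators

namespace Pool.Agent.SFC

universe v u w

variable {K : Type w} [Field K] {E : Type u} [Category.{v} E] [Preadditive E] [Linear K E] [MonoidalCategory E]
  [MonoidalPreadditive E] [MonoidalLinear K E] {S : SFrob E} {H : Type} [Group H] [Fintype H]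

omit [MonoidalPreadditive E] [MonoidalLinear K E] in
/-- `x ⊗ y ↦ x (g y)` -/
def GalG.pmP (Ga : GalG K S H) (g : H) : S.A ⊗ S.A ⟶ S.A := S.A ◁ Ga.a g ≫ S.mul

omit [MonoidalPreadditive E] [MonoidalLinear K E] in
/-- the coproduct, followed by `g⁻¹` on the second factor -/
def GalG.pmJ (Ga : GalG K S H) (g : H) : S.A ⟶ S.A ⊗ S.A := S.cm ≫ S.A ◁ Ga.a g⁻¹

omit [MonoidalPreadditive E] [MonoidalLinear K E] in
private theorem PMa_inv1 (Ga : GalG K S H) (g : H) : Ga.a g⁻¹ ≫ Ga.a g = 𝟙 S.A := by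
  rw [← Ga.a_mul, mul_inv_cancel, Ga.a_one]

omit [MonoidalPreadditive E] [MonoidalLinear K E] in
private theorem PMa_inv2 (Ga : GalG K S H) (g : H) : Ga.a g ≫ Ga.a g⁻¹ = 𝟙 S.A := by
  rw [← Ga.a_mul, inv_mul_cancel, Ga.a_one]

theorem GalG.jp_self (Ga : GalG K S H) (g : H) : Ga.pmJ g ≫ Ga.pmP g = 𝟙 S.A := by
  unfold GalG.pmJ GalG.pmP
  rw [Category.assoc, ← MonoidalCategory.whiskerLeft_comp_assoc, PMa_inv1, MonoidalCategory.whiskerLeft_id, Category.id_comp,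
    S.sep]

theorem GalG.jp_ne (Ga : GalG K S H) (g h : H) (hne : g ≠ h) : Ga.pmJ g ≫ Ga.pmP h = 0 := by
  unfold GalG.pmJ GalG.pmP
  rw [Category.assoc, ← MonoidalCategory.whiskerLeft_comp_assoc, ← Ga.a_mul]
  refine Ga.orth _ ?_
  intro h1
  exact hne (mul_inv_eq_one.mp h1).symm

private theorem PMa_pj (Ga : GalG K S H) (g : H) : Ga.pmP g ≫ Ga.pmJ g =
    S.A ◁ (S.cm ≫ Ga.a g ▷ S.A) ≫ (α_ S.A S.A S.A).inv ≫ S.mul ▷ S.A := by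
  unfold GalG.pmJ GalG.pmP
  have h1 : Ga.a g ≫ S.cm ≫ S.A ◁ Ga.a g⁻¹ = S.cm ≫ Ga.a g ▷ S.A := by
    rw [← Category.assoc, ← Ga.cm, MonoidalCategory.tensorHom_def, Category.assoc, Category.assoc, ← MonoidalCategory.whiskerLeft_comp,
      PMa_inv2, MonoidalCategory.whiskerLeft_id, Category.comp_id]
  rw [← h1, Category.assoc, reassoc_of% S.frobL, ← whisker_exchange, ← associator_inv_naturality_right_assoc]
  simp only [MonoidalCategory.whiskerLeft_comp, Category.assoc]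

theorem GalG.jp_sum (Ga : GalG K S H) : ∑ g, Ga.pmP g ≫ Ga.pmJ g = 𝟙 (S.A ⊗ S.A) := by
  have h1 : ∀ g, Ga.pmP g ≫ Ga.pmJ g =
      S.A ◁ (S.cm ≫ Ga.a g ▷ S.A) ≫ (α_ S.A S.A S.A).inv ≫ S.mul ▷ S.A := PMa_pj Ga
  have h2 : ∑ g, Ga.pmP g ≫ Ga.pmJ g =
      S.A ◁ (S.cm ≫ (∑ g, Ga.a g) ▷ S.A) ≫ (α_ S.A S.A S.A).inv ≫ S.mul ▷ S.A := by
    simp only [h1]
    rw [← Preadditive.sum_comp, ← CategoryTheory.whiskerLeft_sum, ← Preadditive.comp_sum, ← CategoryTheory.sum_whiskerRight]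
  rw [h2, Ga.sum, comp_whiskerRight, reassoc_of% S.cn_cm, MonoidalCategory.whiskerLeft_comp, Category.assoc,
    associator_inv_naturality_middle_assoc, ← comp_whiskerRight, S.mul_one]
  simp

theorem GalG.p_lin (Ga : GalG K S H) (g : H) :
    S.A ◁ Ga.pmP g ≫ S.mul = (α_ S.A S.A S.A).inv ≫ S.mul ▷ S.A ≫ Ga.pmP g := by
  unfold GalG.pmP
  have h1 : S.A ◁ S.mul ≫ S.mul = (α_ S.A S.A S.A).inv ≫ S.mul ▷ S.A ≫ S.mul := by
    rw [S.assoc, Iso.inv_hom_id_assoc]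
  rw [MonoidalCategory.whiskerLeft_comp, Category.assoc, h1, associator_inv_naturality_right_assoc, whisker_exchange_assoc]

theorem GalG.j_lin (Ga : GalG K S H) (g : H) :
    S.mul ≫ Ga.pmJ g = S.A ◁ Ga.pmJ g ≫ (α_ S.A S.A S.A).inv ≫ S.mul ▷ S.A := by
  unfold GalG.pmJ
  rw [reassoc_of% S.frobL, ← whisker_exchange, ← associator_inv_naturality_right_assoc]
  simp only [MonoidalCategory.whiskerLeft_comp, Category.assoc]

theorem GalG.lin_end (Ga : GalG K S H) (t : S.A ⟶ S.A) (ht : S.A ◁ t ≫ S.mul = S.mul ≫ t) : ∃ c : K, t = c • 𝟙 S.A := by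
  obtain ⟨c, hc⟩ := Ga.conn (S.one ≫ t)
  refine ⟨c, ?_⟩
  have h1 : (ρ_ S.A).inv ≫ S.A ◁ (S.one ≫ t) ≫ S.mul = t := by
    rw [MonoidalCategory.whiskerLeft_comp, Category.assoc, ht, reassoc_of% S.mul_one, Iso.inv_hom_id_assoc]
  rw [← h1, hc, MonoidalLinear.whiskerLeft_smul, Linear.smul_comp, Linear.comp_smul, S.mul_one, Iso.inv_hom_id]

theorem GalG.span (Ga : GalG K S H) (f : S.A ⟶ S.A) : ∃ c : H → K, f = ∑ g, c g • Ga.a g := by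
  have h1 : S.A ◁ S.mul ≫ S.mul = (α_ S.A S.A S.A).inv ≫ S.mul ▷ S.A ≫ S.mul := by
    rw [S.assoc, Iso.inv_hom_id_assoc]
  have hF : S.A ◁ (S.A ◁ f ≫ S.mul) ≫ S.mul = (α_ S.A S.A S.A).inv ≫ S.mul ▷ S.A ≫ S.A ◁ f ≫ S.mul := by
    rw [MonoidalCategory.whiskerLeft_comp, Category.assoc, h1, associator_inv_naturality_right_assoc, whisker_exchange_assoc]
  have h2 : ∀ g, ∃ c : K, Ga.pmJ g ≫ S.A ◁ f ≫ S.mul = c • 𝟙 S.A := by
    intro g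
    refine Ga.lin_end _ ?_
    rw [MonoidalCategory.whiskerLeft_comp, Category.assoc, hF, ← Category.assoc S.mul, Ga.j_lin]
    simp only [Category.assoc]
  choose c hc using h2
  refine ⟨c, ?_⟩
  have h3 : S.A ◁ f ≫ S.mul = ∑ g, c g • Ga.pmP g := by
    calc S.A ◁ f ≫ S.mul = (∑ g, Ga.pmP g ≫ Ga.pmJ g) ≫ S.A ◁ f ≫ S.mul := by rw [Ga.jp_sum, Category.id_comp]
      _ = ∑ g, Ga.pmP g ≫ Ga.pmJ g ≫ S.A ◁ f ≫ S.mul := by
        rw [Preadditive.sum_comp]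
        simp only [Category.assoc]
      _ = ∑ g, c g • Ga.pmP g := by
        refine Finset.sum_congr rfl (fun g _ => ?_)
        rw [hc g, Linear.comp_smul, Category.comp_id]
  have h4 : ∀ t : S.A ⟶ S.A, (λ_ S.A).inv ≫ S.one ▷ S.A ≫ S.A ◁ t ≫ S.mul = t := by
    intro t
    rw [← whisker_exchange_assoc, S.one_mul, leftUnitor_naturality, Iso.inv_hom_id_assoc]
  calc f = (λ_ S.A).inv ≫ S.one ▷ S.A ≫ S.A ◁ f ≫ S.mul := (h4 f).symm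
    _ = ∑ g, c g • ((λ_ S.A).inv ≫ S.one ▷ S.A ≫ Ga.pmP g) := by
      rw [h3, Preadditive.comp_sum, Preadditive.comp_sum]
      simp only [Linear.comp_smul]
    _ = ∑ g, c g • Ga.a g := by
      refine Finset.sum_congr rfl (fun g _ => ?_)
      rw [GalG.pmP, h4]

end Pool.Agent.SFC
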