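import Pool.Agent.SFH.Defs

/-!
# SFH/PMb: the algebra `BB` of the `A`-`A'`-bimodule endomorphisms of `A ⊗ A'`

`T : A ⊗ A' ⟶ A ⊗ A'` is left `A`-linear and right `A'`-linear (`IsBi`).  `ext`: `T (a ⊗ a') = a T(1 ⊗ 1') a'`.  `exists_isBi`: for `t : 𝟙 ⟶ A ⊗ A'` put
`T = (ρ_ A).inv ▷ A' ≫ (A ◁ t) ▷ A' ≫ (α_ A A A').inv ▷ A' ≫ (mul ▷ A') ▷ A' ≫ (α_ A A' A').hom ≫ A ◁ mul'` (`a ⊗ a' ↦ a t a'`).
`BB` is a subalgebra of `End (A ⊗ A')` (in `End`, `f * g = g ≫ f`).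
-/

set_option autoImplicit false

noncomputable section

open CategoryTheory MonoidalCategory
open scoped BigOperators

namespace Pool.Agent.SFC

universe v u w

section

variable {E : Type u} [Category.{v} E] [MonoidalCategory E]

/-- left `A`-linear and right `A'`-linear endomorphisms of `A ⊗ A'` -/
structure IsBi (S S' : SFrob E) (T : S.A ⊗ S'.A ⟶ S.A ⊗ S'.A) : Prop where
  l : S.mul ▷ S'.A ≫ T = (α_ S.A S.A S'.A).hom ≫ S.A ◁ T ≫ (α_ S.A S.A S'.A).inv ≫ S.mul ▷ S'.A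
  r : S.A ◁ S'.mul ≫ T = (α_ S.A S'.A S'.A).inv ≫ T ▷ S'.A ≫ (α_ S.A S'.A S'.A).hom ≫ S.A ◁ S'.mul

/-- `1 ⊗ 1'` -/
def uB (S S' : SFrob E) : 𝟙_ E ⟶ S.A ⊗ S'.A := (λ_ (𝟙_ E)).inv ≫ (S.one ⊗ₘ S'.one)

variable {S S' : SFrob E}

/-- `a ↦ a t` -/
private def PMb_G (S S' : SFrob E) (t : 𝟙_ E ⟶ S.A ⊗ S'.A) : S.A ⟶ S.A ⊗ S'.A :=
  (ρ_ S.A).inv ≫ S.A ◁ t ≫ (α_ _ _ _).inv ≫ S.mul ▷ S'.A

/-- `a ⊗ a' ↦ a t a'` -/
private def PMb_F (S S' : SFrob E) (t : 𝟙_ E ⟶ S.A ⊗ S'.A) : S.A ⊗ S'.A ⟶ S.A ⊗ S'.A :=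
  PMb_G S S' t ▷ S'.A ≫ (α_ _ _ _).hom ≫ S.A ◁ S'.mul

private theorem PMb_uB (S S' : SFrob E) : uB S S' = (λ_ (𝟙_ E)).inv ≫ S.one ▷ 𝟙_ E ≫ S.A ◁ S'.one := by
  unfold uB
  rw [MonoidalCategory.tensorHom_def]

private theorem PMb_G_one (S S' : SFrob E) (t : 𝟙_ E ⟶ S.A ⊗ S'.A) : S.one ≫ PMb_G S S' t = t := by
  unfold PMb_G
  have h1 : S.one ▷ (S.A ⊗ S'.A) ≫ (α_ _ _ _).inv ≫ S.mul ▷ S'.A = (λ_ (S.A ⊗ S'.A)).hom := by
    rw [associator_inv_naturality_left_assoc, ← comp_whiskerRight, S.one_mul]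
    simp
  rw [rightUnitor_inv_naturality_assoc, ← whisker_exchange_assoc, h1, leftUnitor_naturality, unitors_equal,
    Iso.inv_hom_id_assoc]

private theorem PMb_G_l (S S' : SFrob E) (t : 𝟙_ E ⟶ S.A ⊗ S'.A) :
    S.mul ≫ PMb_G S S' t = S.A ◁ PMb_G S S' t ≫ (α_ _ _ _).inv ≫ S.mul ▷ S'.A := by
  unfold PMb_G
  have h1 : S.A ◁ (S.mul ▷ S'.A) ≫ (α_ _ _ _).inv ≫ S.mul ▷ S'.A =
      (α_ _ _ _).inv ≫ ((α_ _ _ _).inv ≫ S.mul ▷ S.A ≫ S.mul) ▷ S'.A := by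
    rw [S.assoc, Iso.inv_hom_id_assoc]
    simp
  simp only [MonoidalCategory.whiskerLeft_comp, Category.assoc]
  rw [h1, rightUnitor_inv_naturality_assoc, ← whisker_exchange_assoc]
  simp

/-- exchange of the two actions -/
private theorem PMb_ex (S S' : SFrob E) : S.A ◁ (S.A ◁ S'.mul) ≫ (α_ _ _ _).inv ≫ S.mul ▷ S'.A =
    (α_ _ _ _).inv ≫ S.mul ▷ (S'.A ⊗ S'.A) ≫ S.A ◁ S'.mul := by
  rw [associator_inv_naturality_right_assoc, whisker_exchange]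

theorem IsBi.ext {T U : S.A ⊗ S'.A ⟶ S.A ⊗ S'.A} (hT : IsBi S S' T) (hU : IsBi S S' U)
    (h : uB S S' ≫ T = uB S S' ≫ U) : T = U := by
  have key : ∀ {T : S.A ⊗ S'.A ⟶ S.A ⊗ S'.A}, IsBi S S' T → T = PMb_F S S' (uB S S' ≫ T) := by
    intro T hT
    have h1 : T = (((ρ_ S.A).inv ≫ S.A ◁ S.one) ▷ S'.A) ≫ (α_ _ _ _).hom ≫ S.A ◁ T ≫ (α_ _ _ _).inv ≫
        S.mul ▷ S'.A := by
      rw [← hT.l, ← comp_whiskerRight_assoc, Category.assoc, S.mul_one, Iso.inv_hom_id, id_whiskerRight,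
        Category.id_comp]
    have h2 : T = S.A ◁ ((λ_ S'.A).inv ≫ S'.one ▷ S'.A) ≫ (α_ _ _ _).inv ≫ T ▷ S'.A ≫ (α_ _ _ _).hom ≫
        S.A ◁ S'.mul := by
      rw [← hT.r, ← MonoidalCategory.whiskerLeft_comp_assoc, Category.assoc, S'.one_mul, Iso.inv_hom_id,
        MonoidalCategory.whiskerLeft_id, Category.id_comp]
    have h3 : S.one ▷ S'.A ≫ T = (uB S S' ≫ T) ▷ S'.A ≫ (α_ _ _ _).hom ≫ S.A ◁ S'.mul := by
      have h4 : uB S S' = (λ_ (𝟙_ E)).inv ≫ 𝟙_ E ◁ S'.one ≫ S.one ▷ S'.A := by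
        unfold uB
        rw [MonoidalCategory.tensorHom_def']
      conv_lhs => rw [h2]
      rw [← whisker_exchange_assoc, h4, associator_inv_naturality_left_assoc]
      simp
    have h5 : T = (ρ_ S.A).inv ▷ S'.A ≫ (α_ _ _ _).hom ≫ S.A ◁ (S.one ▷ S'.A ≫ T) ≫ (α_ _ _ _).inv ≫
        S.mul ▷ S'.A := by
      conv_lhs => rw [h1]
      simp
    rw [h3] at h5
    generalize uB S S' ≫ T = t at h5
    rw [h5]
    unfold PMb_F PMb_G
    simp only [MonoidalCategory.whiskerLeft_comp, comp_whiskerRight, Category.assoc]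
    rw [PMb_ex]
    simp
  rw [key hT, key hU, h]

theorem exists_isBi (S S' : SFrob E) (t : 𝟙_ E ⟶ S.A ⊗ S'.A) : ∃ T, IsBi S S' T ∧ uB S S' ≫ T = t := by
  refine ⟨PMb_F S S' t, ⟨?_, ?_⟩, ?_⟩
  · unfold PMb_F
    rw [← comp_whiskerRight_assoc, PMb_G_l]
    simp only [MonoidalCategory.whiskerLeft_comp, comp_whiskerRight, Category.assoc]
    rw [PMb_ex]
    simp
  · unfold PMb_F
    have h1 : S'.A ◁ S'.mul ≫ S'.mul = (α_ _ _ _).inv ≫ S'.mul ▷ S'.A ≫ S'.mul := by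
      rw [S'.assoc, Iso.inv_hom_id_assoc]
    rw [whisker_exchange_assoc, associator_naturality_right_assoc, ← MonoidalCategory.whiskerLeft_comp, h1]
    simp
  · rw [PMb_uB]
    unfold PMb_F
    have h1 : (S.A ⊗ S'.A) ◁ S'.one ≫ (α_ _ _ _).hom ≫ S.A ◁ S'.mul = (ρ_ (S.A ⊗ S'.A)).hom := by
      rw [associator_naturality_right_assoc, ← MonoidalCategory.whiskerLeft_comp, S'.mul_one]
      simp
    rw [Category.assoc, Category.assoc, whisker_exchange_assoc, h1, ← comp_whiskerRight_assoc, PMb_G_one,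
      rightUnitor_naturality, ← unitors_equal, Iso.inv_hom_id_assoc]

theorem IsBi.id (S S' : SFrob E) : IsBi S S' (𝟙 _) := by
  refine ⟨?_, ?_⟩ <;> simp

theorem IsBi.comp {T U : S.A ⊗ S'.A ⟶ S.A ⊗ S'.A} (hT : IsBi S S' T) (hU : IsBi S S' U) : IsBi S S' (T ≫ U) := by
  refine ⟨?_, ?_⟩
  · rw [reassoc_of% hT.l, hU.l]
    simp
  · rw [reassoc_of% hT.r, hU.r]
    simp

end

variable {K : Type w} [Field K] {E : Type u} [Category.{v} E] [Preadditive E] [Linear K E] [MonoidalCategory E]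
  [MonoidalPreadditive E] [MonoidalLinear K E] {S S' : SFrob E} {H : Type} [Group H] [Fintype H]

theorem IsBi.add {T U : S.A ⊗ S'.A ⟶ S.A ⊗ S'.A} (hT : IsBi S S' T) (hU : IsBi S S' U) : IsBi S S' (T + U) := by
  refine ⟨?_, ?_⟩
  · rw [Preadditive.comp_add, hT.l, hU.l, MonoidalPreadditive.whiskerLeft_add, Preadditive.add_comp,
      Preadditive.comp_add]
  · rw [Preadditive.comp_add, hT.r, hU.r, MonoidalPreadditive.add_whiskerRight, Preadditive.add_comp,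
      Preadditive.comp_add]

theorem IsBi.smul {T : S.A ⊗ S'.A ⟶ S.A ⊗ S'.A} (hT : IsBi S S' T) (c : K) : IsBi S S' (c • T) := by
  refine ⟨?_, ?_⟩
  · rw [Linear.comp_smul, hT.l, MonoidalLinear.whiskerLeft_smul, Linear.smul_comp, Linear.comp_smul]
  · rw [Linear.comp_smul, hT.r, MonoidalLinear.smul_whiskerRight, Linear.smul_comp, Linear.comp_smul]

/-- the algebra of bimodule endomorphisms -/
def BB (K : Type w) [Field K] {E : Type u} [Category.{v} E] [Preadditive E] [Linear K E] [MonoidalCategory E]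
    [MonoidalPreadditive E] [MonoidalLinear K E] (S S' : SFrob E) : Subalgebra K (End (S.A ⊗ S'.A)) where
  carrier := {T | IsBi S S' T}
  mul_mem' {T U} hT hU := by
    exact IsBi.comp hU hT
  add_mem' {T U} hT hU := by
    exact IsBi.add hT hU
  algebraMap_mem' c := by
    have h := IsBi.smul (IsBi.id S S') c
    exact h

theorem mem_BB (T : End (S.A ⊗ S'.A)) : T ∈ BB K S S' ↔ IsBi S S' T := Iff.rfl

end Pool.Agent.SFC
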