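import Pool.Agent.SFH.PMb

/-!
# SFH/PMc: the groups act on the algebra `BB`

`conjL`: `g T g⁻¹` with `g` acting on the first factor: `a g ▷ A'` is semilinear over `a g` (`Ga.mul`) from the left and commutes with the right action (`whisker_exchange`).
`exists_alB`: `(α g T) = a g⁻¹ ▷ A' ≫ T ≫ a g ▷ A'`; `a (g * h) = a h ≫ a g`, `(g * h)⁻¹ = h⁻¹ * g⁻¹`, so `α (g * h) = α g * α h`; `a g ≫ a g⁻¹ = a (g⁻¹ * g) = 𝟙`.
`fix_alB`: `t := uB ≫ T`; `uB ≫ a g⁻¹ ▷ A' = uB` (`Ga.one`), so `t ≫ a g ▷ A' = t`; the sum over `g`: `|H| • t = t ≫ (cn ≫ one) ▷ A'` (`Ga.sum`), and `t ≫ cn ▷ A' ≫ (λ_ A').hom : 𝟙 ⟶ A'` is `c • one'` (`Ga'.conn`), so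
`|H| • t = c • uB`, and `T = (c / |H|) • 𝟙` by `IsBi.ext`.  `fix_beB` the same way.
-/

set_option autoImplicit false

noncomputable section

open CategoryTheory MonoidalCategory
open scoped BigOperators

namespace Pool.Agent.SFC

universe v u w

variable {K : Type w} [Field K] {E : Type u} [Category.{v} E] [Preadditive E] [Linear K E] [MonoidalCategory E]
  [MonoidalPreadditive E] [MonoidalLinear K E] {S S' : SFrob E} {H H' : Type} [Group H] [Fintype H] [Group H']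
  [Fintype H']

private theorem PMc_inv_a (Ga : GalG K S H) (g : H) : Ga.a g⁻¹ ≫ Ga.a g = 𝟙 _ := by
  rw [← Ga.a_mul, mul_inv_cancel, Ga.a_one]

private theorem PMc_a_inv (Ga : GalG K S H) (g : H) : Ga.a g ≫ Ga.a g⁻¹ = 𝟙 _ := by
  rw [← Ga.a_mul, inv_mul_cancel, Ga.a_one]

private theorem PMc_mul (Ga : GalG K S H) (g : H) :
    S.mul ≫ Ga.a g = Ga.a g ▷ S.A ≫ S.A ◁ Ga.a g ≫ S.mul := by
  rw [← Ga.mul, MonoidalCategory.tensorHom_def, Category.assoc]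

theorem IsBi.conjL (Ga : GalG K S H) {T : S.A ⊗ S'.A ⟶ S.A ⊗ S'.A} (hT : IsBi S S' T) (g : H) :
    IsBi S S' (Ga.a g⁻¹ ▷ S'.A ≫ T ≫ Ga.a g ▷ S'.A) := by
  refine ⟨?_, ?_⟩
  · have h1 : S.mul ▷ S'.A ≫ Ga.a g⁻¹ ▷ S'.A = (α_ _ _ _).hom ≫ Ga.a g⁻¹ ▷ (S.A ⊗ S'.A) ≫
        S.A ◁ (Ga.a g⁻¹ ▷ S'.A) ≫ (α_ _ _ _).inv ≫ S.mul ▷ S'.A := by
      rw [← comp_whiskerRight, PMc_mul]
      simp
    have h2 : (α_ _ _ _).inv ≫ S.mul ▷ S'.A ≫ Ga.a g ▷ S'.A = Ga.a g ▷ (S.A ⊗ S'.A) ≫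
        S.A ◁ (Ga.a g ▷ S'.A) ≫ (α_ _ _ _).inv ≫ S.mul ▷ S'.A := by
      rw [← comp_whiskerRight, PMc_mul]
      simp
    rw [reassoc_of% h1, reassoc_of% hT.l, h2, Iso.inv_hom_id_assoc, ← whisker_exchange_assoc, ← whisker_exchange_assoc,
      ← comp_whiskerRight_assoc, PMc_inv_a, id_whiskerRight, Category.id_comp]
    simp only [MonoidalCategory.whiskerLeft_comp, Category.assoc]
  · rw [whisker_exchange_assoc, reassoc_of% hT.r, whisker_exchange]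
    simp

theorem IsBi.conjR (Ga' : GalG K S' H') {T : S.A ⊗ S'.A ⟶ S.A ⊗ S'.A} (hT : IsBi S S' T) (g : H') :
    IsBi S S' (S.A ◁ Ga'.a g⁻¹ ≫ T ≫ S.A ◁ Ga'.a g) := by
  refine ⟨?_, ?_⟩
  · rw [← whisker_exchange_assoc, reassoc_of% hT.l, ← whisker_exchange]
    simp
  · have h1 : S.A ◁ S'.mul ≫ S.A ◁ Ga'.a g⁻¹ = (α_ _ _ _).inv ≫ (S.A ⊗ S'.A) ◁ Ga'.a g⁻¹ ≫
        (S.A ◁ Ga'.a g⁻¹) ▷ S'.A ≫ (α_ _ _ _).hom ≫ S.A ◁ S'.mul := by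
      rw [← MonoidalCategory.whiskerLeft_comp, PMc_mul, whisker_exchange_assoc]
      simp
    have h2 : (α_ _ _ _).hom ≫ S.A ◁ S'.mul ≫ S.A ◁ Ga'.a g = (S.A ⊗ S'.A) ◁ Ga'.a g ≫
        (S.A ◁ Ga'.a g) ▷ S'.A ≫ (α_ _ _ _).hom ≫ S.A ◁ S'.mul := by
      rw [← MonoidalCategory.whiskerLeft_comp, PMc_mul, whisker_exchange_assoc]
      simp
    rw [reassoc_of% h1, reassoc_of% hT.r, h2, Iso.hom_inv_id_assoc, whisker_exchange_assoc, whisker_exchange_assoc,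
      ← MonoidalCategory.whiskerLeft_comp_assoc, PMc_inv_a, MonoidalCategory.whiskerLeft_id, Category.id_comp]
    simp only [comp_whiskerRight, Category.assoc]

private theorem PMc_add_l (f g h : S.A ⊗ S'.A ⟶ S.A ⊗ S'.A) (k : S.A ⊗ S'.A ⟶ S.A ⊗ S'.A) :
    f ≫ (g + h) ≫ k = f ≫ g ≫ k + f ≫ h ≫ k := by
  rw [Preadditive.add_comp, Preadditive.comp_add]

/-- the action of a group on `BB` by conjugation with the maps `p g` -/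
private theorem PMc_act (S S' : SFrob E) {H : Type} [Group H] (p : H → (S.A ⊗ S'.A ⟶ S.A ⊗ S'.A))
    (h1 : p 1 = 𝟙 _) (hm : ∀ g h, p (g * h) = p h ≫ p g)
    (hB : ∀ g T, IsBi S S' T → IsBi S S' (p g⁻¹ ≫ T ≫ p g)) :
    ∃ α : H →* (BB K S S' ≃ₐ[K] BB K S S'), ∀ (g : H) (T : BB K S S'), (α g T).1 = p g⁻¹ ≫ T.1 ≫ p g := by
  have hi : ∀ g, p g ≫ p g⁻¹ = 𝟙 _ := fun g => by rw [← hm, inv_mul_cancel, h1]
  have hi' : ∀ g, p g⁻¹ ≫ p g = 𝟙 _ := fun g => by rw [← hm, mul_inv_cancel, h1]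
  have hh : ∀ g h (T : S.A ⊗ S'.A ⟶ S.A ⊗ S'.A), p (g * h)⁻¹ ≫ T ≫ p (g * h) = p g⁻¹ ≫ (p h⁻¹ ≫ T ≫ p h) ≫ p g := by
    intro g h T
    rw [mul_inv_rev, hm, hm]
    simp only [Category.assoc]
  let c : H → BB K S S' →ₐ[K] BB K S S' := fun g => AlgHom.ofLinearMap
    { toFun := fun T => ⟨p g⁻¹ ≫ T.1 ≫ p g, hB g T.1 T.2⟩
      map_add' := by
        intro T U
        apply Subtype.ext
        exact PMc_add_l _ _ _ _
      map_smul' := by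
        intro c T
        apply Subtype.ext
        show p g⁻¹ ≫ (c • (T.1 : S.A ⊗ S'.A ⟶ S.A ⊗ S'.A)) ≫ p g = c • (p g⁻¹ ≫ (T.1 : S.A ⊗ S'.A ⟶ S.A ⊗ S'.A) ≫ p g)
        rw [Linear.smul_comp, Linear.comp_smul] }
    (by
      apply Subtype.ext
      show p g⁻¹ ≫ 𝟙 _ ≫ p g = 𝟙 _
      rw [Category.id_comp, hi'])
    (by
      intro T U
      apply Subtype.ext
      show p g⁻¹ ≫ ((U.1 : S.A ⊗ S'.A ⟶ S.A ⊗ S'.A) ≫ T.1) ≫ p g =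
        (p g⁻¹ ≫ (U.1 : S.A ⊗ S'.A ⟶ S.A ⊗ S'.A) ≫ p g) ≫ (p g⁻¹ ≫ (T.1 : S.A ⊗ S'.A ⟶ S.A ⊗ S'.A) ≫ p g)
      simp only [Category.assoc]
      rw [reassoc_of% hi g])
  have hc : ∀ g T, (c g T).1 = p g⁻¹ ≫ T.1 ≫ p g := fun g T => rfl
  have hcm : ∀ g h, c (g * h) = (c g).comp (c h) := by
    intro g h
    ext T
    exact hh g h T.1
  have hc1 : c 1 = AlgHom.id K _ := by
    ext T
    show p 1⁻¹ ≫ (T.1 : S.A ⊗ S'.A ⟶ S.A ⊗ S'.A) ≫ p 1 = T.1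
    rw [inv_one, h1, Category.comp_id, Category.id_comp]
  let e : H → (BB K S S' ≃ₐ[K] BB K S S') := fun g => AlgEquiv.ofAlgHom (c g) (c g⁻¹)
    (by rw [← hcm, mul_inv_cancel, hc1]) (by rw [← hcm, inv_mul_cancel, hc1])
  refine ⟨⟨⟨e, ?_⟩, ?_⟩, ?_⟩
  · ext T
    show (c 1 T).1 = T.1
    rw [hc1]
    rfl
  · intro g h
    ext T
    show (c (g * h) T).1 = (c g (c h T)).1
    rw [hcm]
    rfl
  · intro g T
    rfl

theorem exists_alB (S' : SFrob E) (Ga : GalG K S H) : ∃ α : H →* (BB K S S' ≃ₐ[K] BB K S S'),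
    ∀ (g : H) (T : BB K S S'), (α g T).1 = Ga.a g⁻¹ ▷ S'.A ≫ T.1 ≫ Ga.a g ▷ S'.A := by
  refine PMc_act S S' (fun g => Ga.a g ▷ S'.A) ?_ ?_ ?_
  · show Ga.a 1 ▷ S'.A = _
    rw [Ga.a_one, id_whiskerRight]
  · intro g h
    show Ga.a (g * h) ▷ S'.A = Ga.a h ▷ S'.A ≫ Ga.a g ▷ S'.A
    rw [Ga.a_mul, comp_whiskerRight]
  · intro g T hT
    exact hT.conjL Ga g

theorem exists_beB (S : SFrob E) (Ga' : GalG K S' H') : ∃ β : H' →* (BB K S S' ≃ₐ[K] BB K S S'),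
    ∀ (g : H') (T : BB K S S'), (β g T).1 = S.A ◁ Ga'.a g⁻¹ ≫ T.1 ≫ S.A ◁ Ga'.a g := by
  refine PMc_act S S' (fun g => S.A ◁ Ga'.a g) ?_ ?_ ?_
  · show S.A ◁ Ga'.a 1 = _
    rw [Ga'.a_one, MonoidalCategory.whiskerLeft_id]
  · intro g h
    show S.A ◁ Ga'.a (g * h) = S.A ◁ Ga'.a h ≫ S.A ◁ Ga'.a g
    rw [Ga'.a_mul, MonoidalCategory.whiskerLeft_comp]
  · intro g T hT
    exact hT.conjR Ga' g

private theorem PMc_fin (T : S.A ⊗ S'.A ⟶ S.A ⊗ S'.A) (hT : IsBi S S' T) (n : ℕ) (hn : (n : K) ≠ 0) (c : K)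
    (h : (n : K) • (uB S S' ≫ T) = c • uB S S') : ∃ c : K, T = c • 𝟙 _ := by
  refine ⟨(n : K)⁻¹ * c, IsBi.ext hT ((IsBi.id S S').smul _) ?_⟩
  rw [Linear.comp_smul, Category.comp_id, mul_smul, ← h, smul_smul, inv_mul_cancel₀ hn, one_smul]

theorem fix_alB [CharZero K] (Ga : GalG K S H) (Ga' : GalG K S' H') {T : S.A ⊗ S'.A ⟶ S.A ⊗ S'.A}
    (hT : IsBi S S' T) (h : ∀ g, Ga.a g⁻¹ ▷ S'.A ≫ T ≫ Ga.a g ▷ S'.A = T) : ∃ c : K, T = c • 𝟙 _ := by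
  have h1 : ∀ g, uB S S' ≫ Ga.a g ▷ S'.A = uB S S' := by
    intro g
    unfold uB
    rw [MonoidalCategory.tensorHom_def', Category.assoc, Category.assoc, ← comp_whiskerRight, Ga.one]
  have h2 : ∀ g, (uB S S' ≫ T) ≫ Ga.a g ▷ S'.A = uB S S' ≫ T := by
    intro g
    conv_rhs => rw [← h g, reassoc_of% h1 g⁻¹]
    rw [Category.assoc]
  have h3 : (Fintype.card H : K) • (uB S S' ≫ T) = (uB S S' ≫ T) ≫ (S.cn ≫ S.one) ▷ S'.A := by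
    rw [← Ga.sum, sum_whiskerRight, Preadditive.comp_sum, Finset.sum_congr rfl (fun g _ => h2 g),
      Finset.sum_const, Finset.card_univ, Nat.cast_smul_eq_nsmul]
  obtain ⟨c, hc⟩ := Ga'.conn ((uB S S' ≫ T) ≫ S.cn ▷ S'.A ≫ (λ_ S'.A).hom)
  have h4 : (uB S S' ≫ T) ≫ (S.cn ≫ S.one) ▷ S'.A = c • uB S S' := by
    have h5 : (uB S S' ≫ T) ≫ S.cn ▷ S'.A = c • (S'.one ≫ (λ_ S'.A).inv) := by
      rw [← Linear.smul_comp, ← hc]
      simp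
    rw [comp_whiskerRight, ← Category.assoc, h5, Linear.smul_comp]
    congr 1
    unfold uB
    rw [MonoidalCategory.tensorHom_def', Category.assoc, leftUnitor_inv_naturality_assoc]
  exact PMc_fin T hT (Fintype.card H) (Nat.cast_ne_zero.2 Fintype.card_ne_zero) c (h3.trans h4)

theorem fix_beB [CharZero K] (Ga : GalG K S H) (Ga' : GalG K S' H') {T : S.A ⊗ S'.A ⟶ S.A ⊗ S'.A}
    (hT : IsBi S S' T) (h : ∀ g, S.A ◁ Ga'.a g⁻¹ ≫ T ≫ S.A ◁ Ga'.a g = T) : ∃ c : K, T = c • 𝟙 _ := by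
  have h1 : ∀ g, uB S S' ≫ S.A ◁ Ga'.a g = uB S S' := by
    intro g
    unfold uB
    rw [MonoidalCategory.tensorHom_def, Category.assoc, Category.assoc, ← MonoidalCategory.whiskerLeft_comp, Ga'.one]
  have h2 : ∀ g, (uB S S' ≫ T) ≫ S.A ◁ Ga'.a g = uB S S' ≫ T := by
    intro g
    conv_rhs => rw [← h g, reassoc_of% h1 g⁻¹]
    rw [Category.assoc]
  have h3 : (Fintype.card H' : K) • (uB S S' ≫ T) = (uB S S' ≫ T) ≫ S.A ◁ (S'.cn ≫ S'.one) := by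
    rw [← Ga'.sum, whiskerLeft_sum, Preadditive.comp_sum, Finset.sum_congr rfl (fun g _ => h2 g),
      Finset.sum_const, Finset.card_univ, Nat.cast_smul_eq_nsmul]
  obtain ⟨c, hc⟩ := Ga.conn ((uB S S' ≫ T) ≫ S.A ◁ S'.cn ≫ (ρ_ S.A).hom)
  have h4 : (uB S S' ≫ T) ≫ S.A ◁ (S'.cn ≫ S'.one) = c • uB S S' := by
    have h5 : (uB S S' ≫ T) ≫ S.A ◁ S'.cn = c • (S.one ≫ (ρ_ S.A).inv) := by
      rw [← Linear.smul_comp, ← hc]
      simp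
    rw [MonoidalCategory.whiskerLeft_comp, ← Category.assoc, h5, Linear.smul_comp]
    congr 1
    unfold uB
    rw [MonoidalCategory.tensorHom_def, Category.assoc, rightUnitor_inv_naturality_assoc, unitors_inv_equal]
  exact PMc_fin T hT (Fintype.card H') (Nat.cast_ne_zero.2 Fintype.card_ne_zero) c (h3.trans h4)

end Pool.Agent.SFC
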