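import Pool.Agent.SFH.PMb

/-!
# SFH/PMd: the algebra `BB` is semisimple

`IsBi.reg`: averaging.  For `g : A ⊗ A' ⟶ A ⊗ A'` put `avL g = cm ▷ A' ≫ α ≫ A ◁ g ≫ α⁻¹ ≫ mul ▷ A'` and `avR g = A ◁ cm' ≫ α⁻¹ ≫ g ▷ A' ≫ α ≫ A ◁ mul'`.
`avL g` is left linear (`frobL`, `assoc`); if `g` is right linear so is `avL g`; `avR g` is right linear; if `g` is left linear so is `avR g`.
A left linear `T` satisfies `T ≫ cm ▷ A' ≫ α = cm ▷ A' ≫ α ≫ A ◁ T` (`cm = (λ_ A).inv ≫ (one ≫ cm) ▷ A ≫ α ≫ A ◁ mul`, from `frobR`, `one_mul`), so `T ≫ avL g = avL (T ≫ g)`; also `avL (g ≫ T) = avL g ≫ T`, `avL T = T` (`sep`).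
The same for `avR`.  If `T ≫ g ≫ T = T` then `T ≫ avR (avL g) ≫ T = avR (avL (T ≫ g ≫ T)) = T`.  (Compare `Pool/Agent/SFC/AReg.lean`, where this is proved for bimodules over one algebra.)
`semisimple_BB`: `BB` is finite dimensional, so artinian; if `x` is in the Jacobson radical and `x * y * x = x` (`IsBi.reg`) then `1 - y * x` is a unit and `x * (1 - y * x) = 0`, so `x = 0`: `IsArtinianRing.isSemisimpleRing_iff_jacobson` (or `IsSemiprimaryRing..`).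
-/

set_option autoImplicit false

noncomputable section

open CategoryTheory MonoidalCategory
open scoped BigOperators

namespace Pool.Agent.SFC

universe v u w

/-- an object with a left action of `S` and a right action of `S'` -/
private structure PMd_Mod {E : Type u} [Category.{v} E] [MonoidalCategory E] (S S' : SFrob E) (X : E) where
  l : S.A ⊗ X ⟶ X
  r : X ⊗ S'.A ⟶ X
  ll : S.A ◁ l ≫ l = (α_ _ _ _).inv ≫ S.mul ▷ X ≫ l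
  rr : r ▷ S'.A ≫ r = (α_ _ _ _).hom ≫ X ◁ S'.mul ≫ r
  lr : l ▷ S'.A ≫ r = (α_ _ _ _).hom ≫ S.A ◁ r ≫ l
  ul : (λ_ X).inv ≫ S.one ▷ X ≫ l = 𝟙 X
  ur : (ρ_ X).inv ≫ X ◁ S'.one ≫ r = 𝟙 X

section

variable {E : Type u} [Category.{v} E] [MonoidalCategory E] {S S' : SFrob E} {X : E}

private def PMd_D (M : PMd_Mod S S' X) (g : X ⟶ X) : S.A ⊗ X ⟶ X :=
  S.cm ▷ X ≫ (α_ _ _ _).hom ≫ S.A ◁ (M.l ≫ g) ≫ M.l

private def PMd_E (M : PMd_Mod S S' X) (g : X ⟶ X) : X ⊗ S'.A ⟶ X :=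
  X ◁ S'.cm ≫ (α_ _ _ _).inv ≫ (M.r ≫ g) ▷ S'.A ≫ M.r

private def PMd_L (M : PMd_Mod S S' X) (g : X ⟶ X) : X ⟶ X :=
  (λ_ X).inv ≫ S.one ▷ X ≫ PMd_D M g

private def PMd_R (M : PMd_Mod S S' X) (g : X ⟶ X) : X ⟶ X :=
  (ρ_ X).inv ≫ X ◁ S'.one ≫ PMd_E M g

private theorem PMd_cmR (S : SFrob E) :
    S.cm = (λ_ S.A).inv ≫ (S.one ≫ S.cm) ▷ S.A ≫ (α_ _ _ _).hom ≫ S.A ◁ S.mul := by
  rw [comp_whiskerRight, Category.assoc, ← S.frobR, ← Category.assoc (S.one ▷ S.A), S.one_mul,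
    Iso.inv_hom_id_assoc]

private theorem PMd_cmL (S : SFrob E) :
    S.cm = (ρ_ S.A).inv ≫ S.A ◁ (S.one ≫ S.cm) ≫ (α_ _ _ _).inv ≫ S.mul ▷ S.A := by
  rw [MonoidalCategory.whiskerLeft_comp, Category.assoc, ← S.frobL, ← Category.assoc (S.A ◁ S.one), S.mul_one,
    Iso.inv_hom_id_assoc]

private theorem PMd_L1 (M : PMd_Mod S S' X) (g : X ⟶ X) : M.l ≫ PMd_L M g = PMd_D M g := by
  unfold PMd_L PMd_D
  rw [leftUnitor_inv_naturality_assoc, whisker_exchange_assoc, whisker_exchange_assoc]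
  have h1 : (S.A ⊗ S.A) ◁ M.l ≫ (α_ _ _ _).hom ≫ S.A ◁ (M.l ≫ g) =
      (α_ _ _ _).hom ≫ S.A ◁ ((α_ _ _ _).inv ≫ S.mul ▷ X ≫ M.l ≫ g) := by
    rw [← reassoc_of% M.ll]
    simp
  rw [reassoc_of% h1]
  conv_rhs => rw [PMd_cmR S]
  simp

private theorem PMd_L2 (M : PMd_Mod S S' X) (g : X ⟶ X) : S.A ◁ PMd_L M g ≫ M.l = PMd_D M g := by
  have h1 := M.ll
  have h2 : S.A ◁ (S.A ◁ (M.l ≫ g)) ≫ (α_ S.A S.A X).inv ≫ S.mul ▷ X =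
      (α_ _ _ _).inv ≫ S.mul ▷ (S.A ⊗ X) ≫ S.A ◁ (M.l ≫ g) := by
    rw [associator_inv_naturality_right_assoc, whisker_exchange]
  have h3 : S.A ◁ PMd_L M g ≫ M.l = S.A ◁ ((λ_ X).inv ≫ S.one ▷ X ≫ S.cm ▷ X ≫ (α_ _ _ _).hom) ≫
      (S.A ◁ (S.A ◁ (M.l ≫ g)) ≫ S.A ◁ M.l ≫ M.l) := by
    unfold PMd_L PMd_D
    simp
  rw [h3, h1, reassoc_of% h2]
  unfold PMd_D
  conv_rhs => rw [PMd_cmL S]
  simp

private theorem PMd_R1 (M : PMd_Mod S S' X) (g : X ⟶ X) : M.r ≫ PMd_R M g = PMd_E M g := by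
  unfold PMd_R PMd_E
  rw [rightUnitor_inv_naturality_assoc, ← whisker_exchange_assoc, ← whisker_exchange_assoc]
  have h1 : M.r ▷ (S'.A ⊗ S'.A) ≫ (α_ _ _ _).inv ≫ (M.r ≫ g) ▷ S'.A =
      (α_ _ _ _).inv ≫ ((α_ _ _ _).hom ≫ X ◁ S'.mul ≫ M.r ≫ g) ▷ S'.A := by
    rw [← reassoc_of% M.rr]
    simp
  rw [reassoc_of% h1]
  conv_rhs => rw [PMd_cmL S']
  simp

private theorem PMd_R2 (M : PMd_Mod S S' X) (g : X ⟶ X) : PMd_R M g ▷ S'.A ≫ M.r = PMd_E M g := by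
  have h1 := M.rr
  have h2 : ((M.r ≫ g) ▷ S'.A) ▷ S'.A ≫ (α_ X S'.A S'.A).hom ≫ X ◁ S'.mul =
      (α_ _ _ _).hom ≫ (X ⊗ S'.A) ◁ S'.mul ≫ (M.r ≫ g) ▷ S'.A := by
    rw [associator_naturality_left_assoc, ← whisker_exchange]
  have h3 : PMd_R M g ▷ S'.A ≫ M.r = ((ρ_ X).inv ≫ X ◁ S'.one ≫ X ◁ S'.cm ≫ (α_ _ _ _).inv) ▷ S'.A ≫
      (((M.r ≫ g) ▷ S'.A) ▷ S'.A ≫ M.r ▷ S'.A ≫ M.r) := by
    unfold PMd_R PMd_E
    simp
  rw [h3, h1, reassoc_of% h2]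
  unfold PMd_E
  conv_rhs => rw [PMd_cmR S']
  simp

private theorem PMd_lr' (M : PMd_Mod S S' X) : S.A ◁ M.r ≫ M.l = (α_ _ _ _).inv ≫ M.l ▷ S'.A ≫ M.r := by
  rw [M.lr]; simp

/-- left linearity is kept by the right average -/
private theorem PMd_RL (M : PMd_Mod S S' X) (g : X ⟶ X) (hg : S.A ◁ g ≫ M.l = M.l ≫ g) :
    S.A ◁ PMd_R M g ≫ M.l = M.l ≫ PMd_R M g := by
  have h1 : S.A ◁ (M.r ≫ g) ≫ M.l = (α_ _ _ _).inv ≫ M.l ▷ S'.A ≫ M.r ≫ g := by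
    rw [MonoidalCategory.whiskerLeft_comp, Category.assoc, hg, reassoc_of% (PMd_lr' M)]
  have h2 : S.A ◁ ((M.r ≫ g) ▷ S'.A) ≫ S.A ◁ M.r ≫ M.l =
      (α_ _ _ _).inv ≫ (S.A ◁ (M.r ≫ g) ≫ M.l) ▷ S'.A ≫ M.r := by
    rw [PMd_lr' M, associator_inv_naturality_middle_assoc, comp_whiskerRight_assoc]
  have h3 : S.A ◁ PMd_R M g ≫ M.l =
      S.A ◁ ((ρ_ X).inv ≫ X ◁ S'.one ≫ X ◁ S'.cm ≫ (α_ _ _ _).inv) ≫
        (S.A ◁ ((M.r ≫ g) ▷ S'.A) ≫ S.A ◁ M.r ≫ M.l) := by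
    unfold PMd_R PMd_E
    simp
  rw [h3, h2, h1]
  unfold PMd_R PMd_E
  rw [rightUnitor_inv_naturality_assoc, ← whisker_exchange_assoc, ← whisker_exchange_assoc]
  simp

private theorem PMd_Lpre (M : PMd_Mod S S' X) (f g : X ⟶ X) (hf : M.l ≫ f = S.A ◁ f ≫ M.l) :
    PMd_L M (f ≫ g) = f ≫ PMd_L M g := by
  unfold PMd_L PMd_D
  rw [leftUnitor_inv_naturality_assoc, whisker_exchange_assoc, whisker_exchange_assoc, reassoc_of% hf]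
  simp

private theorem PMd_Rpre (M : PMd_Mod S S' X) (f g : X ⟶ X) (hf : M.r ≫ f = f ▷ S'.A ≫ M.r) :
    PMd_R M (f ≫ g) = f ≫ PMd_R M g := by
  unfold PMd_R PMd_E
  rw [rightUnitor_inv_naturality_assoc, ← whisker_exchange_assoc, ← whisker_exchange_assoc, reassoc_of% hf]
  simp

private theorem PMd_Lpost (M : PMd_Mod S S' X) (f g : X ⟶ X) (hf : M.l ≫ f = S.A ◁ f ≫ M.l) :
    PMd_L M (g ≫ f) = PMd_L M g ≫ f := by
  unfold PMd_L PMd_D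
  simp only [Category.assoc, MonoidalCategory.whiskerLeft_comp, hf]

private theorem PMd_Rpost (M : PMd_Mod S S' X) (f g : X ⟶ X) (hf : M.r ≫ f = f ▷ S'.A ≫ M.r) :
    PMd_R M (g ≫ f) = PMd_R M g ≫ f := by
  unfold PMd_R PMd_E
  simp only [Category.assoc, comp_whiskerRight, hf]

private theorem PMd_Lid (M : PMd_Mod S S' X) (f : X ⟶ X) (hf : M.l ≫ f = S.A ◁ f ≫ M.l) :
    PMd_L M f = f := by
  have h1 : S.A ◁ (M.l ≫ f) ≫ M.l = (α_ _ _ _).inv ≫ S.mul ▷ X ≫ M.l ≫ f := by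
    rw [MonoidalCategory.whiskerLeft_comp, Category.assoc, ← hf, reassoc_of% M.ll]
  unfold PMd_L PMd_D
  have h3 : S.cm ▷ X ≫ S.mul ▷ X = 𝟙 _ := by rw [← comp_whiskerRight, S.sep, id_whiskerRight]
  rw [h1, Iso.hom_inv_id_assoc, reassoc_of% h3, reassoc_of% M.ul]

private theorem PMd_Rid (M : PMd_Mod S S' X) (f : X ⟶ X) (hf : M.r ≫ f = f ▷ S'.A ≫ M.r) :
    PMd_R M f = f := by
  have h1 : (M.r ≫ f) ▷ S'.A ≫ M.r = (α_ _ _ _).hom ≫ X ◁ S'.mul ≫ M.r ≫ f := by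
    rw [comp_whiskerRight, Category.assoc, ← hf, reassoc_of% M.rr]
  unfold PMd_R PMd_E
  have h3 : X ◁ S'.cm ≫ X ◁ S'.mul = 𝟙 _ := by
    rw [← MonoidalCategory.whiskerLeft_comp, S'.sep, MonoidalCategory.whiskerLeft_id]
  rw [h1, Iso.inv_hom_id_assoc, reassoc_of% h3, reassoc_of% M.ur]

private theorem PMd_reg (M : PMd_Mod S S' X) (f g : X ⟶ X) (hg : f ≫ g ≫ f = f)
    (hl : M.l ≫ f = S.A ◁ f ≫ M.l) (hr : M.r ≫ f = f ▷ S'.A ≫ M.r) :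
    ∃ U : X ⟶ X, M.l ≫ U = S.A ◁ U ≫ M.l ∧ M.r ≫ U = U ▷ S'.A ≫ M.r ∧ f ≫ U ≫ f = f := by
  have hl' : S.A ◁ PMd_L M g ≫ M.l = M.l ≫ PMd_L M g := by rw [PMd_L1, PMd_L2]
  refine ⟨PMd_R M (PMd_L M g), (PMd_RL M _ hl').symm, by rw [PMd_R1, PMd_R2], ?_⟩
  rw [← PMd_Rpost M _ _ hr, ← PMd_Rpre M _ _ hr, ← PMd_Lpost M _ _ hl, ← PMd_Lpre M _ _ hl, hg, PMd_Lid M _ hl,
    PMd_Rid M _ hr]

private def PMd_M (S S' : SFrob E) : PMd_Mod S S' (S.A ⊗ S'.A) where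
  l := (α_ S.A S.A S'.A).inv ≫ S.mul ▷ S'.A
  r := (α_ S.A S'.A S'.A).hom ≫ S.A ◁ S'.mul
  ll := by
    have h := S.assoc
    have h1 : S.A ◁ S.mul ≫ S.mul = (α_ _ _ _).inv ≫ S.mul ▷ S.A ≫ S.mul := by
      rw [S.assoc, Iso.inv_hom_id_assoc]
    have h2 : S.A ◁ (S.mul ▷ S'.A) ≫ (α_ _ _ _).inv ≫ S.mul ▷ S'.A =
        (α_ _ _ _).inv ≫ ((α_ _ _ _).inv ≫ S.mul ▷ S.A ≫ S.mul) ▷ S'.A := by
      rw [← h1]; simp
    rw [MonoidalCategory.whiskerLeft_comp, Category.assoc, h2]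
    simp
  rr := by
    have h1 : (S.A ◁ S'.mul) ▷ S'.A ≫ (α_ _ _ _).hom ≫ S.A ◁ S'.mul =
        (α_ _ _ _).hom ≫ S.A ◁ ((α_ _ _ _).hom ≫ S'.A ◁ S'.mul ≫ S'.mul) := by
      rw [← S'.assoc]; simp
    rw [comp_whiskerRight, Category.assoc, h1]
    simp
  lr := by
    rw [comp_whiskerRight, MonoidalCategory.whiskerLeft_comp, Category.assoc, Category.assoc,
      associator_naturality_left_assoc, ← whisker_exchange, associator_inv_naturality_right_assoc]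
    simp
  ul := by
    rw [associator_inv_naturality_left_assoc, ← comp_whiskerRight, S.one_mul]
    simp
  ur := by
    rw [associator_naturality_right_assoc, ← MonoidalCategory.whiskerLeft_comp, S'.mul_one]
    simp

end

theorem IsBi.reg {E : Type u} [Category.{v} E] [MonoidalCategory E] {S S' : SFrob E}
    (hreg : ∀ f : S.A ⊗ S'.A ⟶ S.A ⊗ S'.A, ∃ g : S.A ⊗ S'.A ⟶ S.A ⊗ S'.A, f ≫ g ≫ f = f)
    {T : S.A ⊗ S'.A ⟶ S.A ⊗ S'.A} (hT : IsBi S S' T) : ∃ U, IsBi S S' U ∧ T ≫ U ≫ T = T := by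
  obtain ⟨g, hg⟩ := hreg T
  obtain ⟨U, h1, h2, h3⟩ := PMd_reg (PMd_M S S') T g hg
    (by
      change ((α_ S.A S.A S'.A).inv ≫ S.mul ▷ S'.A) ≫ T = S.A ◁ T ≫ (α_ S.A S.A S'.A).inv ≫ S.mul ▷ S'.A
      rw [Category.assoc, hT.l, Iso.inv_hom_id_assoc])
    (by
      change ((α_ S.A S'.A S'.A).hom ≫ S.A ◁ S'.mul) ≫ T = T ▷ S'.A ≫ (α_ S.A S'.A S'.A).hom ≫ S.A ◁ S'.mul
      rw [Category.assoc, hT.r, Iso.hom_inv_id_assoc])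
  change ((α_ S.A S.A S'.A).inv ≫ S.mul ▷ S'.A) ≫ U = S.A ◁ U ≫ (α_ S.A S.A S'.A).inv ≫ S.mul ▷ S'.A at h1
  change ((α_ S.A S'.A S'.A).hom ≫ S.A ◁ S'.mul) ≫ U = U ▷ S'.A ≫ (α_ S.A S'.A S'.A).hom ≫ S.A ◁ S'.mul at h2
  refine ⟨U, ⟨?_, ?_⟩, h3⟩
  · rw [← h1, Category.assoc, Iso.hom_inv_id_assoc]
  · rw [← h2, Category.assoc, Iso.inv_hom_id_assoc]

private theorem PMd_ring {R : Type u} [Ring R] {x y z : R} (h2 : x * y * x = x)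
    (hz : z * -y * x + z - 1 = 0) : x = 0 := by
  have h3 : z * (1 - y * x) = 1 := by
    have h4 : z * (1 - y * x) = z * -y * x + z := by
      rw [mul_sub, mul_one, mul_neg, neg_mul, mul_assoc]; abel
    rw [h4]
    exact sub_eq_zero.1 hz
  have h5 : (1 - y * x) * (y * x) = 0 := by
    rw [sub_mul, one_mul, mul_assoc, ← mul_assoc x y x, h2, sub_self]
  have h6 : y * x = 0 := by
    calc y * x = z * (1 - y * x) * (y * x) := by rw [h3, one_mul]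
      _ = 0 := by rw [mul_assoc, h5, mul_zero]
  rw [← h2, mul_assoc, h6, mul_zero]

theorem semisimple_BB {K : Type w} [Field K] {E : Type u} [Category.{v} E] [Preadditive E] [Linear K E]
    [MonoidalCategory E] [MonoidalPreadditive E] [MonoidalLinear K E] {S S' : SFrob E}
    [FiniteDimensional K (BB K S S')]
    (hreg : ∀ f : S.A ⊗ S'.A ⟶ S.A ⊗ S'.A, ∃ g : S.A ⊗ S'.A ⟶ S.A ⊗ S'.A, f ≫ g ≫ f = f) :
    IsSemisimpleRing (BB K S S') := by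
  have hart : IsArtinianRing (BB K S S') := IsArtinianRing.of_finite K _
  rw [IsArtinianRing.isSemisimpleRing_iff_jacobson, eq_bot_iff, ← Ideal.jacobson_bot]
  intro x hx
  obtain ⟨U, hU, h⟩ := IsBi.reg hreg (T := (x : End (S.A ⊗ S'.A))) x.2
  have h2 : x * (⟨U, hU⟩ : BB K S S') * x = x := by
    apply Subtype.ext
    change (x : End (S.A ⊗ S'.A)) ≫ (show End (S.A ⊗ S'.A) from U) ≫ (x : End (S.A ⊗ S'.A)) = _
    exact h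
  generalize (⟨U, hU⟩ : BB K S S') = y at h2
  obtain ⟨z, hz⟩ := Ideal.mem_jacobson_iff.1 hx (-y)
  rw [Ideal.mem_bot] at hz
  rw [Ideal.mem_bot]
  exact PMd_ring h2 hz

end Pool.Agent.SFC
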