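import Pool.Agent.SFH.PMx
import Pool.Agent.SFH.PMb

/-!
# SFH/PMe: an algebra map `A' ⟶ A` from an idempotent of `BB`

`e : A ⊗ A' ⟶ A ⊗ A'` is a bimodule map, `e ≫ e = e ≠ 0`, `T ≫ e` is a multiple of `e` for every bimodule map `T`; `i : A' ≅ A` as objects.
`P g := A ◁ i.hom ≫ Ga.pmP g : A ⊗ A' ⟶ A`, `J g := Ga.pmJ g ≫ A ◁ i.inv : A ⟶ A ⊗ A'`; both are left linear (`p_lin`, `j_lin`), `∑ g, P g ≫ J g = 𝟙` (`jp_sum`).
`u := uB S S' ≫ e : 𝟙 ⟶ A ⊗ A'`, `R := (ρ_ A).inv ≫ A ◁ u ≫ (α_ A A A').inv ≫ mul ▷ A' : A ⟶ A ⊗ A'` (`x ↦ x u`), left linear, `one ≫ R = u`.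
(1) `J g ≫ e = c g • R`: both are left linear, so it is enough to compose with `one`; `one ≫ J g = uB ≫ T` with `T` a bimodule map (`exists_isBi`), `one ≫ J g ≫ e = uB ≫ T ≫ e = c • uB ≫ e = c • u`.
(2) `e = e ≫ e = ∑ g, (e ≫ P g) ≫ (J g ≫ e) = Q ≫ R`, `Q := ∑ g, c g • (e ≫ P g) : A ⊗ A' ⟶ A`.
`ψ := (λ_ A').inv ≫ one ▷ A' ≫ Q`; so `(λ_ A').inv ≫ one ▷ A' ≫ e = ψ ≫ R` (3) (`e (1 ⊗ a') = ψ a' u`).
(4) `x ≫ R = y ≫ R` implies `x = y` (`x y : Z ⟶ A`): `R ≫ P g : A ⟶ A` is left linear, so it is `d g • 𝟙` (`lin_end`).  If all `d g` were zero then `u = one ≫ R = ∑ g, one ≫ R ≫ P g ≫ J g = 0`, and `e = 0` by `IsBi.ext` (`0` is a bimodule map); so some `d g ≠ 0`.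
(5) `one' ≫ ψ ≫ R = uB ≫ e = u = one ≫ R` gives `one' ≫ ψ = one`.
(6) `e` is right linear: `e (1 ⊗ a' b') = e (1 ⊗ a') b' = ψ(a') u b' = ψ(a') e (1 ⊗ b') = ψ(a') ψ(b') u` (`e (x ⊗ b') = x e (1 ⊗ b')`), so `mul' ≫ ψ ≫ R = (ψ ⊗ ψ) ≫ mul ≫ R`, and (4).
-/

set_option autoImplicit false

noncomputable section

open CategoryTheory MonoidalCategory
open scoped BigOperators

namespace Pool.Agent.SFC

universe v u w

section

variable {E : Type u} [Category.{v} E] [MonoidalCategory E] {S S' : SFrob E}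

/-- linear maps of left modules -/
private def PMe_Lin (S : SFrob E) {X Y : E} (a : S.A ⊗ X ⟶ X) (b : S.A ⊗ Y ⟶ Y) (f : X ⟶ Y) : Prop :=
  S.A ◁ f ≫ b = a ≫ f

/-- the free module -/
private def PMe_fr (S : SFrob E) (X : E) : S.A ⊗ (S.A ⊗ X) ⟶ S.A ⊗ X := (α_ _ _ _).inv ≫ S.mul ▷ X

private theorem PMe_comp {X Y Z : E} {a : S.A ⊗ X ⟶ X} {b : S.A ⊗ Y ⟶ Y} {c : S.A ⊗ Z ⟶ Z} {f : X ⟶ Y} {g : Y ⟶ Z}
    (hf : PMe_Lin S a b f) (hg : PMe_Lin S b c g) : PMe_Lin S a c (f ≫ g) := by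
  unfold PMe_Lin at *
  rw [MonoidalCategory.whiskerLeft_comp, Category.assoc, hg, reassoc_of% hf]

private theorem PMe_wl {X Y : E} (f : X ⟶ Y) : PMe_Lin S (PMe_fr S X) (PMe_fr S Y) (S.A ◁ f) := by
  unfold PMe_Lin PMe_fr
  rw [associator_inv_naturality_right_assoc, whisker_exchange, Category.assoc]

private theorem PMe_ext {Y : E} {b : S.A ⊗ Y ⟶ Y} {f g : S.A ⟶ Y} (hf : PMe_Lin S S.mul b f)
    (hg : PMe_Lin S S.mul b g) (h : S.one ≫ f = S.one ≫ g) : f = g := by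
  have key : ∀ {f : S.A ⟶ Y}, PMe_Lin S S.mul b f → f = (ρ_ _).inv ≫ S.A ◁ (S.one ≫ f) ≫ b := by
    intro f hf
    unfold PMe_Lin at hf
    have h1 := S.mul_one
    rw [MonoidalCategory.whiskerLeft_comp, Category.assoc, hf, reassoc_of% h1, Iso.inv_hom_id_assoc]
  rw [key hf, key hg, h]

/-- `x ↦ x ⊗ 1` -/
private def PMe_G (S S' : SFrob E) : S.A ⟶ S.A ⊗ S'.A := (ρ_ S.A).inv ≫ S.A ◁ S'.one

private theorem PMe_G_lin : PMe_Lin S S.mul (PMe_fr S S'.A) (PMe_G S S') := by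
  unfold PMe_Lin PMe_fr PMe_G
  rw [MonoidalCategory.whiskerLeft_comp, Category.assoc, associator_inv_naturality_right_assoc, whisker_exchange,
    rightUnitor_inv_naturality_assoc]
  simp

private theorem PMe_one_G : S.one ≫ PMe_G S S' = uB S S' := by
  unfold PMe_G uB
  rw [rightUnitor_inv_naturality_assoc, MonoidalCategory.tensorHom_def, unitors_inv_equal]

private theorem PMe_G_mul : PMe_G S S' ▷ S'.A ≫ (α_ _ _ _).hom ≫ S.A ◁ S'.mul = 𝟙 _ := by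
  unfold PMe_G
  rw [comp_whiskerRight, Category.assoc, associator_naturality_middle_assoc, ← MonoidalCategory.whiskerLeft_comp,
    S'.one_mul]
  simp

/-- `x ↦ 1 ⊗ x` -/
private def PMe_s (S S' : SFrob E) : S'.A ⟶ S.A ⊗ S'.A := (λ_ S'.A).inv ≫ S.one ▷ S'.A

private theorem PMe_one_s : S'.one ≫ PMe_s S S' = uB S S' := by
  unfold PMe_s uB
  rw [leftUnitor_inv_naturality_assoc, MonoidalCategory.tensorHom_def']

private theorem PMe_mul_s :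
    S'.mul ≫ PMe_s S S' = PMe_s S S' ▷ S'.A ≫ (α_ _ _ _).hom ≫ S.A ◁ S'.mul := by
  unfold PMe_s
  rw [leftUnitor_inv_naturality_assoc, whisker_exchange]
  simp

private theorem PMe_s_mul : S.A ◁ PMe_s S S' ≫ PMe_fr S S'.A = 𝟙 _ := by
  unfold PMe_s PMe_fr
  rw [MonoidalCategory.whiskerLeft_comp, Category.assoc, associator_inv_naturality_middle_assoc,
    ← comp_whiskerRight, S.mul_one]
  simp

end

variable {K : Type w} [Field K] {E : Type u} [Category.{v} E] [Preadditive E] [Linear K E] [MonoidalCategory E]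
  [MonoidalPreadditive E] [MonoidalLinear K E] {S S' : SFrob E} {H : Type} [Group H] [Fintype H]

theorem exists_psi (Ga : GalG K S H) (i : S'.A ≅ S.A) {e : S.A ⊗ S'.A ⟶ S.A ⊗ S'.A} (he : IsBi S S' e)
    (he0 : e ≠ 0) (hee : e ≫ e = e) (h : ∀ T, IsBi S S' T → ∃ c : K, T ≫ e = c • e) :
    ∃ ψ : S'.A ⟶ S.A, S'.one ≫ ψ = S.one ∧ S'.mul ≫ ψ = (ψ ⊗ₘ ψ) ≫ S.mul := by
  classical
  have hel : PMe_Lin S (PMe_fr S S'.A) (PMe_fr S S'.A) e := by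
    unfold PMe_Lin PMe_fr
    rw [Category.assoc, he.l, Iso.inv_hom_id_assoc]
  have hR : PMe_Lin S S.mul (PMe_fr S S'.A) (PMe_G S S' ≫ e) := PMe_comp PMe_G_lin hel
  have hJ : ∀ g, PMe_Lin S S.mul (PMe_fr S S'.A) (Ga.pmJ g ≫ S.A ◁ i.inv) := fun g =>
    PMe_comp (b := PMe_fr S S.A) (Ga.j_lin g).symm (PMe_wl i.inv)
  have hP : ∀ g, PMe_Lin S (PMe_fr S S'.A) S.mul (S.A ◁ i.hom ≫ Ga.pmP g) := fun g =>
    PMe_comp (b := PMe_fr S S.A) (PMe_wl i.hom) (by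
      unfold PMe_Lin PMe_fr
      rw [Ga.p_lin, Category.assoc])
  have hsum : ∑ g, (S.A ◁ i.hom ≫ Ga.pmP g) ≫ (Ga.pmJ g ≫ S.A ◁ i.inv) = 𝟙 (S.A ⊗ S'.A) := by
    have h1 : ∀ g, (S.A ◁ i.hom ≫ Ga.pmP g) ≫ (Ga.pmJ g ≫ S.A ◁ i.inv) =
        S.A ◁ i.hom ≫ (Ga.pmP g ≫ Ga.pmJ g) ≫ S.A ◁ i.inv := fun g => by
      simp only [Category.assoc]
    simp only [h1]
    rw [← Preadditive.comp_sum, ← Preadditive.sum_comp, Ga.jp_sum, Category.id_comp,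
      ← MonoidalCategory.whiskerLeft_comp, Iso.hom_inv_id, MonoidalCategory.whiskerLeft_id]
  have h1 : ∀ g, ∃ c : K, (Ga.pmJ g ≫ S.A ◁ i.inv) ≫ e = c • (PMe_G S S' ≫ e) := by
    intro g
    obtain ⟨T, hT, hT1⟩ := exists_isBi S S' (S.one ≫ Ga.pmJ g ≫ S.A ◁ i.inv)
    obtain ⟨c, hc⟩ := h T hT
    refine ⟨c, PMe_ext (PMe_comp (hJ g) hel) ?_ ?_⟩
    · unfold PMe_Lin at hR ⊢
      rw [MonoidalLinear.whiskerLeft_smul, Linear.smul_comp, hR, Linear.comp_smul]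
    · rw [← Category.assoc, ← hT1, Category.assoc, hc, Linear.comp_smul, Linear.comp_smul, ← Category.assoc S.one,
        PMe_one_G]
  choose c hc using h1
  have h2 : e = (∑ g, c g • (e ≫ S.A ◁ i.hom ≫ Ga.pmP g)) ≫ (PMe_G S S' ≫ e) := by
    calc e = e ≫ (∑ g, (S.A ◁ i.hom ≫ Ga.pmP g) ≫ (Ga.pmJ g ≫ S.A ◁ i.inv)) ≫ e := by
          rw [hsum, Category.id_comp, hee]
      _ = _ := by
          rw [Preadditive.sum_comp, Preadditive.comp_sum, Preadditive.sum_comp]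
          refine Finset.sum_congr rfl fun g _ => ?_
          rw [Category.assoc (S.A ◁ i.hom ≫ Ga.pmP g), hc g, Linear.comp_smul, Linear.comp_smul, Linear.smul_comp,
            Category.assoc e]
  have hd : ∀ g, ∃ d : K, (PMe_G S S' ≫ e) ≫ (S.A ◁ i.hom ≫ Ga.pmP g) = d • 𝟙 S.A := fun g =>
    Ga.lin_end _ (PMe_comp hR (hP g))
  choose d hd using hd
  have hd0 : ∃ g, d g ≠ 0 := by
    by_contra hcon
    push Not at hcon
    apply he0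
    have h3 : PMe_G S S' ≫ e = 0 := by
      calc PMe_G S S' ≫ e = (PMe_G S S' ≫ e) ≫ ∑ g, (S.A ◁ i.hom ≫ Ga.pmP g) ≫ (Ga.pmJ g ≫ S.A ◁ i.inv) := by
            rw [hsum, Category.comp_id]
        _ = 0 := by
            rw [Preadditive.comp_sum]
            refine Finset.sum_eq_zero fun g _ => ?_
            rw [← Category.assoc, hd g, hcon g, zero_smul, Limits.zero_comp]
    rw [h2, h3, Limits.comp_zero]
  obtain ⟨g0, hg0⟩ := hd0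
  have hmono : ∀ {Z : E} (x y : Z ⟶ S.A), x ≫ PMe_G S S' ≫ e = y ≫ PMe_G S S' ≫ e → x = y := by
    intro Z x y hxy
    have h3 : ∀ z : Z ⟶ S.A, z = (d g0)⁻¹ • ((z ≫ PMe_G S S' ≫ e) ≫ (S.A ◁ i.hom ≫ Ga.pmP g0)) := by
      intro z
      rw [Category.assoc z, hd g0, Linear.comp_smul, Category.comp_id, smul_smul, inv_mul_cancel₀ hg0, one_smul]
    rw [h3 x, h3 y, hxy]
  have hpsi : PMe_s S S' ≫ e = (PMe_s S S' ≫ ∑ g, c g • (e ≫ S.A ◁ i.hom ≫ Ga.pmP g)) ≫ (PMe_G S S' ≫ e) := by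
    rw [Category.assoc, ← h2]
  generalize PMe_s S S' ≫ ∑ g, c g • (e ≫ S.A ◁ i.hom ≫ Ga.pmP g) = ψ at hpsi
  refine ⟨ψ, hmono _ _ ?_, hmono _ _ ?_⟩
  · rw [Category.assoc, ← hpsi, ← Category.assoc, PMe_one_s, ← Category.assoc, PMe_one_G]
  · have h5 : e ▷ S'.A ≫ (α_ _ _ _).hom ≫ S.A ◁ S'.mul = (α_ _ _ _).hom ≫ S.A ◁ S'.mul ≫ e := by
      rw [he.r, Iso.hom_inv_id_assoc]
    have h6 := PMe_G_mul (S := S) (S' := S')
    have h7 := PMe_s_mul (S := S) (S' := S')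
    have h8 : (S'.mul ≫ ψ) ≫ PMe_G S S' ≫ e = ψ ▷ S'.A ≫ e := by
      rw [Category.assoc, ← hpsi, ← Category.assoc, PMe_mul_s]
      simp only [Category.assoc]
      rw [← h5, ← comp_whiskerRight_assoc, hpsi, comp_whiskerRight, comp_whiskerRight, Category.assoc, Category.assoc,
        h5, reassoc_of% h6]
    have h9 : ((ψ ⊗ₘ ψ) ≫ S.mul) ≫ PMe_G S S' ≫ e = ψ ▷ S'.A ≫ e := by
      have h10 : S.mul ≫ (PMe_G S S' ≫ e) = S.A ◁ (PMe_G S S' ≫ e) ≫ PMe_fr S S'.A := hR.symm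
      have h11 : S.A ◁ e ≫ PMe_fr S S'.A = PMe_fr S S'.A ≫ e := hel
      rw [Category.assoc, h10, MonoidalCategory.tensorHom_def, Category.assoc,
        ← MonoidalCategory.whiskerLeft_comp_assoc, ← hpsi, MonoidalCategory.whiskerLeft_comp, Category.assoc, h11,
        reassoc_of% h7]
    rw [h8, h9]

end Pool.Agent.SFC
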