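import Pool.Agent.SFH.PMx
import Pool.Agent.SFH.PMb

/-!
# SFH/PMy: the dimension of `BB`

`finrank_BB`: `BB ≃ (𝟙 ⟶ A ⊗ A')` (`T ↦ uB ≫ T`, `IsBi.ext`, `exists_isBi`) `≃ (𝟙 ⟶ A ⊗ A)` (`i`) `≃ (H → K)`: `c ↦ ∑ g, c g • S.one ≫ Ga.pmJ g` is injective (compose with `pmP g`: `c g • one`, `one ≠ 0`) and surjective
(`t = ∑ g, (t ≫ pmP g) ≫ pmJ g`, `t ≫ pmP g = c g • one` by `Ga.conn`).
-/

set_option autoImplicit false

noncomputable section

open CategoryTheory MonoidalCategory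
open scoped BigOperators

namespace Pool.Agent.SFC

universe v u w

variable {K : Type w} [Field K] {E : Type u} [Category.{v} E] [Preadditive E] [Linear K E] [MonoidalCategory E]
  [MonoidalPreadditive E] [MonoidalLinear K E] {S S' : SFrob E} {H : Type} [Group H] [Fintype H]

/-- `T ↦ uB ≫ T` -/
private def PMy_phi (K : Type w) [Field K] {E : Type u} [Category.{v} E] [Preadditive E] [Linear K E]
    [MonoidalCategory E] [MonoidalPreadditive E] [MonoidalLinear K E] (S S' : SFrob E) :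
    BB K S S' →ₗ[K] (𝟙_ E ⟶ S.A ⊗ S'.A) where
  toFun T := uB S S' ≫ (T.1 : S.A ⊗ S'.A ⟶ S.A ⊗ S'.A)
  map_add' _ _ := Preadditive.comp_add _ _ _ _ _ _
  map_smul' _ _ := Linear.comp_smul _ _ _ _ _ _

private theorem PMy_bij (S S' : SFrob E) : Function.Bijective (PMy_phi K S S') := by
  constructor
  · intro T U h
    exact Subtype.ext (IsBi.ext ((mem_BB T.1).1 T.2) ((mem_BB U.1).1 U.2) h)
  · intro t
    obtain ⟨T, hT, ht⟩ := exists_isBi S S' t
    exact ⟨⟨T, hT⟩, ht⟩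

/-- `t ↦ t ≫ A ◁ i⁻¹` -/
private def PMy_iso (K : Type w) [Field K] {E : Type u} [Category.{v} E] [Preadditive E] [Linear K E]
    [MonoidalCategory E] {S S' : SFrob E} (i : S.A ≅ S'.A) :
    (𝟙_ E ⟶ S.A ⊗ S'.A) ≃ₗ[K] (𝟙_ E ⟶ S.A ⊗ S.A) where
  toFun t := t ≫ S.A ◁ i.inv
  invFun t := t ≫ S.A ◁ i.hom
  map_add' f g := Preadditive.add_comp _ _ _ _ _ _
  map_smul' c f := Linear.smul_comp _ _ _ _ _ _
  left_inv t := by simp
  right_inv t := by simp

/-- `c ↦ ∑ g, c g • one ≫ pmJ g` -/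
private def PMy_c (Ga : GalG K S H) : (H → K) →ₗ[K] (𝟙_ E ⟶ S.A ⊗ S.A) where
  toFun c := ∑ g, c g • (S.one ≫ Ga.pmJ g)
  map_add' c c' := by
    rw [← Finset.sum_add_distrib]
    refine Finset.sum_congr rfl fun g _ => ?_
    rw [Pi.add_apply, add_smul]
  map_smul' r c := by
    rw [RingHom.id_apply, Finset.smul_sum]
    refine Finset.sum_congr rfl fun g _ => ?_
    rw [Pi.smul_apply, smul_eq_mul, mul_smul]

private theorem PMy_surj (Ga : GalG K S H) : Function.Surjective (PMy_c Ga) := by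
  intro t
  choose c hc using fun g => Ga.conn (t ≫ Ga.pmP g)
  refine ⟨c, ?_⟩
  have h1 : t = ∑ g, (t ≫ Ga.pmP g) ≫ Ga.pmJ g := by
    conv_lhs => rw [← Category.comp_id t, ← Ga.jp_sum, Preadditive.comp_sum]
    refine Finset.sum_congr rfl fun g _ => (Category.assoc _ _ _).symm
  conv_rhs => rw [h1]
  show ∑ g, c g • (S.one ≫ Ga.pmJ g) = _
  refine Finset.sum_congr rfl fun g _ => ?_
  rw [hc g, Linear.smul_comp]

private theorem PMy_inj [CharZero K] (Ga : GalG K S H) (h1 : 𝟙 (𝟙_ E) ≠ 0) : Function.Injective (PMy_c Ga) := by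
  rw [injective_iff_map_eq_zero]
  intro c hc
  have hc' : ∑ g, c g • (S.one ≫ Ga.pmJ g) = 0 := hc
  funext k
  have h2 : (∑ g, c g • (S.one ≫ Ga.pmJ g)) ≫ Ga.pmP k = 0 := by rw [hc', Limits.zero_comp]
  rw [Preadditive.sum_comp, Finset.sum_eq_single k] at h2
  · rw [Linear.smul_comp, Category.assoc, Ga.jp_self, Category.comp_id] at h2
    rcases smul_eq_zero.1 h2 with h | h
    · exact h
    · exact absurd h (Ga.one_ne h1)
  · intro g _ hg
    rw [Linear.smul_comp, Category.assoc, Ga.jp_ne g k hg, Limits.comp_zero, smul_zero]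
  · intro h
    exact absurd (Finset.mem_univ k) h

theorem finite_BB (Ga : GalG K S H) (i : S.A ≅ S'.A) : FiniteDimensional K (BB K S S') := by
  have h1 : FiniteDimensional K (𝟙_ E ⟶ S.A ⊗ S.A) := Module.Finite.of_surjective (PMy_c Ga) (PMy_surj Ga)
  exact Module.Finite.equiv ((LinearEquiv.ofBijective _ (PMy_bij (K := K) S S')).trans (PMy_iso K i)).symm

theorem finrank_BB [CharZero K] (Ga : GalG K S H) (h1 : 𝟙 (𝟙_ E) ≠ 0) (i : S.A ≅ S'.A) :
    Module.finrank K (BB K S S') = Nat.card H := by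
  rw [LinearEquiv.finrank_eq ((LinearEquiv.ofBijective _ (PMy_bij (K := K) S S')).trans (PMy_iso K i)),
    ← LinearEquiv.finrank_eq (LinearEquiv.ofBijective (PMy_c Ga) ⟨PMy_inj Ga h1, PMy_surj Ga⟩),
    Module.finrank_fintype_fun_eq_card, Nat.card_eq_fintype_card]

end Pool.Agent.SFC
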