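import Pool.Agent.SFH.PBc
import Pool.Agent.SFH.PMy
import Pool.Agent.SFH.PMc
import Pool.Agent.SFH.PMd
import Pool.Agent.SFH.PMe
import Pool.Agent.SFH.PMf

/-!
# SFH/PMg: Galois algebras with a simple group are unique (for a given object)

`B := BB K S S'`: `exists_char` with `α`, `β` from `exists_alB`, `exists_beB` (they commute: `whisker_exchange`), `fix_alB`, `fix_beB`, `finite_BB`, `semisimple_BB`, `finrank_BB` (nontrivial because the dimension is `|H| ≠ 0`).
The idempotent `e`: in `End`, `b * e = e ≫ b`, `e * b = b ≫ e`.  Then `exists_psi`, `exists_siso`.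
-/

set_option autoImplicit false

noncomputable section

open CategoryTheory MonoidalCategory
open scoped BigOperators

namespace Pool.Agent.SFC

universe v u w

private theorem PMg_comm {E : Type u} [Category.{v} E] [MonoidalCategory E] {A A' : E} (a b : A ⟶ A)
    (a' b' : A' ⟶ A') (T : A ⊗ A' ⟶ A ⊗ A') :
    a ▷ A' ≫ (A ◁ a' ≫ T ≫ A ◁ b') ≫ b ▷ A' = A ◁ a' ≫ (a ▷ A' ≫ T ≫ b ▷ A') ≫ A ◁ b' := by
  simp only [Category.assoc]
  rw [whisker_exchange, whisker_exchange_assoc]

theorem gal_unique {K : Type w} [Field K] [IsAlgClosed K] [CharZero K] {E : Type u} [Category.{v} E] [Preadditive E]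
    [Linear K E] [MonoidalCategory E] [MonoidalPreadditive E] [MonoidalLinear K E] {S S' : SFrob E} {H : Type} [Group H]
    [Fintype H] [IsSimpleGroup H] (h1 : 𝟙 (𝟙_ E) ≠ 0)
    (hreg : ∀ {X Y : E} (f : X ⟶ Y), ∃ g : Y ⟶ X, f ≫ g ≫ f = f) (Ga : GalG K S H) (Ga' : GalG K S' H)
    (i : S'.A ≅ S.A) : Nonempty (SIso S' S) := by
  haveI hfin : FiniteDimensional K (BB K S S') := finite_BB Ga i.symm
  haveI hss : IsSemisimpleRing (BB K S S') := semisimple_BB (fun f => hreg f)
  have hrank : Module.finrank K (BB K S S') = Nat.card H := finrank_BB Ga h1 i.symm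
  haveI hnt : Nontrivial (BB K S S') := by
    apply Module.nontrivial_of_finrank_pos (R := K)
    rw [hrank]
    exact Nat.card_pos
  obtain ⟨α, hα⟩ := exists_alB S' Ga
  obtain ⟨β, hβ⟩ := exists_beB S Ga'
  have hc : ∀ (g g' : H) (b : BB K S S'), α g (β g' b) = β g' (α g b) := by
    intro g g' b
    apply Subtype.ext
    rw [hα, hβ, hβ, hα]
    exact PMg_comm _ _ _ _ _
  have hfα : ∀ b : BB K S S', (∀ g, α g b = b) → ∃ c : K, b = algebraMap K (BB K S S') c := by
    intro b hb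
    obtain ⟨c, hc⟩ := fix_alB Ga Ga' ((mem_BB b.1).1 b.2) (fun g => by
      have h2 := congrArg Subtype.val (hb g)
      rw [hα] at h2
      exact h2)
    refine ⟨c, Subtype.ext ?_⟩
    rw [Algebra.algebraMap_eq_smul_one]
    exact hc
  have hfβ : ∀ b : BB K S S', (∀ g, β g b = b) → ∃ c : K, b = algebraMap K (BB K S S') c := by
    intro b hb
    obtain ⟨c, hc⟩ := fix_beB Ga Ga' ((mem_BB b.1).1 b.2) (fun g => by
      have h2 := congrArg Subtype.val (hb g)
      rw [hβ] at h2
      exact h2)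
    refine ⟨c, Subtype.ext ?_⟩
    rw [Algebra.algebraMap_eq_smul_one]
    exact hc
  obtain ⟨e, he0, hee, he⟩ := exists_char α β hc hfα hfβ hrank
  have hi : IsBi S S' (e.1 : S.A ⊗ S'.A ⟶ S.A ⊗ S'.A) := (mem_BB e.1).1 e.2
  obtain ⟨ψ, ho, hm⟩ := exists_psi Ga i hi (fun h => he0 (Subtype.ext h)) (congrArg Subtype.val hee) (by
    intro T hT
    obtain ⟨c, _, h3⟩ := he ⟨T, hT⟩
    exact ⟨c, congrArg Subtype.val h3⟩)
  exact exists_siso Ga Ga' i ψ ho hm

end Pool.Agent.SFC
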