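import Pool.Agent.SFC.Fna
import Pool.Agent.SFH.Defs

/-!
# SFH/PP: lifting a special Frobenius algebra along a faithful monoidal functor

`F : C ⥤ D` is faithful and monoidal, `S : SFrob D`, `e : F x ≅ S.A`, and the structure maps, transported by `e`, are images of maps of `C` (`PullD`).  Then `x` is a special Frobenius algebra in `C`.
Each axiom: apply `F.map` (faithful), compose with `e.hom` (or `e.hom ⊗ₘ e.hom`, ...) which is an isomorphism, and use the axiom of `S`.  E.g. `one_mul`: `F.map (one ▷ x ≫ mul) ≫ e.hom = δ ≫ (F.map one ▷ F x) ≫ μ ≫ F.map mul ≫ e.hom = δ ≫ (F.map one ▷ F x) ≫ (e ⊗ e) ≫ S.mul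
= δ ≫ (η ▷ F x) ≫ (S.one ▷ F x) ≫ S.A ◁ e.hom ≫ S.mul = δ ≫ η ▷ F x ≫ (λ_ _).hom ≫ e.hom = F.map (λ_ x).hom ≫ e.hom`.
(Similar computations for an isomorphism of algebras: `Pool/Agent/SFC/Fna.lean`, `Pool/Agent/SFC/Fnb.lean`.)
`exists_pullG`: `F.map` is injective and linear; `φ.f.hom` is an isomorphism with `φ.mul`, `φ.one`, `φ.cm`, `φ.cn`.  `conn`: `t : 𝟙 ⟶ S'.A`; `ε F ≫ F.map t ≫ φ.f.hom : 𝟙 ⟶ S.A` is `c • S.one`, so `F.map t = F.map (c • S'.one)`.
-/

set_option autoImplicit false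

noncomputable section

open CategoryTheory MonoidalCategory
open scoped BigOperators

namespace Pool.Agent.SFC

universe v u v' u' w

open Functor.LaxMonoidal Functor.OplaxMonoidal

section

variable {D : Type u'} [Category.{v'} D] [MonoidalCategory D]

set_option linter.unusedSimpArgs false

/-- transport of a special Frobenius algebra along an isomorphism -/
private def PP_tr (S : SFrob D) {X : D} (e : X ≅ S.A) : SFrob D where
  A := X
  mul := (e.hom ⊗ₘ e.hom) ≫ S.mul ≫ e.inv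
  one := S.one ≫ e.inv
  cm := e.hom ≫ S.cm ≫ (e.inv ⊗ₘ e.inv)
  cn := e.hom ≫ S.cn
  one_mul := by
    have h1 : (S.one ≫ e.inv) ▷ X ≫ (e.hom ⊗ₘ e.hom) = 𝟙_ D ◁ e.hom ≫ S.one ▷ S.A := by
      simp only [← id_tensorHom, ← tensorHom_id, tensorHom_comp_tensorHom, Category.assoc, Iso.inv_hom_id,
        Category.comp_id, Category.id_comp]
    rw [reassoc_of% h1, reassoc_of% S.one_mul]
    simp
  mul_one := by
    have h1 : X ◁ (S.one ≫ e.inv) ≫ (e.hom ⊗ₘ e.hom) = e.hom ▷ 𝟙_ D ≫ S.A ◁ S.one := by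
      simp only [← id_tensorHom, ← tensorHom_id, tensorHom_comp_tensorHom, Category.assoc, Iso.inv_hom_id,
        Category.comp_id, Category.id_comp]
    rw [reassoc_of% h1, reassoc_of% S.mul_one]
    simp
  assoc := by
    have h1 : ((e.hom ⊗ₘ e.hom) ≫ S.mul ≫ e.inv) ▷ X ≫ (e.hom ⊗ₘ e.hom) =
        ((e.hom ⊗ₘ e.hom) ⊗ₘ e.hom) ≫ S.mul ▷ S.A := by
      simp only [← id_tensorHom, ← tensorHom_id, tensorHom_comp_tensorHom, Category.assoc, Iso.inv_hom_id,
        Category.comp_id, Category.id_comp]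
    have h2 : X ◁ ((e.hom ⊗ₘ e.hom) ≫ S.mul ≫ e.inv) ≫ (e.hom ⊗ₘ e.hom) =
        (e.hom ⊗ₘ (e.hom ⊗ₘ e.hom)) ≫ S.A ◁ S.mul := by
      simp only [← id_tensorHom, ← tensorHom_id, tensorHom_comp_tensorHom, Category.assoc, Iso.inv_hom_id,
        Category.comp_id, Category.id_comp]
    rw [reassoc_of% h1, reassoc_of% h2, reassoc_of% S.assoc, associator_naturality_assoc]
  cn_cm := by
    have h1 : (e.inv ⊗ₘ e.inv) ≫ (e.hom ≫ S.cn) ▷ X = S.cn ▷ S.A ≫ 𝟙_ D ◁ e.inv := by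
      simp only [← id_tensorHom, ← tensorHom_id, tensorHom_comp_tensorHom, Category.assoc, Iso.inv_hom_id_assoc,
        Category.comp_id, Category.id_comp]
    rw [Category.assoc, Category.assoc, h1, reassoc_of% S.cn_cm]
    simp
  cm_cn := by
    have h1 : (e.inv ⊗ₘ e.inv) ≫ X ◁ (e.hom ≫ S.cn) = S.A ◁ S.cn ≫ e.inv ▷ 𝟙_ D := by
      simp only [← id_tensorHom, ← tensorHom_id, tensorHom_comp_tensorHom, Category.assoc, Iso.inv_hom_id_assoc,
        Category.comp_id, Category.id_comp]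
    rw [Category.assoc, Category.assoc, h1, reassoc_of% S.cm_cn]
    simp
  coassoc := by
    have h1 : (e.inv ⊗ₘ e.inv) ≫ (e.hom ≫ S.cm ≫ (e.inv ⊗ₘ e.inv)) ▷ X =
        S.cm ▷ S.A ≫ ((e.inv ⊗ₘ e.inv) ⊗ₘ e.inv) := by
      simp only [← id_tensorHom, ← tensorHom_id, tensorHom_comp_tensorHom, Category.assoc, Iso.inv_hom_id_assoc,
        Category.comp_id, Category.id_comp]
    have h2 : (e.inv ⊗ₘ e.inv) ≫ X ◁ (e.hom ≫ S.cm ≫ (e.inv ⊗ₘ e.inv)) =
        S.A ◁ S.cm ≫ (e.inv ⊗ₘ (e.inv ⊗ₘ e.inv)) := by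
      simp only [← id_tensorHom, ← tensorHom_id, tensorHom_comp_tensorHom, Category.assoc, Iso.inv_hom_id_assoc,
        Category.comp_id, Category.id_comp]
    rw [Category.assoc, Category.assoc, Category.assoc, Category.assoc, h2, reassoc_of% h1, associator_naturality,
      ← reassoc_of% S.coassoc]
  frobL := by
    have h2 : X ◁ (e.hom ≫ S.cm ≫ (e.inv ⊗ₘ e.inv)) =
        (e.hom ⊗ₘ e.hom) ≫ S.A ◁ S.cm ≫ (e.inv ⊗ₘ (e.inv ⊗ₘ e.inv)) := by
      simp only [← id_tensorHom, ← tensorHom_id, tensorHom_comp_tensorHom, Category.assoc, Iso.hom_inv_id,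
        Category.comp_id, Category.id_comp]
    have h1 : ((e.inv ⊗ₘ e.inv) ⊗ₘ e.inv) ≫ ((e.hom ⊗ₘ e.hom) ≫ S.mul ≫ e.inv) ▷ X =
        S.mul ▷ S.A ≫ (e.inv ⊗ₘ e.inv) := by
      simp only [← id_tensorHom, ← tensorHom_id, tensorHom_comp_tensorHom, Category.assoc, Iso.inv_hom_id,
        tensorHom_comp_tensorHom_assoc, Category.comp_id, Category.id_comp, id_tensorHom_id]
    rw [h2, Category.assoc, Category.assoc, Category.assoc, Category.assoc, associator_inv_naturality_assoc, h1,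
      e.inv_hom_id_assoc, reassoc_of% S.frobL]
  frobR := by
    have h2 : (e.hom ≫ S.cm ≫ (e.inv ⊗ₘ e.inv)) ▷ X =
        (e.hom ⊗ₘ e.hom) ≫ S.cm ▷ S.A ≫ ((e.inv ⊗ₘ e.inv) ⊗ₘ e.inv) := by
      simp only [← id_tensorHom, ← tensorHom_id, tensorHom_comp_tensorHom, Category.assoc, Iso.hom_inv_id,
        Category.comp_id, Category.id_comp]
    have h1 : (e.inv ⊗ₘ (e.inv ⊗ₘ e.inv)) ≫ X ◁ ((e.hom ⊗ₘ e.hom) ≫ S.mul ≫ e.inv) =
        S.A ◁ S.mul ≫ (e.inv ⊗ₘ e.inv) := by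
      simp only [← id_tensorHom, ← tensorHom_id, tensorHom_comp_tensorHom, Category.assoc, Iso.inv_hom_id,
        tensorHom_comp_tensorHom_assoc, Category.comp_id, Category.id_comp, id_tensorHom_id]
    rw [h2, Category.assoc, Category.assoc, Category.assoc, Category.assoc, associator_naturality_assoc, h1,
      e.inv_hom_id_assoc, reassoc_of% S.frobR]
  sep := by
    have h1 : (e.inv ⊗ₘ e.inv) ≫ (e.hom ⊗ₘ e.hom) = 𝟙 (S.A ⊗ S.A) := by
      rw [tensorHom_comp_tensorHom, e.inv_hom_id, id_tensorHom_id]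
    rw [Category.assoc, Category.assoc, reassoc_of% h1, reassoc_of% S.sep, e.hom_inv_id]

end

section

variable {C : Type u} [Category.{v} C] [MonoidalCategory C] {D : Type u'} [Category.{v'} D] [MonoidalCategory D]

/-- the structure maps of `S`, transported to `F x`, come from `C` -/
structure PullD (F : C ⥤ D) [F.Monoidal] (S : SFrob D) where
  x : C
  e : F.obj x ≅ S.A
  mul : x ⊗ x ⟶ x
  one : 𝟙_ C ⟶ x
  cm : x ⟶ x ⊗ x
  cn : x ⟶ 𝟙_ C
  hmul : F.map mul ≫ e.hom = δ F _ _ ≫ (e.hom ⊗ₘ e.hom) ≫ S.mul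
  hone : F.map one ≫ e.hom = η F ≫ S.one
  hcm : F.map cm ≫ δ F _ _ ≫ (e.hom ⊗ₘ e.hom) = e.hom ≫ S.cm
  hcn : F.map cn ≫ η F = e.hom ≫ S.cn

variable {F : C ⥤ D} [F.Monoidal] {S : SFrob D}

private def PP_T (P : PullD F S) : SFrob D := PP_tr S P.e

private def PP_m (P : PullD F S) : F.obj P.x ⊗ F.obj P.x ⟶ F.obj P.x := (PP_T P).mul

private def PP_o (P : PullD F S) : 𝟙_ D ⟶ F.obj P.x := (PP_T P).one

private def PP_c (P : PullD F S) : F.obj P.x ⟶ F.obj P.x ⊗ F.obj P.x := (PP_T P).cm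

private def PP_n (P : PullD F S) : F.obj P.x ⟶ 𝟙_ D := (PP_T P).cn

private theorem PP_hm (P : PullD F S) : F.map P.mul = δ F P.x P.x ≫ PP_m P := by
  show F.map P.mul = δ F P.x P.x ≫ (P.e.hom ⊗ₘ P.e.hom) ≫ S.mul ≫ P.e.inv
  rw [← cancel_mono P.e.hom]
  simp only [Category.assoc, Iso.inv_hom_id, Category.comp_id]
  exact P.hmul

private theorem PP_ho (P : PullD F S) : F.map P.one = η F ≫ PP_o P := by
  show F.map P.one = η F ≫ S.one ≫ P.e.inv
  rw [← cancel_mono P.e.hom]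
  simp only [Category.assoc, Iso.inv_hom_id, Category.comp_id]
  exact P.hone

private theorem PP_hc (P : PullD F S) : F.map P.cm = PP_c P ≫ μ F P.x P.x := by
  have h : F.map P.cm ≫ δ F P.x P.x = P.e.hom ≫ S.cm ≫ (P.e.inv ⊗ₘ P.e.inv) := by
    have h1 : (P.e.hom ⊗ₘ P.e.hom) ≫ (P.e.inv ⊗ₘ P.e.inv) = 𝟙 _ := by
      rw [tensorHom_comp_tensorHom, P.e.hom_inv_id, id_tensorHom_id]
    rw [← reassoc_of% P.hcm, h1, Category.comp_id]
  show F.map P.cm = (P.e.hom ≫ S.cm ≫ (P.e.inv ⊗ₘ P.e.inv)) ≫ μ F P.x P.x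
  rw [← h, Category.assoc, Functor.Monoidal.δ_μ, Category.comp_id]

private theorem PP_hn (P : PullD F S) : F.map P.cn = PP_n P ≫ ε F := by
  show F.map P.cn = (P.e.hom ≫ S.cn) ≫ ε F
  rw [← P.hcn, Category.assoc, Functor.Monoidal.η_ε, Category.comp_id]

theorem PullD.one_mul [F.Faithful] (P : PullD F S) : P.one ▷ P.x ≫ P.mul = (λ_ P.x).hom := by
  apply F.map_injective
  have h : PP_o P ▷ F.obj P.x ≫ PP_m P = (λ_ (F.obj P.x)).hom := (PP_T P).one_mul
  rw [F.map_comp, Functor.Monoidal.map_whiskerRight, PP_hm, PP_ho]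
  simp only [Category.assoc, Functor.Monoidal.μ_δ_assoc, comp_whiskerRight, Functor.Monoidal.map_leftUnitor]
  rw [h]

theorem PullD.mul_one [F.Faithful] (P : PullD F S) : P.x ◁ P.one ≫ P.mul = (ρ_ P.x).hom := by
  apply F.map_injective
  have h : F.obj P.x ◁ PP_o P ≫ PP_m P = (ρ_ (F.obj P.x)).hom := (PP_T P).mul_one
  rw [F.map_comp, Functor.Monoidal.map_whiskerLeft, PP_hm, PP_ho]
  simp only [Category.assoc, Functor.Monoidal.μ_δ_assoc, MonoidalCategory.whiskerLeft_comp,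
    Functor.Monoidal.map_rightUnitor]
  rw [h]

theorem PullD.assoc [F.Faithful] (P : PullD F S) :
    P.mul ▷ P.x ≫ P.mul = (α_ P.x P.x P.x).hom ≫ P.x ◁ P.mul ≫ P.mul := by
  apply F.map_injective
  have h : PP_m P ▷ F.obj P.x ≫ PP_m P = (α_ (F.obj P.x) (F.obj P.x) (F.obj P.x)).hom ≫
    F.obj P.x ◁ PP_m P ≫ PP_m P := (PP_T P).assoc
  rw [F.map_comp, F.map_comp, F.map_comp, Functor.Monoidal.map_whiskerRight, Functor.Monoidal.map_whiskerLeft, PP_hm,
    Functor.Monoidal.map_associator]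
  simp only [Category.assoc, Functor.Monoidal.μ_δ_assoc, comp_whiskerRight, MonoidalCategory.whiskerLeft_comp,
    Functor.Monoidal.whiskerLeft_μ_δ_assoc]
  rw [h]

theorem PullD.cn_cm [F.Faithful] (P : PullD F S) : P.cm ≫ P.cn ▷ P.x = (λ_ P.x).inv := by
  apply F.map_injective
  have h : PP_c P ≫ PP_n P ▷ F.obj P.x = (λ_ (F.obj P.x)).inv := (PP_T P).cn_cm
  rw [F.map_comp, Functor.Monoidal.map_whiskerRight, PP_hc, PP_hn]
  simp only [Category.assoc, Functor.Monoidal.μ_δ_assoc, comp_whiskerRight, Functor.Monoidal.map_leftUnitor_inv]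
  rw [reassoc_of% h]

theorem PullD.cm_cn [F.Faithful] (P : PullD F S) : P.cm ≫ P.x ◁ P.cn = (ρ_ P.x).inv := by
  apply F.map_injective
  have h : PP_c P ≫ F.obj P.x ◁ PP_n P = (ρ_ (F.obj P.x)).inv := (PP_T P).cm_cn
  rw [F.map_comp, Functor.Monoidal.map_whiskerLeft, PP_hc, PP_hn]
  simp only [Category.assoc, Functor.Monoidal.μ_δ_assoc, MonoidalCategory.whiskerLeft_comp,
    Functor.Monoidal.map_rightUnitor_inv]
  rw [reassoc_of% h]

theorem PullD.coassoc [F.Faithful] (P : PullD F S) :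
    P.cm ≫ P.cm ▷ P.x ≫ (α_ P.x P.x P.x).hom = P.cm ≫ P.x ◁ P.cm := by
  apply F.map_injective
  have h : PP_c P ≫ PP_c P ▷ F.obj P.x ≫ (α_ (F.obj P.x) (F.obj P.x) (F.obj P.x)).hom =
    PP_c P ≫ F.obj P.x ◁ PP_c P := (PP_T P).coassoc
  rw [F.map_comp, F.map_comp, F.map_comp, Functor.Monoidal.map_whiskerRight, Functor.Monoidal.map_whiskerLeft, PP_hc,
    Functor.Monoidal.map_associator]
  simp only [Category.assoc, Functor.Monoidal.μ_δ_assoc, comp_whiskerRight, MonoidalCategory.whiskerLeft_comp,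
    Functor.Monoidal.whiskerRight_μ_δ_assoc]
  rw [reassoc_of% h]

theorem PullD.frobL [F.Faithful] (P : PullD F S) :
    P.mul ≫ P.cm = P.x ◁ P.cm ≫ (α_ P.x P.x P.x).inv ≫ P.mul ▷ P.x := by
  apply F.map_injective
  have h : PP_m P ≫ PP_c P = F.obj P.x ◁ PP_c P ≫
    (α_ (F.obj P.x) (F.obj P.x) (F.obj P.x)).inv ≫ PP_m P ▷ F.obj P.x := (PP_T P).frobL
  rw [F.map_comp, F.map_comp, F.map_comp, Functor.Monoidal.map_whiskerRight, Functor.Monoidal.map_whiskerLeft, PP_hc,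
    PP_hm, Functor.Monoidal.map_associator_inv]
  simp only [Category.assoc, Functor.Monoidal.μ_δ_assoc, comp_whiskerRight, MonoidalCategory.whiskerLeft_comp,
    Functor.Monoidal.whiskerRight_μ_δ_assoc, Functor.Monoidal.whiskerLeft_μ_δ_assoc]
  rw [reassoc_of% h]

theorem PullD.frobR [F.Faithful] (P : PullD F S) :
    P.mul ≫ P.cm = P.cm ▷ P.x ≫ (α_ P.x P.x P.x).hom ≫ P.x ◁ P.mul := by
  apply F.map_injective
  have h : PP_m P ≫ PP_c P = PP_c P ▷ F.obj P.x ≫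
    (α_ (F.obj P.x) (F.obj P.x) (F.obj P.x)).hom ≫ F.obj P.x ◁ PP_m P := (PP_T P).frobR
  rw [F.map_comp, F.map_comp, F.map_comp, Functor.Monoidal.map_whiskerRight, Functor.Monoidal.map_whiskerLeft, PP_hc,
    PP_hm, Functor.Monoidal.map_associator]
  simp only [Category.assoc, Functor.Monoidal.μ_δ_assoc, comp_whiskerRight, MonoidalCategory.whiskerLeft_comp,
    Functor.Monoidal.whiskerRight_μ_δ_assoc, Functor.Monoidal.whiskerLeft_μ_δ_assoc]
  rw [reassoc_of% h]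

theorem PullD.sep [F.Faithful] (P : PullD F S) : P.cm ≫ P.mul = 𝟙 P.x := by
  apply F.map_injective
  have h : PP_c P ≫ PP_m P = 𝟙 (F.obj P.x) := (PP_T P).sep
  rw [F.map_comp, PP_hc, PP_hm, F.map_id]
  simp only [Category.assoc, Functor.Monoidal.μ_δ_assoc]
  exact h

/-- the algebra in `C` -/
def PullD.alg [F.Faithful] (P : PullD F S) : SFrob C where
  A := P.x
  mul := P.mul
  one := P.one
  cm := P.cm
  cn := P.cn
  one_mul := P.one_mul
  mul_one := P.mul_one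
  assoc := P.assoc
  cn_cm := P.cn_cm
  cm_cn := P.cm_cn
  coassoc := P.coassoc
  frobL := P.frobL
  frobR := P.frobR
  sep := P.sep

/-- the isomorphism -/
def PullD.iso [F.Faithful] (P : PullD F S) : AlgIso F P.alg S where
  f := P.e
  mul := P.hmul
  one := P.hone
  cm := P.hcm
  cn := P.hcn

/-- the data for a full functor -/
def pullF (F : C ⥤ D) [F.Monoidal] [F.Full] (S : SFrob D) (x : C) (e : F.obj x ≅ S.A) : PullD F S where
  x := x
  e := e
  mul := F.preimage (δ F _ _ ≫ (e.hom ⊗ₘ e.hom) ≫ S.mul ≫ e.inv)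
  one := F.preimage (η F ≫ S.one ≫ e.inv)
  cm := F.preimage (e.hom ≫ S.cm ≫ (e.inv ⊗ₘ e.inv) ≫ μ F _ _)
  cn := F.preimage (e.hom ≫ S.cn ≫ ε F)
  hmul := by
    rw [F.map_preimage]
    simp
  hone := by
    rw [F.map_preimage]
    simp
  hcm := by
    rw [F.map_preimage]
    simp
  hcn := by
    rw [F.map_preimage]
    simp

end

variable {K : Type w} [Field K] {C : Type u} [Category.{v} C] [Preadditive C] [Linear K C] [MonoidalCategory C]
  {D : Type u'} [Category.{v'} D] [Preadditive D] [Linear K D] [MonoidalCategory D] {F : C ⥤ D} [F.Monoidal]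
  {S' : SFrob C} {S : SFrob D} {H : Type} [Group H] [Fintype H]

private theorem PP_zero (hadd : ∀ {x y : C} (f g : x ⟶ y), F.map (f + g) = F.map f + F.map g)
    {x y : C} : F.map (0 : x ⟶ y) = 0 := by
  have h := hadd (0 : x ⟶ y) 0
  rw [add_zero] at h
  exact left_eq_add.1 h

private theorem PP_sum (hadd : ∀ {x y : C} (f g : x ⟶ y), F.map (f + g) = F.map f + F.map g)
    {x y : C} {κ : Type*} (s : Finset κ) (f : κ → (x ⟶ y)) : F.map (∑ a ∈ s, f a) = ∑ a ∈ s, F.map (f a) := by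
  classical
  induction s using Finset.induction_on with
  | empty => rw [Finset.sum_empty, Finset.sum_empty, PP_zero hadd]
  | insert a s ha ih => rw [Finset.sum_insert ha, Finset.sum_insert ha, hadd, ih]

/-- the data of an isomorphism -/
private def PP_of (φ : AlgIso F S' S) : PullD F S where
  x := S'.A
  e := φ.f
  mul := S'.mul
  one := S'.one
  cm := S'.cm
  cn := S'.cn
  hmul := φ.mul
  hone := φ.one
  hcm := φ.cm
  hcn := φ.cn

theorem exists_pullG [F.Faithful] (hadd : ∀ {x y : C} (f g : x ⟶ y), F.map (f + g) = F.map f + F.map g)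
    (hsmul : ∀ {x y : C} (c : K) (f : x ⟶ y), F.map (c • f) = c • F.map f) (φ : AlgIso F S' S) (Ga : GalG K S H)
    (a' : H → (S'.A ⟶ S'.A)) (ha : ∀ g, F.map (a' g) ≫ φ.f.hom = φ.f.hom ≫ Ga.a g) :
    ∃ Ga' : GalG K S' H, ∀ g, Ga'.a g = a' g := by
  have hb : ∀ g, F.map (a' g) = φ.f.hom ≫ Ga.a g ≫ φ.f.inv := by
    intro g
    rw [← cancel_mono φ.f.hom, ha g]
    simp only [Category.assoc, Iso.inv_hom_id, Category.comp_id]
  have hm : F.map S'.mul = δ F S'.A S'.A ≫ (φ.f.hom ⊗ₘ φ.f.hom) ≫ S.mul ≫ φ.f.inv := PP_hm (PP_of φ)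
  have ho : F.map S'.one = η F ≫ S.one ≫ φ.f.inv := PP_ho (PP_of φ)
  have hc : F.map S'.cm = (φ.f.hom ≫ S.cm ≫ (φ.f.inv ⊗ₘ φ.f.inv)) ≫ μ F S'.A S'.A := PP_hc (PP_of φ)
  have hn : F.map S'.cn = (φ.f.hom ≫ S.cn) ≫ ε F := PP_hn (PP_of φ)
  have hT : ∀ {X Y : C} (f : X ⟶ Y), F.map (f ⊗ₘ f) = δ F _ _ ≫ (F.map f ⊗ₘ F.map f) ≫ μ F _ _ := by
    intro X Y f
    rw [Functor.OplaxMonoidal.δ_natural_assoc, Functor.Monoidal.δ_μ, Category.comp_id]
  refine ⟨{ a := a', a_one := ?_, a_mul := ?_, mul := ?_, one := ?_, cm := ?_, cn := ?_, sum := ?_, orth := ?_,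
            conn := ?_, dim := ?_ }, fun g => rfl⟩
  · apply F.map_injective
    rw [hb, Ga.a_one, Category.id_comp, Iso.hom_inv_id, F.map_id]
  · intro g h
    apply F.map_injective
    rw [F.map_comp, hb, hb, hb, Ga.a_mul]
    simp only [Category.assoc, Iso.inv_hom_id_assoc]
  · intro g
    apply F.map_injective
    have h1 : ((φ.f.hom ≫ Ga.a g ≫ φ.f.inv) ⊗ₘ (φ.f.hom ≫ Ga.a g ≫ φ.f.inv)) ≫ (φ.f.hom ⊗ₘ φ.f.hom) =
        (φ.f.hom ⊗ₘ φ.f.hom) ≫ (Ga.a g ⊗ₘ Ga.a g) := by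
      simp only [tensorHom_comp_tensorHom, Category.assoc, Iso.inv_hom_id, Category.comp_id]
    rw [F.map_comp, F.map_comp, hT, hb, hm]
    simp only [Category.assoc, Functor.Monoidal.μ_δ_assoc, Iso.inv_hom_id_assoc]
    rw [reassoc_of% h1, reassoc_of% Ga.mul g]
  · intro g
    apply F.map_injective
    rw [F.map_comp, hb, ho]
    simp only [Category.assoc, Iso.inv_hom_id_assoc]
    rw [reassoc_of% Ga.one g]
  · intro g
    apply F.map_injective
    have h1 : (φ.f.inv ⊗ₘ φ.f.inv) ≫ ((φ.f.hom ≫ Ga.a g ≫ φ.f.inv) ⊗ₘ (φ.f.hom ≫ Ga.a g ≫ φ.f.inv)) =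
        (Ga.a g ⊗ₘ Ga.a g) ≫ (φ.f.inv ⊗ₘ φ.f.inv) := by
      simp only [tensorHom_comp_tensorHom, Iso.inv_hom_id_assoc]
    rw [F.map_comp, F.map_comp, hT, hb, hc]
    simp only [Category.assoc, Functor.Monoidal.μ_δ_assoc, Iso.inv_hom_id_assoc]
    rw [reassoc_of% h1, reassoc_of% Ga.cm g]
  · intro g
    apply F.map_injective
    rw [F.map_comp, hb, hn]
    simp only [Category.assoc, Iso.inv_hom_id_assoc]
    rw [reassoc_of% Ga.cn g]
  · apply F.map_injective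
    have h1 : ∑ g, φ.f.hom ≫ Ga.a g ≫ φ.f.inv = φ.f.hom ≫ (∑ g, Ga.a g) ≫ φ.f.inv := by
      rw [Preadditive.sum_comp, Preadditive.comp_sum]
    rw [PP_sum hadd, Finset.sum_congr rfl (fun g _ => hb g), h1, Ga.sum, F.map_comp, hn, ho]
    simp only [Category.assoc, Functor.Monoidal.ε_η_assoc]
  · intro g hg
    apply F.map_injective
    have h1 : (φ.f.inv ⊗ₘ φ.f.inv) ≫ F.obj S'.A ◁ (φ.f.hom ≫ Ga.a g ≫ φ.f.inv) ≫ (φ.f.hom ⊗ₘ φ.f.hom) =
        S.A ◁ Ga.a g := by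
      simp only [← id_tensorHom, tensorHom_comp_tensorHom, Category.assoc, Iso.inv_hom_id, Category.comp_id,
        Category.id_comp, Iso.inv_hom_id_assoc]
    rw [F.map_comp, F.map_comp, Functor.Monoidal.map_whiskerLeft, hb, hc, hm, PP_zero hadd]
    simp only [Category.assoc, Functor.Monoidal.μ_δ_assoc]
    rw [reassoc_of% h1, reassoc_of% Ga.orth g hg, Limits.zero_comp, Limits.comp_zero]
  · intro t
    obtain ⟨c, hc'⟩ := Ga.conn (ε F ≫ F.map t ≫ φ.f.hom)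
    refine ⟨c, ?_⟩
    apply F.map_injective
    have h1 : F.map t = η F ≫ (ε F ≫ F.map t ≫ φ.f.hom) ≫ φ.f.inv := by
      simp only [Category.assoc, Iso.hom_inv_id, Category.comp_id, Functor.Monoidal.η_ε_assoc]
    rw [h1, hc', hsmul, ho, Linear.smul_comp, Linear.comp_smul]
  · apply F.map_injective
    have h1 : F.map S'.one ≫ F.map S'.cn = η F ≫ (S.one ≫ S.cn) ≫ ε F := by
      rw [ho, hn]
      simp only [Category.assoc, Iso.inv_hom_id_assoc]
    rw [F.map_comp, h1, Ga.dim, hsmul, Linear.smul_comp, Linear.comp_smul, Category.id_comp,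
      Functor.Monoidal.η_ε, F.map_id]

end Pool.Agent.SFC
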