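import Pool.Agent.SFH.PStm
import Mathlib.GroupTheory.Sylow
import Mathlib.GroupTheory.SpecificGroups.Cyclic
import Mathlib.GroupTheory.Subgroup.Simple
import Mathlib.GroupTheory.PGroup

/-!
# SFH/PSolv: `p`-solvable groups

`psolv_of_normal`: a finite group with a normal Sylow `p`-subgroup is `p`-solvable.  Induction on `Nat.card G`.  Let
`P` be the normal subgroup.  If `P ≠ ⊤`, choose a maximal element `N` of the finite set of proper normal subgroups of
`G` which contain `P`; `G ⧸ N` is simple (normal subgroups of `G ⧸ N` correspond to normal subgroups of `G` above `N`),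
its order divides `P.index`; `P.subgroupOf N` is normal in `N`, of order `p ^ k`, of index dividing `P.index`.
If `P = ⊤` and `G` is not trivial: a maximal proper normal subgroup `N`; `G ⧸ N` is a simple `p`-group, so its centre is
everything (`IsPGroup.center_nontrivial`), it is commutative of prime order (`IsSimpleGroup.prime_card`), so of order
`p`; `N` is a `p`-group.
-/

set_option autoImplicit false

namespace Pool.Agent.SFC

/-- a nontrivial finite group has a maximal proper normal subgroup above a given one -/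
theorem exists_max_normal {G : Type} [Group G] [Finite G] (P : Subgroup G) [P.Normal] (hP : P ≠ ⊤) :
    ∃ (N : Subgroup G) (_ : N.Normal), P ≤ N ∧ IsSimpleGroup (G ⧸ N) := by
  obtain ⟨N, hN⟩ := Set.Finite.exists_maximal (Set.toFinite {N : Subgroup G | N.Normal ∧ P ≤ N ∧ N ≠ ⊤})
    ⟨P, inferInstance, le_refl P, hP⟩
  obtain ⟨hN1, hN2, hN3⟩ := hN.prop
  refine ⟨N, hN1, hN2, ?_⟩
  have hnt : Nontrivial (G ⧸ N) := by
    rw [← not_subsingleton_iff_nontrivial]
    intro h
    exact hN3 (QuotientGroup.subgroup_eq_top_of_subsingleton N h)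
  refine ⟨fun H hH => ?_⟩
  have h1 : N ≤ H.comap (QuotientGroup.mk' N) := by
    intro x hx
    rw [Subgroup.mem_comap, QuotientGroup.mk'_apply, (QuotientGroup.eq_one_iff x).2 hx]
    exact H.one_mem
  by_cases h2 : H.comap (QuotientGroup.mk' N) = ⊤
  · right
    rw [eq_top_iff]
    intro x _
    obtain ⟨y, rfl⟩ := QuotientGroup.mk'_surjective N x
    rw [← Subgroup.mem_comap, h2]
    exact Subgroup.mem_top y
  · left
    have h3 := hN.le_of_ge (y := H.comap (QuotientGroup.mk' N)) ⟨inferInstance, hN2.trans h1, h2⟩ h1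
    rw [eq_bot_iff]
    intro x hx
    obtain ⟨y, rfl⟩ := QuotientGroup.mk'_surjective N x
    have h4 : y ∈ N := h3 (Subgroup.mem_comap.2 hx)
    rw [Subgroup.mem_bot, QuotientGroup.mk'_apply, (QuotientGroup.eq_one_iff y).2 h4]

private theorem PSolv_card {p : ℕ} (hp : p.Prime) {Q : Type} [Group Q] [Finite Q] [IsSimpleGroup Q] {k : ℕ}
    (h : Nat.card Q ∣ p ^ k) : Nat.card Q = p := by
  have : Fact p.Prime := ⟨hp⟩
  obtain ⟨j, -, hj⟩ := (Nat.dvd_prime_pow hp).1 h
  have hQ : IsPGroup p Q := IsPGroup.of_card hj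
  have hc : Subgroup.center Q = ⊤ := by
    have := hQ.center_nontrivial
    rcases IsSimpleGroup.eq_bot_or_eq_top_of_normal (Subgroup.center Q) inferInstance with h1 | h1
    · rw [h1] at this
      exact absurd this (not_nontrivial _)
    · exact h1
  let _ : CommGroup Q := Group.commGroupOfCenterEqTop hc
  have h2 : (Nat.card Q).Prime := IsSimpleGroup.prime_card
  exact (Nat.prime_dvd_prime_iff_eq h2 hp).1 (h2.dvd_of_dvd_pow h)

private theorem PSolv_aux {p : ℕ} (hp : p.Prime) : ∀ (m : ℕ) (G : Type) [Group G] [Finite G] (P : Subgroup G)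
    [P.Normal], Nat.card G = m → (∃ k, Nat.card P = p ^ k) → ¬ p ∣ P.index → PSolv p G := by
  intro m
  induction m using Nat.strong_induction_on with
  | _ m ih =>
    intro G _ _ P _ hm hP hi
    by_cases hs : Subsingleton G
    · exact PSolv.triv G
    rw [not_subsingleton_iff_nontrivial] at hs
    have hlt : ∀ (N : Subgroup G) [N.Normal], IsSimpleGroup (G ⧸ N) → Nat.card N < m := by
      intro N _ hN
      rw [← hm]
      rcases (Subgroup.card_le_card_group N).lt_or_eq with h | h
      · exact h
      · have h1 := Subgroup.eq_top_of_card_eq N h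
        subst h1
        have := hN.toNontrivial
        exact absurd this (not_nontrivial_iff_subsingleton.2 QuotientGroup.subsingleton_quotient_top)
    by_cases hPt : P = ⊤
    · subst hPt
      obtain ⟨k, hk⟩ := hP
      rw [Subgroup.card_top] at hk
      obtain ⟨N, hN, -, hsimp⟩ := exists_max_normal (⊥ : Subgroup G) bot_ne_top
      have hc : Nat.card (G ⧸ N) ∣ p ^ k := by
        rw [← hk]
        exact Subgroup.card_quotient_dvd_card N
      obtain ⟨j, -, hj⟩ := (Nat.dvd_prime_pow hp).1 (hk ▸ Subgroup.card_subgroup_dvd_card N)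
      refine PSolv.step G N (ih _ (hlt N hsimp) N ⊤ rfl ⟨j, ?_⟩ ?_) (Or.inl (PSolv_card hp hc))
      · rw [Subgroup.card_top]
        exact hj
      · rw [Subgroup.index_top]
        exact hp.one_lt.ne' ∘ Nat.dvd_one.1
    · obtain ⟨N, hN, hPN, hsimp⟩ := exists_max_normal P hPt
      obtain ⟨k, hk⟩ := hP
      have hrel := Subgroup.relIndex_mul_index hPN
      refine PSolv.step G N (ih _ (hlt N hsimp) N (P.subgroupOf N) rfl ⟨k, ?_⟩ ?_) (Or.inr ?_)
      · rw [← hk]
        exact Nat.card_congr (Subgroup.subgroupOfEquivOfLe hPN).toEquiv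
      · intro h
        exact hi (hrel ▸ Dvd.dvd.mul_right h _)
      · intro h
        exact hi (hrel ▸ Dvd.dvd.mul_left h _)

theorem psolv_of_normal {p : ℕ} (hp : p.Prime) (G : Type) [Group G] [Finite G] (P : Subgroup G) [P.Normal]
    (hP : ∃ k, Nat.card P = p ^ k) (hi : ¬ p ∣ P.index) : PSolv p G :=
  PSolv_aux hp _ G P rfl hP hi

end Pool.Agent.SFC
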