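import Pool.Agent.SFC.Stm

/-!
# SFH/PStm: the definitions of the final statement

`PSolv p G`: the group `G` is `p`-solvable; `ChainP K p X`: the fusion category `X` is obtained from `Vec` by extensions
by arbitrary finite groups and equivariantizations by finite `p`-solvable groups.
-/

set_option autoImplicit false
set_option linter.checkUnivs false

open CategoryTheory MonoidalCategory

namespace Pool.Agent.SFC

open Pool.Agent.NFG

universe v u w

/-- `G` has a composition series whose factors have order `p` or order prime to `p`. -/
inductive PSolv (p : ℕ) : (G : Type) → [Group G] → Prop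
  | triv (G : Type) [Group G] [Subsingleton G] : PSolv p G
  | step (G : Type) [Group G] (N : Subgroup G) [N.Normal] [IsSimpleGroup (G ⧸ N)] (hN : PSolv p N)
      (hq : Nat.card (G ⧸ N) = p ∨ ¬ p ∣ Nat.card (G ⧸ N)) : PSolv p G

/-- `X` is obtained from `Vec`, or any nilpotent fusion category, by finitely many extensions by finite groups and
equivariantizations by finite `p`-solvable groups. -/
inductive ChainP (K : Type w) [Field K] (p : ℕ) : FC.{v, u} K → Prop
  | nil (X : FC.{v, u} K) (h : X.F.Nlp Set.univ) : ChainP K p X
  | ext (D X : FC.{v, u} K) (Q : Type) [Group Q] [Finite Q] (deg : X.ι → Q) (G : D.C ⥤ X.C) [G.Monoidal]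
      (h : IsExt K G X.F Q deg) (hD : ChainP K p D) : ChainP K p X
  | eqv (D X : FC.{v, u} K) (G : Type) [Group G] [Finite G] (hG : PSolv p G) (A : Act K G D.C) (F : X.C ⥤ D.C)
      [F.Monoidal] (E : Eqv K A F) (hD : ChainP K p D) : ChainP K p X

end Pool.Agent.SFC
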