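import Pool.Agent.SFC.E3h
import Pool.Agent.SFC.E2w
import Pool.Agent.SFC.BFc
import Pool.Agent.SFH.PP
import Pool.Agent.SFH.PF
import Pool.Agent.SFH.PH
import Pool.Agent.SFH.PI
import Pool.Agent.SFH.PL
import Pool.Agent.SFH.PD
import Pool.Agent.SFH.PMg

/-!
# SFH/PZ: lifting a Galois algebra with a simple group of order prime to `p` along a de-equivariantization by `ZMod p`
-/

set_option autoImplicit false

noncomputable section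

open CategoryTheory MonoidalCategory
open scoped BigOperators

namespace Pool.Agent.SFC

open Pool.Agent.NFG

universe v u v' u' w

open Functor.LaxMonoidal Functor.OplaxMonoidal

variable {K : Type w} [Field K] {C : Type u} [Category.{v} C] [Preadditive C] [Linear K C] [MonoidalCategory C]
  [MonoidalPreadditive C] [MonoidalLinear K C] {D : Type u'} [Category.{v'} D] [Preadditive D] [Linear K D]
  [MonoidalCategory D] [MonoidalPreadditive D] [MonoidalLinear K D]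

/-- the endomorphisms of the unit bimodule are scalars -/
theorem bim_end1G {S : SFrob C} {H : Type} [Group H] [Fintype H] (Ga : GalG K S H) (f : 𝟙_ (Bim S) ⟶ 𝟙_ (Bim S)) :
    ∃ c : K, f = c • 𝟙 (𝟙_ (Bim S)) := by
  obtain ⟨g, hg⟩ : ∃ g : S.A ⟶ S.A, g = Bim.Hom.f f := ⟨_, rfl⟩
  have hl : S.A ◁ g ≫ S.mul = S.mul ≫ g := by
    rw [hg]
    exact f.hl
  obtain ⟨c, hc⟩ := Ga.conn (S.one ≫ g)
  refine ⟨c, Bim.hom_ext ?_⟩
  have h5 : g = (ρ_ S.A).inv ≫ S.A ◁ (S.one ≫ g) ≫ S.mul := by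
    rw [MonoidalCategory.whiskerLeft_comp, Category.assoc, hl, ← Category.assoc (S.A ◁ S.one), S.mul_one,
      Iso.inv_hom_id_assoc]
  have h6 : g = c • 𝟙 S.A := by
    rw [h5, hc, MonoidalLinear.whiskerLeft_smul, Linear.smul_comp, Linear.comp_smul, S.mul_one, Iso.inv_hom_id]
  have h7 : Bim.Hom.f (c • 𝟙 (𝟙_ (Bim S))) = c • 𝟙 S.A := congrArg (fun t => c • t) (Bim.unt_p S)
  exact hg.symm.trans (h6.trans h7.symm)

section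

variable {D : Type u'} [Category.{v'} D] [MonoidalCategory D] {X X' A : D}

private theorem PZ_mul (ψ : X' ≅ X) (e : X ≅ A) {Y Y' : D} (d' : Y' ⟶ X' ⊗ X') (m : X ⊗ X ⟶ Y) (d : Y ⟶ X ⊗ X)
    (hmd : m ≫ d = 𝟙 _) (f : Y ⟶ X) (g : A ⊗ A ⟶ A) (h : f ≫ e.hom = d ≫ (e.hom ⊗ₘ e.hom) ≫ g) (M : Y' ⟶ X')
    (hM : M = (d' ≫ (ψ.hom ⊗ₘ ψ.hom) ≫ m) ≫ f ≫ ψ.inv) :
    M ≫ (ψ ≪≫ e).hom = d' ≫ ((ψ ≪≫ e).hom ⊗ₘ (ψ ≪≫ e).hom) ≫ g := by
  rw [hM]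
  simp only [Iso.trans_hom, Category.assoc, Iso.inv_hom_id_assoc]
  rw [h, reassoc_of% hmd, tensorHom_comp_tensorHom_assoc]

private theorem PZ_one (ψ : X' ≅ X) (e : X ≅ A) {Y U : D} (t : Y ⟶ U) (f : Y ⟶ X) (g : U ⟶ A)
    (h : f ≫ e.hom = t ≫ g) (M : Y ⟶ X') (hM : M = f ≫ ψ.inv) : M ≫ (ψ ≪≫ e).hom = t ≫ g := by
  rw [hM]
  simp only [Iso.trans_hom, Category.assoc, Iso.inv_hom_id_assoc]
  exact h

private theorem PZ_cm (ψ : X' ≅ X) (e : X ≅ A) {Y Y' : D} (d' : Y' ⟶ X' ⊗ X') (m' : X' ⊗ X' ⟶ Y') (d : Y ⟶ X ⊗ X)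
    (hmd : m' ≫ d' = 𝟙 _) (f : X ⟶ Y) (g : A ⟶ A ⊗ A) (h : f ≫ d ≫ (e.hom ⊗ₘ e.hom) = e.hom ≫ g) (M : X' ⟶ Y')
    (hM : M = ψ.hom ≫ f ≫ d ≫ (ψ.inv ⊗ₘ ψ.inv) ≫ m') :
    M ≫ d' ≫ ((ψ ≪≫ e).hom ⊗ₘ (ψ ≪≫ e).hom) = (ψ ≪≫ e).hom ≫ g := by
  rw [hM]
  simp only [Iso.trans_hom, Category.assoc]
  rw [reassoc_of% hmd, tensorHom_comp_tensorHom, Iso.inv_hom_id_assoc, h]

private theorem PZ_cn (ψ : X' ≅ X) (e : X ≅ A) {Y U : D} (t : Y ⟶ U) (f : X ⟶ Y) (g : A ⟶ U)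
    (h : f ≫ t = e.hom ≫ g) (M : X' ⟶ Y) (hM : M = ψ.hom ≫ f) : M ≫ t = (ψ ≪≫ e).hom ≫ g := by
  rw [hM]
  simp only [Iso.trans_hom, Category.assoc]
  rw [h]

private theorem PZ_a (ψ : X' ≅ X) (e : X ≅ A) (b : X ⟶ X) (a : A ⟶ A) (h : b = e.hom ≫ a ≫ e.inv) (M : X' ⟶ X')
    (hM : M = ψ.hom ≫ b ≫ ψ.inv) : M ≫ (ψ ≪≫ e).hom = (ψ ≪≫ e).hom ≫ a := by
  rw [hM, h]
  simp

end

variable {F : C ⥤ D} [F.Monoidal] {p : ℕ} [NeZero p]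

/-- lifting the algebra -/
theorem exists_algG [IsAlgClosed K] [CharZero K] [Limits.HasFiniteBiproducts C] {ιC : Type} [Fintype ιC]
    [DecidableEq ιC] (FC : Fus K C ιC) {ιD : Type} [Fintype ιD] [DecidableEq ιD] (FD : Fus K D ιD) (Wt : Wts K F p)
    (hp : p.Prime) (hF : ∀ i, Smp K (F.obj (FC.S i))) {H : Type} [Group H] [Fintype H] [IsSimpleGroup H]
    (hH : ¬ p ∣ Fintype.card H) {S : SFrob D} (Ga : GalG K S H) :
    ∃ (S' : SFrob C) (_ : GalG K S' H), Nonempty (AlgIso F S' S) := by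
  haveI := fus_idem FC
  haveI : F.Faithful := ⟨fun h => Wt.faithful h⟩
  obtain ⟨x, e0, hx⟩ := exists_lift_obj FC FD Wt.map_add Wt.map_smul Wt.dom hF S.A
  obtain ⟨Tt⟩ := exists_tw Wt
  let P1 : PullD (ImC.I F) S := pullF (ImC.I F) S x e0
  obtain ⟨Ga1, hGa1⟩ := exists_pullG (F := ImC.I F) (fun _ _ => rfl) (fun _ _ => rfl) P1.iso Ga
    (fun g => (ImC.I F).preimage (e0.hom ≫ Ga.a g ≫ e0.inv)) (fun g => by
      rw [(ImC.I F).map_preimage]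
      show (e0.hom ≫ Ga.a g ≫ e0.inv) ≫ e0.hom = e0.hom ≫ Ga.a g
      simp)
  have hfix : ∀ f : P1.alg.A ⟶ P1.alg.A, Tt.s f = f := by
    intro f
    obtain ⟨g, hg⟩ := hx f.hom
    have h2 : f = (ImC.P F).map g := by
      ext
      exact hg.symm
    rw [h2]
    exact Tt.fix g
  have h1 : 𝟙 (𝟙_ (ImC F)) ≠ 0 := by
    intro h
    apply fus_one_ne FD
    have h2 : 𝟙 (F.obj (𝟙_ C)) = 0 := congrArg InducedCategory.Hom.hom h
    have h3 : 𝟙 (𝟙_ D) = ε F ≫ 𝟙 (F.obj (𝟙_ C)) ≫ η F := by simp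
    rw [h3, h2, Limits.zero_comp, Limits.comp_zero]
  have hreg : ∀ {X Y : ImC F} (f : X ⟶ Y), ∃ g : Y ⟶ X, f ≫ g ≫ f = f := by
    intro X Y f
    obtain ⟨g, hg⟩ := fus_reg FD f.hom
    refine ⟨⟨g⟩, ?_⟩
    ext
    exact hg
  obtain ⟨Ga2⟩ := Tt.gal Ga1 hfix
  obtain ⟨σ⟩ := gal_unique h1 hreg Ga1 Ga2 (Iso.refl _)
  have hcop : Nat.Coprime p (Fintype.card H) := (Nat.Prime.coprime_iff_not_dvd hp).2 hH
  obtain ⟨φ, hφ, hpow⟩ := exists_isTw_pow hcop (isTw_of_siso Tt σ) Ga1 h1 hfix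
  have hH' : ¬ p ∣ Nat.card H := by rwa [Nat.card_eq_fintype_card]
  have hcom := isTw_com hp hH' hφ hpow Ga1 h1 hfix
  obtain ⟨x', ψ, hψ⟩ := exists_descent Tt Wt.map_add Wt.map_smul (fun h => Wt.faithful h) x φ (hfix _) hpow
  obtain ⟨mul', hmul'⟩ := Tt.lift (x := x' ⊗ x') (y := x') _ (hφ.fix_mul ψ hψ)
  obtain ⟨one', hone'⟩ := Tt.lift (x := 𝟙_ C) (y := x') _ (hφ.fix_one ψ hψ)
  obtain ⟨cm', hcm'⟩ := Tt.lift (x := x') (y := x' ⊗ x') _ (hφ.fix_cm ψ hψ)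
  obtain ⟨cn', hcn'⟩ := Tt.lift (x := x') (y := 𝟙_ C) _ (hφ.fix_cn ψ hψ)
  have ha' : ∀ g, ∃ a' : x' ⟶ x', (ImC.P F).map a' = ψ.hom ≫ Ga1.a g ≫ ψ.inv := fun g =>
    Tt.lift (x := x') (y := x') _ (tw_fix_a (hfix _) (hcom g) ψ hψ)
  choose a' ha' using ha'
  let ψ0 : F.obj x' ≅ F.obj x := (ImC.I F).mapIso ψ
  let P2 : PullD F S :=
    { x := x'
      e := ψ0 ≪≫ e0
      mul := mul'
      one := one'
      cm := cm'
      cn := cn'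
      hmul := PZ_mul ψ0 e0 (δ F x' x') (μ F x x) (δ F x x) (Functor.Monoidal.μ_δ F x x) P1.mul.hom S.mul P1.hmul
        (F.map mul') (congrArg InducedCategory.Hom.hom hmul')
      hone := PZ_one ψ0 e0 (η F) P1.one.hom S.one P1.hone (F.map one') (congrArg InducedCategory.Hom.hom hone')
      hcm := PZ_cm ψ0 e0 (δ F x' x') (μ F x' x') (δ F x x) (Functor.Monoidal.μ_δ F x' x') P1.cm.hom S.cm P1.hcm
        (F.map cm') (congrArg InducedCategory.Hom.hom hcm')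
      hcn := PZ_cn ψ0 e0 (η F) P1.cn.hom S.cn P1.hcn (F.map cn') (congrArg InducedCategory.Hom.hom hcn') }
  obtain ⟨Ga', -⟩ := exists_pullG Wt.map_add Wt.map_smul P2.iso Ga a' (fun g => by
    have h3 : (Ga1.a g).hom = e0.hom ≫ Ga.a g ≫ e0.inv := by
      rw [hGa1]
      exact (ImC.I F).map_preimage _
    exact PZ_a ψ0 e0 (Ga1.a g).hom (Ga.a g) h3 (F.map (a' g)) (congrArg InducedCategory.Hom.hom (ha' g)))
  exact ⟨P2.alg, Ga', ⟨P2.iso⟩⟩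

/-- the P-step -/
theorem deq_stepG [IsAlgClosed K] [CharZero K] [Limits.HasFiniteBiproducts C] {ιC : Type} [Fintype ιC]
    [DecidableEq ιC] (FC : Fus K C ιC) {ιD : Type} [Fintype ιD] [DecidableEq ιD] (FD : Fus K D ιD) (Q : DeEq K F p)
    (hp : p.Prime) (hF : ∀ i, Smp K (F.obj (FC.S i))) {H : Type} [Group H] [Fintype H] [IsSimpleGroup H]
    (hH : ¬ p ∣ Fintype.card H) {S : SFrob D} (Ga : GalG K S H) :
    ∃ (S' : SFrob C) (_ : GalG K S' H) (F' : Bim S' ⥤ Bim S) (_ : F'.Monoidal), Nonempty (DeEq K F' p) := by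
  obtain ⟨S', Ga', ⟨φ⟩⟩ := exists_algG FC FD Q.wts hp hF hH Ga
  letI := φ.mon
  obtain ⟨Wt⟩ := φ.exists_wts Q.wts (φ.dom Q.dom)
  exact ⟨S', Ga', φ.FBf, inferInstance, wts_deeq Wt (bim_end1G Ga)⟩

end Pool.Agent.SFC
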