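import Pool.Agent.SFH.PStm
import Mathlib.RepresentationTheory.Irreducible

/-!
# SFH/QStm: the definitions of the final statement

`ChainQ K p X`: the fusion category `X` is obtained from a nilpotent one by extensions by arbitrary finite groups and
equivariantizations by finite groups which are `p`-solvable or have an irreducible representation over `K` whose
dimension is divisible by `p`.
-/

set_option autoImplicit false
set_option linter.checkUnivs false

open CategoryTheory MonoidalCategory

namespace Pool.Agent.SFC

open Pool.Agent.NFG

universe v u w

/-- The group `G` has an irreducible representation over `K` whose dimension is divisible by `p`. -/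
def PDegree (K : Type w) [Field K] (p : ℕ) (G : Type) [Group G] : Prop :=
  ∃ (n : ℕ) (ρ : Representation K G (Fin n → K)), ρ.IsIrreducible ∧ p ∣ n

/-- `X` is obtained from `Vec`, or any nilpotent fusion category, by finitely many extensions by finite groups and
equivariantizations by finite groups which are `p`-solvable or have an irreducible representation over `K` whose
dimension is divisible by `p`. -/
inductive ChainQ (K : Type w) [Field K] (p : ℕ) : FC.{v, u} K → Prop
  | nil (X : FC.{v, u} K) (h : X.F.Nlp Set.univ) : ChainQ K p X
  | ext (D X : FC.{v, u} K) (Q : Type) [Group Q] [Finite Q] (deg : X.ι → Q) (G : D.C ⥤ X.C) [G.Monoidal]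
      (h : IsExt K G X.F Q deg) (hD : ChainQ K p D) : ChainQ K p X
  | eqv (D X : FC.{v, u} K) (G : Type) [Group G] [Finite G] (hG : PSolv p G ∨ PDegree K p G) (A : Act K G D.C)
      (F : X.C ⥤ D.C) [F.Monoidal] (E : Eqv K A F) (hD : ChainQ K p D) : ChainQ K p X

end Pool.Agent.SFC
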