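import Pool.Agent.SFH.ZGen

/-!
# SFH/RedG: the class `RedG` and the main theorem for chains with simple groups

`RedG p X`: `X` is nilpotent, or the category of bimodules over a Galois algebra with simple group of order prime to `p`
in `X` is in `RedG p`.
-/

set_option autoImplicit false

noncomputable section

open CategoryTheory MonoidalCategory

namespace Pool.Agent.SFC

open Pool.Agent.NFG

universe v u w

variable {K : Type w} [Field K]

/-- bimodules as a fusion category -/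
abbrev bimFCG (X : FC.{v, u} K) (S : SFrob X.C) (hR : Rig (Bim S)) {ι' : Type} [Fintype ι'] [DecidableEq ι']
    (FN : Fus K (Bim S) ι') : FC.{v, u} K where
  C := Bim S
  rig := hR
  ι := ι'
  F := FN

inductive RedG (p : ℕ) : FC.{v, u} K → Prop
  | nil (X : FC.{v, u} K) (h : X.F.Nlp Set.univ) : RedG p X
  | step (X : FC.{v, u} K) (H : Type) [Group H] [Fintype H] [IsSimpleGroup H] (hH : ¬ p ∣ Fintype.card H)
      (S : SFrob X.C) (Ga : GalG K S H) (hR : Rig (Bim S)) (ι' : Type) [Fintype ι'] [DecidableEq ι']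
      (FN : Fus K (Bim S) ι') (h : RedG p (bimFCG X S hR FN)) : RedG p X

/-- dimensions prime to `p` -/
def PDG (p : ℕ) (X : FC.{v, u} K) : Prop := ∃ f : X.ι → ℝ, IsFPdim X.F f ∧ ∀ i, RelP p (f i)

theorem rigid_of_rigG {C : Type*} [Category* C] [MonoidalCategory C] (h : Rig C) : Nonempty (RigidCategory C) := by
  choose y hy using fun x => (h x).1
  choose z hz using fun x => (h x).2
  exact ⟨{ rightDual := fun X => { rightDual := y X, exact := (hy X).some }
           leftDual := fun X => { leftDual := z X, exact := (hz X).some } }⟩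

theorem not_dvd_of_relPG {p : ℕ} (hp : p.Prime) {x : ℝ} (h : RelP p x) {n : ℕ} (hn : x ^ 2 = (n : ℝ)) :
    ¬ p ∣ n := by
  rintro ⟨m, rfl⟩
  obtain ⟨a, b, ha, hb, hab⟩ := h
  have hp0 : (p : ℝ) ≠ 0 := by exact_mod_cast hp.ne_zero
  have h1 : (p : ℝ) * (b ^ 2 * m + 2 * a - a ^ 2 * p) = 1 := by
    have h2 : b * x = 1 - a * p := by linarith
    have h3 : b ^ 2 * x ^ 2 = (1 - a * p) ^ 2 := by rw [← mul_pow, h2]
    rw [hn] at h3
    push_cast at h3
    linear_combination h3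
  have hint : IsIntegral ℤ (b ^ 2 * m + 2 * a - a ^ 2 * p : ℝ) := by
    have hm : IsIntegral ℤ (m : ℝ) := by
      have := isIntegral_algebraMap (R := ℤ) (A := ℝ) (x := (m : ℤ))
      simpa using this
    have hpp : IsIntegral ℤ (p : ℝ) := by
      have := isIntegral_algebraMap (R := ℤ) (A := ℝ) (x := (p : ℤ))
      simpa using this
    have h2 : IsIntegral ℤ (2 : ℝ) := by
      have := isIntegral_algebraMap (R := ℤ) (A := ℝ) (x := (2 : ℤ))
      simpa using this
    exact (((hb.pow 2).mul hm).add (h2.mul ha)).sub ((ha.pow 2).mul hpp)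
  have hq : (b ^ 2 * m + 2 * a - a ^ 2 * p : ℝ) = algebraMap ℚ ℝ ((p : ℚ)⁻¹) := by
    rw [eq_ratCast, Rat.cast_inv, Rat.cast_natCast]
    field_simp
    linarith
  rw [hq] at hint
  have hint2 : IsIntegral ℤ ((p : ℚ)⁻¹) := (isIntegral_algebraMap_iff (algebraMap ℚ ℝ).injective).1 hint
  obtain ⟨z, hz⟩ := IsIntegrallyClosed.isIntegral_iff.1 hint2
  have hpq : (p : ℚ) ≠ 0 := by exact_mod_cast hp.ne_zero
  have hz2 : (z * p : ℤ) = 1 := by
    have : (z : ℚ) * p = 1 := by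
      have h5 : (z : ℚ) = (p : ℚ)⁻¹ := by simpa using hz
      rw [h5]
      field_simp
    exact_mod_cast this
  have h6 : (p : ℤ) ∣ 1 := ⟨z, by rw [mul_comm]; exact hz2.symm⟩
  have h7 : p ∣ 1 := by exact_mod_cast h6
  exact hp.one_lt.ne' (Nat.dvd_one.1 h7)

variable [IsAlgClosed K] [CharZero K]

/-- the category of bimodules over a Galois algebra is fusion -/
theorem stepG_bim (X : FC.{v, u} K) {H : Type} [Group H] [Fintype H] {S : SFrob X.C} (Ga : GalG K S H) :
    ∃ (_ : Rig (Bim S)) (ι' : Type) (_ : Fintype ι') (_ : DecidableEq ι'), Nonempty (Fus K (Bim S) ι') := by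
  obtain ⟨G, -⟩ := exists_galFG X.F Ga
  haveI := fus_idem X.F
  refine ⟨gal_rigG G X.rig, ?_⟩
  exact gal_fusG G X.F

theorem stepG_pd (X : FC.{v, u} K) {p : ℕ} (hp : p.Prime) (hX : PDG p X) {H : Type} [Group H] [Fintype H]
    (hH : ¬ p ∣ Fintype.card H) {S : SFrob X.C} (Ga : GalG K S H) (hR : Rig (Bim S)) {ι' : Type} [Fintype ι']
    [DecidableEq ι'] (FN : Fus K (Bim S) ι') : PDG p (bimFCG X S hR FN) := by
  obtain ⟨G, -⟩ := exists_galFG X.F Ga
  obtain ⟨f, hf, h⟩ := hX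
  haveI := fus_idem X.F
  exact gal_pdG G X.rig hf FN hp hH h

/-- a category in `RedG p` with dimensions prime to `p` has an `O`-form -/
theorem redG_form {O : Subring K} (hO : Val O) {p : ℕ} (hp : p.Prime) (hpO : ((p : K))⁻¹ ∉ O) (X : FC.{v, u} K)
    (hX : RedG p X) (hd : PDG p X) : ∃ L : X.F.Sy, X.F.IsForm O L := by
  induction hX with
  | nil X h =>
    obtain ⟨f, hf, hr⟩ := hd
    obtain ⟨hrig⟩ := rigid_of_rigG X.rig
    obtain ⟨L, hL, -⟩ := main_rigid hO hp hpO X.F h hf (fun i _ hn => not_dvd_of_relPG hp (hr i) hn)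
    exact ⟨L, hL⟩
  | step X H hH S Ga hR ι' FN h ih =>
    obtain ⟨L, hL⟩ := ih (stepG_pd X hp hd hH Ga hR FN)
    obtain ⟨G, -⟩ := exists_galFG X.F Ga
    obtain ⟨f, hf, hr⟩ := hd
    haveI := fus_idem X.F
    exact gal_formG G hO X.rig hf FN hp hpO hH hr L hL

/-- `RedG` is closed under extensions -/
theorem redG_ext {p : ℕ} (D : FC.{v, u} K) (hD : RedG p D) : ∀ (X : FC.{v, u} K) (Q : Type) [Group Q] [Finite Q]
    (deg : X.ι → Q) (G : D.C ⥤ X.C) [G.Monoidal], IsExt K G X.F Q deg → RedG p X := by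
  induction hD with
  | nil D h =>
    intro X Q _ _ deg G _ hG
    exact RedG.nil X (nlp_ext D.F hG h)
  | step D H hH S Ga hR ι' FN h ih =>
    intro X Q _ _ deg G _ hG
    obtain ⟨S', Ga', G', _, h1, h2, h3, h4, h5, h6⟩ := ext_fnG hG Ga
    obtain ⟨GD, -⟩ := exists_galFG D.F Ga
    obtain ⟨GC, ⟨eA⟩⟩ := exists_galFG X.F Ga'
    obtain ⟨e6⟩ := h6
    obtain ⟨hR', ι'', _, _, ⟨FN'⟩⟩ := stepG_bim X Ga'
    haveI := fus_idem D.F
    obtain ⟨deg', hdeg'⟩ := ext_galG hG GD GC ⟨S.A, ⟨eA ≪≫ e6⟩⟩ h1 h2 h3 h4 h5 FN'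
    exact RedG.step X H hH S' Ga' hR' ι'' FN' (ih (bimFCG X S' hR' FN') Q deg' G' hdeg')

/-- `RedG` is closed under equivariantizations by `ZMod p` with dimensions prime to `p` -/
theorem redG_deq {p : ℕ} [NeZero p] (hp : p.Prime) (D : FC.{v, u} K) (hD : RedG p D) : ∀ (X : FC.{v, u} K)
    (F : X.C ⥤ D.C) [F.Monoidal], DeEq K F p → PDG p X → RedG p X := by
  induction hD with
  | nil D h =>
    intro X F _ Q hX
    obtain ⟨f, hf, hr⟩ := hX
    obtain ⟨h1, -⟩ := deq_pd X.F D.F Q hp X.rig D.rig hf hr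
    exact RedG.nil X (deq_nil X.F D.F Q hp h1 h)
  | step D H hH S Ga hR ι' FN h ih =>
    intro X F _ Q hX
    obtain ⟨f, hf, hr⟩ := id hX
    obtain ⟨h1, -⟩ := deq_pd X.F D.F Q hp X.rig D.rig hf hr
    obtain ⟨S', Ga', F', _, ⟨Q'⟩⟩ := deq_stepG X.F D.F Q hp h1 hH Ga
    obtain ⟨hR', ι'', _, _, ⟨FN'⟩⟩ := stepG_bim X Ga'
    exact RedG.step X H hH S' Ga' hR' ι'' FN'
      (ih (bimFCG X S' hR' FN') F' Q' (stepG_pd X hp hX hH Ga' hR' FN'))

/-- `X` is obtained from nilpotent fusion categories by finitely many extensions by finite groups and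
equivariantizations by finite simple groups which are of prime order or of order prime to `p`. -/
inductive ChainG (K : Type w) [Field K] (p : ℕ) : FC.{v, u} K → Prop
  | nil (X : FC.{v, u} K) (h : X.F.Nlp Set.univ) : ChainG K p X
  | ext (D X : FC.{v, u} K) (Q : Type) [Group Q] [Finite Q] (deg : X.ι → Q) (G : D.C ⥤ X.C) [G.Monoidal]
      (h : IsExt K G X.F Q deg) (hD : ChainG K p D) : ChainG K p X
  | eqv (D X : FC.{v, u} K) (G : Type) [Group G] [Finite G] [IsSimpleGroup G]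
      (hG : (Nat.card G).Prime ∨ ¬ p ∣ Nat.card G) (A : Act K G D.C) (F : X.C ⥤ D.C)
      [F.Monoidal] (E : Eqv K A F) (hD : ChainG K p D) : ChainG K p X

theorem chainG_red {p : ℕ} (hp : p.Prime) (X : FC.{v, u} K) (hX : ChainG K p X) : PDG p X → RedG p X := by
  haveI : NeZero p := ⟨hp.ne_zero⟩
  induction hX with
  | nil X h =>
    intro _
    exact RedG.nil X h
  | ext D X Q deg G h hD ih =>
    intro hX
    obtain ⟨f, hf, hr⟩ := hX
    obtain ⟨φ, hφ⟩ := exists_phi D.F h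
    exact redG_ext D (ih ⟨_, ext_fp hφ hf, fun a => hr (φ a)⟩) X Q deg G h
  | eqv D X G hG A F E hD ih =>
    intro hX
    by_cases hnp : p ∣ Nat.card G
    · have hpG : Nat.card G = p := by
        rcases hG with h | h
        · exact ((Nat.prime_dvd_prime_iff_eq hp h).1 hnp).symm
        · exact absurd hnp h
      obtain ⟨Q⟩ := eqv_deq E D.F hp hpG
      obtain ⟨f, hf, hr⟩ := id hX
      obtain ⟨-, h2⟩ := deq_pd X.F D.F Q hp X.rig D.rig hf hr
      exact redG_deq hp D (ih h2) X F Q hX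
    · haveI := Fintype.ofFinite G
      have hnp' : ¬ p ∣ Fintype.card G := by rwa [← Nat.card_eq_fintype_card]
      haveI := fus_idem D.F
      haveI := fus_idem X.F
      obtain ⟨S, Ga, hS⟩ := eqv_extG E D.F
      obtain ⟨hR, ι', _, _, ⟨FN⟩⟩ := stepG_bim X Ga
      obtain ⟨G', _, deg, hE⟩ := hS FN
      obtain ⟨f, hf, hr⟩ := stepG_pd X hp hX hnp' Ga hR FN
      obtain ⟨φ, hφ⟩ := exists_phi D.F hE
      exact RedG.step X G hnp' S Ga hR ι' FN
        (redG_ext D (ih ⟨_, ext_fp hφ hf, fun a => hr (φ a)⟩) (bimFCG X S hR FN) _ deg G' hE)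

theorem mainG {O : Subring K} (hO : Val O) {p : ℕ} (hp : p.Prime) (hpO : ((p : K))⁻¹ ∉ O) (X : FC.{v, u} K)
    (hX : ChainG K p X) (f : X.ι → ℝ) (hf : IsFPdim X.F f) (h : ∀ i, RelP p (f i)) :
    ∃ L : X.F.Sy, X.F.IsForm O L :=
  redG_form hO hp hpO X (chainG_red hp X hX ⟨f, hf, h⟩) ⟨f, hf, h⟩

end Pool.Agent.SFC
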