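import Pool.Agent.SFH.PStm
import Pool.Agent.SFH.RedG
import Pool.Agent.SFH.EqB
import Pool.Agent.SFH.EqC
import Pool.Agent.SFC.HN
import Pool.Agent.SFH.PSolv

/-!
# SFH/RedP: equivariantizations by `p`-solvable groups

The equivariantization by `G` is split into two steps: by a normal subgroup `N` with simple quotient, and by `G ⧸ N`.
-/

set_option autoImplicit false

noncomputable section

open CategoryTheory MonoidalCategory

namespace Pool.Agent.SFC

open Pool.Agent.NFG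

universe v u w

variable {K : Type w} [Field K]

section

variable {C : Type*} [Category* C] [Preadditive C] [Linear K C] [MonoidalCategory C] {D : Type*} [Category* D]
  [Preadditive D] [Linear K D] [MonoidalCategory D] {F : C ⥤ D} [F.Monoidal]

theorem ThH.rig [MonoidalPreadditive D] [IsIdempotentComplete D] {Γ : Type} [AddGroup Γ] (T : ThH K F Γ) (hC : Rig C) :
    Rig D := by
  intro Z
  obtain ⟨x, i, p, h⟩ := T.dom Z
  obtain ⟨⟨y, ⟨e⟩⟩, ⟨y', ⟨e'⟩⟩⟩ := hC x
  obtain ⟨f⟩ := pair_mon F e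
  obtain ⟨f'⟩ := pair_mon F e'
  exact ⟨pair_retr f i p h, pair_retr' f' i p h⟩

variable {G : Type} [Group G] [Subsingleton G] {A : Act K G D}

theorem Eqv.triv_hom (E : Eqv K A F) {x y : C} (h : F.obj x ⟶ F.obj y) : ∃! f : x ⟶ y, F.map f = h := by
  refine E.hom x y h fun g => ?_
  obtain rfl : g = 1 := Subsingleton.elim _ _
  have h1 := A.one.hom.naturality h
  have h2 : (E.u 1).hom.app x = inv (A.one.hom.app (F.obj x)) := by
    rw [← cancel_epi (A.one.hom.app (F.obj x)), E.u_one, IsIso.hom_inv_id]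
  have h3 : (E.u 1).hom.app y = inv (A.one.hom.app (F.obj y)) := by
    rw [← cancel_epi (A.one.hom.app (F.obj y)), E.u_one, IsIso.hom_inv_id]
  rw [h2, h3, IsIso.comp_inv_eq, Category.assoc, IsIso.eq_inv_comp]
  exact h1.symm

theorem Eqv.triv_full (E : Eqv K A F) : F.Full := ⟨fun h => (E.triv_hom h).exists⟩

theorem Eqv.triv_faithful (E : Eqv K A F) : F.Faithful :=
  ⟨fun {_ _ f g} h => (E.triv_hom (F.map g)).unique h rfl⟩

theorem Eqv.triv_ess (E : Eqv K A F) : F.EssSurj := by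
  refine ⟨fun Z => ?_⟩
  obtain ⟨x, i, -⟩ := E.ess Z (fun g => by
    obtain rfl : g = 1 := Subsingleton.elim _ _
    exact A.one.inv.app Z) (A.one.hom_inv_id_app Z) (by
    intro g h gh e
    obtain rfl : g = 1 := Subsingleton.elim _ _
    obtain rfl : h = 1 := Subsingleton.elim _ _
    obtain rfl : gh = 1 := Subsingleton.elim _ _
    have h1 := A.unitL 1 e Z
    have h2 : A.one.inv.app Z ≫ A.one.hom.app Z = 𝟙 _ := A.one.inv_hom_id_app Z
    have h3 : A.one.hom.app ((A.T 1).obj Z) ≫ (A.T 1).map (A.one.inv.app Z) = A.one.inv.app Z ≫ A.one.hom.app Z :=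
      (A.one.hom.naturality (A.one.inv.app Z)).symm
    have h4 : (A.T 1).map (A.one.inv.app Z) = A.one.inv.app ((A.T 1).obj Z) := by
      rw [← cancel_epi (A.one.hom.app ((A.T 1).obj Z)), h3, h2]
      exact (A.one.hom_inv_id_app ((A.T 1).obj Z)).symm
    have h5 : (A.comp 1 1 1 e).hom.app Z = A.one.inv.app ((A.T 1).obj Z) := by
      rw [← cancel_epi (A.one.hom.app ((A.T 1).obj Z)), h1]
      exact (A.one.hom_inv_id_app ((A.T 1).obj Z)).symm
    show (A.T 1).map (A.one.inv.app Z) ≫ A.one.inv.app Z = (A.comp 1 1 1 e).hom.app Z ≫ A.one.inv.app Z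
    rw [h4, h5])
  exact ⟨x, ⟨i⟩⟩

end

theorem triv_ext {D X : FC.{v, u} K} {G : Type} [Group G] [Subsingleton G] {A : Act K G D.C} {F : X.C ⥤ D.C}
    [F.Monoidal] (E : Eqv K A F) : ∃ (G' : D.C ⥤ X.C) (_ : G'.Monoidal), IsExt K G' X.F G (fun _ => 1) := by
  haveI := E.triv_full
  haveI := E.triv_faithful
  haveI := E.triv_ess
  haveI : F.IsEquivalence := {}
  haveI : F.asEquivalence.functor.Monoidal := inferInstanceAs F.Monoidal
  haveI : F.asEquivalence.functor.Additive := ⟨fun {_ _ f g} => E.map_add f g⟩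
  haveI : F.asEquivalence.functor.Linear K := ⟨fun {_ _} f c => E.map_smul c f⟩
  refine ⟨F.asEquivalence.inverse, F.asEquivalence.inverseMonoidal, ?_⟩
  exact
    { full := inferInstance
      faithful := inferInstance
      map_add := fun f g => F.asEquivalence.inverse.map_add
      map_smul := fun c f => F.asEquivalence.inverse.map_smul c f
      occ := fun _ _ _ _ => Subsingleton.elim _ _
      surj := fun q => ⟨X.F.o, Subsingleton.elim _ _⟩
      img := fun i _ => ⟨F.obj (X.F.S i), ⟨F.asEquivalence.unitIso.app _⟩⟩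
      one := fun _ _ _ _ => rfl }

variable [IsAlgClosed K] [CharZero K]

/-- the intermediate equivariantization -/
theorem exists_mid {D X : FC.{v, u} K} {G : Type} [Group G] [Finite G] {A : Act K G D.C} {F : X.C ⥤ D.C} [F.Monoidal]
    (E : Eqv K A F) (N : Subgroup G) [N.Normal] [Fintype (G ⧸ N)] [DecidableEq (G ⧸ N)] :
    ∃ (Y : FC.{v, u} K) (F2 : Y.C ⥤ D.C) (_ : F2.Monoidal) (_ : Eqv K (A.res N) F2) (F1 : X.C ⥤ Y.C)
      (_ : F1.Monoidal) (T : ThH K F1 (Additive (G ⧸ N))), Nonempty (FunT T) := by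
  haveI := fus_idem D.F
  obtain ⟨T, hT⟩ := E.exists_thN N
  obtain ⟨ι', _, _, ⟨FY⟩⟩ := EqO.exists_fusE (A.res N) D.F
  exact ⟨{ C := EqO (A.res N)
           rig := T.rig X.rig
           ι := ι'
           F := FY }, EqO.fg (A.res N), EqO.fgm (A.res N), EqO.eqvE (A.res N), E.F1 N, E.F1mon N, T, hT⟩

/-- equivariantization by a `p`-solvable group -/
theorem psolv_red {p : ℕ} (hp : p.Prime) {G : Type} [Group G] (hG : PSolv p G) : ∀ [Finite G] (D X : FC.{v, u} K)
    (_ : PDG p D → RedG p D) (A : Act K G D.C) (F : X.C ⥤ D.C) [F.Monoidal] (_ : Eqv K A F), PDG p X → RedG p X := by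
  haveI : NeZero p := ⟨hp.ne_zero⟩
  induction hG with
  | triv G =>
    intro _ D X ih A F _ E hX
    obtain ⟨G', _, h⟩ := triv_ext E
    obtain ⟨f, hf, hr⟩ := hX
    obtain ⟨φ, hφ⟩ := exists_phi D.F h
    exact redG_ext D (ih ⟨_, ext_fp hφ hf, fun a => hr (φ a)⟩) X G _ G' h
  | step G N hN hq ihN =>
    intro _ D X ih A F _ E hX
    classical
    haveI := Fintype.ofFinite (G ⧸ N)
    haveI := fus_idem X.F
    obtain ⟨Y, F2, _, E2, F1, _, T, ⟨P⟩⟩ := exists_mid E N
    have hY : PDG p Y → RedG p Y := ihN D Y ih (A.res N) F2 E2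
    haveI := fus_idem Y.F
    by_cases hnp : p ∣ Nat.card (G ⧸ N)
    · have hpG : Fintype.card (Additive (G ⧸ N)) = p := by
        rw [← Nat.card_eq_fintype_card]
        rcases hq with h | h
        · exact h
        · exact absurd hnp h
      obtain ⟨Q⟩ := P.exists_deeq hp hpG (fus_end1 Y.F)
      obtain ⟨f, hf, hr⟩ := id hX
      obtain ⟨-, h2⟩ := deq_pd X.F Y.F Q hp X.rig Y.rig hf hr
      exact redG_deq hp Y (hY h2) X F1 Q hX
    · obtain ⟨S, Ga, hS⟩ := P.exists_ext (fus_end1 Y.F)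
      haveI : IsSimpleGroup (Multiplicative (Additive (G ⧸ N))) := ‹IsSimpleGroup (G ⧸ N)›
      have hnp' : ¬ p ∣ Fintype.card (Multiplicative (Additive (G ⧸ N))) := by
        rw [← Nat.card_eq_fintype_card]
        exact hnp
      obtain ⟨hR, ι', _, _, ⟨FN⟩⟩ := stepG_bim X Ga.toG
      obtain ⟨G', _, deg, hE⟩ := hS FN
      obtain ⟨f, hf, hr⟩ := stepG_pd X hp hX hnp' Ga.toG hR FN
      obtain ⟨φ, hφ⟩ := exists_phi Y.F hE
      exact RedG.step X (Multiplicative (Additive (G ⧸ N))) hnp' S Ga.toG hR ι' FN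
        (redG_ext Y (hY ⟨_, ext_fp hφ hf, fun a => hr (φ a)⟩) (bimFCG X S hR FN) _ deg G' hE)

theorem chainP_red {p : ℕ} (hp : p.Prime) (X : FC.{v, u} K) (hX : ChainP K p X) : PDG p X → RedG p X := by
  induction hX with
  | nil X h =>
    intro _
    exact RedG.nil X h
  | ext D X Q deg G h hD ih =>
    intro hX
    obtain ⟨f, hf, hr⟩ := hX
    obtain ⟨φ, hφ⟩ := exists_phi D.F h
    exact redG_ext D (ih ⟨_, ext_fp hφ hf, fun a => hr (φ a)⟩) X Q deg G h
  | eqv D X G hG A F E hD ih =>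
    intro hX
    exact psolv_red hp hG D X ih A F E hX

theorem mainP {O : Subring K} (hO : Val O) {p : ℕ} (hp : p.Prime) (hpO : ((p : K))⁻¹ ∉ O) (X : FC.{v, u} K)
    (hX : ChainP K p X) (f : X.ι → ℝ) (hf : IsFPdim X.F f) (h : ∀ i, RelP p (f i)) :
    ∃ L : X.F.Sy, X.F.IsForm O L :=
  redG_form hO hp hpO X (chainP_red hp X hX ⟨f, hf, h⟩) ⟨f, hf, h⟩

end Pool.Agent.SFC
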