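import Pool.Agent.SFH.QStm
import Pool.Agent.SFH.Irr

/-!
# SFH/RedQ: equivariantizations by finite groups

If `G` has an irreducible representation of dimension divisible by `p`, then the equivariantization has a simple object
whose dimension is divisible by `p` (`irr_dim`), so there is nothing to prove.
-/

set_option autoImplicit false

open CategoryTheory MonoidalCategory

namespace Pool.Agent.SFC

open Pool.Agent.NFG

universe v u w

variable {K : Type w} [Field K] [IsAlgClosed K] [CharZero K]

theorem chainQ_red {p : ℕ} (hp : p.Prime) (X : FC.{v, u} K) (hX : ChainQ K p X) : PDG p X → RedG p X := by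
  induction hX with
  | nil X h =>
    intro _
    exact RedG.nil X h
  | ext D X Q deg G h hD ih =>
    intro hX
    obtain ⟨f, hf, hr⟩ := hX
    obtain ⟨φ, hφ⟩ := exists_phi D.F h
    exact redG_ext D (ih ⟨_, ext_fp hφ hf, fun a => hr (φ a)⟩) X Q deg G h
  | eqv D X G hG A F E hD ih =>
    intro hX
    rcases hG with hG | ⟨n, ρ, hρ, hn⟩
    · exact psolv_red hp hG D X ih A F E hX
    · exact absurd hn (irr_dim E hp hX ρ hρ)

theorem mainQ {O : Subring K} (hO : Val O) {p : ℕ} (hp : p.Prime) (hpO : ((p : K))⁻¹ ∉ O) (X : FC.{v, u} K)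
    (hX : ChainQ K p X) (f : X.ι → ℝ) (hf : IsFPdim X.F f) (h : ∀ i, RelP p (f i)) :
    ∃ L : X.F.Sy, X.F.IsForm O L :=
  redG_form hO hp hpO X (chainQ_red hp X hX ⟨f, hf, h⟩) ⟨f, hf, h⟩

end Pool.Agent.SFC
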