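import Pool.Agent.SFH.Defs
import Pool.Agent.SFC.ATm

/-!
# SFH/TwA: `A ⊗ A` is the direct sum of copies of `A`

For a Galois algebra `S` with group `H`: `jG g : A ⟶ A ⊗ A`, `x ↦ x' ⊗ a g⁻¹ x''` and `pG g : A ⊗ A ⟶ A`, `x ⊗ y ↦ x (a g y)`.
-/

set_option autoImplicit false

noncomputable section

open CategoryTheory MonoidalCategory
open scoped BigOperators

namespace Pool.Agent.SFC

universe v u w

section

variable {K : Type w} [Field K] {C : Type u} [Category.{v} C] [Preadditive C] [Linear K C] [MonoidalCategory C]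
  {S : SFrob C} {H : Type} [Group H] [Fintype H]

namespace GalG

variable (G : GalG K S H)

theorem a_inv (g : H) : G.a g ≫ G.a g⁻¹ = 𝟙 S.A := by
  rw [← G.a_mul g⁻¹ g, inv_mul_cancel, G.a_one]

theorem inv_a (g : H) : G.a g⁻¹ ≫ G.a g = 𝟙 S.A := by
  rw [← G.a_mul g g⁻¹, mul_inv_cancel, G.a_one]

theorem mul_a (g : H) : S.mul ≫ G.a g = G.a g ▷ S.A ≫ S.A ◁ G.a g ≫ S.mul := by
  rw [← G.mul g, MonoidalCategory.tensorHom_def, Category.assoc]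

theorem a_cm (g : H) : G.a g ≫ S.cm = S.cm ≫ G.a g ▷ S.A ≫ S.A ◁ G.a g := by
  rw [← G.cm g, MonoidalCategory.tensorHom_def]

theorem a_cm_inv (g : H) : G.a g ≫ S.cm ≫ S.A ◁ G.a g⁻¹ = S.cm ≫ G.a g ▷ S.A := by
  rw [← Category.assoc, a_cm, Category.assoc, Category.assoc, ← MonoidalCategory.whiskerLeft_comp, G.a_inv,
    MonoidalCategory.whiskerLeft_id, Category.comp_id]

/-- `x ↦ x' ⊗ a g⁻¹ x''` -/
def jG (g : H) : S.A ⟶ S.A ⊗ S.A := S.cm ≫ S.A ◁ G.a g⁻¹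

/-- `x ⊗ y ↦ x (a g y)` -/
def pG (g : H) : S.A ⊗ S.A ⟶ S.A := S.A ◁ G.a g ≫ S.mul

theorem jG_pG (g : H) : G.jG g ≫ G.pG g = 𝟙 S.A := by
  rw [jG, pG, Category.assoc, ← MonoidalCategory.whiskerLeft_comp_assoc, G.inv_a, MonoidalCategory.whiskerLeft_id,
    Category.id_comp, S.sep]

theorem jG_pG_ne {g h : H} (hgh : g ≠ h) : G.jG g ≫ G.pG h = 0 := by
  rw [jG, pG, Category.assoc, ← MonoidalCategory.whiskerLeft_comp_assoc, ← G.a_mul h g⁻¹]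
  exact G.orth _ fun h1 => hgh (mul_inv_eq_one.1 h1).symm

theorem pG_jG (g : H) : G.pG g ≫ G.jG g = S.A ◁ (S.cm ≫ G.a g ▷ S.A) ≫ (α_ _ _ _).inv ≫ S.mul ▷ S.A := by
  rw [jG, pG, Category.assoc, ← Category.assoc S.mul, S.frobL]
  simp only [Category.assoc]
  rw [← whisker_exchange, ← associator_inv_naturality_right_assoc, ← MonoidalCategory.whiskerLeft_comp_assoc,
    ← MonoidalCategory.whiskerLeft_comp_assoc, Category.assoc, a_cm_inv]

theorem pG_assoc {a b ab : H} (h : a * b = ab) :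
    G.pG a ▷ S.A ≫ G.pG ab = (α_ _ _ _).hom ≫ S.A ◁ G.pG b ≫ G.pG a := by
  subst h
  have h1 : S.A ◁ G.pG b ≫ G.pG a = S.A ◁ (G.a a ▷ S.A ≫ S.A ◁ G.a (a * b) ≫ S.mul) ≫ S.mul := by
    rw [pG, pG, ← MonoidalCategory.whiskerLeft_comp_assoc, Category.assoc, mul_a, G.a_mul a b]
    congr 2
    rw [whisker_exchange_assoc, ← MonoidalCategory.whiskerLeft_comp_assoc]
  have h2 : G.pG a ▷ S.A ≫ G.pG (a * b) = (S.A ◁ G.a a) ▷ S.A ≫ (S.A ⊗ S.A) ◁ G.a (a * b) ≫ S.mul ▷ S.A ≫ S.mul := by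
    rw [pG, pG, comp_whiskerRight, Category.assoc, whisker_exchange_assoc]
  rw [h1, h2, S.assoc]
  simp only [MonoidalCategory.whiskerLeft_comp, Category.assoc]
  monoidal

theorem a_mul' (g h : H) : G.a g⁻¹ ▷ S.A ≫ S.mul ≫ G.a h⁻¹ = S.A ◁ G.a g ≫ S.mul ≫ G.a (g * h)⁻¹ := by
  rw [mul_inv_rev, G.a_mul h⁻¹ g⁻¹, ← Category.assoc S.mul (G.a g⁻¹), G.mul_a g⁻¹]
  simp only [Category.assoc]
  rw [whisker_exchange_assoc, ← MonoidalCategory.whiskerLeft_comp_assoc, G.a_inv,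
    MonoidalCategory.whiskerLeft_id, Category.id_comp]

theorem jG_r (g : H) : G.jG g ▷ S.A ≫ (α_ _ _ _).hom ≫ S.A ◁ S.mul = G.pG g ≫ G.jG g := by
  have h1 := G.a_mul' g 1
  rw [inv_one, G.a_one, Category.comp_id, mul_one] at h1
  have h6 : S.mul ≫ S.cm = S.cm ▷ S.A ≫ (α_ _ _ _).hom ≫ S.A ◁ S.mul := S.frobR
  rw [pG, jG, Category.assoc, ← Category.assoc S.mul S.cm, h6, comp_whiskerRight, Category.assoc,
    associator_naturality_middle_assoc, ← MonoidalCategory.whiskerLeft_comp, h1]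
  simp only [MonoidalCategory.whiskerLeft_comp, Category.assoc]
  rw [← associator_naturality_right_assoc, ← whisker_exchange_assoc]

theorem jG_core {g h gh : H} (e : g * h = gh) :
    G.jG g ▷ S.A ≫ (S.A ⊗ S.A) ◁ G.jG h ≫ (α_ S.A S.A (S.A ⊗ S.A)).hom ≫ S.A ◁ (α_ S.A S.A S.A).inv ≫
      S.A ◁ ((S.mul ≫ S.cn) ▷ S.A ≫ (λ_ S.A).hom) = G.pG g ≫ G.jG gh := by
  subst e
  have h1 : S.A ◁ G.jG h ≫ (α_ S.A S.A S.A).inv ≫ (S.mul ≫ S.cn) ▷ S.A ≫ (λ_ S.A).hom = S.mul ≫ G.a h⁻¹ := by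
    have h2 : S.A ◁ S.cm ≫ (α_ S.A S.A S.A).inv ≫ (S.mul ≫ S.cn) ▷ S.A = S.mul ≫ (λ_ _).inv := by
      rw [comp_whiskerRight, ← Category.assoc (α_ S.A S.A S.A).inv, ← Category.assoc (S.A ◁ S.cm),
        ← S.frobL, Category.assoc, S.cn_cm]
    have h3 : S.A ◁ G.jG h ≫ (α_ S.A S.A S.A).inv ≫ (S.mul ≫ S.cn) ▷ S.A ≫ (λ_ S.A).hom =
        (S.A ◁ S.cm ≫ (α_ S.A S.A S.A).inv ≫ (S.mul ≫ S.cn) ▷ S.A) ≫ (λ_ S.A).hom ≫ G.a h⁻¹ := by
      rw [jG, MonoidalCategory.whiskerLeft_comp, Category.assoc, associator_inv_naturality_right_assoc,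
        whisker_exchange_assoc, leftUnitor_naturality]
      simp only [Category.assoc]
    rw [h3, h2, Category.assoc, Iso.inv_hom_id_assoc]
  have h4 : (S.A ⊗ S.A) ◁ G.jG h ≫ (α_ S.A S.A (S.A ⊗ S.A)).hom ≫ S.A ◁ (α_ S.A S.A S.A).inv ≫
      S.A ◁ ((S.mul ≫ S.cn) ▷ S.A ≫ (λ_ S.A).hom) = (α_ _ _ _).hom ≫ S.A ◁ (S.mul ≫ G.a h⁻¹) := by
    rw [← h1]
    simp only [MonoidalCategory.whiskerLeft_comp]
    rw [associator_naturality_right_assoc]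
  rw [h4, jG, comp_whiskerRight, Category.assoc, associator_naturality_middle_assoc,
    ← MonoidalCategory.whiskerLeft_comp]
  rw [G.a_mul' g h, pG, jG]
  have h6 : S.mul ≫ S.cm = S.cm ▷ S.A ≫ (α_ _ _ _).hom ≫ S.A ◁ S.mul := S.frobR
  rw [Category.assoc, ← Category.assoc S.mul S.cm, h6]
  simp only [MonoidalCategory.whiskerLeft_comp, Category.assoc]
  rw [← associator_naturality_right_assoc, ← whisker_exchange_assoc]

end GalG

end

section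

variable {K : Type w} [Field K] {C : Type u} [Category.{v} C] [Preadditive C] [Linear K C] [MonoidalCategory C]
  [MonoidalPreadditive C] {S : SFrob C} {H : Type} [Group H] [Fintype H]

theorem GalG.sum_pG_jG (G : GalG K S H) : ∑ g, G.pG g ≫ G.jG g = 𝟙 (S.A ⊗ S.A) := by
  have h1 : ∑ g, S.A ◁ (S.cm ≫ G.a g ▷ S.A) = S.A ◁ (S.cm ≫ (S.cn ≫ S.one) ▷ S.A) := by
    rw [← G.sum, sum_whiskerRight, Preadditive.comp_sum, whiskerLeft_sum]
  simp only [G.pG_jG]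
  rw [← Preadditive.sum_comp, h1, comp_whiskerRight, ← Category.assoc S.cm, S.cn_cm,
    MonoidalCategory.whiskerLeft_comp, Category.assoc, associator_inv_naturality_middle_assoc, ← comp_whiskerRight,
    S.mul_one]
  simp

end

end Pool.Agent.SFC
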