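import Pool.Agent.SFH.TwA
import Pool.Agent.SFC.AMon
import Pool.Agent.SFC.AMop
import Pool.Agent.SFC.AVb

/-!
# SFH/TwB: the twisted bimodules `T g`

`T g = A` with right action `x · b = x (a g b)`; `T g ⊗ T h ≅ T (g h)`.
-/

set_option autoImplicit false

noncomputable section

open CategoryTheory MonoidalCategory
open scoped BigOperators

namespace Pool.Agent.SFC

universe v u w

section

variable {K : Type w} [Field K] {C : Type u} [Category.{v} C] [Preadditive C] [Linear K C] [MonoidalCategory C]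
  {S : SFrob C} {H : Type} [Group H] [Fintype H]

namespace GalG

variable (G : GalG K S H)

/-- the bimodule `A` with right action twisted by `a g` -/
@[reducible] def tw (g : H) : Bim S where
  X := S.A
  l := S.mul
  r := S.A ◁ G.a g ≫ S.mul
  ll := S.assoc
  rr := by
    have h1 : S.A ◁ (S.mul ≫ G.a g) = S.A ◁ (G.a g ▷ S.A ≫ S.A ◁ G.a g ≫ S.mul) := by rw [← G.mul_a]
    have h2 : S.A ◁ S.mul ≫ S.mul = (α_ _ _ _).inv ≫ S.mul ▷ S.A ≫ S.mul := by rw [S.assoc]; simp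
    rw [← MonoidalCategory.whiskerLeft_comp_assoc, h1]
    simp only [MonoidalCategory.whiskerLeft_comp, comp_whiskerRight, Category.assoc]
    rw [h2, ← whisker_exchange_assoc]
    monoidal
  lr := by
    have h2 : S.mul ▷ S.A ≫ S.A ◁ G.a g ≫ S.mul = (S.A ⊗ S.A) ◁ G.a g ≫ S.mul ▷ S.A ≫ S.mul := by
      rw [whisker_exchange_assoc]
    rw [h2, S.assoc]
    simp only [MonoidalCategory.whiskerLeft_comp, Category.assoc]
    monoidal
  uu := by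
    have h2 := S.one_mul
    have h3 := S.mul_one
    rw [h2, ← MonoidalCategory.whiskerLeft_comp_assoc, G.one, h3]
    simp

theorem tw_p (g : H) : (G.tw g).p = 𝟙 S.A := by
  show (λ_ S.A).inv ≫ S.one ▷ S.A ≫ S.mul = 𝟙 S.A
  rw [S.one_mul]
  simp

theorem tw_sL (g : H) : (G.tw g).sL = S.cm := by
  rw [← S.cp_r]
  rfl

theorem e_tw (g h : H) : Bim.e (G.tw g) (G.tw h) = G.pG g ≫ G.jG g := by
  rw [pG_jG, Bim.e, tw_sL]
  show S.A ◁ S.cm ≫ (α_ _ _ _).inv ≫ (S.A ◁ G.a g ≫ S.mul) ▷ S.A = _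
  simp only [MonoidalCategory.whiskerLeft_comp, comp_whiskerRight, Category.assoc]
  rw [associator_inv_naturality_middle_assoc]

theorem e_pG (g h : H) : Bim.e (G.tw g) (G.tw h) ≫ G.pG g = G.pG g := by
  rw [e_tw]
  show (G.pG g ≫ G.jG g) ≫ G.pG g = G.pG g
  rw [Category.assoc, jG_pG, Category.comp_id]

theorem jG_e (g h : H) : G.jG g ≫ Bim.e (G.tw g) (G.tw h) = G.jG g := by
  rw [e_tw]
  show G.jG g ≫ (G.pG g ≫ G.jG g) = G.jG g
  rw [← Category.assoc, jG_pG, Category.id_comp]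

theorem pG_l (g h gh : H) (_e : g * h = gh) :
    S.A ◁ G.pG g ≫ (G.tw gh).l = Bim.lt (G.tw g) (G.tw h) ≫ G.pG g := by
  show S.A ◁ G.pG g ≫ S.mul = ((α_ S.A S.A S.A).inv ≫ S.mul ▷ S.A) ≫ G.pG g
  have h2 : S.A ◁ S.mul ≫ S.mul = (α_ _ _ _).inv ≫ S.mul ▷ S.A ≫ S.mul := by rw [S.assoc]; simp
  rw [pG, MonoidalCategory.whiskerLeft_comp, Category.assoc, h2, Category.assoc, ← whisker_exchange_assoc]
  simp

theorem pG_r (g h gh : H) (e : g * h = gh) :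
    G.pG g ▷ S.A ≫ (G.tw gh).r = Bim.rt (G.tw g) (G.tw h) ≫ G.pG g := by
  show G.pG g ▷ S.A ≫ G.pG gh = ((α_ S.A S.A S.A).hom ≫ S.A ◁ G.pG h) ≫ G.pG g
  rw [G.pG_assoc e, Category.assoc]

theorem jG_l (g h gh : H) (_e : g * h = gh) :
    S.A ◁ G.jG g ≫ Bim.lt (G.tw g) (G.tw h) = (G.tw gh).l ≫ G.jG g := by
  show S.A ◁ G.jG g ≫ (α_ S.A S.A S.A).inv ≫ S.mul ▷ S.A = S.mul ≫ G.jG g
  rw [jG, ← Category.assoc S.mul, S.frobL]
  simp only [MonoidalCategory.whiskerLeft_comp, Category.assoc]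
  rw [associator_inv_naturality_right_assoc, whisker_exchange]

/-- the isomorphism `T g ⊗ T h ≅ T (g h)` -/
def tm (g h gh : H) (e : g * h = gh) : Bim.ten (G.tw g) (G.tw h) ≅ G.tw gh where
  hom := Bim.homOut (G.pG g) (G.e_pG g h) (G.pG_l g h gh e) (G.pG_r g h gh e) (by
    rw [tw_p]
    exact Category.comp_id _)
  inv := Bim.homIn (G.jG g) (G.jG_e g h) (G.jG_l g h gh e) (by
    have h1 : G.jG g ▷ S.A ≫ Bim.rt (G.tw g) (G.tw h) ≫ G.pG g = (G.tw gh).r := by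
      rw [← G.pG_r g h gh e, ← comp_whiskerRight_assoc, jG_pG, id_whiskerRight, Category.id_comp]
    have h2 : G.jG g ▷ S.A ≫ Bim.rt (G.tw g) (G.tw h) =
        G.jG g ▷ S.A ≫ Bim.rt (G.tw g) (G.tw h) ≫ Bim.e (G.tw g) (G.tw h) := by
      rw [Bim.rt_e, ← comp_whiskerRight_assoc]
      congr 2
      exact (G.jG_e g h).symm
    rw [h2, ← h1, e_tw]
    show G.jG g ▷ S.A ≫ Bim.rt (G.tw g) (G.tw h) ≫ (G.pG g ≫ G.jG g) = (G.jG g ▷ S.A ≫ Bim.rt (G.tw g) (G.tw h) ≫ G.pG g) ≫ G.jG g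
    simp only [Category.assoc])
  hom_inv_id := Bim.hom_ext ((Bim.ten_p _ _).trans (G.e_tw g h)).symm
  inv_hom_id := Bim.hom_ext ((G.jG_pG g).trans (G.tw_p gh).symm)

@[simp] theorem tm_hom_f (g h gh : H) (e : g * h = gh) : Bim.Hom.f (G.tm g h gh e).hom = G.pG g := rfl
@[simp] theorem tm_inv_f (g h gh : H) (e : g * h = gh) : Bim.Hom.f (G.tm g h gh e).inv = G.jG g := rfl

theorem pG_one : G.pG 1 = S.mul := by
  rw [pG, G.a_one, MonoidalCategory.whiskerLeft_id, Category.id_comp]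

/-- the isomorphism `1 ≅ T 1` -/
def tu : Bim.unt S ≅ G.tw 1 where
  hom := {
    f := 𝟙 S.A
    hl := by
      show S.A ◁ 𝟙 S.A ≫ S.mul = S.mul ≫ 𝟙 S.A
      simp
    hr := by
      show 𝟙 S.A ▷ S.A ≫ G.pG 1 = S.mul ≫ 𝟙 S.A
      rw [pG_one]
      simp
    hp := by
      rw [tw_p]
      exact Category.comp_id _ }
  inv := {
    f := 𝟙 S.A
    hl := by
      show S.A ◁ 𝟙 S.A ≫ S.mul = S.mul ≫ 𝟙 S.A
      simp
    hr := by
      show 𝟙 S.A ▷ S.A ≫ S.mul = G.pG 1 ≫ 𝟙 S.A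
      rw [pG_one]
      simp
    hp := by
      rw [Bim.unt_p]
      exact Category.comp_id _ }
  hom_inv_id := Bim.hom_ext ((Category.comp_id _).trans (Bim.unt_p S).symm)
  inv_hom_id := Bim.hom_ext ((Category.comp_id _).trans (G.tw_p 1).symm)

@[simp] theorem tu_hom_f : Bim.Hom.f G.tu.hom = 𝟙 S.A := rfl

end GalG

end

section

variable {K : Type w} [Field K] {C : Type u} [Category.{v} C] [Preadditive C] [Linear K C] [MonoidalCategory C]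
  [MonoidalPreadditive C] [MonoidalLinear K C] {S : SFrob C} {H : Type} [Group H] [Fintype H]

theorem GalG.tw_ne (G : GalG K S H) (g : H) (hg : g ≠ 1) (f : Bim.unt S ⟶ G.tw g) : f = 0 := by
  obtain ⟨c, hc⟩ := G.conn (S.one ≫ Bim.Hom.f f)
  have hl : S.A ◁ Bim.Hom.f f ≫ S.mul = S.mul ≫ Bim.Hom.f f := f.hl
  have hr : Bim.Hom.f f ▷ S.A ≫ G.pG g = S.mul ≫ Bim.Hom.f f := f.hr
  have h1 : Bim.Hom.f f = c • 𝟙 S.A := by
    have h2 : Bim.Hom.f f = (ρ_ S.A).inv ≫ S.A ◁ S.one ≫ S.mul ≫ Bim.Hom.f f := by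
      rw [← Category.assoc (S.A ◁ S.one), S.mul_one, Iso.inv_hom_id_assoc]
    rw [h2, ← hl, ← MonoidalCategory.whiskerLeft_comp_assoc, hc, MonoidalLinear.whiskerLeft_smul, Linear.smul_comp,
      S.mul_one, Linear.comp_smul, Iso.inv_hom_id]
  have h3 : Bim.Hom.f f = c • G.a g := by
    have h2 : Bim.Hom.f f = (λ_ S.A).inv ≫ S.one ▷ S.A ≫ S.mul ≫ Bim.Hom.f f := by
      rw [← Category.assoc (S.one ▷ S.A), S.one_mul, Iso.inv_hom_id_assoc]
    rw [h2, ← hr, ← comp_whiskerRight_assoc, hc, MonoidalLinear.smul_whiskerRight, Linear.smul_comp, GalG.pG,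
      ← whisker_exchange_assoc, S.one_mul, Linear.comp_smul, leftUnitor_naturality, Iso.inv_hom_id_assoc]
  apply Bim.hom_ext
  show Bim.Hom.f f = 0
  have h4 := G.orth g hg
  have h5 : c • G.a g = c • 𝟙 S.A := h3.symm.trans h1
  have h6 : c • (S.cm ≫ S.A ◁ G.a g ≫ S.mul) = c • 𝟙 S.A := by
    rw [← Linear.comp_smul, ← Linear.smul_comp, ← MonoidalLinear.whiskerLeft_smul, h5,
      MonoidalLinear.whiskerLeft_smul, Linear.smul_comp, MonoidalCategory.whiskerLeft_id, Category.id_comp,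
      Linear.comp_smul, S.sep]
  rw [h1, ← h6, h4, smul_zero]

/-- the group-like bimodules -/
def GalG.th (G : GalG K S H) : GlG (Bim S) H where
  T := G.tw
  u := G.tu
  m := G.tm
  unitL a h := by
    apply Bim.hom_ext
    show Bim.Hom.f (Bim.wR G.tu.hom (G.tw a) ≫ (G.tm 1 a a h).hom) = Bim.Hom.f (Bim.la (G.tw a)).hom
    rw [Bim.comp_f, Bim.wR_f, G.tu_hom_f, G.tm_hom_f, Bim.la_hom, Bim.im_f, Bim.ten_p]
    show (Bim.e (Bim.unt S) (G.tw a) ≫ 𝟙 S.A ▷ S.A) ≫ G.pG 1 = Bim.e (Bim.unt S) (G.tw a) ≫ S.mul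
    rw [id_whiskerRight, G.pG_one]
    exact congrArg (fun t => t ≫ S.mul) (Category.comp_id _)
  unitR a h := by
    apply Bim.hom_ext
    show Bim.Hom.f (Bim.wL (G.tw a) G.tu.hom ≫ (G.tm a 1 a h).hom) = Bim.Hom.f (Bim.ra (G.tw a)).hom
    rw [Bim.comp_f, Bim.wL_f, G.tu_hom_f, G.tm_hom_f, Bim.ra_hom, Bim.im_f, Bim.ten_p]
    show (Bim.e (G.tw a) (Bim.unt S) ≫ S.A ◁ 𝟙 S.A) ≫ G.pG a = Bim.e (G.tw a) (Bim.unt S) ≫ G.pG a
    rw [MonoidalCategory.whiskerLeft_id]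
    exact congrArg (fun t => t ≫ G.pG a) (Category.comp_id _)
  assoc a b c ab bc abc h1 h2 h3 h4 := by
    apply Bim.hom_ext
    show Bim.Hom.f (Bim.wR (G.tm a b ab h1).hom (G.tw c) ≫ (G.tm ab c abc h2).hom) =
      Bim.Hom.f ((Bim.al (G.tw a) (G.tw b) (G.tw c)).hom ≫ Bim.wL (G.tw a) (G.tm b c bc h3).hom ≫
        (G.tm a bc abc h4).hom)
    rw [Bim.comp_f, Bim.comp_f, Bim.comp_f, Bim.wR_f, Bim.wL_f, G.tm_hom_f, G.tm_hom_f, G.tm_hom_f, G.tm_hom_f,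
      Bim.al_hom, Bim.im_f, Bim.ten_p]
    show (Bim.e (Bim.ten (G.tw a) (G.tw b)) (G.tw c) ≫ G.pG a ▷ S.A) ≫ G.pG ab =
      (Bim.e (Bim.ten (G.tw a) (G.tw b)) (G.tw c) ≫ (α_ S.A S.A S.A).hom) ≫
        (Bim.e (G.tw a) (Bim.ten (G.tw b) (G.tw c)) ≫ S.A ◁ G.pG b) ≫ G.pG a
    have h5 := Bim.e_al (G.tw a) (G.tw b) (G.tw c)
    have h6 : (Bim.e (Bim.ten (G.tw a) (G.tw b)) (G.tw c) ≫ (α_ S.A S.A S.A).hom) ≫
        Bim.e (G.tw a) (Bim.ten (G.tw b) (G.tw c)) =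
          Bim.e (Bim.ten (G.tw a) (G.tw b)) (G.tw c) ≫ (α_ S.A S.A S.A).hom := by
      have h7 : Bim.e (Bim.ten (G.tw a) (G.tw b)) (G.tw c) ≫ (α_ S.A S.A S.A).hom =
        (α_ S.A S.A S.A).hom ≫ Bim.e (G.tw a) (Bim.ten (G.tw b) (G.tw c)) := h5
      rw [h7, Category.assoc, Bim.e_e]
    have h8 := congrArg (fun t => t ≫ S.A ◁ G.pG b ≫ G.pG a) h6
    simp only [Category.assoc] at h8 ⊢
    rw [h8, G.pG_assoc h1]
  ne := G.tw_ne

end

end Pool.Agent.SFC
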