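import Pool.Agent.SFH.TwB
import Pool.Agent.SFC.AVc

/-!
# SFH/TwC: `V 1` is the direct sum of the bimodules `T g`
-/

set_option autoImplicit false

noncomputable section

open CategoryTheory MonoidalCategory
open scoped BigOperators

namespace Pool.Agent.SFC

universe v u w

section

variable {K : Type w} [Field K] {C : Type u} [Category.{v} C] [Preadditive C] [Linear K C] [MonoidalCategory C]
  {S : SFrob C} {H : Type} [Group H] [Fintype H]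

namespace GalG

variable (G : GalG K S H)

/-- the inclusion `T g ⟶ V 1` -/
def kG (g : H) : G.tw g ⟶ vO S (𝟙_ C) where
  f := G.jG g ≫ S.A ◁ (λ_ S.A).inv
  hl := by
    show S.A ◁ (G.jG g ≫ S.A ◁ (λ_ S.A).inv) ≫ (α_ S.A S.A (𝟙_ C ⊗ S.A)).inv ≫ S.mul ▷ (𝟙_ C ⊗ S.A) =
      S.mul ≫ G.jG g ≫ S.A ◁ (λ_ S.A).inv
    have h1 : S.A ◁ G.jG g ≫ (α_ S.A S.A S.A).inv ≫ S.mul ▷ S.A = S.mul ≫ G.jG g := G.jG_l g 1 g (mul_one g)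
    rw [MonoidalCategory.whiskerLeft_comp, Category.assoc, associator_inv_naturality_right_assoc, whisker_exchange,
      ← Category.assoc S.mul, ← h1]
    simp only [Category.assoc]
  hr := by
    show (G.jG g ≫ S.A ◁ (λ_ S.A).inv) ▷ S.A ≫ (α_ S.A (𝟙_ C ⊗ S.A) S.A).hom ≫
      S.A ◁ ((α_ (𝟙_ C) S.A S.A).hom ≫ 𝟙_ C ◁ S.mul) = G.pG g ≫ G.jG g ≫ S.A ◁ (λ_ S.A).inv
    rw [← Category.assoc (G.pG g), ← G.jG_r]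
    simp only [comp_whiskerRight, MonoidalCategory.whiskerLeft_comp, Category.assoc]
    monoidal
  hp := by
    rw [vO_p]
    exact Category.comp_id _

/-- the projection `V 1 ⟶ T g` -/
def qG (g : H) : vO S (𝟙_ C) ⟶ G.tw g where
  f := S.A ◁ (λ_ S.A).hom ≫ G.pG g
  hl := by
    show S.A ◁ (S.A ◁ (λ_ S.A).hom ≫ G.pG g) ≫ S.mul =
      ((α_ S.A S.A (𝟙_ C ⊗ S.A)).inv ≫ S.mul ▷ (𝟙_ C ⊗ S.A)) ≫ S.A ◁ (λ_ S.A).hom ≫ G.pG g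
    have h1 : S.A ◁ G.pG g ≫ S.mul = ((α_ S.A S.A S.A).inv ≫ S.mul ▷ S.A) ≫ G.pG g := G.pG_l g 1 g (mul_one g)
    rw [MonoidalCategory.whiskerLeft_comp, Category.assoc, h1]
    simp only [Category.assoc]
    rw [← whisker_exchange_assoc, associator_inv_naturality_right_assoc]
  hr := by
    show (S.A ◁ (λ_ S.A).hom ≫ G.pG g) ▷ S.A ≫ G.pG g =
      ((α_ S.A (𝟙_ C ⊗ S.A) S.A).hom ≫ S.A ◁ ((α_ (𝟙_ C) S.A S.A).hom ≫ 𝟙_ C ◁ S.mul)) ≫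
        S.A ◁ (λ_ S.A).hom ≫ G.pG g
    have h1 := G.pG_assoc (mul_one g)
    rw [G.pG_one] at h1
    rw [comp_whiskerRight, Category.assoc, h1]
    simp only [MonoidalCategory.whiskerLeft_comp, Category.assoc]
    rw [← MonoidalCategory.whiskerLeft_comp_assoc S.A (𝟙_ C ◁ S.mul), leftUnitor_naturality]
    monoidal
  hp := by
    rw [tw_p]
    exact Category.comp_id _

@[simp] theorem kG_f (g : H) : Bim.Hom.f (G.kG g) = G.jG g ≫ S.A ◁ (λ_ S.A).inv := rfl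
@[simp] theorem qG_f (g : H) : Bim.Hom.f (G.qG g) = S.A ◁ (λ_ S.A).hom ≫ G.pG g := rfl

theorem kG_qG (g : H) : G.kG g ≫ G.qG g = 𝟙 (G.tw g) := by
  apply Bim.hom_ext
  show (G.jG g ≫ S.A ◁ (λ_ S.A).inv) ≫ S.A ◁ (λ_ S.A).hom ≫ G.pG g = (G.tw g).p
  rw [Category.assoc, ← MonoidalCategory.whiskerLeft_comp_assoc, Iso.inv_hom_id, MonoidalCategory.whiskerLeft_id,
    Category.id_comp, jG_pG]
  exact (G.tw_p g).symm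

theorem kG_mul (g h gh : H) (e : g * h = gh) :
    (G.kG g ⊗ₘ G.kG h) ≫ vM S (𝟙_ C) (𝟙_ C) ≫ vH S (λ_ (𝟙_ C)).hom = (G.tm g h gh e).hom ≫ G.kG gh := by
  apply Bim.hom_ext
  have h7 : (G.jG g ≫ S.A ◁ (λ_ S.A).inv) ▷ S.A ≫ (S.A ⊗ (𝟙_ C ⊗ S.A)) ◁ (G.jG h ≫ S.A ◁ (λ_ S.A).inv) ≫
      vmu S (𝟙_ C) (𝟙_ C) ≫ S.A ◁ (λ_ (𝟙_ C)).hom ▷ S.A = G.pG g ≫ G.jG gh ≫ S.A ◁ (λ_ S.A).inv := by
    rw [← Category.assoc (G.pG g), ← G.jG_core e]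
    have h8 := whisker_exchange (S.A ◁ (λ_ S.A).inv) (G.jG h)
    have h9 := whisker_exchange (S.mul ≫ S.cn) (λ_ S.A).inv
    simp only [vmu, bt, gm, Iso.trans_hom, Iso.trans_inv, whiskerRightIso_hom, whiskerLeftIso_hom,
      whiskerLeftIso_inv, Iso.symm_hom, Iso.symm_inv]
    calc _ = G.jG g ▷ S.A ≫ ((S.A ◁ (λ_ S.A).inv) ▷ S.A ≫ (S.A ⊗ (𝟙_ C ⊗ S.A)) ◁ G.jG h) ⊗≫
          S.A ◁ ((S.A ⊗ S.A) ◁ (λ_ S.A).inv ≫ (S.mul ≫ S.cn) ▷ (𝟙_ C ⊗ S.A)) ⊗≫ 𝟙 _ := by monoidal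
      _ = _ := by rw [← h8, h9]; monoidal
  have key : ∀ (E0 : S.A ⊗ S.A ⟶ S.A ⊗ S.A) (E1 : (S.A ⊗ (𝟙_ C ⊗ S.A)) ⊗ S.A ⟶ (S.A ⊗ (𝟙_ C ⊗ S.A)) ⊗ S.A)
      (E2 : (S.A ⊗ (𝟙_ C ⊗ S.A)) ⊗ (S.A ⊗ (𝟙_ C ⊗ S.A)) ⟶ (S.A ⊗ (𝟙_ C ⊗ S.A)) ⊗ (S.A ⊗ (𝟙_ C ⊗ S.A))),
      E1 ≫ (S.A ⊗ (𝟙_ C ⊗ S.A)) ◁ (G.jG h ≫ S.A ◁ (λ_ S.A).inv) =
        (S.A ⊗ (𝟙_ C ⊗ S.A)) ◁ (G.jG h ≫ S.A ◁ (λ_ S.A).inv) ≫ E2 →
      E2 ≫ vmu S (𝟙_ C) (𝟙_ C) = vmu S (𝟙_ C) (𝟙_ C) → E0 ≫ G.pG g = G.pG g →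
      ((E0 ≫ (G.jG g ≫ S.A ◁ (λ_ S.A).inv) ▷ S.A) ≫
        (E1 ≫ (S.A ⊗ (𝟙_ C ⊗ S.A)) ◁ (G.jG h ≫ S.A ◁ (λ_ S.A).inv))) ≫
          vmu S (𝟙_ C) (𝟙_ C) ≫ S.A ◁ (λ_ (𝟙_ C)).hom ▷ S.A = G.pG g ≫ G.jG gh ≫ S.A ◁ (λ_ S.A).inv := by
    intro E0 E1 E2 h3 h4 h6
    rw [h3]
    simp only [Category.assoc]
    rw [← Category.assoc E2, h4]
    rw [h7, ← Category.assoc, h6]
  exact key _ _ _ (Bim.e_f (vO S (𝟙_ C)) (G.kG h)).symm (e_vmu S _ _) (G.e_pG g h)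

theorem k_one : vE S = G.tu.hom ≫ G.kG 1 := by
  apply Bim.hom_ext
  show S.cm ≫ S.A ◁ (λ_ S.A).inv = 𝟙 S.A ≫ G.jG 1 ≫ S.A ◁ (λ_ S.A).inv
  rw [jG, inv_one, G.a_one, MonoidalCategory.whiskerLeft_id, Category.comp_id, Category.id_comp]

end GalG

end

section

variable {K : Type w} [Field K] {C : Type u} [Category.{v} C] [Preadditive C] [Linear K C] [MonoidalCategory C]
  [MonoidalPreadditive C] [MonoidalLinear K C] {S : SFrob C} {H : Type} [Group H] [Fintype H]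

namespace GalG

variable (G : GalG K S H)

omit [MonoidalLinear K C] in
theorem kG_qG_ne {g h : H} (hgh : g ≠ h) : G.kG g ≫ G.qG h = 0 := by
  apply Bim.hom_ext
  show (G.jG g ≫ S.A ◁ (λ_ S.A).inv) ≫ S.A ◁ (λ_ S.A).hom ≫ G.pG h = 0
  rw [Category.assoc, ← MonoidalCategory.whiskerLeft_comp_assoc, Iso.inv_hom_id, MonoidalCategory.whiskerLeft_id,
    Category.id_comp, G.jG_pG_ne hgh]

theorem sum_qG_kG : ∑ g, G.qG g ≫ G.kG g = 𝟙 (vO S (𝟙_ C)) := by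
  apply Bim.hom_ext
  refine (map_sum (Bim.fLin (K := K) (vO S (𝟙_ C)) (vO S (𝟙_ C))) (fun g => G.qG g ≫ G.kG g) Finset.univ).trans ?_
  have h2 : ∀ g, Bim.Hom.f (G.qG g ≫ G.kG g) = S.A ◁ (λ_ S.A).hom ≫ (G.pG g ≫ G.jG g) ≫ S.A ◁ (λ_ S.A).inv := by
    intro g
    show (S.A ◁ (λ_ S.A).hom ≫ G.pG g) ≫ G.jG g ≫ S.A ◁ (λ_ S.A).inv = _
    simp only [Category.assoc]
  have h3 : ∑ g, S.A ◁ (λ_ S.A).hom ≫ (G.pG g ≫ G.jG g) ≫ S.A ◁ (λ_ S.A).inv = 𝟙 (S.A ⊗ (𝟙_ C ⊗ S.A)) := by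
    rw [← Preadditive.comp_sum, ← Preadditive.sum_comp, G.sum_pG_jG,
      Category.id_comp, ← MonoidalCategory.whiskerLeft_comp, Iso.hom_inv_id, MonoidalCategory.whiskerLeft_id]
  exact (Finset.sum_congr rfl fun g _ => h2 g).trans (h3.trans (vO_p S (𝟙_ C)).symm)

omit [MonoidalLinear K C] in
theorem kG_vT {g : H} (hg : g ≠ 1) : G.kG g ≫ vT S = 0 := by
  apply Bim.hom_ext
  show (G.jG g ≫ S.A ◁ (λ_ S.A).inv) ≫ S.A ◁ (λ_ S.A).hom ≫ S.mul = 0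
  rw [Category.assoc, ← MonoidalCategory.whiskerLeft_comp_assoc, Iso.inv_hom_id, MonoidalCategory.whiskerLeft_id,
    Category.id_comp, ← G.pG_one, G.jG_pG_ne hg]

end GalG

end

end Pool.Agent.SFC
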