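import Pool.Agent.SFC.X2b
import Pool.Agent.SFH.Defs

/-!
# SFH/X2G: the grading of the category of bimodules over a Galois algebra in the trivial component

The same proofs as in `SFC/X2a`, `SFC/X2b`, for `GalFG`.
-/

set_option autoImplicit false

noncomputable section

open CategoryTheory MonoidalCategory

namespace Pool.Agent.SFC

open Pool.Agent.NFG

universe v u v' u' w

section

variable {K : Type w} [Field K] {C : Type u} [Category.{v} C] [Preadditive C] [Linear K C] [MonoidalCategory C]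
  [MonoidalPreadditive C] [MonoidalLinear K C] {N : Type u'} [Category.{v'} N] [Preadditive N] [Linear K N]
  [MonoidalCategory N] [MonoidalPreadditive N] [MonoidalLinear K N] {V : C ⥤ N} [V.LaxMonoidal] [V.OplaxMonoidal]
  {H : Type} [Group H] [Fintype H] {ι : Type} [Fintype ι] [DecidableEq ι]

private theorem X2G_sum (G : GalFG K V H) {x y : C} {m : ℕ} (f : Fin m → (x ⟶ y)) :
    V.map (∑ a, f a) = ∑ a, V.map (f a) :=
  map_sum (AddMonoidHom.mk' (fun g : x ⟶ y => V.map g) (fun g h => G.map_add g h)) f Finset.univ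

private theorem galG_ne (G : GalFG K V H) (F : Fus K C ι) {Z : N} (h : 𝟙 Z ≠ 0) : ∃ (k : ι) (f : Z ⟶ V.obj (F.S k)), f ≠ 0 := by
  obtain ⟨x, i, p, hip⟩ := G.retr Z
  obtain ⟨m, k, q, j, -, -, hs⟩ := F.dec x
  by_contra hne
  push Not at hne
  apply h
  have h1 : 𝟙 (V.obj x) = ∑ a, V.map (q a) ≫ V.map (j a) := by
    rw [← V.map_id, ← hs, X2G_sum G]
    exact Finset.sum_congr rfl fun a _ => V.map_comp _ _
  rw [← hip, ← Category.comp_id i, h1, Preadditive.comp_sum]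
  have h2 : ∀ a, i ≫ V.map (q a) ≫ V.map (j a) = 0 := by
    intro a
    rw [← Category.assoc, hne (k a) (i ≫ V.map (q a)), Limits.zero_comp]
  rw [Finset.sum_eq_zero fun a _ => h2 a, Limits.zero_comp]

theorem galG_ne' (G : GalFG K V H) (F : Fus K C ι) {Z : N} (h : 𝟙 Z ≠ 0) : ∃ (k : ι) (f : V.obj (F.S k) ⟶ Z), f ≠ 0 := by
  obtain ⟨x, i, p, hip⟩ := G.retr Z
  obtain ⟨m, k, q, j, -, -, hs⟩ := F.dec x
  by_contra hne
  push Not at hne
  apply h
  have h1 : 𝟙 (V.obj x) = ∑ a, V.map (q a) ≫ V.map (j a) := by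
    rw [← V.map_id, ← hs, X2G_sum G]
    exact Finset.sum_congr rfl fun a _ => V.map_comp _ _
  rw [← hip, ← Category.id_comp p, h1, Preadditive.sum_comp, Preadditive.comp_sum]
  refine Finset.sum_eq_zero fun a _ => ?_
  rw [Category.assoc, hne (k a) (V.map (j a) ≫ p), Limits.comp_zero, Limits.comp_zero]

end

section

variable {K : Type w} [Field K] {C : Type u} [Category.{v} C] [Preadditive C] [Linear K C] [MonoidalCategory C]
  [MonoidalPreadditive C] [MonoidalLinear K C] {D : Type u'} [Category.{v'} D] [Preadditive D] [Linear K D]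
  [MonoidalCategory D] {G : D ⥤ C} [G.Monoidal] {ιC : Type} [Fintype ιC] [DecidableEq ιC] {FC : Fus K C ιC} {Q : Type}
  [Group Q] {deg : ιC → Q}

variable {C' : Type*} [Category* C'] [Preadditive C'] [Linear K C'] [MonoidalCategory C'] [MonoidalPreadditive C']
  [MonoidalLinear K C'] {VC : C ⥤ C'} [VC.LaxMonoidal] [VC.OplaxMonoidal] {H : Type} [Group H] [Fintype H] {ι' : Type} [Fintype ι']
  [DecidableEq ι']

private theorem X2G_VV (h : IsExt K G FC Q deg) (GC : GalFG K VC H)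
    (hA : ∃ a : D, Nonempty (GC.A ≅ G.obj a)) {k l : ιC} {f : VC.obj (FC.S k) ⟶ VC.obj (FC.S l)}
    (hf : f ≠ 0) : deg k = deg l := by
  have hdA : Deg FC deg GC.A 1 := by
    obtain ⟨a, ⟨e⟩⟩ := hA
    exact deg_iso e.symm (fun i f hf => h.one a i f hf)
  obtain ⟨e⟩ := GC.HH (FC.S k) (FC.S l)
  have h1 : e f ≠ 0 := by
    intro h0
    exact hf (by rw [← e.symm_apply_apply f, h0, map_zero])
  have h2 := deg_tensor h hdA (deg_tensor h (deg_S FC deg l) hdA) k (e f) h1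
  rwa [mul_one, one_mul] at h2

private theorem X2G_comp (GC : GalFG K VC H) {x : C} {Z : C'} {g : VC.obj x ⟶ Z} (hg : g ≠ 0) :
    ∃ (i : ιC) (j : FC.S i ⟶ x), j ≠ 0 ∧ VC.map j ≫ g ≠ 0 := by
  obtain ⟨m, k, p, j, hjp, -, hs⟩ := FC.dec x
  obtain ⟨a, ha⟩ : ∃ a, VC.map (j a) ≫ g ≠ 0 := by
    by_contra hcon
    push Not at hcon
    apply hg
    have h1 : 𝟙 (VC.obj x) = ∑ a, VC.map (p a) ≫ VC.map (j a) := by
      rw [← VC.map_id, ← hs]
      refine (map_sum (AddMonoidHom.mk' (fun g : x ⟶ x => VC.map g) (fun g h => GC.map_add g h))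
        (fun a => p a ≫ j a) Finset.univ).trans ?_
      exact Finset.sum_congr rfl fun a _ => VC.map_comp _ _
    rw [← Category.id_comp g, h1, Preadditive.sum_comp]
    refine Finset.sum_eq_zero fun a _ => ?_
    rw [Category.assoc, hcon a, Limits.comp_zero]
  refine ⟨k a, j a, fun h0 => FC.one_ne (k a) ?_, ha⟩
  rw [← hjp a, h0, Limits.zero_comp]

theorem exists_degG (h : IsExt K G FC Q deg) (GC : GalFG K VC H) (hA : ∃ a : D, Nonempty (GC.A ≅ G.obj a))
    (FN : Fus K C' ι') : ∃ deg' : ι' → Q, ∀ (j : ι') (x : C) (q : Q), Deg FC deg x q →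
      ((∃ f : VC.obj x ⟶ FN.S j, f ≠ 0) → deg' j = q) ∧ ((∃ f : FN.S j ⟶ VC.obj x, f ≠ 0) → deg' j = q) := by
  have h0 : ∀ j : ι', ∃ (k : ιC) (f : VC.obj (FC.S k) ⟶ FN.S j), f ≠ 0 := fun j =>
    galG_ne' GC FC (FN.one_ne j)
  choose k f hf using h0
  have key : ∀ (j : ι') (x : C) (q : Q), Deg FC deg x q →
      (∃ f : VC.obj x ⟶ FN.S j, f ≠ 0) → deg (k j) = q := by
    rintro j x q hx ⟨g, hg⟩
    obtain ⟨i, t, ht, htg⟩ := X2G_comp (FC := FC) GC hg
    obtain ⟨s, hs⟩ := exists_section FN (hf j)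
    have h1 : (VC.map t ≫ g) ≫ s ≠ 0 := by
      intro h2
      apply htg
      have h3 : VC.map t ≫ g = ((VC.map t ≫ g) ≫ s) ≫ f j := by
        rw [Category.assoc, hs, Category.comp_id]
      rw [h3, h2, Limits.zero_comp]
    rw [← X2G_VV h GC hA h1, hx i t ht]
  refine ⟨fun j => deg (k j), fun j x q hx => ⟨key j x q hx, ?_⟩⟩
  rintro ⟨g, hg⟩
  obtain ⟨g', hg'⟩ := exists_retract FN hg
  refine key j x q hx ⟨g', fun h1 => FN.one_ne j ?_⟩
  rw [← hg', h1, Limits.comp_zero]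

end

section

variable {K : Type w} [Field K] {C : Type u} [Category.{v} C] [Preadditive C] [Linear K C] [MonoidalCategory C]
  [MonoidalPreadditive C] [MonoidalLinear K C] {D : Type u'} [Category.{v'} D] [Preadditive D] [Linear K D]
  [MonoidalCategory D] [MonoidalPreadditive D] [MonoidalLinear K D] {G : D ⥤ C} [G.Monoidal] {ιC : Type} [Fintype ιC]
  [DecidableEq ιC] {FC : Fus K C ιC} {Q : Type} [Group Q] {deg : ιC → Q}
  {C' : Type*} [Category* C'] [Preadditive C'] [Linear K C'] [MonoidalCategory C'] [MonoidalPreadditive C']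
  [MonoidalLinear K C'] {VC : C ⥤ C'} [VC.LaxMonoidal] [VC.OplaxMonoidal] {H : Type} [Group H] [Fintype H]
  {D' : Type*} [Category* D'] [Preadditive D'] [Linear K D'] [MonoidalCategory D'] [MonoidalPreadditive D']
  [MonoidalLinear K D'] {VD : D ⥤ D'} [VD.LaxMonoidal] [VD.OplaxMonoidal] [IsIdempotentComplete D'] {G' : D' ⥤ C'}
  [G'.Monoidal] {ι' : Type} [Fintype ι'] [DecidableEq ι']

theorem ext_galG (h : IsExt K G FC Q deg) (GD : GalFG K VD H) (GC : GalFG K VC H)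
    (hA : ∃ a : D, Nonempty (GC.A ≅ G.obj a)) (hfull : G'.Full) (hfaith : G'.Faithful)
    (hadd : ∀ {x y : D'} (f g : x ⟶ y), G'.map (f + g) = G'.map f + G'.map g)
    (hsmul : ∀ {x y : D'} (c : K) (f : x ⟶ y), G'.map (c • f) = c • G'.map f)
    (e : ∀ y : D, Nonempty (G'.obj (VD.obj y) ≅ VC.obj (G.obj y))) (FN : Fus K C' ι') :
    ∃ deg' : ι' → Q, IsExt K G' FN Q deg' := by
  obtain ⟨deg', hd⟩ := exists_degG h GC hA FN
  have hret : ∀ j : ι', ∃ (k : ιC) (i : FN.S j ⟶ VC.obj (FC.S k)) (g : VC.obj (FC.S k) ⟶ FN.S j),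
      i ≫ g = 𝟙 _ ∧ deg' j = deg k := by
    intro j
    obtain ⟨k, i, hi⟩ := galG_ne GC FC (FN.one_ne j)
    obtain ⟨g, hg⟩ := exists_retract FN hi
    exact ⟨k, i, g, hg, (hd j (FC.S k) (deg k) (deg_S FC deg k)).2 ⟨i, hi⟩⟩
  have hA1 : Deg FC deg GC.A 1 := by
    obtain ⟨a, ⟨ea⟩⟩ := hA
    exact deg_iso ea.symm (fun i f hf => h.one a i f hf)
  refine ⟨deg', hfull, hfaith, hadd, hsmul, ?_, ?_, ?_, ?_⟩
  · rintro a b c ⟨f, hf⟩
    obtain ⟨k, i, g, hg, hk⟩ := hret a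
    obtain ⟨l, i', g', hg', hl⟩ := hret b
    obtain ⟨e1⟩ := GC.VV (FC.S k) (FC.S l)
    have h1 : f ≫ (i ⊗ₘ i') ≫ e1.hom ≠ 0 := by
      intro h0
      apply hf
      have h2 : f = (f ≫ (i ⊗ₘ i') ≫ e1.hom) ≫ e1.inv ≫ (g ⊗ₘ g') := by
        simp only [Category.assoc, Iso.hom_inv_id_assoc]
        rw [MonoidalCategory.tensorHom_comp_tensorHom, hg, hg', MonoidalCategory.id_tensorHom_id, Category.comp_id]
      rw [h2, h0, Limits.zero_comp]
    have h3 := (hd c _ _ (deg_tensor h (deg_S FC deg k) (deg_tensor h hA1 (deg_S FC deg l)))).2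
      ⟨_, h1⟩
    rw [h3, one_mul, hk, hl]
  · intro q
    obtain ⟨k, hk⟩ := h.surj q
    have h1 : 𝟙 (VC.obj (FC.S k)) ≠ 0 := by
      intro h0
      apply FC.one_ne k
      apply GC.faithful.map_injective
      rw [VC.map_id, h0]
      exact (map_zero (AddMonoidHom.mk' (fun g : FC.S k ⟶ FC.S k => VC.map g) (fun g h => GC.map_add g h))).symm
    obtain ⟨m, f, hf⟩ := exists_ne_zero FN h1
    exact ⟨m, by rw [(hd m (FC.S k) (deg k) (deg_S FC deg k)).2 ⟨f, hf⟩, hk]⟩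
  · intro j hj
    obtain ⟨k, i, g, hg, hk⟩ := hret j
    obtain ⟨y, ⟨ey⟩⟩ := h.img k (by rw [← hk, hj])
    obtain ⟨e1⟩ := e y
    obtain ⟨i2, g2, h2⟩ : ∃ (i2 : FN.S j ⟶ G'.obj (VD.obj y)) (g2 : G'.obj (VD.obj y) ⟶ FN.S j),
        i2 ≫ g2 = 𝟙 _ := by
      refine ⟨i ≫ VC.map ey.hom ≫ e1.inv, e1.hom ≫ VC.map ey.inv ≫ g, ?_⟩
      simp only [Category.assoc, Iso.inv_hom_id_assoc]
      rw [← Functor.map_comp_assoc, Iso.hom_inv_id, VC.map_id, Category.id_comp, hg]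
    obtain ⟨e0, he0⟩ := hfull.map_surjective (g2 ≫ i2)
    have he : e0 ≫ e0 = e0 := by
      apply hfaith.map_injective
      rw [G'.map_comp, he0, Category.assoc, reassoc_of% h2]
    obtain ⟨Y, i1, e1', h3, h4⟩ := IsIdempotentComplete.idempotents_split _ e0 he
    refine ⟨Y, ⟨⟨i2 ≫ G'.map e1', G'.map i1 ≫ g2, ?_, ?_⟩⟩⟩
    · rw [Category.assoc, ← Functor.map_comp_assoc, h4, he0, Category.assoc, h2, Category.comp_id, h2]
    · have h5 : (G'.map i1 ≫ g2) ≫ i2 ≫ G'.map e1' = G'.map i1 ≫ (g2 ≫ i2) ≫ G'.map e1' := by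
        simp only [Category.assoc]
      rw [h5, ← he0, ← G'.map_comp, ← G'.map_comp, ← h4, Category.assoc, h3, Category.comp_id, h3, G'.map_id]
  · intro y i f hf
    obtain ⟨x, j, p, hjp⟩ := GD.retr y
    obtain ⟨e1⟩ := e x
    have h1 : f ≫ G'.map j ≫ e1.hom ≠ 0 := by
      intro h0
      apply hf
      have h2 : f = (f ≫ G'.map j ≫ e1.hom) ≫ e1.inv ≫ G'.map p := by
        simp only [Category.assoc, Iso.hom_inv_id_assoc]
        rw [← G'.map_comp, hjp, G'.map_id, Category.comp_id]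
      rw [h2, h0, Limits.zero_comp]
    exact (hd i (G.obj x) 1 (fun i f hf => h.one x i f hf)).2 ⟨_, h1⟩

end

end Pool.Agent.SFC
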