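import Pool.Agent.SFH.Conv
import Pool.Agent.SFH.X2G
import Pool.Agent.SFH.Gfa
import Pool.Agent.SFH.GalB
import Pool.Agent.SFH.PZ
import Pool.Agent.SFC.HL
import Pool.Agent.SFC.RedA

/-! # SFH/ZGen: the parts of the general version (imports) -/
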